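import Mathlib

/-! # JE: functions on a level set, and the end of the proof -/

set_option autoImplicit false
set_option linter.unusedSectionVars false
set_option linter.unusedVariables false

open Filter Topology Set
open scoped ContDiff

namespace Pool.Agent.Helper77.JE

variable {E : Type*} [NormedAddCommGroup E] [InnerProductSpace ℝ E] [FiniteDimensional ℝ E]

/-- piece `JE-Q0`: `IsLocalExtrOn.exists_multipliers_of_hasStrictFDerivAt_1d` -/
theorem lagrange {ρ f : E → ℝ} {z : E} (hρ : ContDiffAt ℝ 1 ρ z) (hf : ContDiffAt ℝ 1 f z)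
    (hz : ρ z = 0) (hr : fderiv ℝ ρ z ≠ 0) {H : ℝ} (hc : ∀ᶠ y in 𝓝 z, ρ y = 0 → f y = H) {w : E}
    (hw : fderiv ℝ ρ z w = 0) : fderiv ℝ f z w = 0 := by
  have : CompleteSpace E := FiniteDimensional.complete ℝ E
  have h1 : HasStrictFDerivAt ρ (fderiv ℝ ρ z) z := hρ.hasStrictFDerivAt one_ne_zero
  have h2 : HasStrictFDerivAt f (fderiv ℝ f z) z := hf.hasStrictFDerivAt one_ne_zero
  have hfz : f z = H := hc.self_of_nhds hz
  have hext : IsLocalExtrOn f {x | ρ x = ρ z} z := by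
    refine Or.inr ?_
    show ∀ᶠ y in 𝓝[{x | ρ x = ρ z}] z, f y ≤ f z
    rw [eventually_nhdsWithin_iff]
    filter_upwards [hc] with y hy hyz
    have h3 : ρ y = ρ z := hyz
    rw [hy (h3.trans hz), hfz]
  obtain ⟨a, b, hab, h3⟩ := hext.exists_multipliers_of_hasStrictFDerivAt_1d h1 h2
  have hb : b ≠ 0 := by
    intro hb
    rw [hb, zero_smul, add_zero] at h3
    rcases smul_eq_zero.1 h3 with h4 | h4
    · exact hab (by rw [h4, hb]; rfl)
    · exact hr h4
  have h4 := congrArg (fun L : E →L[ℝ] ℝ => L w) h3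
  simp only [add_apply, smul_apply, hw, smul_zero, zero_add,
    zero_apply] at h4
  rcases smul_eq_zero.1 h4 with h5 | h5
  · exact absurd h5 hb
  · exact h5

private lemma loc_const {E' : Type*} [NormedAddCommGroup E'] [NormedSpace ℝ E'] {O : Set E}
    (hO : IsOpen O) {ρ : E → ℝ} (hρ : ContDiffOn ℝ 1 ρ O)
    (hr : ∀ z ∈ O, ρ z = 0 → fderiv ℝ ρ z ≠ 0)
    {f : E → E'} (hf : ContDiffOn ℝ 1 f O)
    (hd : ∀ z ∈ O, ρ z = 0 → ∀ w, fderiv ℝ ρ z w = 0 → fderiv ℝ f z w = 0) {z₀ : E} (hz₀ : z₀ ∈ O)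
    (h0 : ρ z₀ = 0) : ∀ᶠ y in 𝓝 z₀, ρ y = 0 → f y = f z₀ := by
  have : CompleteSpace E := FiniteDimensional.complete ℝ E
  obtain ⟨D, hD⟩ : ∃ D, D = fderiv ℝ ρ z₀ := ⟨_, rfl⟩
  obtain ⟨e, he⟩ : ∃ e, D e = 1 := by
    have h1 : D ≠ 0 := hD ▸ hr z₀ hz₀ h0
    obtain ⟨v, hv⟩ : ∃ v, D v ≠ 0 := by
      by_contra hcon
      push Not at hcon
      exact h1 (ContinuousLinearMap.ext hcon)
    exact ⟨(D v)⁻¹ • v, by rw [map_smul, smul_eq_mul, inv_mul_cancel₀ hv]⟩
  have hρ0 : ContDiffAt ℝ 1 ρ z₀ := hρ.contDiffAt (hO.mem_nhds hz₀)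
  obtain ⟨Ψ, hΨ⟩ : ∃ Ψ : E → E, Ψ = fun z => (z - z₀) - D (z - z₀) • e + ρ z • e := ⟨_, rfl⟩
  have hΨc : ContDiffAt ℝ 1 Ψ z₀ := by
    rw [hΨ]
    exact ((contDiffAt_id.sub contDiffAt_const).sub
      ((D.contDiff.contDiffAt.comp z₀ (contDiffAt_id.sub contDiffAt_const)).smul contDiffAt_const)).add
      (hρ0.smul contDiffAt_const)
  have hρd : HasFDerivAt ρ D z₀ := by
    rw [hD]
    exact (hρ0.differentiableAt (by norm_num)).hasFDerivAt
  have hΨd : HasFDerivAt Ψ ((ContinuousLinearEquiv.refl ℝ E : E ≃L[ℝ] E) : E →L[ℝ] E) z₀ := by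
    have h1 : HasFDerivAt Ψ ((ContinuousLinearMap.id ℝ E - D.smulRight e) + D.smulRight e) z₀ := by
      rw [hΨ]
      refine HasFDerivAt.add (HasFDerivAt.sub ((hasFDerivAt_id z₀).sub_const z₀) ?_) (hρd.smul_const e)
      have h2 : HasFDerivAt (fun z => D (z - z₀)) D z₀ := by
        have h3 := D.hasFDerivAt.comp z₀ ((hasFDerivAt_id z₀).sub_const z₀)
        rwa [ContinuousLinearMap.comp_id] at h3
      exact h2.smul_const e
    rwa [sub_add_cancel] at h1
  have hΨρ : ∀ z, D (Ψ z) = ρ z := fun z => by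
    rw [hΨ]
    simp only [map_add, map_sub, map_smul, smul_eq_mul, he]
    ring
  have hΨ0 : Ψ z₀ = 0 := by
    rw [hΨ]
    simp [h0]
  obtain ⟨φ, hφ⟩ : ∃ φ, φ = hΨc.toOpenPartialHomeomorph Ψ hΨd (by norm_num) := ⟨_, rfl⟩
  have hφc : ∀ z, φ z = Ψ z := fun z => by
    rw [hφ, ContDiffAt.toOpenPartialHomeomorph_coe]
  have hsrc : z₀ ∈ φ.source := by
    rw [hφ]
    exact hΨc.mem_toOpenPartialHomeomorph_source hΨd (by norm_num)
  have hsym0 : φ.symm 0 = z₀ := by
    have h1 := φ.left_inv hsrc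
    rwa [hφc, hΨ0] at h1
  have htgt : (0 : E) ∈ φ.target := by
    have h1 := φ.map_source hsrc
    rwa [hφc, hΨ0] at h1
  have hG : ContDiffAt ℝ 1 φ.symm 0 := by
    have h1 := φ.contDiffAt_symm (n := 1) (f₀' := ContinuousLinearEquiv.refl ℝ E) (a := 0) htgt
      (by rw [hsym0]; exact hΨd.congr_of_eventuallyEq (Eventually.of_forall hφc))
      (by rw [hsym0]; exact hΨc.congr_of_eventuallyEq (Eventually.of_forall hφc))
    exact h1
  have hGe : ∀ᶠ y in 𝓝 (0 : E), y ∈ φ.target ∧ φ.symm y ∈ O ∧ ContDiffAt ℝ 1 φ.symm y := by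
    refine (φ.open_target.eventually_mem htgt).and (Eventually.and ?_ (hG.eventually (by simp)))
    have h1 : ContinuousAt φ.symm 0 := hG.continuousAt
    have h2 : O ∈ 𝓝 (φ.symm 0) := by
      rw [hsym0]
      exact hO.mem_nhds hz₀
    exact h1.eventually_mem h2
  obtain ⟨δ, hδ, hball⟩ := Metric.eventually_nhds_iff_ball.1 hGe
  have hΨcont : ContinuousAt Ψ z₀ := hΨc.continuousAt
  have hev : ∀ᶠ y in 𝓝 z₀, y ∈ φ.source ∧ Ψ y ∈ Metric.ball (0 : E) δ := by
    refine (φ.open_source.eventually_mem hsrc).and (hΨcont.eventually_mem ?_)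
    rw [hΨ0]
    exact Metric.ball_mem_nhds _ hδ
  filter_upwards [hev] with y hy hy0
  obtain ⟨hys, hyb⟩ := hy
  set η := Ψ y with hη
  have hDη : D η = 0 := by rw [hη, hΨρ, hy0]
  have hin : ∀ t : ℝ, t ∈ Icc (0 : ℝ) 1 → t • η ∈ Metric.ball (0 : E) δ := by
    intro t ht
    rw [mem_ball_zero_iff] at hyb ⊢
    rw [norm_smul, Real.norm_eq_abs, abs_of_nonneg ht.1]
    calc t * ‖η‖ ≤ 1 * ‖η‖ := mul_le_mul_of_nonneg_right ht.2 (norm_nonneg _)
      _ < δ := by rwa [one_mul]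
  have hzero : ∀ t : ℝ, t • η ∈ Metric.ball (0 : E) δ → ρ (φ.symm (t • η)) = 0 := by
    intro t ht
    rw [← hΨρ, ← hφc, φ.right_inv (hball _ ht).1, map_smul, hDη, smul_zero]
  have hder : ∀ t ∈ Icc (0 : ℝ) 1, HasDerivAt (fun t : ℝ => f (φ.symm (t • η))) 0 t := by
    intro t ht
    obtain ⟨-, b2, b3⟩ := hball _ (hin t ht)
    have g1 : HasDerivAt (fun t : ℝ => t • η) η t := by
      have := (hasDerivAt_id t).smul_const η
      rwa [one_smul] at this
    have g2 : HasFDerivAt φ.symm (fderiv ℝ φ.symm (t • η)) (t • η) :=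
      (b3.differentiableAt (by norm_num)).hasFDerivAt
    have g3 := g2.comp_hasDerivAt t g1
    have g4 : HasFDerivAt ρ (fderiv ℝ ρ (φ.symm (t • η))) (φ.symm (t • η)) :=
      ((hρ.contDiffAt (hO.mem_nhds b2)).differentiableAt (by norm_num)).hasFDerivAt
    have g5 : HasFDerivAt f (fderiv ℝ f (φ.symm (t • η))) (φ.symm (t • η)) :=
      ((hf.contDiffAt (hO.mem_nhds b2)).differentiableAt (by norm_num)).hasFDerivAt
    have g6 := g4.comp_hasDerivAt t g3
    have g7 := g5.comp_hasDerivAt t g3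
    have g8 : fderiv ℝ ρ (φ.symm (t • η)) (fderiv ℝ φ.symm (t • η) η) = 0 := by
      refine g6.unique ?_
      have g9 : HasDerivAt (fun _ : ℝ => (0 : ℝ)) 0 t := hasDerivAt_const t 0
      refine g9.congr_of_eventuallyEq ?_
      have g10 : ∀ᶠ s in 𝓝 t, s • η ∈ Metric.ball (0 : E) δ :=
        g1.continuousAt.eventually_mem (Metric.isOpen_ball.mem_nhds (hin t ht))
      filter_upwards [g10] with s hs
      exact hzero s hs
    rw [hd _ b2 (hzero t (hin t ht)) _ g8] at g7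
    exact g7
  have hconst := constant_of_has_deriv_right_zero (f := fun t : ℝ => f (φ.symm (t • η))) (a := 0) (b := 1)
    (fun t ht => (hder t ht).continuousAt.continuousWithinAt)
    (fun t ht => (hder t ⟨ht.1, ht.2.le⟩).hasDerivWithinAt) 1 ⟨zero_le_one, le_rfl⟩
  simp only [one_smul, zero_smul] at hconst
  rw [hsym0] at hconst
  have h1 : φ.symm η = y := by
    rw [hη, ← hφc]
    exact φ.left_inv hys
  rw [h1] at hconst
  exact hconst

/-- piece `JE-Q1`. Proof. Locally constant: for `z₀` in the level let `e` be a unit vector with `dρ(z₀) e > 0` and `P` the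
projection on the orthogonal complement of `e`; the map `Ψ z = P (z - z₀) + ρ z • e` has a local inverse of class `C¹` near `0`
(inverse function theorem), `Ψ⁻¹ (y)` for `y ⟂ e` small is in the level, and `t ↦ f (Ψ⁻¹ (t y))` has derivative zero because the
derivative `w` of `Ψ⁻¹` in the direction `y` satisfies `dρ w = 0` (`D Ψ w = y`). Then connectedness. -/
theorem const_on_level {E' : Type*} [NormedAddCommGroup E'] [NormedSpace ℝ E'] {O : Set E}
    (hO : IsOpen O) {ρ : E → ℝ} (hρ : ContDiffOn ℝ 1 ρ O)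
    (hr : ∀ z ∈ O, ρ z = 0 → fderiv ℝ ρ z ≠ 0)
    {f : E → E'} (hf : ContDiffOn ℝ 1 f O)
    (hd : ∀ z ∈ O, ρ z = 0 → ∀ w, fderiv ℝ ρ z w = 0 → fderiv ℝ f z w = 0)
    (hcon : IsPreconnected {z | z ∈ O ∧ ρ z = 0}) :
    ∀ z ∈ O, ρ z = 0 → ∀ y ∈ O, ρ y = 0 → f z = f y := by
  intro z hz hz0 y hy hy0
  have : PreconnectedSpace {z | z ∈ O ∧ ρ z = 0} := Subtype.preconnectedSpace hcon
  have hl : IsLocallyConstant fun p : {z | z ∈ O ∧ ρ z = 0} => f p.1 := by
    rw [IsLocallyConstant.iff_eventually_eq]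
    rintro ⟨x, hx, hx0⟩
    have h1 := loc_const hO hρ hr hf hd hx hx0
    have h2 : Tendsto (fun p : {z | z ∈ O ∧ ρ z = 0} => p.1) (𝓝 ⟨x, hx, hx0⟩) (𝓝 x) :=
      continuous_subtype_val.continuousAt
    filter_upwards [h2.eventually h1] with p hp
    exact hp p.2.2
  exact hl.apply_eq_of_preconnectedSpace ⟨z, hz, hz0⟩ ⟨y, hy, hy0⟩

/-- piece `JE-Q2`. Proof. `γ s = z₁ + s (z - z₁)` with `q z₁ < 0`. (1) If `ρ z < 0 < q z` or `ρ z < 0 = q z`: by convexity
`q (γ s) > 0` for `s > 1`; for some `s > 1` the norm of `γ s` is between `R` and `1` (intermediate value; the ball is convex so the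
segment from `z` to `γ s` is in it), there `ρ > 0`, so `ρ` has a zero on the open segment, where `q > 0`, contradiction.
(2) If `q z < 0`: the segment from a point with `ρ < 0` (there `q < 0` by (1)) to `z` is in `q < 0` (convexity), `ρ ≠ 0` on it, so
`ρ z < 0`. (3) If `q z = 0`: `ρ z ≥ 0` by (1), and `q (γ s) < 0` for `s < 1` close to `1`, so `ρ z ≤ 0` by (2) and continuity. -/
theorem set_eq {ρ q : E → ℝ} (hρ : ContinuousOn ρ (Metric.ball 0 1))
    (hbd : ∃ R : ℝ, R < 1 ∧ ∀ z ∈ Metric.ball (0 : E) 1, ρ z ≤ 0 → ‖z‖ ≤ R)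
    (hne : ∃ z ∈ Metric.ball (0 : E) 1, ρ z < 0) (hq : ConvexOn ℝ Set.univ q)
    (hqc : Continuous q) {z₁ : E} (hz₁ : z₁ ∈ Metric.ball (0 : E) 1) (hq₁ : q z₁ < 0)
    (h : ∀ z ∈ Metric.ball (0 : E) 1, ρ z = 0 → q z = 0) :
    ∀ z ∈ Metric.ball (0 : E) 1, (ρ z < 0 ↔ q z < 0) ∧ (ρ z = 0 ↔ q z = 0) := by
  obtain ⟨R, hR1, hR⟩ := hbd
  obtain ⟨z₀, hz₀, hρ₀⟩ := hne
  have hcb : Convex ℝ (Metric.ball (0 : E) 1) := convex_ball 0 1
  -- step 1
  have step1 : ∀ z ∈ Metric.ball (0 : E) 1, ρ z < 0 → q z < 0 := by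
    intro z hz hρz
    by_contra hqz
    rw [not_lt] at hqz
    have hne : z - z₁ ≠ 0 := by
      intro h0
      rw [sub_eq_zero.1 h0] at hqz
      linarith
    have hnpos : 0 < ‖z - z₁‖ := norm_pos_iff.2 hne
    obtain ⟨γ, hγ⟩ : ∃ γ : ℝ → E, γ = fun s => z₁ + s • (z - z₁) := ⟨_, rfl⟩
    have hγc : Continuous γ := by
      rw [hγ]
      exact continuous_const.add (continuous_id.smul continuous_const)
    have hγ1 : γ 1 = z := by
      rw [hγ]
      simp
    have hqγ : ∀ s : ℝ, 1 < s → 0 < q (γ s) := by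
      intro s hs
      have hs0 : 0 < s := by linarith
      have h1 := hq.2 (Set.mem_univ z₁) (Set.mem_univ (γ s))
        (show (0 : ℝ) ≤ 1 - 1 / s by rw [sub_nonneg, div_le_one hs0]; exact hs.le)
        (show (0 : ℝ) ≤ 1 / s by positivity) (by ring)
      have h2 : (1 - 1 / s) • z₁ + (1 / s) • γ s = z := by
        rw [hγ]
        simp only
        rw [smul_add, smul_smul, one_div, inv_mul_cancel₀ hs0.ne', one_smul, sub_smul, one_smul]
        abel
      rw [h2, smul_eq_mul, smul_eq_mul] at h1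
      have h3 : 0 < (1 - 1 / s) * (-q z₁) := by
        refine mul_pos ?_ (by linarith)
        rw [sub_pos, div_lt_one hs0]
        exact hs
      have h4 : 0 < 1 / s * q (γ s) := by linarith
      exact (pos_iff_pos_of_mul_pos h4).1 (by positivity)
    rw [mem_ball_zero_iff] at hz
    obtain ⟨r, hr1, hr2⟩ : ∃ r, max R ‖z‖ < r ∧ r < 1 := exists_between (max_lt hR1 hz)
    have hrR : R < r := (le_max_left _ _).trans_lt hr1
    have hrz : ‖z‖ < r := (le_max_right _ _).trans_lt hr1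
    -- a large parameter
    obtain ⟨S, hS⟩ : ∃ S : ℝ, S = 1 + (1 + ‖z₁‖ + r) / ‖z - z₁‖ := ⟨_, rfl⟩
    have hS1 : 1 ≤ S := by
      rw [hS]
      have : 0 ≤ (1 + ‖z₁‖ + r) / ‖z - z₁‖ := by
        have := norm_nonneg z₁
        have : 0 ≤ r := (norm_nonneg z).trans hrz.le
        positivity
      linarith
    have hSn : r ≤ ‖γ S‖ := by
      rw [hγ]
      have h1 : ‖S • (z - z₁)‖ - ‖z₁‖ ≤ ‖z₁ + S • (z - z₁)‖ := by
        have := norm_sub_norm_le (S • (z - z₁)) (-z₁)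
        rw [norm_neg, sub_neg_eq_add, add_comm (S • (z - z₁))] at this
        exact this
      have h2 : ‖S • (z - z₁)‖ = S * ‖z - z₁‖ := by
        rw [norm_smul, Real.norm_eq_abs, abs_of_nonneg (by linarith)]
      have h3 : S * ‖z - z₁‖ = ‖z - z₁‖ + (1 + ‖z₁‖ + r) := by
        rw [hS, add_mul, one_mul, div_mul_cancel₀ _ hnpos.ne']
      show r ≤ ‖z₁ + S • (z - z₁)‖
      linarith
    obtain ⟨s, hs, hsr⟩ := intermediate_value_Icc hS1 (hγc.norm.continuousOn)
      (show r ∈ Set.Icc ‖γ 1‖ ‖γ S‖ from ⟨by rw [hγ1]; exact hrz.le, hSn⟩)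
    have hsr' : ‖γ s‖ = r := hsr
    have hs1 : 1 < s := by
      rcases hs.1.eq_or_lt with h1 | h1
      · rw [← h1, hγ1] at hsr'
        linarith
      · exact h1
    have hρs : 0 < ρ (γ s) := by
      by_contra h1
      rw [not_lt] at h1
      have h2 := hR (γ s) (by rw [mem_ball_zero_iff, hsr']; exact hr2) h1
      linarith
    have hin : ∀ t ∈ Set.Icc 1 s, γ t ∈ Metric.ball (0 : E) 1 := by
      intro t ht
      have hs0 : 0 < s - 1 := by linarith
      have h1 : γ t = ((s - t) / (s - 1)) • z + ((t - 1) / (s - 1)) • γ s := by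
        rw [hγ]
        simp only
        have e1 : ((s - t) / (s - 1)) • z = ((s - t) / (s - 1)) • (z₁ + (z - z₁)) := by
          rw [add_sub_cancel]
        rw [e1, smul_add, smul_add, smul_smul]
        have e2 : z₁ = ((s - t) / (s - 1)) • z₁ + ((t - 1) / (s - 1)) • z₁ := by
          rw [← add_smul, ← add_div, show s - t + (t - 1) = s - 1 by ring, div_self hs0.ne', one_smul]
        have e3 : t • (z - z₁) = ((s - t) / (s - 1)) • (z - z₁) + ((t - 1) / (s - 1) * s) • (z - z₁) := by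
          rw [← add_smul]
          congr 1
          field_simp
          ring
        calc z₁ + t • (z - z₁)
            = (((s - t) / (s - 1)) • z₁ + ((t - 1) / (s - 1)) • z₁) +
              (((s - t) / (s - 1)) • (z - z₁) + ((t - 1) / (s - 1) * s) • (z - z₁)) := by
                rw [← e2, ← e3]
          _ = _ := by abel
      rw [h1]
      refine hcb (mem_ball_zero_iff.2 hz) (by rw [mem_ball_zero_iff, hsr']; exact hr2) ?_ ?_ ?_
      · exact div_nonneg (by linarith [ht.2]) hs0.le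
      · exact div_nonneg (by linarith [ht.1]) hs0.le
      · rw [← add_div, show s - t + (t - 1) = s - 1 by ring, div_self hs0.ne']
    obtain ⟨t, ht, htρ⟩ := intermediate_value_Icc hs1.le
      ((hρ.comp hγc.continuousOn hin : ContinuousOn (ρ ∘ γ) (Set.Icc 1 s)))
      (show (0 : ℝ) ∈ Set.Icc ((ρ ∘ γ) 1) ((ρ ∘ γ) s) from ⟨by
        show ρ (γ 1) ≤ 0
        rw [hγ1]
        exact hρz.le, hρs.le⟩)
    have htρ' : ρ (γ t) = 0 := htρ
    have ht1 : 1 < t := by
      rcases ht.1.eq_or_lt with h1 | h1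
      · rw [← h1, hγ1] at htρ'
        linarith
      · exact h1
    have h1 := h (γ t) (hin t ht) htρ'
    have h2 := hqγ t ht1
    linarith
  -- step 2
  have step2 : ∀ z ∈ Metric.ball (0 : E) 1, q z < 0 → ρ z < 0 := by
    intro z hz hqz
    by_contra hρz
    rw [not_lt] at hρz
    have hq₀ := step1 z₀ hz₀ hρ₀
    have hseg : IsPreconnected (segment ℝ z₀ z) := (convex_segment z₀ z).isPreconnected
    have hsub : segment ℝ z₀ z ⊆ Metric.ball (0 : E) 1 := hcb.segment_subset hz₀ hz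
    obtain ⟨t, ht, htρ⟩ := hseg.intermediate_value (left_mem_segment ℝ z₀ z) (right_mem_segment ℝ z₀ z)
      (hρ.mono hsub) (show (0 : ℝ) ∈ Set.Icc (ρ z₀) (ρ z) from ⟨hρ₀.le, hρz⟩)
    have h1 := h t (hsub ht) htρ
    have h2 : q t ≤ max (q z₀) (q z) := hq.le_max_of_mem_segment (Set.mem_univ _) (Set.mem_univ _) ht
    have h3 : max (q z₀) (q z) < 0 := max_lt hq₀ hqz
    linarith
  -- step 3
  have step3 : ∀ z ∈ Metric.ball (0 : E) 1, q z = 0 → ρ z = 0 := by
    intro z hz hqz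
    refine le_antisymm ?_ ?_
    · have hγc : Continuous fun s : ℝ => (1 - s) • z₁ + s • z :=
        ((continuous_const.sub continuous_id).smul continuous_const).add (continuous_id.smul continuous_const)
      have hin : ∀ s ∈ Set.Ico (0 : ℝ) 1, (1 - s) • z₁ + s • z ∈ Metric.ball (0 : E) 1 := fun s hs =>
        hcb hz₁ hz (by linarith [hs.2]) hs.1 (by ring)
      have h1 : ∀ s ∈ Set.Ico (0 : ℝ) 1, ρ ((1 - s) • z₁ + s • z) < 0 := by
        intro s hs
        refine step2 _ (hin s hs) ?_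
        have h2 := hq.2 (Set.mem_univ z₁) (Set.mem_univ z) (show (0 : ℝ) ≤ 1 - s by linarith [hs.2]) hs.1
          (by ring)
        rw [hqz, smul_zero, add_zero, smul_eq_mul] at h2
        have h3 : (1 - s) * q z₁ < 0 := mul_neg_of_pos_of_neg (by linarith [hs.2]) hq₁
        linarith
      have h2 : Tendsto (fun s : ℝ => (1 - s) • z₁ + s • z) (𝓝[Set.Ico 0 1] 1)
          (𝓝[Metric.ball (0 : E) 1] z) := by
        refine tendsto_nhdsWithin_iff.2 ⟨?_, ?_⟩
        · have h3 := hγc.tendsto 1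
          simp only [sub_self, zero_smul, one_smul, zero_add] at h3
          exact h3.mono_left nhdsWithin_le_nhds
        · filter_upwards [self_mem_nhdsWithin] with s hs using hin s hs
      have h3 : Tendsto (fun s : ℝ => ρ ((1 - s) • z₁ + s • z)) (𝓝[Set.Ico 0 1] 1) (𝓝 (ρ z)) :=
        ((hρ z hz).tendsto).comp h2
      have hnb : (𝓝[Set.Ico (0 : ℝ) 1] 1).NeBot := by
        rw [← mem_closure_iff_nhdsWithin_neBot, closure_Ico (by norm_num : (0 : ℝ) ≠ 1)]
        exact ⟨zero_le_one, le_rfl⟩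
      refine le_of_tendsto h3 ?_
      filter_upwards [self_mem_nhdsWithin] with s hs using (h1 s hs).le
    · by_contra h1
      rw [not_le] at h1
      have := step1 z hz h1
      linarith
  exact fun z hz => ⟨⟨step1 z hz, step2 z hz⟩, ⟨h z hz, step3 z hz⟩⟩

end Pool.Agent.Helper77.JE
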