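import Mathlib

/-! # JE: polynomial inequalities -/

set_option autoImplicit false
set_option maxRecDepth 8000

namespace Pool.Agent.Helper77.JE

private noncomputable def q1 (E a k : ℝ) : ℝ :=
      (((E ^ 0 * k ^ 0 * (3 / 500 + 9 / 50 * a + 6 * a ^ 3) + E ^ 0 * k ^ 1 * (3 / 500 + 9 / 50 *
      a + 9 / 5 * a ^ 2 + 6 * a ^ 3) + E ^ 0 * k ^ 2 * (3 / 2000 + 9 / 200 * a + 9 / 20 * a ^ 2 +
      3 / 2 * a ^ 3) + E ^ 1 * k ^ 0 * (18 / 125 + 3 / 25 * a + 3 / 5 * a ^ 2 + 48 / 25 * a ^ 3))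
      + ((E ^ 1 * k ^ 1 * (63 / 500 + 273 / 100 * a + 84 / 5 * a ^ 2 + 21 * a ^ 3) + E ^ 1 * k ^
      2 * (27 / 1000 + 117 / 200 * a + 18 / 5 * a ^ 2 + 9 / 2 * a ^ 3)) + (E ^ 2 * k ^ 0 * (57 /
      100 + 117 / 10 * a + 171 / 20 * a ^ 2 + 30 * a ^ 3) + E ^ 2 * k ^ 1 * (429 / 1000 + 441 /
      50 * a + 477 / 10 * a ^ 2 + 24 * a ^ 3) + E ^ 2 * k ^ 2 * (159 / 2000 + 327 / 200 * a + 177
      / 20 * a ^ 2 + 9 / 2 * a ^ 3)))) + ((E ^ 3 * k ^ 0 * (213 / 250 + 429 / 25 * a + 438 / 5 *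
      a ^ 2 + 12 * a ^ 3) + E ^ 3 * k ^ 1 * (141 / 250 + 1137 / 100 * a + 291 / 5 * a ^ 2 + 9 * a
      ^ 3) + E ^ 3 * k ^ 2 * (183 / 2000 + 369 / 200 * a + 189 / 20 * a ^ 2 + 3 / 2 * a ^ 3) + E
      ^ 4 * k ^ 0 * (27 / 50 + 54 / 5 * a + 54 * a ^ 2)) + ((E ^ 4 * k ^ 1 * (63 / 200 + 63 / 10
      * a + 63 / 2 * a ^ 2) + E ^ 4 * k ^ 2 * (9 / 200 + 9 / 10 * a + 9 / 2 * a ^ 2)) + (E ^ 5 *
      k ^ 0 * (3 / 25 + 12 / 5 * a + 12 * a ^ 2) + E ^ 5 * k ^ 1 * (3 / 50 + 6 / 5 * a + 6 * a ^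
      2) + E ^ 5 * k ^ 2 * (3 / 400 + 3 / 20 * a + 3 / 4 * a ^ 2)))))

private noncomputable def q2 (E a k y : ℝ) : ℝ :=
      ((((E ^ 0 * k ^ 0 * (((4 / 3125 + 31 / 625 * a + 33 / 125 * y + 128 / 25 * a * y) + (89 /
      125 * a ^ 2 + 72 / 5 * y ^ 2 + 16 * a * y ^ 2 + 128 / 5 * a ^ 2 * y)) + ((112 / 25 * a ^ 3
      + 80 * y ^ 3 + 240 * a ^ 2 * y ^ 2 + 32 * a ^ 3 * y) + (56 / 5 * a ^ 4 + 240 * a ^ 4 * y +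
      16 * a ^ 5 + 80 * a ^ 6))) + E ^ 0 * k ^ 1 * (((6 / 3125 + 93 / 1250 * a + 99 / 250 * y +
      192 / 25 * a * y) + (267 / 250 * a ^ 2 + 108 / 5 * y ^ 2 + 24 * a * y ^ 2 + 192 / 5 * a ^ 2
      * y)) + ((168 / 25 * a ^ 3 + 120 * y ^ 3 + 360 * a ^ 2 * y ^ 2 + 48 * a ^ 3 * y) + (84 / 5
      * a ^ 4 + 360 * a ^ 4 * y + 24 * a ^ 5 + 120 * a ^ 6))) + E ^ 0 * k ^ 2 * (((3 / 3125 + 93
      / 2500 * a + 99 / 500 * y + 96 / 25 * a * y) + (267 / 500 * a ^ 2 + 54 / 5 * y ^ 2 + 12 * a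
      * y ^ 2 + 96 / 5 * a ^ 2 * y)) + ((84 / 25 * a ^ 3 + 60 * y ^ 3 + 180 * a ^ 2 * y ^ 2 + 24
      * a ^ 3 * y) + (42 / 5 * a ^ 4 + 180 * a ^ 4 * y + 12 * a ^ 5 + 60 * a ^ 6)))) + (E ^ 0 * k
      ^ 3 * (((1 / 6250 + 31 / 5000 * a + 33 / 1000 * y + 16 / 25 * a * y) + (89 / 1000 * a ^ 2 +
      9 / 5 * y ^ 2 + 2 * a * y ^ 2 + 16 / 5 * a ^ 2 * y)) + ((14 / 25 * a ^ 3 + 10 * y ^ 3 + 30
      * a ^ 2 * y ^ 2 + 4 * a ^ 3 * y) + (7 / 5 * a ^ 4 + 30 * a ^ 4 * y + 2 * a ^ 5 + 10 * a ^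
      6))) + E ^ 1 * k ^ 0 * (((192 / 3125 + 1128 / 625 * a + 864 / 125 * y) + (2016 / 25 * a * y
      + 2256 / 125 * a ^ 2 + 384 / 5 * y ^ 2)) + ((768 * a * y ^ 2 + 1344 / 5 * a ^ 2 * y + 1824
      / 25 * a ^ 3) + (1536 * a ^ 3 * y + 192 * a ^ 4 + 768 * a ^ 5))) + E ^ 1 * k ^ 1 * (((266 /
      3125 + 3069 / 1250 * a + 479 / 50 * y) + (2683 / 25 * a * y + 5913 / 250 * a ^ 2 + 534 / 5
      * y ^ 2)) + ((1068 * a * y ^ 2 + 1644 / 5 * a ^ 2 * y + 2191 / 25 * a ^ 3) + (2136 * a ^ 3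
      * y + 222 * a ^ 4 + 1068 * a ^ 5))) + E ^ 1 * k ^ 2 * (((122 / 3125 + 1377 / 1250 * a +
      1099 / 250 * y) + (1171 / 25 * a * y + 2529 / 250 * a ^ 2 + 246 / 5 * y ^ 2)) + ((492 * a *
      y ^ 2 + 636 / 5 * a ^ 2 * y + 823 / 25 * a ^ 3) + (984 * a ^ 3 * y + 78 * a ^ 4 + 492 * a ^
      5))))) + ((E ^ 1 * k ^ 3 * (((37 / 6250 + 813 / 5000 * a + 667 / 1000 * y) + (667 / 100 * a
      * y + 1401 / 1000 * a ^ 2 + 15 / 2 * y ^ 2)) + ((75 * a * y ^ 2 + 15 * a ^ 2 * y + 367 /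
      100 * a ^ 3) + (150 * a ^ 3 * y + 15 / 2 * a ^ 4 + 75 * a ^ 5))) + E ^ 2 * k ^ 0 * (((2668
      / 3125 + 9161 / 625 * a + 723 / 25 * y) + (2004 / 25 * a * y + 7807 / 125 * a ^ 2 + 1532 /
      5 * y ^ 2)) + ((464 * a * y ^ 2 + 14712 / 5 * a ^ 2 * y + 6788 / 25 * a ^ 3) + (928 * a ^ 3
      * y + 2636 * a ^ 4 + 464 * a ^ 5))) + E ^ 2 * k ^ 1 * (((674 / 625 + 2423 / 125 * a + 881 /
      25 * y) + (289 * a * y + 2376 / 25 * a ^ 2 + 268 * y ^ 2)) + ((580 * a * y ^ 2 + 3472 * a ^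
      2 * y + 405 * a ^ 3) + (1160 * a ^ 3 * y + 3204 * a ^ 4 + 580 * a ^ 5)))) + (E ^ 2 * k ^ 2
      * (((1404 / 3125 + 4968 / 625 * a + 358 / 25 * y) + (4082 / 25 * a * y + 4596 / 125 * a ^ 2
      + 416 / 5 * y ^ 2)) + ((232 * a * y ^ 2 + 6936 / 5 * a ^ 2 * y + 3754 / 25 * a ^ 3) + (464
      * a ^ 3 * y + 1304 * a ^ 4 + 232 * a ^ 5))) + E ^ 2 * k ^ 3 * (((193 / 3125 + 4803 / 5000 *
      a + 393 / 200 * y) + (1941 / 100 * a * y + 2431 / 1000 * a ^ 2 + 129 / 10 * y ^ 2)) + ((29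
      * a * y ^ 2 + 967 / 5 * a ^ 2 * y + 777 / 100 * a ^ 3) + (58 * a ^ 3 * y + 361 / 2 * a ^ 4
      + 29 * a ^ 5))) + E ^ 3 * k ^ 0 * ((81 / 2500 + 21 / 125 * a + 428 / 5 * y + 1128 * a * y)
      + (231 / 25 * a ^ 2 + 2720 * a ^ 2 * y + 104189 / 50 * a ^ 3 + 2720 * a ^ 4)) + E ^ 3 * k ^
      1 * ((416 / 125 + 593 / 50 * a + 759 / 10 * y + 1067 * a * y) + (253 / 2 * a ^ 2 + 3080 * a
      ^ 2 * y + 3715 * a ^ 3 + 3080 * a ^ 4))))) + (((E ^ 3 * k ^ 2 * ((762 / 625 + 888 / 125 * a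
      + 26 * y + 372 * a * y) + (1718 / 25 * a ^ 2 + 1120 * a ^ 2 * y + 1308 * a ^ 3 + 1120 * a ^
      4)) + E ^ 3 * k ^ 3 * ((7 / 5000 + 9 / 500 * a + 18 / 5 * y + 49 * a * y) + (3 / 50 * a ^ 2
      + 130 * a ^ 2 * y + 786 / 5 * a ^ 3 + 130 * a ^ 4)) + E ^ 4 * k ^ 0 * ((2568 / 625 + 6774 /
      125 * a + 1162 / 25 * y + 2708 / 5 * a * y) + (14902 / 25 * a ^ 2 + 768 * a ^ 2 * y + 23636
      / 5 * a ^ 3 + 768 * a ^ 4))) + (E ^ 4 * k ^ 1 * ((2538 / 625 + 16923 / 250 * a + 1909 / 50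
      * y + 2293 / 5 * a * y) + (36139 / 50 * a ^ 2 + 768 * a ^ 2 * y + 22981 / 5 * a ^ 3 + 768 *
      a ^ 4)) + E ^ 4 * k ^ 2 * ((164 / 125 + 522 / 25 * a + 64 / 5 * y + 152 * a * y) + (224 * a
      ^ 2 + 240 * a ^ 2 * y + 1488 * a ^ 3 + 240 * a ^ 4)) + E ^ 4 * k ^ 3 * ((173 / 1250 + 459 /
      250 * a + 77 / 50 * y + 89 / 5 * a * y) + (1007 / 50 * a ^ 2 + 24 * a ^ 2 * y + 793 / 5 * a
      ^ 3 + 24 * a ^ 4)) + E ^ 5 * k ^ 0 * (304 / 125 + 1824 / 25 * a + 3648 / 5 * a ^ 2 + 2432 *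
      a ^ 3))) + ((E ^ 5 * k ^ 1 * (264 / 125 + 1584 / 25 * a + 3168 / 5 * a ^ 2 + 2112 * a ^ 3)
      + E ^ 5 * k ^ 2 * (3 / 5 + 18 * a + 180 * a ^ 2 + 600 * a ^ 3) + E ^ 5 * k ^ 3 * (7 / 125 +
      42 / 25 * a + 84 / 5 * a ^ 2 + 56 * a ^ 3)) + (E ^ 6 * k ^ 0 * (64 / 125 + 384 / 25 * a +
      768 / 5 * a ^ 2 + 512 * a ^ 3) + E ^ 6 * k ^ 1 * (48 / 125 + 288 / 25 * a + 576 / 5 * a ^ 2
      + 384 * a ^ 3) + E ^ 6 * k ^ 2 * (12 / 125 + 72 / 25 * a + 144 / 5 * a ^ 2 + 96 * a ^ 3) +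
      E ^ 6 * k ^ 3 * (1 / 125 + 6 / 25 * a + 12 / 5 * a ^ 2 + 8 * a ^ 3)))))

private theorem q1_pos {E a k : ℝ} (hE : 0 ≤ E) (ha : 0 ≤ a) (hk : 0 ≤ k) : 0 < q1 E a k := by
  unfold q1
  positivity

private theorem q2_pos {E a k y : ℝ} (hE : 0 ≤ E) (ha : 0 ≤ a) (hk : 0 ≤ k) (hy : 0 ≤ y) :
    0 < q2 E a k y := by
  unfold q2
  positivity

theorem poly1 {E a k : ℝ} (hE : 0 ≤ E) (ha : 0 ≤ a) (hk : 0 ≤ k) (ha2 : a ≤ 9 / 5) :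
    20 * (9 / 5 * a - a * a) ^ 2 * E <
      3 * ((k + 2) / 2 * (1 + E) + E) * (a + 1 / 10) *
        (((k + 2) / 2 * (1 + E) + E + 1) * (a + 1 / 10) * E +
          (k + 2) * ((a + 1 / 10) * E + (a + 1 / 10) * (a + 1 / 10))) * (1 + E) ^ 2 := by
  have key : 3 * ((k + 2) / 2 * (1 + E) + E) * (a + 1 / 10) *
        (((k + 2) / 2 * (1 + E) + E + 1) * (a + 1 / 10) * E +
          (k + 2) * ((a + 1 / 10) * E + (a + 1 / 10) * (a + 1 / 10))) * (1 + E) ^ 2 -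
      20 * (9 / 5 * a - a * a) ^ 2 * E =
      (9 / 5 * (a * (1 - 11 / 2 * E)) ^ 2 + 3 * E * a * (1 - 22 / 5 * a) ^ 2 +
        20 * E * a * a * a * (9 / 5 - a)) + q1 E a k := by
    unfold q1
    ring
  have h1 : 0 ≤ 9 / 5 * (a * (1 - 11 / 2 * E)) ^ 2 + 3 * E * a * (1 - 22 / 5 * a) ^ 2 +
        20 * E * a * a * a * (9 / 5 - a) := by
    have h2 : 0 ≤ 9 / 5 - a := by linarith
    positivity
  have h3 := q1_pos hE ha hk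
  linarith

theorem poly2 {E a k y : ℝ} (hE : 0 ≤ E) (ha : 0 ≤ a) (hk : 0 ≤ k) (hy : 0 ≤ y) :
    5 * (9 * E * E + (k + 2) * (k + 2) *
        ((a + 1 / 10) * (a + 1 / 10) + y + 2 * (a + 1 / 10) * E + E * E)) *
        (9 / 5 * a - a * a - y) * (2 * (((k + 2) / 2 * (1 + E) + E + 1) * (a + 1 / 10) * E +
          (k + 2) * ((a + 1 / 10) * E + ((a + 1 / 10) * (a + 1 / 10) + y)))) +
      (k + 2) * (k + 2) * ((a + 1 / 10) * (a + 1 / 10) + y + 2 * (a + 1 / 10) * E + E * E) *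
        (9 / 5 * a - a * a - y) * E * (16 * ((k + 2) / 2 * (1 + E) + E) * (a + 1 / 10)) <
    ((2 * ((k + 2) / 2 * (1 + E) + E) + 1) * (a + 1 / 10) * E +
          (k + 2) * ((a + 1 / 10) * E + ((a + 1 / 10) * (a + 1 / 10) + y))) *
      (16 * ((k + 2) / 2 * (1 + E) + E) * (a + 1 / 10)) *
      (2 * (((k + 2) / 2 * (1 + E) + E + 1) * (a + 1 / 10) * E +
          (k + 2) * ((a + 1 / 10) * E + ((a + 1 / 10) * (a + 1 / 10) + y)))) * (1 + E) := by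
  have key : ((2 * ((k + 2) / 2 * (1 + E) + E) + 1) * (a + 1 / 10) * E +
          (k + 2) * ((a + 1 / 10) * E + ((a + 1 / 10) * (a + 1 / 10) + y))) *
      (16 * ((k + 2) / 2 * (1 + E) + E) * (a + 1 / 10)) *
      (2 * (((k + 2) / 2 * (1 + E) + E + 1) * (a + 1 / 10) * E +
          (k + 2) * ((a + 1 / 10) * E + ((a + 1 / 10) * (a + 1 / 10) + y)))) * (1 + E) -
      (5 * (9 * E * E + (k + 2) * (k + 2) *
        ((a + 1 / 10) * (a + 1 / 10) + y + 2 * (a + 1 / 10) * E + E * E)) *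
        (9 / 5 * a - a * a - y) * (2 * (((k + 2) / 2 * (1 + E) + E + 1) * (a + 1 / 10) * E +
          (k + 2) * ((a + 1 / 10) * E + ((a + 1 / 10) * (a + 1 / 10) + y)))) +
      (k + 2) * (k + 2) * ((a + 1 / 10) * (a + 1 / 10) + y + 2 * (a + 1 / 10) * E + E * E) *
        (9 / 5 * a - a * a - y) * E * (16 * ((k + 2) / 2 * (1 + E) + E) * (a + 1 / 10))) =
      (E ^ 3 * (59 / 20 * (1 - 10 * a) ^ 2 + 38 * a * (1 - 63 / 10 * a) ^ 2) +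
        E ^ 3 * k ^ 3 * (29 / 200 * (1 - 2 * a) ^ 2 + 9 / 20 * a * (1 - 2 * a) ^ 2)) +
      q2 E a k y := by
    unfold q2
    ring
  have h1 : 0 ≤ E ^ 3 * (59 / 20 * (1 - 10 * a) ^ 2 + 38 * a * (1 - 63 / 10 * a) ^ 2) +
        E ^ 3 * k ^ 3 * (29 / 200 * (1 - 2 * a) ^ 2 + 9 / 20 * a * (1 - 2 * a) ^ 2) := by
    positivity
  have h3 := q2_pos hE ha hk hy
  linarith

end Pool.Agent.Helper77.JE
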