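import Pool.Agent.Helper77.JE.Defs
import Pool.Agent.Helper77.JE.Pol

/-! # JE: positivity of the quadratic form -/

set_option autoImplicit false
set_option linter.unusedSectionVars false
set_option linter.unusedVariables false

namespace Pool.Agent.Helper77.JE

/-- piece `JE-P1`. `A = 𝒜 / M`, `Z = |ζ|² / M`, `w = lam² V / M`, `E = lam² - 1`. -/
theorem pos1 {E A Z w m : ℝ} (hE : 0 < E) (hm : 2 ≤ m) (hw : 0 ≤ w) (hZ : A ^ 2 ≤ E * Z)
    (h : w + (E * Z - A ^ 2) + (A - 1) ^ 2 ≤ 81 / 100) :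
    20 * w ^ 2 < 3 * (m / 2 * (1 + E) + E) * A *
      ((m / 2 * (1 + E) + E + 1) * A + m * (A + Z)) * (1 + E) ^ 2 := by
  have hA : (A - 1) ^ 2 ≤ 81 / 100 := by linarith
  have h1 : 1 / 10 ≤ A := by nlinarith
  have h2 : A ≤ 19 / 10 := by nlinarith
  have hp := poly1 (E := E) (a := A - 1 / 10) (k := m - 2) hE.le (by linarith) (by linarith)
    (by linarith)
  have e1 : m - 2 + 2 = m := by ring
  have e2 : A - 1 / 10 + 1 / 10 = A := by ring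
  rw [e1, e2] at hp
  have h3 : w ≤ 9 / 5 * (A - 1 / 10) - (A - 1 / 10) * (A - 1 / 10) := by nlinarith
  have h4 : w ^ 2 ≤ (9 / 5 * (A - 1 / 10) - (A - 1 / 10) * (A - 1 / 10)) ^ 2 :=
    pow_le_pow_left₀ hw h3 2
  have h5 : 3 * (m / 2 * (1 + E) + E) * A *
        ((m / 2 * (1 + E) + E + 1) * A * E + m * (A * E + A * A)) * (1 + E) ^ 2 ≤
      3 * (m / 2 * (1 + E) + E) * A *
        ((m / 2 * (1 + E) + E + 1) * A * E + m * (A * E + E * Z)) * (1 + E) ^ 2 := by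
    have : A * A ≤ E * Z := by nlinarith
    have hA0 : 0 ≤ A := by linarith
    have hm0 : 0 ≤ m := by linarith
    gcongr
  have h6 : 20 * w ^ 2 * E < (3 * (m / 2 * (1 + E) + E) * A *
      ((m / 2 * (1 + E) + E + 1) * A + m * (A + Z)) * (1 + E) ^ 2) * E := by
    have e3 : (3 * (m / 2 * (1 + E) + E) * A *
      ((m / 2 * (1 + E) + E + 1) * A + m * (A + Z)) * (1 + E) ^ 2) * E =
      3 * (m / 2 * (1 + E) + E) * A *
        ((m / 2 * (1 + E) + E + 1) * A * E + m * (A * E + E * Z)) * (1 + E) ^ 2 := by ring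
    rw [e3]
    have h7 : 20 * w ^ 2 * E ≤
        20 * (9 / 5 * (A - 1 / 10) - (A - 1 / 10) * (A - 1 / 10)) ^ 2 * E := by
      gcongr
    linarith
  exact lt_of_mul_lt_mul_right h6 hE.le

/-- piece `JE-P2` -/
theorem pos2 {E A Z w m : ℝ} (hE : 0 < E) (hm : 2 ≤ m) (hw : 0 ≤ w) (hZ : A ^ 2 ≤ E * Z)
    (h : w + (E * Z - A ^ 2) + (A - 1) ^ 2 ≤ 81 / 100) :
    5 * (9 * E + m ^ 2 * (Z + 2 * A + E)) * w * (2 * ((m / 2 * (1 + E) + E + 1) * A + m * (A + Z))) +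
      m ^ 2 * (Z + 2 * A + E) * w * (16 * (m / 2 * (1 + E) + E) * A) <
    ((2 * (m / 2 * (1 + E) + E) + 1) * A + m * (A + Z)) *
      (16 * (m / 2 * (1 + E) + E) * A) *
      (2 * ((m / 2 * (1 + E) + E + 1) * A + m * (A + Z))) * (1 + E) := by
  have hA : (A - 1) ^ 2 ≤ 81 / 100 := by linarith
  have h1 : 1 / 10 ≤ A := by nlinarith
  have hA0 : 0 ≤ A := by linarith
  have hm0 : 0 ≤ m := by linarith
  have hZ0 : 0 ≤ E * Z := by nlinarith [sq_nonneg A]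
  have hp := poly2 (E := E) (a := A - 1 / 10) (k := m - 2) (y := E * Z - A ^ 2) hE.le
    (by linarith) (by linarith) (by linarith)
  have e1 : m - 2 + 2 = m := by ring
  have e2 : A - 1 / 10 + 1 / 10 = A := by ring
  have e3 : A * A + (E * Z - A ^ 2) = E * Z := by ring
  rw [e1, e2, e3] at hp
  have h3 : w ≤ 9 / 5 * (A - 1 / 10) - (A - 1 / 10) * (A - 1 / 10) - (E * Z - A ^ 2) := by
    nlinarith
  set r := 9 / 5 * (A - 1 / 10) - (A - 1 / 10) * (A - 1 / 10) - (E * Z - A ^ 2) with hr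
  have h4 : (5 * (9 * E * E + m * m * (E * Z + 2 * A * E + E * E)) * w *
        (2 * ((m / 2 * (1 + E) + E + 1) * A * E + m * (A * E + E * Z))) +
      m * m * (E * Z + 2 * A * E + E * E) * w * E * (16 * (m / 2 * (1 + E) + E) * A)) ≤
      (5 * (9 * E * E + m * m * (E * Z + 2 * A * E + E * E)) * r *
        (2 * ((m / 2 * (1 + E) + E + 1) * A * E + m * (A * E + E * Z))) +
      m * m * (E * Z + 2 * A * E + E * E) * r * E * (16 * (m / 2 * (1 + E) + E) * A)) := by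
    gcongr
  have h6 := lt_of_le_of_lt h4 hp
  have h7 : (5 * (9 * E + m ^ 2 * (Z + 2 * A + E)) * w *
        (2 * ((m / 2 * (1 + E) + E + 1) * A + m * (A + Z))) +
      m ^ 2 * (Z + 2 * A + E) * w * (16 * (m / 2 * (1 + E) + E) * A)) * (E * E) <
    (((2 * (m / 2 * (1 + E) + E) + 1) * A + m * (A + Z)) *
      (16 * (m / 2 * (1 + E) + E) * A) *
      (2 * ((m / 2 * (1 + E) + E + 1) * A + m * (A + Z))) * (1 + E)) * (E * E) := by
    have e4 : (5 * (9 * E + m ^ 2 * (Z + 2 * A + E)) * w *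
        (2 * ((m / 2 * (1 + E) + E + 1) * A + m * (A + Z))) +
      m ^ 2 * (Z + 2 * A + E) * w * (16 * (m / 2 * (1 + E) + E) * A)) * (E * E) =
      (5 * (9 * E * E + m * m * (E * Z + 2 * A * E + E * E)) * w *
        (2 * ((m / 2 * (1 + E) + E + 1) * A * E + m * (A * E + E * Z))) +
      m * m * (E * Z + 2 * A * E + E * E) * w * E * (16 * (m / 2 * (1 + E) + E) * A)) := by
      ring
    have e5 : (((2 * (m / 2 * (1 + E) + E) + 1) * A + m * (A + Z)) *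
      (16 * (m / 2 * (1 + E) + E) * A) *
      (2 * ((m / 2 * (1 + E) + E + 1) * A + m * (A + Z))) * (1 + E)) * (E * E) =
      ((2 * (m / 2 * (1 + E) + E) + 1) * A * E + m * (A * E + E * Z)) *
      (16 * (m / 2 * (1 + E) + E) * A) *
      (2 * ((m / 2 * (1 + E) + E + 1) * A * E + m * (A * E + E * Z))) * (1 + E) := by
      ring
    rw [e4, e5]
    exact h6
  exact lt_of_mul_lt_mul_right h7 (mul_self_nonneg E)

section quad

variable {F : Type*} [NormedAddCommGroup F] [InnerProductSpace ℝ F]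

private theorem qp_am {s X Y : ℝ} (hX : 0 ≤ X) (hY : 0 ≤ Y) (h : s ^ 2 ≤ 4 * (X * Y)) :
    |s| ≤ X + Y := by
  refine abs_le_of_sq_le_sq (h.trans ?_) (add_nonneg hX hY)
  nlinarith [sq_nonneg (X - Y)]

private theorem qp_cs {w1 w2 A1 A2 : F} :
    (inner ℝ w1 A1 + inner ℝ w2 A2) ^ 2 ≤ (‖w1‖ ^ 2 + ‖w2‖ ^ 2) * (‖A1‖ ^ 2 + ‖A2‖ ^ 2) := by
  have h1 := abs_real_inner_le_norm w1 A1
  have h2 := abs_real_inner_le_norm w2 A2
  have h3 : |inner ℝ w1 A1 + inner ℝ w2 A2| ≤ ‖w1‖ * ‖A1‖ + ‖w2‖ * ‖A2‖ :=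
    (abs_add_le _ _).trans (add_le_add h1 h2)
  have h4 : (inner ℝ w1 A1 + inner ℝ w2 A2) ^ 2 ≤ (‖w1‖ * ‖A1‖ + ‖w2‖ * ‖A2‖) ^ 2 := by
    rw [← sq_abs]
    exact pow_le_pow_left₀ (abs_nonneg _) h3 2
  refine h4.trans ?_
  nlinarith [sq_nonneg (‖w1‖ * ‖A2‖ - ‖w2‖ * ‖A1‖)]

private theorem qp_norm (x y : ℝ) {v v' : F} (hv : ‖v'‖ = ‖v‖) (hvv : inner ℝ v v' = 0) :
    ‖x • v' + y • v‖ ^ 2 = (x ^ 2 + y ^ 2) * ‖v‖ ^ 2 := by
  have h : inner ℝ v' v = (0 : ℝ) := by rw [real_inner_comm]; exact hvv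
  rw [norm_add_sq_real, norm_smul, norm_smul, inner_smul_left, inner_smul_right, h, mul_pow,
    mul_pow, Real.norm_eq_abs, Real.norm_eq_abs, sq_abs, sq_abs, hv]
  simp
  ring

open Filter Topology in
/-- piece `JE-P3`: from the scalar inequalities (S1), (S2) to the quadratic form. `a = (N₀ + 1) 𝒜 + m lam u`,
`ab = (2 N₀ + 1) 𝒜 + m lam u`. -/
theorem quad_pos {N0 m lam Aa u z1 z2 n1 n2 τ TT V a ab : ℝ} {v v' b b' A1 A2 : F}
    (hN : 0 < N0) (hA : 0 < Aa) (ha : 0 < a) (hTT : 0 ≤ TT)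
    (hv : ‖v'‖ = ‖v‖) (hvv : inner ℝ v v' = 0) (hb : ‖b'‖ = ‖b‖) (hbb : inner ℝ b b' = 0)
    (hV : V = ‖v‖ ^ 2) (hAA : ‖A1‖ ^ 2 + ‖A2‖ ^ 2 ≤ V * TT)
    (h1 : 20 * V ^ 2 < 3 * N0 * Aa * a)
    (h2 : 5 * (9 * (n1 ^ 2 + n2 ^ 2) + m ^ 2 * lam ^ 2 * (z1 ^ 2 + z2 ^ 2)) * V * (2 * a) +
      m ^ 2 * lam ^ 2 * (z1 ^ 2 + z2 ^ 2) * V * (16 * N0 * Aa) < ab * (16 * N0 * Aa) * (2 * a)) :
    ∃ c : ℝ, 0 < c ∧ c * (τ ^ 2 + ‖b‖ ^ 2 + TT) ≤
      N0 * Aa * TT + a * τ ^ 2 + ab * ‖b‖ ^ 2 - τ * (inner ℝ v A1 + inner ℝ v' A2) +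
      3 * inner ℝ b' (n1 • A1 + n2 • A2) + m * lam * inner ℝ b (z1 • A2 - z2 • A1) +
      m * lam * τ * (z1 * inner ℝ v' b - z2 * inner ℝ v b) := by
  have hV0 : 0 ≤ V := by rw [hV]; positivity
  set N := N0 * Aa with hNd
  have hN' : 0 < N := mul_pos hN hA
  set P := 9 * (n1 ^ 2 + n2 ^ 2) + m ^ 2 * lam ^ 2 * (z1 ^ 2 + z2 ^ 2) with hP
  set Z := m ^ 2 * lam ^ 2 * (z1 ^ 2 + z2 ^ 2) with hZ
  have hP0 : 0 ≤ P := by positivity
  have hZ0 : 0 ≤ Z := by positivity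
  -- choice of `c`
  obtain ⟨c, hc, hcN, hca, hc1, hc2⟩ : ∃ c : ℝ, 0 < c ∧ c < N ∧ c < a ∧
      5 * V ^ 2 < (N - c) * (a - c) ∧
      5 * P * V * (2 * (a - c)) + Z * V * (16 * (N - c)) <
        (ab - c) * (16 * (N - c)) * (2 * (a - c)) := by
    have e1 : ∀ᶠ c in 𝓝 (0 : ℝ), c < N := eventually_lt_nhds hN'
    have e2 : ∀ᶠ c in 𝓝 (0 : ℝ), c < a := eventually_lt_nhds ha
    have e3 : ∀ᶠ c in 𝓝 (0 : ℝ), 5 * V ^ 2 < (N - c) * (a - c) := by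
      have h3 : 5 * V ^ 2 < (N - 0) * (a - 0) := by
        have h4 : 20 * V ^ 2 < 3 * (N * a) := by
          rw [hNd]
          linarith
        have h5 : 0 < N * a := mul_pos hN' ha
        rw [sub_zero, sub_zero]
        linarith
      have hc : Continuous fun c : ℝ => (N - c) * (a - c) := by fun_prop
      exact (hc.tendsto 0).eventually (lt_mem_nhds h3)
    have e4 : ∀ᶠ c in 𝓝 (0 : ℝ), 5 * P * V * (2 * (a - c)) + Z * V * (16 * (N - c)) <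
        (ab - c) * (16 * (N - c)) * (2 * (a - c)) := by
      have hc1 : Continuous fun c : ℝ => 5 * P * V * (2 * (a - c)) + Z * V * (16 * (N - c)) := by
        fun_prop
      have hc2 : Continuous fun c : ℝ => (ab - c) * (16 * (N - c)) * (2 * (a - c)) := by fun_prop
      refine (hc1.tendsto 0).eventually_lt (hc2.tendsto 0) ?_
      rw [sub_zero, sub_zero, sub_zero, hNd]
      calc 5 * P * V * (2 * a) + Z * V * (16 * (N0 * Aa)) =
          5 * P * V * (2 * a) + Z * V * (16 * N0 * Aa) := by ring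
        _ < ab * (16 * N0 * Aa) * (2 * a) := h2
        _ = ab * (16 * (N0 * Aa)) * (2 * a) := by ring
    have e5 := (((e1.and e2).and (e3.and e4)).filter_mono
      (nhdsWithin_le_nhds (s := Set.Ioi (0 : ℝ)))).and self_mem_nhdsWithin
    obtain ⟨c, ⟨⟨h3, h4⟩, h5, h6⟩, h7⟩ := e5.exists
    exact ⟨c, h7, h3, h4, h5, h6⟩
  refine ⟨c, hc, ?_⟩
  have hNc : 0 < N - c := sub_pos.2 hcN
  have hac : 0 < a - c := sub_pos.2 hca
  set β := ‖b‖ ^ 2 with hβ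
  have hβ0 : 0 ≤ β := by positivity
  set s1 := inner ℝ v A1 + inner ℝ v' A2 with hs1
  set s2 := 3 * inner ℝ b' (n1 • A1 + n2 • A2) + m * lam * inner ℝ b (z1 • A2 - z2 • A1) with hs2
  set s3 := z1 * inner ℝ v' b - z2 * inner ℝ v b with hs3
  have hAA0 : 0 ≤ ‖A1‖ ^ 2 + ‖A2‖ ^ 2 := by positivity
  have b1 : s1 ^ 2 ≤ 2 * V ^ 2 * TT := by
    have h3 := qp_cs (w1 := v) (w2 := v') (A1 := A1) (A2 := A2)
    rw [hv, ← hV] at h3
    refine h3.trans ?_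
    calc (V + V) * (‖A1‖ ^ 2 + ‖A2‖ ^ 2) ≤ (V + V) * (V * TT) :=
          mul_le_mul_of_nonneg_left hAA (by linarith)
      _ = 2 * V ^ 2 * TT := by ring
  have b2 : s2 ^ 2 ≤ P * β * (V * TT) := by
    have h3 := qp_cs (w1 := (3 * n1) • b' + (-(m * lam * z2)) • b)
      (w2 := (3 * n2) • b' + (m * lam * z1) • b) (A1 := A1) (A2 := A2)
    rw [qp_norm _ _ hb hbb, qp_norm _ _ hb hbb] at h3
    have h4 : inner ℝ ((3 * n1) • b' + (-(m * lam * z2)) • b) A1 +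
        inner ℝ ((3 * n2) • b' + (m * lam * z1) • b) A2 = s2 := by
      rw [hs2]
      simp only [inner_add_left, inner_add_right, inner_sub_right, real_inner_smul_left,
        real_inner_smul_right]
      ring
    rw [h4] at h3
    refine h3.trans ?_
    have h5 : (((3 * n1) ^ 2 + (-(m * lam * z2)) ^ 2) * ‖b‖ ^ 2 +
        ((3 * n2) ^ 2 + (m * lam * z1) ^ 2) * ‖b‖ ^ 2) = P * β := by
      rw [hP, hZ]
      ring
    rw [h5]
    exact mul_le_mul_of_nonneg_left hAA (mul_nonneg hP0 hβ0)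
  have b3 : (m * lam * s3) ^ 2 ≤ Z * V * β := by
    have h3 : s3 = inner ℝ (z1 • v' + (-z2) • v) b := by
      rw [hs3, inner_add_left, real_inner_smul_left, real_inner_smul_left]
      ring
    have h4 := abs_real_inner_le_norm (z1 • v' + (-z2) • v) b
    have h5 : s3 ^ 2 ≤ (‖z1 • v' + (-z2) • v‖ * ‖b‖) ^ 2 := by
      rw [h3, ← sq_abs]
      exact pow_le_pow_left₀ (abs_nonneg _) h4 2
    rw [mul_pow, qp_norm _ _ hv hvv, ← hV] at h5
    have h6 : (m * lam * s3) ^ 2 = m ^ 2 * lam ^ 2 * s3 ^ 2 := by ring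
    rw [h6]
    refine (mul_le_mul_of_nonneg_left h5 (by positivity)).trans (le_of_eq ?_)
    rw [hZ]
    ring
  -- the three products
  have t1 : |τ * s1| ≤ (a - c) * τ ^ 2 / 2 + (N - c) * TT / 5 := by
    refine qp_am (by positivity) (by positivity) ?_
    calc (τ * s1) ^ 2 = τ ^ 2 * s1 ^ 2 := by ring
      _ ≤ τ ^ 2 * (2 * V ^ 2 * TT) := mul_le_mul_of_nonneg_left b1 (sq_nonneg τ)
      _ = (2 / 5) * (τ ^ 2 * TT) * (5 * V ^ 2) := by ring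
      _ ≤ (2 / 5) * (τ ^ 2 * TT) * ((N - c) * (a - c)) :=
          mul_le_mul_of_nonneg_left hc1.le (by positivity)
      _ = 4 * ((a - c) * τ ^ 2 / 2 * ((N - c) * TT / 5)) := by ring
  have t2 : |s2| ≤ 4 * (N - c) * TT / 5 + 5 * P * V * β / (16 * (N - c)) := by
    refine qp_am (by positivity) (by positivity) ?_
    refine b2.trans (le_of_eq ?_)
    field_simp
    ring
  have t3 : |τ * (m * lam * s3)| ≤ (a - c) * τ ^ 2 / 2 + Z * V * β / (2 * (a - c)) := by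
    refine qp_am (by positivity) (by positivity) ?_
    calc (τ * (m * lam * s3)) ^ 2 = τ ^ 2 * (m * lam * s3) ^ 2 := by ring
      _ ≤ τ ^ 2 * (Z * V * β) := mul_le_mul_of_nonneg_left b3 (sq_nonneg τ)
      _ = 4 * ((a - c) * τ ^ 2 / 2 * (Z * V * β / (2 * (a - c)))) := by
        field_simp
        ring
  have t4 : 5 * P * V * β / (16 * (N - c)) + Z * V * β / (2 * (a - c)) ≤ (ab - c) * β := by
    have h3 : 5 * P * V * β / (16 * (N - c)) + Z * V * β / (2 * (a - c)) =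
        (5 * P * V * (2 * (a - c)) + Z * V * (16 * (N - c))) * β /
          (16 * (N - c) * (2 * (a - c))) := by
      field_simp
    rw [h3, div_le_iff₀ (by positivity)]
    calc (5 * P * V * (2 * (a - c)) + Z * V * (16 * (N - c))) * β ≤
        ((ab - c) * (16 * (N - c)) * (2 * (a - c))) * β :=
          mul_le_mul_of_nonneg_right hc2.le hβ0
      _ = (ab - c) * β * (16 * (N - c) * (2 * (a - c))) := by ring
  have u1 := (abs_le.1 t1).2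
  have u2 := (abs_le.1 t2).1
  have u3 := (abs_le.1 t3).1
  have e : N * TT + a * τ ^ 2 + ab * β - τ * s1 + 3 * inner ℝ b' (n1 • A1 + n2 • A2) +
      m * lam * inner ℝ b (z1 • A2 - z2 • A1) + m * lam * τ * s3 =
      N * TT + a * τ ^ 2 + ab * β - τ * s1 + s2 + τ * (m * lam * s3) := by
    rw [hs2]
    ring
  rw [e]
  linarith

/-- piece `JE-P4`: the form of the theorem -/
theorem R2f_pos {lam m z1 z2 s1 s2 τ TT : ℝ} {v v' b b' A1 A2 : F}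
    (hlam : 1 < lam) (hm : 2 ≤ m) (hTT : 0 ≤ TT)
    (hv : ‖v'‖ = ‖v‖) (hvv : inner ℝ v v' = 0) (hb : ‖b'‖ = ‖b‖) (hbb : inner ℝ b b' = 0)
    (hAA : ‖A1‖ ^ 2 + ‖A2‖ ^ 2 ≤ ‖v‖ ^ 2 * TT)
    (hq : z1 ^ 2 + z2 ^ 2 = 1 + (s1 ^ 2 + s2 ^ 2) + ‖v‖ ^ 2)
    (hM : ((s1 - lam * z1) ^ 2 + (s2 - lam * z2) ^ 2) * (lam ^ 2 - 81 / 100) ≤
      lam ^ 2 * (lam ^ 2 - 1)) :
    ∃ c : ℝ, 0 < c ∧ c * (τ ^ 2 + ‖b‖ ^ 2 + TT) ≤
      R2f lam m z1 z2 s1 s2 τ TT v v' b b' A1 A2 := by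
  have hV0 : 0 ≤ ‖v‖ ^ 2 := by positivity
  obtain ⟨E, hE⟩ : ∃ E, E = lam ^ 2 - 1 := ⟨_, rfl⟩
  have hE0 : 0 < E := by rw [hE]; nlinarith
  have hlE : lam ^ 2 = 1 + E := by rw [hE]; ring
  -- the square of the normal is positive
  have hn : 0 < (s1 - lam * z1) ^ 2 + (s2 - lam * z2) ^ 2 := by
    rcases (by positivity : (0 : ℝ) ≤ (s1 - lam * z1) ^ 2 + (s2 - lam * z2) ^ 2).lt_or_eq with h | h
    · exact h
    · exfalso
      have h1 : s1 - lam * z1 = 0 := by nlinarith [sq_nonneg (s1 - lam * z1), sq_nonneg (s2 - lam * z2)]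
      have h2 : s2 - lam * z2 = 0 := by nlinarith [sq_nonneg (s1 - lam * z1), sq_nonneg (s2 - lam * z2)]
      have h3 : s1 = lam * z1 := by linarith
      have h4 : s2 = lam * z2 := by linarith
      have h5 : s1 ^ 2 + s2 ^ 2 = (1 + E) * (z1 ^ 2 + z2 ^ 2) := by rw [h3, h4, ← hlE]; ring
      have h6 : 0 ≤ E * (z1 ^ 2 + z2 ^ 2) := by positivity
      nlinarith
  obtain ⟨M, hMd⟩ : ∃ M, M = ((s1 - lam * z1) ^ 2 + (s2 - lam * z2) ^ 2) / E := ⟨_, rfl⟩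
  have hM0 : 0 < M := by rw [hMd]; positivity
  have hME : E * M = (s1 - lam * z1) ^ 2 + (s2 - lam * z2) ^ 2 := by
    rw [hMd]; field_simp
  obtain ⟨a0, ha0⟩ : ∃ a0, a0 = lam * (z1 * s1 + z2 * s2) - (s1 ^ 2 + s2 ^ 2) := ⟨_, rfl⟩
  obtain ⟨A, hA⟩ : ∃ A, A * M = a0 := ⟨a0 / M, by field_simp⟩
  obtain ⟨Z, hZ⟩ : ∃ Z, Z * M = s1 ^ 2 + s2 ^ 2 := ⟨(s1 ^ 2 + s2 ^ 2) / M, by field_simp⟩
  obtain ⟨w, hw⟩ : ∃ w, w * M = (1 + E) * ‖v‖ ^ 2 := ⟨(1 + E) * ‖v‖ ^ 2 / M, by field_simp⟩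
  have hw0 : 0 ≤ w := by
    by_contra h
    have h1 : w * M < 0 := mul_neg_of_neg_of_pos (not_le.1 h) hM0
    have h2 : 0 ≤ (1 + E) * ‖v‖ ^ 2 := by positivity
    linarith
  have hZ0 : 0 ≤ Z := by
    by_contra h
    have h1 : Z * M < 0 := mul_neg_of_neg_of_pos (not_le.1 h) hM0
    have h2 : 0 ≤ s1 ^ 2 + s2 ^ 2 := by positivity
    linarith
  -- the first relation: Cauchy's inequality
  have hAZ : A ^ 2 ≤ E * Z := by
    have h1 : (A * M) ^ 2 ≤ (E * M) * (Z * M) := by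
      rw [hA, hME, hZ, ha0]
      nlinarith [sq_nonneg ((s1 - lam * z1) * s2 - (s2 - lam * z2) * s1)]
    have h2 : A ^ 2 * M ^ 2 ≤ (E * Z) * M ^ 2 := by nlinarith
    exact le_of_mul_le_mul_right h2 (by positivity)
  -- the second relation
  have hlz : lam ^ 2 * (z1 ^ 2 + z2 ^ 2) = M * (Z + 2 * A + E) := by
    have h1 : M * (Z + 2 * A + E) = Z * M + 2 * (A * M) + E * M := by ring
    rw [h1, hA, hZ, hME, ha0]; ring
  have hsc : 1 + E = M * (E - E * Z + 2 * A - w) := by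
    have h1 : M * (E - E * Z + 2 * A - w) = E * M - E * (Z * M) + 2 * (A * M) - w * M := by ring
    have h2 : M * (Z + 2 * A + E) = Z * M + 2 * (A * M) + E * M := by ring
    rw [h2, hlE, hq] at hlz
    rw [h1, hw, hZ]
    rw [hZ] at hlz
    linarith
  have hmain : w + (E * Z - A ^ 2) + (A - 1) ^ 2 ≤ 81 / 100 := by
    rw [← hME, hlE] at hM
    have h1 : (E * M) * (1 + E - 81 / 100) ≤ (M * (E - E * Z + 2 * A - w)) * E := by
      rw [← hsc]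
      have h2 : (1 + E) * (1 + E - 1) = (1 + E) * E := by ring
      linarith
    have h3 : (1 + E - 81 / 100) * (M * E) ≤ (E - E * Z + 2 * A - w) * (M * E) := by linarith
    have h4 := le_of_mul_le_mul_right h3 (by positivity)
    nlinarith
  have hA0 : 0 < A := by nlinarith
  have hm0 : 0 < m := by linarith
  have p1 := pos1 hE0 hm hw0 hAZ hmain
  have p2 := pos2 hE0 hm hw0 hAZ hmain
  -- abbreviations
  obtain ⟨n0, hn0⟩ : ∃ n0, n0 = m / 2 * (1 + E) + E := ⟨_, rfl⟩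
  have hn0' : N0 lam m = n0 := by rw [hn0, N0, hlE]; ring
  have hn0p : 0 < n0 := by rw [hn0]; positivity
  rw [← hn0] at p1 p2
  obtain ⟨a', ha'⟩ : ∃ a', a' = (n0 + 1) * A + m * (A + Z) := ⟨_, rfl⟩
  obtain ⟨ab', hab'⟩ : ∃ ab', ab' = (2 * n0 + 1) * A + m * (A + Z) := ⟨_, rfl⟩
  rw [← ha'] at p1 p2
  rw [← hab'] at p2
  have ha'p : 0 < a' := by rw [ha']; positivity
  have hlu : lam * (z1 * s1 + z2 * s2) = A * M + Z * M := by rw [hA, hZ, ha0]; ring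
  have h1E : 0 < 1 + E := by linarith
  have hAa : 0 < a0 := by rw [← hA]; positivity
  have hamu : (n0 + 1) * a0 + m * lam * (z1 * s1 + z2 * s2) = a' * M := by
    have : m * lam * (z1 * s1 + z2 * s2) = m * (A * M + Z * M) := by rw [← hlu]; ring
    rw [this, ← hA, ha']; ring
  have habmu : (2 * n0 + 1) * a0 + m * lam * (z1 * s1 + z2 * s2) = ab' * M := by
    have : m * lam * (z1 * s1 + z2 * s2) = m * (A * M + Z * M) := by rw [← hlu]; ring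
    rw [this, ← hA, hab']; ring
  have h1 : 20 * (‖v‖ ^ 2) ^ 2 < 3 * n0 * a0 * (a' * M) := by
    have e1 : 20 * (‖v‖ ^ 2) ^ 2 * (1 + E) ^ 2 = 20 * w ^ 2 * M ^ 2 := by
      have : 20 * (‖v‖ ^ 2) ^ 2 * (1 + E) ^ 2 = 20 * ((1 + E) * ‖v‖ ^ 2) ^ 2 := by ring
      rw [this, ← hw]; ring
    have e2 : 3 * n0 * a0 * (a' * M) * (1 + E) ^ 2 = 3 * n0 * A * a' * (1 + E) ^ 2 * M ^ 2 := by
      rw [← hA]; ring
    have e3 : 20 * (‖v‖ ^ 2) ^ 2 * (1 + E) ^ 2 < 3 * n0 * a0 * (a' * M) * (1 + E) ^ 2 := by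
      rw [e1, e2]
      exact mul_lt_mul_of_pos_right p1 (by positivity)
    exact lt_of_mul_lt_mul_right e3 (by positivity)
  have h2 : 5 * (9 * ((s1 - lam * z1) ^ 2 + (s2 - lam * z2) ^ 2) + m ^ 2 * lam ^ 2 * (z1 ^ 2 + z2 ^ 2)) *
        ‖v‖ ^ 2 * (2 * (a' * M)) +
      m ^ 2 * lam ^ 2 * (z1 ^ 2 + z2 ^ 2) * ‖v‖ ^ 2 * (16 * n0 * a0) <
      ab' * M * (16 * n0 * a0) * (2 * (a' * M)) := by
    have e0 : m ^ 2 * lam ^ 2 * (z1 ^ 2 + z2 ^ 2) = m ^ 2 * (M * (Z + 2 * A + E)) := by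
      rw [← hlz]; ring
    rw [e0, ← hME]
    have e1 : (5 * (9 * (E * M) + m ^ 2 * (M * (Z + 2 * A + E))) * ‖v‖ ^ 2 * (2 * (a' * M)) +
        m ^ 2 * (M * (Z + 2 * A + E)) * ‖v‖ ^ 2 * (16 * n0 * a0)) * (1 + E) =
        (5 * (9 * E + m ^ 2 * (Z + 2 * A + E)) * w * (2 * a') +
          m ^ 2 * (Z + 2 * A + E) * w * (16 * n0 * A)) * M ^ 3 := by
      have e2 : (5 * (9 * (E * M) + m ^ 2 * (M * (Z + 2 * A + E))) * ‖v‖ ^ 2 * (2 * (a' * M)) +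
        m ^ 2 * (M * (Z + 2 * A + E)) * ‖v‖ ^ 2 * (16 * n0 * a0)) * (1 + E) =
        (5 * (9 * E + m ^ 2 * (Z + 2 * A + E)) * ((1 + E) * ‖v‖ ^ 2) * (2 * a') * M ^ 2 +
        m ^ 2 * (Z + 2 * A + E) * ((1 + E) * ‖v‖ ^ 2) * (16 * n0 * a0) * M) := by ring
      rw [e2, ← hw, ← hA]; ring
    have e3 : ab' * M * (16 * n0 * a0) * (2 * (a' * M)) * (1 + E) =
        ab' * (16 * n0 * A) * (2 * a') * (1 + E) * M ^ 3 := by
      rw [← hA]; ring
    refine lt_of_mul_lt_mul_right ?_ h1E.le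
    rw [e1, e3]
    exact mul_lt_mul_of_pos_right p2 (by positivity)
  obtain ⟨c, hc, hcc⟩ := quad_pos (N0 := n0) (m := m) (lam := lam) (Aa := a0)
    (u := z1 * s1 + z2 * s2) (z1 := z1) (z2 := z2) (n1 := s1 - lam * z1) (n2 := s2 - lam * z2)
    (τ := τ) (TT := TT) (V := ‖v‖ ^ 2) (a := a' * M) (ab := ab' * M) (v := v) (v' := v') (b := b) (b' := b')
    (A1 := A1) (A2 := A2) hn0p hAa (by positivity) hTT hv hvv hb hbb rfl hAA h1 h2
  refine ⟨c, hc, hcc.trans ?_⟩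
  unfold R2f
  rw [hn0', ← ha0]
  have e4 : m * lam * (z1 * s1 + z2 * s2) = a' * M - (n0 + 1) * a0 := by rw [← hamu]; ring
  have e5 : ab' * M = a' * M + n0 * a0 := by rw [← habmu, ← hamu]; ring
  rw [e4, e5]
  have e6 : 0 ≤ inner ℝ v b ^ 2 + inner ℝ v' b ^ 2 := by positivity
  nlinarith

end quad

end Pool.Agent.Helper77.JE
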