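import Pool.Agent.Helper77.JE.PtC
import Pool.Agent.Helper77.JE.Pos

/-! # JE: algebra at a point, fourth part: sign of the trace -/

set_option autoImplicit false
set_option linter.unusedSectionVars false
set_option linter.unusedVariables false

namespace Pool.Agent.Helper77.JE

variable {L : Type*} [NormedAddCommGroup L] [NormedSpace ℝ L]
variable {B : L →L[ℝ] L →L[ℝ] ℝ} {J : L →L[ℝ] L} {X ν : L} {N : L →L[ℝ] L}
variable {κ : Type*} [Fintype κ] [DecidableEq κ] {e : Option κ → L}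

/-- the part of `q` in `{X, J X, ν, ξ}^⊥` -/
noncomputable def fv (B : L →L[ℝ] L →L[ℝ] ℝ) (e : Option κ → L) (q : L) : EuclideanSpace ℝ κ :=
  WithLp.toLp 2 (fun k => B q (e (some k)))

/-- `T v` on `{X, J X, ν, ξ}^⊥` for the part `v` of `q` -/
noncomputable def fA (B : L →L[ℝ] L →L[ℝ] ℝ) (e : Option κ → L) (T : L →L[ℝ] L) (q : L) :
    EuclideanSpace ℝ κ :=
  WithLp.toLp 2 (fun l => ∑ k, B (T (e (some l))) (e (some k)) * B q (e (some k)))

noncomputable def fTT (B : L →L[ℝ] L →L[ℝ] ℝ) (e : Option κ → L) (T : L →L[ℝ] L) : ℝ :=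
  ∑ l, ∑ k, B (T (e (some l))) (e (some k)) ^ 2

/-- piece `JE-A9` (a): `comp` for `q`, tested with `q'` -/
theorem fv_inner (hH : Hf B J) (he : Fr B J X ν e) (q q' : L) :
    inner ℝ (fv B e q) (fv B e q') = B q q' + B q X * B q' X + B q (J X) * B q' (J X) -
      B q ν * B q' ν - B q (J ν) * B q' (J ν) := by
  have h1 : inner ℝ (fv B e q) (fv B e q') = ∑ k, B q (e (some k)) * B q' (e (some k)) := by
    unfold fv
    rw [PiLp.inner_apply]
    refine Finset.sum_congr rfl fun k _ => ?_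
    simp [mul_comm]
  have h2 := congrArg (fun x => B q' x) (he.comp q)
  simp only [map_add, map_sub, map_neg, map_smul, map_sum, smul_eq_mul] at h2
  rw [Fintype.sum_option, he.xi, hH.symm q' q] at h2
  rw [h1]
  linarith

/-- piece `JE-A9` (b): from `fv_inner` with `q' = J q`, and `B (J q) (J q) = B q q`, `B q (J q) = 0`,
`B (J q) X = - B q (J X)`, .. -/
theorem fv_J (hH : Hf B J) (he : Fr B J X ν e) (q : L) :
    ‖fv B e (J q)‖ = ‖fv B e q‖ ∧ inner ℝ (fv B e q) (fv B e (J q)) = 0 := by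
  constructor
  · have h1 := fv_inner hH he q q
    have h2 := fv_inner hH he (J q) (J q)
    rw [real_inner_self_eq_norm_sq] at h1 h2
    rw [hH.inv q q, hH.inv q X, hH.inv q ν, hH.skew q X, hH.skew q ν] at h2
    have h3 : ‖fv B e (J q)‖ ^ 2 = ‖fv B e q‖ ^ 2 := by
      rw [h1, h2]
      ring
    have h4 := abs_eq_abs.2 (sq_eq_sq_iff_eq_or_eq_neg.1 h3)
    rwa [abs_norm, abs_norm] at h4
  · have h2 := fv_inner hH he q (J q)
    rw [hH.inv q X, hH.inv q ν, hH.skew q X, hH.skew q ν, hH.symm q (J q), hH.self0 q] at h2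
    rw [h2]
    ring

private theorem bessel_two {F : Type*} [NormedAddCommGroup F] [InnerProductSpace ℝ F] (t v w : F)
    (h1 : ‖w‖ = ‖v‖) (h2 : inner ℝ v w = 0) :
    inner ℝ t v ^ 2 + inner ℝ t w ^ 2 ≤ ‖t‖ ^ 2 * ‖v‖ ^ 2 := by
  by_cases hv : v = 0
  · subst hv
    have hw : w = 0 := by
      rw [norm_zero] at h1
      exact norm_eq_zero.1 h1
    subst hw
    simp
  · have hn : 0 < ‖v‖ ^ 2 := by
      have := norm_pos_iff.2 hv
      positivity
    have h3 : 0 ≤ ‖‖v‖ ^ 2 • t - inner ℝ t v • v - inner ℝ t w • w‖ ^ 2 := sq_nonneg _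
    rw [← real_inner_self_eq_norm_sq] at h3
    simp only [inner_sub_left, inner_sub_right, real_inner_smul_left, real_inner_smul_right] at h3
    rw [real_inner_self_eq_norm_sq, real_inner_self_eq_norm_sq, real_inner_self_eq_norm_sq,
      real_inner_comm t v, real_inner_comm t w, real_inner_comm v w, h2, h1] at h3
    have h4 : 0 ≤ ‖v‖ ^ 2 * (‖t‖ ^ 2 * ‖v‖ ^ 2 - (inner ℝ t v ^ 2 + inner ℝ t w ^ 2)) := by
      refine le_of_le_of_eq h3 ?_
      ring
    have h5 := nonneg_of_mul_nonneg_right h4 hn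
    linarith

/-- piece `JE-A9` (c): for every row `t` of `T`, `⟪t, v⟫² + ⟪t, v'⟫² ≤ ‖t‖² ‖v‖²` (Bessel for two orthogonal vectors of the
same norm); sum over the rows -/
theorem fA_bound (hH : Hf B J) (he : Fr B J X ν e) (T : L →L[ℝ] L) (q : L) :
    ‖fA B e T q‖ ^ 2 + ‖fA B e T (J q)‖ ^ 2 ≤ ‖fv B e q‖ ^ 2 * fTT B e T := by
  have inn : ∀ f g : κ → ℝ, inner ℝ (WithLp.toLp 2 f : EuclideanSpace ℝ κ) (WithLp.toLp 2 g) =
      ∑ k, f k * g k := by
    intro f g
    rw [PiLp.inner_apply]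
    refine Finset.sum_congr rfl fun k _ => ?_
    simp [mul_comm]
  have nrm : ∀ f : κ → ℝ, ‖(WithLp.toLp 2 f : EuclideanSpace ℝ κ)‖ ^ 2 = ∑ k, f k ^ 2 := by
    intro f
    rw [← real_inner_self_eq_norm_sq, inn]
    exact Finset.sum_congr rfl fun k _ => (pow_two _).symm
  obtain ⟨hn, ho⟩ := fv_J hH he q
  have row : ∀ l : κ, (∑ k, B (T (e (some l))) (e (some k)) * B q (e (some k))) ^ 2 +
      (∑ k, B (T (e (some l))) (e (some k)) * B (J q) (e (some k))) ^ 2 ≤
      ‖fv B e q‖ ^ 2 * ∑ k, B (T (e (some l))) (e (some k)) ^ 2 := by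
    intro l
    have h := bessel_two (WithLp.toLp 2 (fun k => B (T (e (some l))) (e (some k))) :
      EuclideanSpace ℝ κ) (fv B e q) (fv B e (J q)) hn ho
    rw [nrm, mul_comm] at h
    unfold fv at h ⊢
    rw [inn, inn] at h
    exact h
  unfold fA fTT
  rw [nrm, nrm, ← Finset.sum_add_distrib, Finset.mul_sum]
  exact Finset.sum_le_sum fun l _ => row l

/-- piece `JE-A9` (d): the right side of `point_id` in terms of `R2f`: split every sum over `Option κ` and every tangential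
horizontal vector (`T ξ = τ ξ + ∑ b_k e_k`, `T e_k = b_k ξ + ∑ T_kl e_l`, `W = W_0 ξ + ∑ (n1 v_k + n2 v'_k) e_k`,
`W_0 = n2 s1 - n1 s2`; `B p ξ = - s2`, `B (J p) ξ = s1`). -/
theorem point_split (hH : Hf B J) (hP : Pt B J X ν N) (hxx : B X X = -1) {lam m : ℝ}
    (hlam : lam ≠ 0) (he : Fr B J X ν e) (p : L) :
    N0 lam m * (∑ i, (B p (Tm B J lam X ν N (e i)) ^ 2 + B (J p) (Tm B J lam X ν N (e i)) ^ 2) +
        Aa B J lam p X ν * ∑ i, B (Tm B J lam X ν N (e i)) (Tm B J lam X ν N (e i))) +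
      3 * B (J (Tm B J lam X ν N (J ν))) (Tm B J lam X ν N (Wd B J lam p X ν)) +
      (B p (Tm B J lam X ν N (J ν)) ^ 2 + B (J p) (Tm B J lam X ν N (J ν)) ^ 2) +
      Aa B J lam p X ν * B (Tm B J lam X ν N (J ν)) (Tm B J lam X ν N (J ν)) -
      B (Tm B J lam X ν N (J ν)) (J ν) *
        ∑ i, (B p (Tm B J lam X ν N (e i)) * B p (e i) +
          B (J p) (Tm B J lam X ν N (e i)) * B (J p) (e i)) +
      m * lam * (B p X * B (J p) (Tm B J lam X ν N (Tm B J lam X ν N (J ν))) -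
        B (J p) X * B p (Tm B J lam X ν N (Tm B J lam X ν N (J ν)))) =
    N0 lam m * ∑ i, (B p (Tm B J lam X ν N (e i)) ^ 2 + B (J p) (Tm B J lam X ν N (e i)) ^ 2) +
      R2f lam m (B p X) (B (J p) X) (B p ν) (B (J p) ν) (B (Tm B J lam X ν N (J ν)) (J ν))
        (fTT B e (Tm B J lam X ν N)) (fv B e p) (fv B e (J p)) (fv B e (Tm B J lam X ν N (J ν)))
        (fv B e (J (Tm B J lam X ν N (J ν)))) (fA B e (Tm B J lam X ν N) p)
        (fA B e (Tm B J lam X ν N) (J p)) := by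
  set T : L →L[ℝ] L := Tm B J lam X ν N with hT
  have hxi : Hz B J X ν (J ν) := hP.hz_xi hH
  have hTx : Hz B J X ν (T (J ν)) := T_hz hH hP hxx lam hxi
  have hTe : ∀ i, Hz B J X ν (T (e i)) := fun i => T_hz hH hP hxx lam (he.hz i)
  have pars : ∀ w, Hz B J X ν w → ∀ u, B u w = B w (J ν) * B u (J ν) +
      ∑ k, B w (e (some k)) * B u (e (some k)) := by
    intro w hw u
    have h := he.parseval hH hw u
    rw [Fintype.sum_option, he.xi] at h
    rw [hH.symm u w, ← h]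
  have hpx : B p (J ν) = - B (J p) ν := by
    have := hH.skew p ν
    linarith
  have hjpx : B (J p) (J ν) = B p ν := hH.inv p ν
  have hsym : ∀ i j, B (T (e i)) (e j) = B (T (e j)) (e i) := fun i j =>
    T_symm hH hP lam (he.hz i) (he.hz j)
  have hbl : ∀ l, B (T (e (some l))) (J ν) = B (T (J ν)) (e (some l)) := by
    intro l
    have h := hsym (some l) none
    rwa [he.xi] at h
  obtain ⟨b, hb⟩ : ∃ b : κ → ℝ, b = fun k => B (T (J ν)) (e (some k)) := ⟨_, rfl⟩
  obtain ⟨v, hv⟩ : ∃ v : κ → ℝ, v = fun k => B p (e (some k)) := ⟨_, rfl⟩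
  obtain ⟨w, hw⟩ : ∃ w : κ → ℝ, w = fun k => B (J p) (e (some k)) := ⟨_, rfl⟩
  obtain ⟨c, hc⟩ : ∃ c : κ → ℝ, c = fun k => B (J (T (J ν))) (e (some k)) := ⟨_, rfl⟩
  obtain ⟨t, ht⟩ : ∃ t : κ → κ → ℝ, t = fun l k => B (T (e (some l))) (e (some k)) := ⟨_, rfl⟩
  obtain ⟨x1, hx1⟩ : ∃ x1 : κ → ℝ, x1 = fun l => ∑ k, t l k * v k := ⟨_, rfl⟩
  obtain ⟨x2, hx2⟩ : ∃ x2 : κ → ℝ, x2 = fun l => ∑ k, t l k * w k := ⟨_, rfl⟩
  have hb' : ∀ k, B (T (J ν)) (e (some k)) = b k := fun k => by rw [hb]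
  have hv' : ∀ k, B p (e (some k)) = v k := fun k => by rw [hv]
  have hw' : ∀ k, B (J p) (e (some k)) = w k := fun k => by rw [hw]
  have hc' : ∀ k, B (J (T (J ν))) (e (some k)) = c k := fun k => by rw [hc]
  have ht' : ∀ l k, B (T (e (some l))) (e (some k)) = t l k := fun l k => by rw [ht]
  have hts : ∀ l k, t l k = t k l := fun l k => by
    rw [← ht', ← ht']
    exact hsym (some l) (some k)
  -- the inner products
  have fvp : fv B e p = WithLp.toLp 2 v := by
    unfold fv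
    rw [hv]
  have fvw : fv B e (J p) = WithLp.toLp 2 w := by
    unfold fv
    rw [hw]
  have fvb : fv B e (T (J ν)) = WithLp.toLp 2 b := by
    unfold fv
    rw [hb]
  have fvc : fv B e (J (T (J ν))) = WithLp.toLp 2 c := by
    unfold fv
    rw [hc]
  have fA1 : fA B e T p = WithLp.toLp 2 x1 := by
    unfold fA
    rw [hx1]
    simp only [ht', hv']
  have fA2 : fA B e T (J p) = WithLp.toLp 2 x2 := by
    unfold fA
    rw [hx2]
    simp only [ht', hw']
  have ftt : fTT B e T = ∑ l, ∑ k, t l k ^ 2 := by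
    unfold fTT
    simp only [ht']
  have inn : ∀ f g : κ → ℝ, inner ℝ (WithLp.toLp 2 f : EuclideanSpace ℝ κ) (WithLp.toLp 2 g) =
      ∑ k, f k * g k := by
    intro f g
    rw [PiLp.inner_apply]
    refine Finset.sum_congr rfl fun k _ => ?_
    simp [mul_comm]
  have nrm : ∀ f : κ → ℝ, ‖(WithLp.toLp 2 f : EuclideanSpace ℝ κ)‖ ^ 2 = ∑ k, f k * f k := by
    intro f
    rw [← real_inner_self_eq_norm_sq, inn]
  -- the expansions
  have e1 : B p (T (J ν)) = -(B (T (J ν)) (J ν) * B (J p) ν) + ∑ k, v k * b k := by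
    rw [pars _ hTx p, hpx]
    simp only [hb', hv']
    rw [Finset.sum_congr rfl fun k _ => mul_comm (b k) (v k)]
    ring
  have e2 : B (J p) (T (J ν)) = B (T (J ν)) (J ν) * B p ν + ∑ k, w k * b k := by
    rw [pars _ hTx (J p), hjpx]
    simp only [hb', hw']
    rw [Finset.sum_congr rfl fun k _ => mul_comm (b k) (w k)]
  have e3 : ∀ l, B p (T (e (some l))) = -(b l * B (J p) ν) + x1 l := by
    intro l
    rw [pars _ (hTe (some l)) p, hpx, hbl, hb', hx1]
    simp only [ht', hv']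
    ring
  have e4 : ∀ l, B (J p) (T (e (some l))) = b l * B p ν + x2 l := by
    intro l
    rw [pars _ (hTe (some l)) (J p), hjpx, hbl, hb', hx2]
    simp only [ht', hw']
  have e5 : B (T (J ν)) (T (J ν)) = B (T (J ν)) (J ν) ^ 2 + ∑ k, b k * b k := by
    rw [pars _ hTx (T (J ν))]
    simp only [hb']
    ring
  have e6 : ∀ l, B (T (e (some l))) (T (e (some l))) = b l * b l + ∑ k, t l k ^ 2 := by
    intro l
    rw [pars _ (hTe (some l)) (T (e (some l))), hbl, hb']
    simp only [ht', pow_two]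
  have s1 : ∑ i, B (T (e i)) (T (e i)) =
      B (T (J ν)) (J ν) ^ 2 + 2 * ∑ k, b k * b k + ∑ l, ∑ k, t l k ^ 2 := by
    rw [Fintype.sum_option, he.xi, e5, Finset.sum_congr rfl fun l _ => e6 l,
      Finset.sum_add_distrib]
    ring
  have s2 : ∑ i, (B p (T (e i)) * B p (e i) + B (J p) (T (e i)) * B (J p) (e i)) =
      B (T (J ν)) (J ν) * (B p ν ^ 2 + B (J p) ν ^ 2) +
        2 * (B p ν * ∑ k, w k * b k - B (J p) ν * ∑ k, v k * b k) +
        ((∑ k, v k * x1 k) + ∑ k, w k * x2 k) := by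
    rw [Fintype.sum_option, he.xi, e1, e2, hpx, hjpx]
    have h1 : ∀ l ∈ (Finset.univ : Finset κ), B p (T (e (some l))) * B p (e (some l)) +
        B (J p) (T (e (some l))) * B (J p) (e (some l)) =
        -(B (J p) ν * (v l * b l)) + v l * x1 l + (B p ν * (w l * b l) + w l * x2 l) := by
      intro l _
      rw [e3, e4, hv', hw']
      ring
    rw [Finset.sum_congr rfl h1, Finset.sum_add_distrib, Finset.sum_add_distrib,
      Finset.sum_add_distrib, Finset.sum_neg_distrib, ← Finset.mul_sum, ← Finset.mul_sum]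
    ring
  -- `T` applied to tangential horizontal vectors, tested
  have tes : ∀ q, Hz B J X ν q → ∀ u, B u (T q) =
      B q (J ν) * B u (T (J ν)) + ∑ l, B q (e (some l)) * B u (T (e (some l))) := by
    intro q hq u
    have h := he.lin hq (fun x => B u (T x)) (fun a b => by simp) (fun c a => by simp)
    rw [Fintype.sum_option, he.xi] at h
    exact h.symm
  have e7 : B p (T (T (J ν))) = -(B (J p) ν * (B (T (J ν)) (J ν) ^ 2 + ∑ k, b k * b k)) +
      B (T (J ν)) (J ν) * ∑ k, v k * b k + ∑ k, b k * x1 k := by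
    rw [tes _ hTx p, e1]
    have h1 : ∀ l ∈ (Finset.univ : Finset κ), B (T (J ν)) (e (some l)) * B p (T (e (some l))) =
        -(B (J p) ν * (b l * b l)) + b l * x1 l := by
      intro l _
      rw [e3, hb']
      ring
    rw [Finset.sum_congr rfl h1, Finset.sum_add_distrib, Finset.sum_neg_distrib, ← Finset.mul_sum]
    ring
  have e8 : B (J p) (T (T (J ν))) = B p ν * (B (T (J ν)) (J ν) ^ 2 + ∑ k, b k * b k) +
      B (T (J ν)) (J ν) * ∑ k, w k * b k + ∑ k, b k * x2 k := by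
    rw [tes _ hTx (J p), e2]
    have h1 : ∀ l ∈ (Finset.univ : Finset κ), B (T (J ν)) (e (some l)) * B (J p) (T (e (some l))) =
        B p ν * (b l * b l) + b l * x2 l := by
      intro l _
      rw [e4, hb']
      ring
    rw [Finset.sum_congr rfl h1, Finset.sum_add_distrib, ← Finset.mul_sum]
    ring
  have hW := W_hz hH hP hxx lam p
  have e9 : B (J (T (J ν))) (T (Wd B J lam p X ν)) =
      (B p ν - lam * B p X) * (∑ k, c k * x1 k) + (B (J p) ν - lam * B (J p) X) * ∑ k, c k * x2 k := by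
    rw [tes _ hW, hH.self0, mul_zero, zero_add]
    have h0 : B (J (T (J ν))) (J ν) = 0 := by
      rw [hH.inv]
      exact hTx.2.2
    have h1 : ∀ l ∈ (Finset.univ : Finset κ), B (Wd B J lam p X ν) (e (some l)) *
        B (J (T (J ν))) (T (e (some l))) = ∑ k, (n1 B lam p X ν * (c k * (t k l * v l)) +
          n2 B J lam p X ν * (c k * (t k l * w l))) := by
      intro l _
      rw [W_test hH lam p (he.hz (some l)), pars _ (hTe (some l)) (J (T (J ν))), h0, mul_zero,
        zero_add, hv', hw', Finset.mul_sum]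
      refine Finset.sum_congr rfl fun k _ => ?_
      rw [ht', hc', hts l k]
      ring
    rw [Finset.sum_congr rfl h1, Finset.sum_comm]
    have h2 : ∀ k ∈ (Finset.univ : Finset κ), ∑ l, (n1 B lam p X ν * (c k * (t k l * v l)) +
          n2 B J lam p X ν * (c k * (t k l * w l))) =
        n1 B lam p X ν * (c k * x1 k) + n2 B J lam p X ν * (c k * x2 k) := by
      intro k _
      rw [Finset.sum_add_distrib, ← Finset.mul_sum, ← Finset.mul_sum, ← Finset.mul_sum,
        ← Finset.mul_sum, hx1, hx2]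
    rw [Finset.sum_congr rfl h2, Finset.sum_add_distrib, ← Finset.mul_sum, ← Finset.mul_sum]
    unfold n1 n2
    rfl
  unfold R2f
  rw [fvp, fvw, fvb, fvc, fA1, fA2, ftt]
  simp only [inner_add_right, inner_sub_right, inner_smul_right]
  simp only [inn, nrm]
  rw [s1, s2, e9, e7, e8, e5, e1, e2]
  unfold Aa
  ring

/-- piece `JE-A10`: the sign -/
theorem point_pos (hH : Hf B J) (hP : Pt B J X ν N) (hxx : B X X = -1) {lam m : ℝ} (hlam : 1 < lam)
    (hm : 2 ≤ m) {N2 : L →L[ℝ] L →L[ℝ] L} (he : Fr B J X ν e) (hJ : Jt B J lam m X ν N N2 e) (p : L)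
    (hp : B p p = -1)
    (hM : (n1 B lam p X ν ^ 2 + n2 B J lam p X ν ^ 2) * (lam ^ 2 - 81 / 100) ≤
      lam ^ 2 * (lam ^ 2 - 1)) :
    0 ≤ ∑ i, B (dV2 B J lam m p X ν N (e i) (N (e i)) (N2 (e i))) (e i) ∧
    (∑ i, B (dV2 B J lam m p X ν N (e i) (N (e i)) (N2 (e i))) (e i) = 0 →
      ∀ w, Hz B J X ν w → Tm B J lam X ν N w = 0) := by
  have hlam0 : lam ≠ 0 := by positivity
  have hN0 : 0 < N0 lam m := by
    unfold N0
    nlinarith
  have hTT : 0 ≤ fTT B e (Tm B J lam X ν N) :=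
    Finset.sum_nonneg fun l _ => Finset.sum_nonneg fun k _ => sq_nonneg _
  have hv := fv_J hH he p
  have hb := fv_J hH he (Tm B J lam X ν N (J ν))
  have hq : B p X ^ 2 + B (J p) X ^ 2 = 1 + (B p ν ^ 2 + B (J p) ν ^ 2) + ‖fv B e p‖ ^ 2 := by
    have h1 := fv_inner hH he p p
    rw [real_inner_self_eq_norm_sq] at h1
    have h2 : B p (J X) = -B (J p) X := by rw [hH.skew p X, neg_neg]
    have h3 : B p (J ν) = -B (J p) ν := by rw [hH.skew p ν, neg_neg]
    rw [h2, h3, hp] at h1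
    rw [h1]
    ring
  obtain ⟨c, hc, hR⟩ := R2f_pos (z1 := B p X) (z2 := B (J p) X) (s1 := B p ν) (s2 := B (J p) ν)
    (τ := B (Tm B J lam X ν N (J ν)) (J ν)) hlam hm hTT hv.1 hv.2 hb.1 hb.2
    (fA_bound hH he (Tm B J lam X ν N) p) hq hM
  have hS := (point_id hH hP hxx hlam0 he hJ p).trans (point_split hH hP hxx hlam0 he p)
  have hsq : 0 ≤ N0 lam m * ∑ i, (B p (Tm B J lam X ν N (e i)) ^ 2 + B (J p) (Tm B J lam X ν N (e i)) ^ 2) :=
    mul_nonneg hN0.le (Finset.sum_nonneg fun i _ => by positivity)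
  set τ := B (Tm B J lam X ν N (J ν)) (J ν) with hτ
  have hn : 0 ≤ τ ^ 2 + ‖fv B e (Tm B J lam X ν N (J ν))‖ ^ 2 + fTT B e (Tm B J lam X ν N) := by
    positivity
  have hcn := mul_nonneg hc.le hn
  refine ⟨by rw [hS]; linarith, fun h0 w hw => ?_⟩
  rw [hS] at h0
  have h1 : c * (τ ^ 2 + ‖fv B e (Tm B J lam X ν N (J ν))‖ ^ 2 + fTT B e (Tm B J lam X ν N)) = 0 := by
    linarith
  have h2 : τ ^ 2 + ‖fv B e (Tm B J lam X ν N (J ν))‖ ^ 2 + fTT B e (Tm B J lam X ν N) = 0 :=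
    (mul_eq_zero.1 h1).resolve_left hc.ne'
  have h3 : τ = 0 := by
    have : τ ^ 2 = 0 := by nlinarith [sq_nonneg τ, sq_nonneg ‖fv B e (Tm B J lam X ν N (J ν))‖]
    exact pow_eq_zero_iff (two_ne_zero) |>.1 this
  have h4 : fv B e (Tm B J lam X ν N (J ν)) = 0 := by
    have : ‖fv B e (Tm B J lam X ν N (J ν))‖ ^ 2 = 0 := by
      nlinarith [sq_nonneg τ, sq_nonneg ‖fv B e (Tm B J lam X ν N (J ν))‖]
    exact norm_eq_zero.1 (pow_eq_zero_iff (two_ne_zero) |>.1 this)
  have h5 : fTT B e (Tm B J lam X ν N) = 0 := by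
    nlinarith [sq_nonneg τ, sq_nonneg ‖fv B e (Tm B J lam X ν N (J ν))‖]
  have h6 : ∀ k, B (Tm B J lam X ν N (J ν)) (e (some k)) = 0 := fun k => by
    have := congrArg (fun x : EuclideanSpace ℝ κ => x k) h4
    simpa [fv] using this
  have h7 : ∀ l k, B (Tm B J lam X ν N (e (some l))) (e (some k)) = 0 := by
    intro l k
    unfold fTT at h5
    rw [Finset.sum_eq_zero_iff_of_nonneg fun l _ => Finset.sum_nonneg fun k _ => sq_nonneg _] at h5
    have h8 := h5 l (Finset.mem_univ _)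
    rw [Finset.sum_eq_zero_iff_of_nonneg fun k _ => sq_nonneg _] at h8
    exact pow_eq_zero_iff (two_ne_zero) |>.1 (h8 k (Finset.mem_univ _))
  have h8 : ∀ i, Tm B J lam X ν N (e i) = 0 := by
    intro i
    have h9 := he.hz_sum (T_hz hH hP hxx lam (he.hz i))
    rw [← h9]
    refine Finset.sum_eq_zero fun j _ => ?_
    have h10 : B (Tm B J lam X ν N (e i)) (e j) = 0 := by
      rcases i with _ | l <;> rcases j with _ | k
      · rw [he.xi]
        exact h3
      · rw [he.xi]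
        exact h6 k
      · rw [T_symm hH hP lam (he.hz _) (he.hz _), he.xi]
        exact h6 l
      · exact h7 l k
    rw [h10, zero_smul]
  rw [← he.hz_sum hw, map_sum]
  refine Finset.sum_eq_zero fun i _ => ?_
  rw [map_smul, h8 i, smul_zero]

end Pool.Agent.Helper77.JE
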