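import Pool.Agent.Helper77.JE.Cal
import Pool.Agent.Helper75.ROT.Ex
import Pool.Agent.Helper77.JE.Lev

/-! # JE: from the ball to the cone -/

set_option autoImplicit false
set_option linter.unusedSectionVars false
set_option linter.unusedVariables false

open Filter Topology Set
open scoped ContDiff

namespace Pool.Agent.Helper77.JE

open Pool.Agent.Helper41.ALX (divg Vertical ballMetric meanCurv PC bergman vertical_PC bergman_eq
  radial)

variable {E : Type*} [NormedAddCommGroup E] [InnerProductSpace ℝ E] [FiniteDimensional ℝ E]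

/-- a complex structure on `E` -/
structure Cj (j : E →L[ℝ] E) : Prop where
  jj : ∀ v, j (j v) = -v
  inv : ∀ u v, inner ℝ (j u) (j v) = inner ℝ u v

/-- the real inner product as a bilinear map -/
noncomputable def ip (E : Type*) [NormedAddCommGroup E] [InnerProductSpace ℝ E] :
    E →L[ℝ] E →L[ℝ] ℝ := innerSL ℝ

noncomputable def p1 (E : Type*) [NormedAddCommGroup E] [InnerProductSpace ℝ E] :
    (ℝ × ℝ × E) →L[ℝ] ℝ := ContinuousLinearMap.fst ℝ ℝ (ℝ × E)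

noncomputable def p2 (E : Type*) [NormedAddCommGroup E] [InnerProductSpace ℝ E] :
    (ℝ × ℝ × E) →L[ℝ] ℝ :=
  (ContinuousLinearMap.fst ℝ ℝ E).comp (ContinuousLinearMap.snd ℝ ℝ (ℝ × E))

noncomputable def p3 (E : Type*) [NormedAddCommGroup E] [InnerProductSpace ℝ E] :
    (ℝ × ℝ × E) →L[ℝ] E :=
  (ContinuousLinearMap.snd ℝ ℝ E).comp (ContinuousLinearMap.snd ℝ ℝ (ℝ × E))

/-- the form `⟪v, v'⟫ - (a a' + b b')` on `ℝ × ℝ × E` -/
noncomputable def BL (E : Type*) [NormedAddCommGroup E] [InnerProductSpace ℝ E] :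
    (ℝ × ℝ × E) →L[ℝ] (ℝ × ℝ × E) →L[ℝ] ℝ :=
  (ip E).bilinearComp (p3 E) (p3 E) - ((p1 E).smulRight (p1 E) + (p2 E).smulRight (p2 E))

theorem BL_apply (X Y : ℝ × ℝ × E) :
    BL E X Y = inner ℝ X.2.2 Y.2.2 - (X.1 * Y.1 + X.2.1 * Y.2.1) := by
  simp [BL, p1, p2, p3, ip]
  rfl

/-- the complex structure `(a, b, v) ↦ (-b, a, j v)` -/
noncomputable def JL (j : E →L[ℝ] E) : (ℝ × ℝ × E) →L[ℝ] (ℝ × ℝ × E) :=
  (-(p2 E)).prod ((p1 E).prod (j.comp (p3 E)))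

theorem JL_apply (j : E →L[ℝ] E) (X : ℝ × ℝ × E) : JL j X = (-X.2.1, X.1, j X.2.2) := rfl

/-- piece `JE-L0` -/
theorem hfL {j : E →L[ℝ] E} (hj : Cj j) : Hf (BL E) (JL j) := by
  refine ⟨fun u v => ?_, fun u => ?_, fun u v => ?_, fun u h => ?_⟩
  · rw [BL_apply, BL_apply, real_inner_comm]
    ring
  · rw [JL_apply, JL_apply]
    refine Prod.ext rfl (Prod.ext rfl ?_)
    exact hj.jj u.2.2
  · rw [BL_apply, BL_apply, JL_apply, JL_apply, hj.inv]
    ring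
  · have h1 := h ((1 : ℝ), (0 : ℝ), (0 : E))
    have h2 := h ((0 : ℝ), (1 : ℝ), (0 : E))
    have h3 := h ((0 : ℝ), (0 : ℝ), u.2.2)
    rw [BL_apply] at h1 h2 h3
    simp only [inner_zero_right, mul_one, mul_zero, add_zero, zero_add, zero_sub, neg_eq_zero,
      sub_zero, inner_self_eq_zero] at h1 h2 h3
    exact Prod.ext h1 (Prod.ext h2 h3)

/-- the projection of the cone to the ball: `v / c`, `c = a + i b` -/
noncomputable def pr (j : E →L[ℝ] E) (X : ℝ × ℝ × E) : E :=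
  (X.1 ^ 2 + X.2.1 ^ 2)⁻¹ • (X.1 • X.2.2 - X.2.1 • j X.2.2)

/-- the point `(1, 0, z)` of the cone -/
def io (z : E) : ℝ × ℝ × E := (1, 0, z)

theorem pr_io (j : E →L[ℝ] E) (z : E) : pr j (io z) = z := by
  simp [pr, io]

/-- piece `JE-L1` (a) -/
theorem pr_smul (j : E →L[ℝ] E) {c : ℝ} (hc : c ≠ 0) (X : ℝ × ℝ × E) : pr j (c • X) = pr j X := by
  unfold pr
  simp only [Prod.smul_fst, Prod.smul_snd, smul_eq_mul, map_smul]
  have h1 : (c * X.1) ^ 2 + (c * X.2.1) ^ 2 = c ^ 2 * (X.1 ^ 2 + X.2.1 ^ 2) := by ring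
  have h2 : (c * X.1) • c • X.2.2 - (c * X.2.1) • c • j X.2.2 =
      c ^ 2 • (X.1 • X.2.2 - X.2.1 • j X.2.2) := by
    module
  rw [h1, h2, mul_inv, smul_smul, mul_comm, ← mul_assoc, mul_inv_cancel₀ (pow_ne_zero 2 hc), one_mul]

private theorem inner_j_self {j : E →L[ℝ] E} (hj : Cj j) (v : E) : inner ℝ v (j v) = 0 := by
  have h1 := hj.inv v (j v)
  rw [hj.jj, inner_neg_right, real_inner_comm] at h1
  linarith

/-- `‖pr X‖² = ‖v‖² / |c|²` -/
theorem pr_norm {j : E →L[ℝ] E} (hj : Cj j) {X : ℝ × ℝ × E} (hX : X.1 ^ 2 + X.2.1 ^ 2 ≠ 0) :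
    ‖pr j X‖ ^ 2 = (X.1 ^ 2 + X.2.1 ^ 2)⁻¹ * ‖X.2.2‖ ^ 2 := by
  have h1 : ‖X.1 • X.2.2 - X.2.1 • j X.2.2‖ ^ 2 = (X.1 ^ 2 + X.2.1 ^ 2) * ‖X.2.2‖ ^ 2 := by
    have h2 : ‖j X.2.2‖ ^ 2 = ‖X.2.2‖ ^ 2 := by
      rw [← real_inner_self_eq_norm_sq, ← real_inner_self_eq_norm_sq, hj.inv]
    rw [norm_sub_sq_real, real_inner_smul_left, real_inner_smul_right, inner_j_self hj, norm_smul,
      norm_smul, mul_pow, mul_pow, h2, Real.norm_eq_abs, Real.norm_eq_abs, sq_abs, sq_abs]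
    ring
  unfold pr
  rw [norm_smul, mul_pow, h1, Real.norm_eq_abs, sq_abs]
  field_simp

theorem pr_ball {j : E →L[ℝ] E} (hj : Cj j) {X : ℝ × ℝ × E} (hX : BL E X X < 0) :
    0 < X.1 ^ 2 + X.2.1 ^ 2 ∧ pr j X ∈ Metric.ball (0 : E) 1 := by
  rw [BL_apply, real_inner_self_eq_norm_sq] at hX
  have h0 : ‖X.2.2‖ ^ 2 < X.1 ^ 2 + X.2.1 ^ 2 := by nlinarith
  have h1 : 0 < X.1 ^ 2 + X.2.1 ^ 2 := lt_of_le_of_lt (sq_nonneg _) h0
  refine ⟨h1, ?_⟩
  rw [mem_ball_zero_iff]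
  have h2 := pr_norm hj h1.ne'
  have h3 : ‖pr j X‖ ^ 2 < 1 := by
    rw [h2, inv_mul_lt_iff₀ h1, mul_one]
    exact h0
  have h4 : ‖pr j X‖ ^ 2 < 1 ^ 2 := by rw [one_pow]; exact h3
  exact lt_of_pow_lt_pow_left₀ 2 zero_le_one h4

/-- `pr` is smooth where `c ≠ 0` -/
theorem pr_smooth (j : E →L[ℝ] E) {X : ℝ × ℝ × E} (hX : X.1 ^ 2 + X.2.1 ^ 2 ≠ 0) :
    ContDiffAt ℝ ∞ (pr j) X := by
  have h1 : ContDiffAt ℝ ∞ (fun X : ℝ × ℝ × E => X.1) X := contDiffAt_fst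
  have h2 : ContDiffAt ℝ ∞ (fun X : ℝ × ℝ × E => X.2.1) X := contDiffAt_fst.comp X contDiffAt_snd
  have h3 : ContDiffAt ℝ ∞ (fun X : ℝ × ℝ × E => X.2.2) X := contDiffAt_snd.comp X contDiffAt_snd
  have h4 : ContDiffAt ℝ ∞ (fun X : ℝ × ℝ × E => j X.2.2) X := j.contDiff.contDiffAt.comp X h3
  exact (((h1.pow 2).add (h2.pow 2)).inv hX).smul ((h1.smul h3).sub (h2.smul h4))

private theorem fderiv_line {L F : Type*} [NormedAddCommGroup L] [NormedSpace ℝ L]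
    [NormedAddCommGroup F] [NormedSpace ℝ F] {f : L → F} {x v : L} (hf : DifferentiableAt ℝ f x)
    {c : F} (h : ∀ᶠ t : ℝ in 𝓝 0, f (x + t • v) = f x + t • c) : fderiv ℝ f x v = c := by
  have h1 : HasDerivAt (fun t : ℝ => x + t • v) v 0 := by
    simpa using ((hasDerivAt_id (0 : ℝ)).smul_const v).const_add x
  have h2 : HasFDerivAt f (fderiv ℝ f x) ((fun t : ℝ => x + t • v) 0) := by
    simpa using hf.hasFDerivAt
  have h3 : HasDerivAt (fun t : ℝ => f (x + t • v)) (fderiv ℝ f x v) 0 :=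
    h2.comp_hasDerivAt (0 : ℝ) h1
  have h4 : HasDerivAt (fun t : ℝ => f x + t • c) c 0 := by
    simpa using ((hasDerivAt_id (0 : ℝ)).smul_const c).const_add (f x)
  have h5 : HasDerivAt (fun t : ℝ => f (x + t • v)) c 0 := h4.congr_of_eventuallyEq h
  exact h3.unique h5

private theorem pr_diff (j : E →L[ℝ] E) {X : ℝ × ℝ × E} (hX : X.1 ^ 2 + X.2.1 ^ 2 ≠ 0) :
    DifferentiableAt ℝ (pr j) X := (pr_smooth j hX).differentiableAt (by simp)

/-- `pr (X + s • X) = pr X`, `pr (X + s • J X) = pr X` near `s = 0` -/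
theorem Dpr_X (j : E →L[ℝ] E) {X : ℝ × ℝ × E} (hX : X.1 ^ 2 + X.2.1 ^ 2 ≠ 0) :
    fderiv ℝ (pr j) X X = 0 := by
  refine fderiv_line (pr_diff j hX) ?_
  have h1 : ∀ᶠ t : ℝ in 𝓝 0, (-1 : ℝ) < t := eventually_gt_nhds (by norm_num)
  filter_upwards [h1] with t ht
  have h2 : X + t • X = (1 + t) • X := by rw [add_smul, one_smul]
  rw [h2, pr_smul j (by linarith), smul_zero, add_zero]

theorem Dpr_JX {j : E →L[ℝ] E} (hj : Cj j) {X : ℝ × ℝ × E} (hX : X.1 ^ 2 + X.2.1 ^ 2 ≠ 0) :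
    fderiv ℝ (pr j) X (JL j X) = 0 := by
  refine fderiv_line (pr_diff j hX) (Eventually.of_forall fun t => ?_)
  rw [smul_zero, add_zero]
  have h0 : X + t • JL j X = (X.1 - t * X.2.1, X.2.1 + t * X.1, X.2.2 + t • j X.2.2) := by
    rw [JL_apply]
    refine Prod.ext ?_ (Prod.ext rfl rfl)
    show X.1 + t * (-X.2.1) = X.1 - t * X.2.1
    ring
  have h1 : (0 : ℝ) < 1 + t ^ 2 := by positivity
  rw [h0]
  unfold pr
  show ((X.1 - t * X.2.1) ^ 2 + (X.2.1 + t * X.1) ^ 2)⁻¹ •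
      ((X.1 - t * X.2.1) • (X.2.2 + t • j X.2.2) -
        (X.2.1 + t * X.1) • j (X.2.2 + t • j X.2.2)) = _
  have h2 : (X.1 - t * X.2.1) ^ 2 + (X.2.1 + t * X.1) ^ 2 =
      (1 + t ^ 2) * (X.1 ^ 2 + X.2.1 ^ 2) := by ring
  have h3 : (X.1 - t * X.2.1) • (X.2.2 + t • j X.2.2) -
      (X.2.1 + t * X.1) • j (X.2.2 + t • j X.2.2) =
      (1 + t ^ 2) • (X.1 • X.2.2 - X.2.1 • j X.2.2) := by
    rw [map_add, map_smul, hj.jj]
    module
  rw [h2, h3, mul_inv, smul_smul, mul_comm, ← mul_assoc, mul_inv_cancel₀ h1.ne', one_mul]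

/-- piece `JE-L1` (b): the derivative at `(1, 0, z)` -/
theorem Dpr_io {j : E →L[ℝ] E} (hj : Cj j) (z : E) (w : ℝ × ℝ × E) :
    fderiv ℝ (pr j) (io z) w = w.2.2 - w.1 • z - w.2.1 • j z := by
  have hX : (io z).1 ^ 2 + (io z).2.1 ^ 2 ≠ 0 := by simp [io]
  have h1 : w = w.1 • io z + w.2.1 • JL j (io z) +
      ((0 : ℝ), (0 : ℝ), w.2.2 - w.1 • z - w.2.1 • j z) := by
    rw [JL_apply]
    refine Prod.ext ?_ (Prod.ext ?_ ?_)
    · simp [io]
    · simp [io]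
    · simp [io]
  have h2 : fderiv ℝ (pr j) (io z) ((0 : ℝ), (0 : ℝ), w.2.2 - w.1 • z - w.2.1 • j z) =
      w.2.2 - w.1 • z - w.2.1 • j z := by
    refine fderiv_line (pr_diff j hX) (Eventually.of_forall fun t => ?_)
    have h3 : io z + t • ((0 : ℝ), (0 : ℝ), w.2.2 - w.1 • z - w.2.1 • j z) =
        io (z + t • (w.2.2 - w.1 • z - w.2.1 • j z)) := by
      unfold io
      refine Prod.ext ?_ (Prod.ext ?_ rfl)
      · simp
      · simp
    rw [h3, pr_io, pr_io]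
  rw [h1, map_add, map_add, map_smul, map_smul, Dpr_X j hX, Dpr_JX hj hX, h2, smul_zero, smul_zero,
    zero_add, zero_add]
  simp [io, JL_apply]

/-- the function on the cone -/
noncomputable def ff (j : E →L[ℝ] E) (ρ : E → ℝ) (X : ℝ × ℝ × E) : ℝ := ρ (pr j X)

/-- its `B`-gradient -/
noncomputable def GG (j : E →L[ℝ] E) (ρ : E → ℝ) (X : ℝ × ℝ × E) : ℝ × ℝ × E :=
  (-(fderiv ℝ (ff j ρ) X (1, 0, 0)), -(fderiv ℝ (ff j ρ) X (0, 1, 0)),
    (InnerProductSpace.toDual ℝ E).symm ((fderiv ℝ (ff j ρ) X).comp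
      ((ContinuousLinearMap.inr ℝ ℝ (ℝ × E)).comp (ContinuousLinearMap.inr ℝ ℝ E))))

/-- the domain -/
def UU (j : E →L[ℝ] E) (ρ : E → ℝ) : Set (ℝ × ℝ × E) :=
  {X | BL E X X < 0 ∧ fderiv ℝ ρ (pr j X) ≠ 0}

/-- piece `JE-L2` (a) -/
theorem GG_B (j : E →L[ℝ] E) (ρ : E → ℝ) (X w : ℝ × ℝ × E) :
    BL E (GG j ρ X) w = fderiv ℝ (ff j ρ) X w := by
  rw [BL_apply]
  unfold GG
  dsimp only
  rw [InnerProductSpace.toDual_symm_apply]
  have h : w = w.1 • ((1 : ℝ), (0 : ℝ), (0 : E)) + (w.2.1 • ((0 : ℝ), (1 : ℝ), (0 : E)) +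
      ((0 : ℝ), (0 : ℝ), w.2.2)) := by
    ext <;> simp
  conv_rhs => rw [h]
  rw [map_add, map_add, map_smul, map_smul, smul_eq_mul, smul_eq_mul]
  show fderiv ℝ (ff j ρ) X ((0 : ℝ), (0 : ℝ), w.2.2) - _ = _
  ring

/-- piece `JE-L2` (b): `ff (c • X) = ff X` for all `X`, so `fderiv (ff) (c • X) = c⁻¹ • fderiv (ff) X` -/
theorem GG_smul (j : E →L[ℝ] E) (ρ : E → ℝ) {c : ℝ} (hc : 0 < c) (X : ℝ × ℝ × E) :
    GG j ρ (c • X) = c⁻¹ • GG j ρ X := by
  have h1 : (fun Y => ff j ρ (c • Y)) = ff j ρ := by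
    funext Y
    unfold ff
    rw [pr_smul j hc.ne']
  have h2 : fderiv ℝ (ff j ρ) X = c • fderiv ℝ (ff j ρ) (c • X) := by
    conv_lhs => rw [← h1]
    exact fderiv_comp_smul c
  have h3 : fderiv ℝ (ff j ρ) (c • X) = c⁻¹ • fderiv ℝ (ff j ρ) X := by
    rw [h2, smul_smul, inv_mul_cancel₀ hc.ne', one_smul]
  unfold GG
  rw [h3]
  simp only [ContinuousLinearMap.smul_apply, ContinuousLinearMap.smul_comp, map_smul, smul_eq_mul,
    Prod.smul_mk, mul_neg]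

/-- piece `JE-L2` (c): at `(1, 0, z)` -/
theorem GG_io {j : E →L[ℝ] E} (hj : Cj j) {ρ : E → ℝ} {z : E} (hz : DifferentiableAt ℝ ρ z) :
    GG j ρ (io z) = (inner ℝ (gradient ρ z) z, inner ℝ (gradient ρ z) (j z), gradient ρ z) := by
  have hX : (io z).1 ^ 2 + (io z).2.1 ^ 2 ≠ 0 := by simp [io]
  have hp : HasFDerivAt (pr j) (fderiv ℝ (pr j) (io z)) (io z) :=
    ((pr_smooth j hX).differentiableAt (by simp)).hasFDerivAt
  have hr : HasFDerivAt ρ (fderiv ℝ ρ z) (pr j (io z)) := by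
    rw [pr_io]
    exact hz.hasFDerivAt
  have h1 : fderiv ℝ (ff j ρ) (io z) = (fderiv ℝ ρ z).comp (fderiv ℝ (pr j) (io z)) :=
    (hr.comp (io z) hp).fderiv
  have h2 : ∀ w : ℝ × ℝ × E, fderiv ℝ (ff j ρ) (io z) w =
      fderiv ℝ ρ z (w.2.2 - w.1 • z - w.2.1 • j z) := by
    intro w
    rw [h1, ContinuousLinearMap.comp_apply, Dpr_io hj]
  have h3 : ∀ v : E, inner ℝ (gradient ρ z) v = fderiv ℝ ρ z v := by
    intro v
    unfold gradient
    rw [InnerProductSpace.toDual_symm_apply]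
  unfold GG
  rw [h2, h2, h3, h3]
  have h4 : (fderiv ℝ (ff j ρ) (io z)).comp ((ContinuousLinearMap.inr ℝ ℝ (ℝ × E)).comp
      (ContinuousLinearMap.inr ℝ ℝ E)) = fderiv ℝ ρ z := by
    ext v
    show fderiv ℝ (ff j ρ) (io z) ((0 : ℝ), (0 : ℝ), v) = _
    rw [h2]
    simp
  rw [h4]
  refine Prod.ext ?_ (Prod.ext ?_ rfl)
  · simp
  · simp

private theorem bl_pos_orth {j : E →L[ℝ] E} (hj : Cj j) (v : E) : inner ℝ v (j v) = 0 := by
  have h1 := hj.inv v (j v)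
  rw [hj.jj, inner_neg_right, real_inner_comm] at h1
  linarith

private theorem bl_pos_bessel {j : E →L[ℝ] E} (hj : Cj j) (u v : E) :
    inner ℝ u v ^ 2 + inner ℝ u (j v) ^ 2 ≤ ‖u‖ ^ 2 * ‖v‖ ^ 2 := by
  set s := inner ℝ u v with hs
  set t := inner ℝ u (j v) with ht
  have h0 := bl_pos_orth hj v
  have hjv : inner ℝ (j v) (j v) = inner ℝ v v := hj.inv v v
  have h1 : inner ℝ u (s • v + t • j v) = s ^ 2 + t ^ 2 := by
    rw [inner_add_right, inner_smul_right, inner_smul_right, ← hs, ← ht]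
    ring
  have h2 : ‖s • v + t • j v‖ ^ 2 = (s ^ 2 + t ^ 2) * ‖v‖ ^ 2 := by
    rw [← real_inner_self_eq_norm_sq, inner_add_left, inner_add_right, inner_add_right,
      real_inner_smul_left, real_inner_smul_left, real_inner_smul_right, real_inner_smul_right,
      real_inner_smul_left, real_inner_smul_left, real_inner_smul_right, real_inner_smul_right,
      hjv, h0, real_inner_comm v (j v), h0, real_inner_self_eq_norm_sq]
    ring
  have h3 : (inner ℝ u (s • v + t • j v)) ^ 2 ≤ ‖u‖ ^ 2 * ‖s • v + t • j v‖ ^ 2 := by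
    have := abs_real_inner_le_norm u (s • v + t • j v)
    rw [← sq_abs, ← mul_pow]
    exact pow_le_pow_left₀ (abs_nonneg _) this 2
  rw [h1, h2] at h3
  rcases eq_or_lt_of_le (show 0 ≤ s ^ 2 + t ^ 2 by positivity) with h4 | h4
  · rw [← h4]
    positivity
  · have h5 : (s ^ 2 + t ^ 2) * (s ^ 2 + t ^ 2) ≤ (s ^ 2 + t ^ 2) * (‖u‖ ^ 2 * ‖v‖ ^ 2) := by
      nlinarith
    exact le_of_mul_le_mul_left h5 h4

/-- piece `JE-L2` (d): `B` is positive definite on the orthogonal complement of `X`, `J X` -/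
theorem BL_pos {j : E →L[ℝ] E} (hj : Cj j) {X w : ℝ × ℝ × E} (hX : BL E X X < 0)
    (h1 : BL E w X = 0) (h2 : BL E w (JL j X) = 0) (hw : w ≠ 0) : 0 < BL E w w := by
  obtain ⟨a, b, v⟩ := X
  obtain ⟨a', b', v'⟩ := w
  rw [BL_apply] at hX h1 h2 ⊢
  rw [JL_apply] at h2
  dsimp only at hX h1 h2 ⊢
  rw [real_inner_self_eq_norm_sq] at hX ⊢
  have hb := bl_pos_bessel hj v' v
  have e1 : inner ℝ v' v = a' * a + b' * b := by linarith
  have e2 : inner ℝ v' (j v) = a' * -b + b' * a := by linarith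
  rw [e1, e2] at hb
  have h3 : (a' ^ 2 + b' ^ 2) * (a ^ 2 + b ^ 2) ≤ ‖v'‖ ^ 2 * ‖v‖ ^ 2 := by nlinarith
  have hc : ‖v‖ ^ 2 < a ^ 2 + b ^ 2 := by nlinarith
  have hv0 : 0 ≤ ‖v‖ ^ 2 := by positivity
  have hc0 : 0 < a ^ 2 + b ^ 2 := lt_of_le_of_lt hv0 hc
  by_cases hv' : v' = 0
  · exfalso
    rw [hv', norm_zero] at h3
    have h4 : a' ^ 2 + b' ^ 2 ≤ 0 := by
      by_contra h5
      push Not at h5
      have := mul_pos h5 hc0
      nlinarith
    have ha : a' = 0 := by nlinarith [sq_nonneg a', sq_nonneg b']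
    have hb' : b' = 0 := by nlinarith [sq_nonneg a', sq_nonneg b']
    exact hw (by rw [ha, hb', hv']; rfl)
  · have hn : 0 < ‖v'‖ ^ 2 := by
      have := norm_pos_iff.2 hv'
      positivity
    have h4 : (a' ^ 2 + b' ^ 2) * (a ^ 2 + b ^ 2) < ‖v'‖ ^ 2 * (a ^ 2 + b ^ 2) :=
      lt_of_le_of_lt h3 (mul_lt_mul_of_pos_left hc hn)
    have h5 : a' ^ 2 + b' ^ 2 < ‖v'‖ ^ 2 := lt_of_mul_lt_mul_right h4 hc0.le
    nlinarith

private theorem gd_open0 : IsOpen {X : ℝ × ℝ × E | BL E X X < 0} := by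
  have h : Continuous fun X : ℝ × ℝ × E => BL E X X :=
    ((BL E).continuous).clm_apply continuous_id
  exact isOpen_lt h continuous_const

private theorem gd_pr {j : E →L[ℝ] E} (hj : Cj j) :
    ContDiffOn ℝ 3 (pr j) {X : ℝ × ℝ × E | BL E X X < 0} := fun X hX =>
  (contDiffAt_infty.1 (pr_smooth j (pr_ball hj hX).1.ne') 3).contDiffWithinAt

private theorem gd_ff {j : E →L[ℝ] E} (hj : Cj j) {ρ : E → ℝ}
    (hs : ContDiffOn ℝ 3 ρ (Metric.ball 0 1)) :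
    ContDiffOn ℝ 3 (ff j ρ) {X : ℝ × ℝ × E | BL E X X < 0} :=
  hs.comp (gd_pr hj) fun X hX => (pr_ball hj hX).2

private theorem gd_dff {j : E →L[ℝ] E} (hj : Cj j) {ρ : E → ℝ}
    (hs : ContDiffOn ℝ 3 ρ (Metric.ball 0 1)) :
    ContDiffOn ℝ 2 (fderiv ℝ (ff j ρ)) {X : ℝ × ℝ × E | BL E X X < 0} :=
  (gd_ff hj hs).fderiv_of_isOpen gd_open0 (by norm_num)

private theorem gd_dual (φ : E →L[ℝ] ℝ) : (InnerProductSpace.toDual ℝ E).symm φ =
    ∑ i, φ (stdOrthonormalBasis ℝ E i) • stdOrthonormalBasis ℝ E i := by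
  conv_lhs => rw [← (stdOrthonormalBasis ℝ E).sum_repr' ((InnerProductSpace.toDual ℝ E).symm φ)]
  refine Finset.sum_congr rfl fun i _ => ?_
  rw [real_inner_comm, InnerProductSpace.toDual_symm_apply]

private theorem gd_GG {j : E →L[ℝ] E} (hj : Cj j) {ρ : E → ℝ}
    (hs : ContDiffOn ℝ 3 ρ (Metric.ball 0 1)) :
    ContDiffOn ℝ 2 (GG j ρ) {X : ℝ × ℝ × E | BL E X X < 0} := by
  have h := gd_dff hj hs
  unfold GG
  refine ContDiffOn.prodMk (h.clm_apply contDiffOn_const).neg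
    (ContDiffOn.prodMk (h.clm_apply contDiffOn_const).neg ?_)
  simp only [gd_dual]
  refine ContDiffOn.sum fun i _ => ContDiffOn.smul ?_ contDiffOn_const
  simp only [ContinuousLinearMap.comp_apply]
  exact h.clm_apply contDiffOn_const

private theorem gd_fd {j : E →L[ℝ] E} (hj : Cj j) {ρ : E → ℝ}
    (hs : ContDiffOn ℝ 3 ρ (Metric.ball 0 1)) {X : ℝ × ℝ × E} (hX : BL E X X < 0)
    (w : ℝ × ℝ × E) : fderiv ℝ (ff j ρ) X w = fderiv ℝ ρ (pr j X) (fderiv ℝ (pr j) X w) := by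
  have h1 : DifferentiableAt ℝ (pr j) X :=
    (pr_smooth j (pr_ball hj hX).1.ne').differentiableAt (by simp)
  have h2 : DifferentiableAt ℝ ρ (pr j X) :=
    ((hs.contDiffAt (Metric.isOpen_ball.mem_nhds (pr_ball hj hX).2)).differentiableAt (by norm_num))
  have h3 := fderiv_comp X h2 h1
  have h4 : ff j ρ = ρ ∘ pr j := rfl
  rw [h4, h3]
  rfl

private theorem gd_onto {j : E →L[ℝ] E} (hj : Cj j) {X : ℝ × ℝ × E} (hX : BL E X X < 0)
    (u : E) : ∃ w : ℝ × ℝ × E, fderiv ℝ (pr j) X w = u := by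
  have h0 := (pr_ball hj hX).1
  have h1 : DifferentiableAt ℝ (pr j) X := (pr_smooth j h0.ne').differentiableAt (by simp)
  refine ⟨(0, 0, X.1 • u + X.2.1 • j u), ?_⟩
  have h2 : HasDerivAt (fun s : ℝ => X + s • ((0, 0, X.1 • u + X.2.1 • j u) : ℝ × ℝ × E))
      (0, 0, X.1 • u + X.2.1 • j u) 0 := by
    simpa using ((hasDerivAt_id (0 : ℝ)).smul_const
      ((0, 0, X.1 • u + X.2.1 • j u) : ℝ × ℝ × E)).const_add X
  have h3 : HasFDerivAt (pr j) (fderiv ℝ (pr j) X)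
      (X + (0 : ℝ) • ((0, 0, X.1 • u + X.2.1 • j u) : ℝ × ℝ × E)) := by
    rw [zero_smul, add_zero]
    exact h1.hasFDerivAt
  have h4 := h3.comp_hasDerivAt (0 : ℝ) h2
  have h5 : (pr j ∘ fun s : ℝ => X + s • ((0, 0, X.1 • u + X.2.1 • j u) : ℝ × ℝ × E)) =
      fun s : ℝ => pr j X + s • u := by
    funext s
    simp only [Function.comp, pr, Prod.fst_add, Prod.snd_add, Prod.smul_fst, Prod.smul_snd,
      smul_zero, add_zero, map_add, map_smul, smul_add, hj.jj]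
    have h6 : (X.1 ^ 2 + X.2.1 ^ 2)⁻¹ * (X.1 ^ 2 + X.2.1 ^ 2) = 1 := inv_mul_cancel₀ h0.ne'
    generalize (X.1 ^ 2 + X.2.1 ^ 2)⁻¹ = c at h6 ⊢
    match_scalars <;> first | ring1 | linear_combination s * h6
  rw [h5] at h4
  have h6 : HasDerivAt (fun s : ℝ => pr j X + s • u) u 0 := by
    simpa using ((hasDerivAt_id (0 : ℝ)).smul_const u).const_add (pr j X)
  exact h4.unique h6

/-- piece `JE-L2` (e): `pr (X + s • X) = pr X`, `pr (X + s • J X) = pr X` give `gx`, `gjx`; `pos` by `BL_pos`: `GG X ≠ 0`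
because `fderiv ff X ≠ 0` (`fderiv ff X ∘ (0, 0, ·)` is `fderiv ρ (pr X)` composed with `v ↦ pr j (a, b, v)`, which is onto);
`sym`: second derivatives of `ff` are symmetric. -/
theorem gdL {j : E →L[ℝ] E} (hj : Cj j) {ρ : E → ℝ} (hs : ContDiffOn ℝ 3 ρ (Metric.ball 0 1)) :
    Gd (BL E) (JL j) (UU j ρ) (GG j ρ) := by
  have hgx : ∀ X ∈ UU j ρ, BL E (GG j ρ X) X = 0 := fun X hX => by
    rw [GG_B, gd_fd hj hs hX.1, Dpr_X j (pr_ball hj hX.1).1.ne', map_zero]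
  have hgjx : ∀ X ∈ UU j ρ, BL E (GG j ρ X) (JL j X) = 0 := fun X hX => by
    rw [GG_B, gd_fd hj hs hX.1, Dpr_JX hj (pr_ball hj hX.1).1.ne', map_zero]
  refine ⟨?_, (gd_GG hj hs).mono fun X hX => hX.1, fun X hX => hX.1, fun X hX => ?_, hgx, hgjx,
    fun X hX v w => ?_⟩
  · have h1 : ContinuousOn (fun X : ℝ × ℝ × E => fderiv ℝ ρ (pr j X))
        {X : ℝ × ℝ × E | BL E X X < 0} := by
      refine ContinuousOn.comp (t := Metric.ball (0 : E) 1) ?_ (gd_pr hj).continuousOn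
        fun X hX => (pr_ball hj hX).2
      exact (hs.fderiv_of_isOpen (m := 2) Metric.isOpen_ball (by norm_num)).continuousOn
    have h2 := h1.isOpen_inter_preimage gd_open0 (isOpen_compl_singleton (x := (0 : E →L[ℝ] ℝ)))
    exact h2
  · refine BL_pos hj hX.1 (hgx X hX) (hgjx X hX) fun h0 => hX.2 ?_
    ext u
    obtain ⟨w, hw⟩ := gd_onto hj hX.1 u
    rw [← hw, ← gd_fd hj hs hX.1, ← GG_B, h0, map_zero]
    rfl
  · have hO := gd_open0.mem_nhds (show X ∈ {X : ℝ × ℝ × E | BL E X X < 0} from hX.1)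
    have hG : DifferentiableAt ℝ (GG j ρ) X :=
      ((gd_GG hj hs).contDiffAt hO).differentiableAt (by norm_num)
    have hF : DifferentiableAt ℝ (fderiv ℝ (ff j ρ)) X :=
      ((gd_dff hj hs).contDiffAt hO).differentiableAt (by norm_num)
    have key : ∀ v w : ℝ × ℝ × E, BL E (fderiv ℝ (GG j ρ) X v) w =
        fderiv ℝ (fderiv ℝ (ff j ρ)) X v w := by
      intro v w
      have e1 : HasFDerivAt (fun Y => BL E (GG j ρ Y) w)
          (((BL E).flip w).comp (fderiv ℝ (GG j ρ) X)) X :=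
        ((BL E).flip w).hasFDerivAt.comp X hG.hasFDerivAt
      have e2 : HasFDerivAt (fun Y => fderiv ℝ (ff j ρ) Y w)
          ((ContinuousLinearMap.apply ℝ ℝ w).comp (fderiv ℝ (fderiv ℝ (ff j ρ)) X)) X :=
        (ContinuousLinearMap.apply ℝ ℝ w).hasFDerivAt.comp X hF.hasFDerivAt
      have e3 : (fun Y => BL E (GG j ρ Y) w) = fun Y => fderiv ℝ (ff j ρ) Y w :=
        funext fun Y => GG_B j ρ Y w
      rw [e3] at e1
      have e4 := e1.unique e2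
      have e5 := congrArg (fun f : (ℝ × ℝ × E) →L[ℝ] ℝ => f v) e4
      exact e5
    rw [key, key]
    exact ((gd_ff hj hs).contDiffAt hO).isSymmSndFDerivAt
      (by rw [minSmoothness_of_isRCLikeNormedField]; norm_num) v w

private theorem L3_basis {L : Type*} [AddCommGroup L] [Module ℝ L] [FiniteDimensional ℝ L]
    (b : LinearMap.BilinForm ℝ L) (hs : ∀ u v, b u v = b v u) (D : Submodule ℝ L)
    (hp : ∀ w ∈ D, w ≠ 0 → 0 < b w w) :
    ∃ (d : ℕ) (f : Fin d → L), (∀ i, f i ∈ D) ∧ (∀ i j, b (f i) (f j) = if i = j then 1 else 0) ∧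
      ∀ w ∈ D, w = ∑ i, b w (f i) • f i := by
  haveI : Invertible (2 : ℝ) := invertibleOfNonzero two_ne_zero
  obtain ⟨v, hv⟩ := LinearMap.BilinForm.exists_orthogonal_basis (B := b.restrict D)
    ⟨fun x y => hs x y⟩
  have hv0 : ∀ i, 0 < b (v i : L) (v i : L) := fun i =>
    hp _ (v i).2 fun h => v.ne_zero i (Subtype.ext h)
  have hvo : ∀ i j, i ≠ j → b (v i : L) (v j : L) = 0 := fun i j hij => hv hij
  refine ⟨_, fun i => (√(b (v i : L) (v i : L)))⁻¹ • (v i : L), fun i => D.smul_mem _ (v i).2,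
    fun i j => ?_, fun w hw => ?_⟩
  · simp only [map_smul, LinearMap.smul_apply, smul_eq_mul]
    by_cases hij : i = j
    · subst hij
      rw [if_pos rfl]
      have h1 : √(b (v i : L) (v i : L)) ≠ 0 := (Real.sqrt_pos.2 (hv0 i)).ne'
      have h2 := Real.mul_self_sqrt (hv0 i).le
      field_simp
      rw [sq, h2]
    · rw [if_neg hij, hvo i j hij, mul_zero, mul_zero]
  · have h1 : w = ∑ i, v.repr ⟨w, hw⟩ i • (v i : L) := by
      have h2 := congrArg (fun x : D => (x : L)) (v.sum_repr ⟨w, hw⟩)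
      simp only [AddSubmonoidClass.coe_finset_sum, Submodule.coe_smul] at h2
      exact h2.symm
    have h3 : ∀ i, b w (v i : L) = v.repr ⟨w, hw⟩ i * b (v i : L) (v i : L) := by
      intro i
      conv_lhs => rw [h1]
      rw [map_sum, LinearMap.sum_apply, Finset.sum_eq_single i]
      · rw [map_smul, LinearMap.smul_apply, smul_eq_mul]
      · intro k _ hk
        rw [map_smul, LinearMap.smul_apply, hvo k i hk, smul_zero]
      · intro h
        exact absurd (Finset.mem_univ i) h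
    conv_lhs => rw [h1]
    refine Finset.sum_congr rfl fun i _ => ?_
    rw [map_smul, h3, smul_smul, smul_eq_mul]
    congr 1
    have h4 : √(b (v i : L) (v i : L)) ≠ 0 := (Real.sqrt_pos.2 (hv0 i)).ne'
    have h5 := Real.mul_self_sqrt (hv0 i).le
    field_simp
    rw [sq, h5]

/-- piece `JE-L3`: frames exist (`κ = Fin d`). Proof: on `D = {w | B w X = B w (J X) = B w ν = B w (J ν) = 0}` the form is positive
definite (`BL_pos`), `LinearMap.BilinForm.exists_orthogonal_basis` (or Gram-Schmidt) gives an orthogonal basis, normalise;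
`comp`: the difference of the two sides is in `D` and orthogonal to the basis. -/
theorem exists_fr {j : E →L[ℝ] E} (hj : Cj j) {X ν : ℝ × ℝ × E} (hxx : BL E X X = -1)
    (hnn : BL E ν ν = 1) (h1 : BL E ν X = 0) (h2 : BL E ν (JL j X) = 0) :
    ∃ (d : ℕ) (e : Option (Fin d) → ℝ × ℝ × E), Fr (BL E) (JL j) X ν e := by
  have F := hfL (E := E) hj
  -- orthogonality relations
  have xjx : BL E X (JL j X) = 0 := by
    have h := F.inv X (JL j X)
    rw [F.jj, map_neg, F.symm (JL j X) X] at h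
    linarith
  have njn : BL E ν (JL j ν) = 0 := by
    have h := F.inv ν (JL j ν)
    rw [F.jj, map_neg, F.symm (JL j ν) ν] at h
    linarith
  have jxjx : BL E (JL j X) (JL j X) = -1 := by rw [F.inv, hxx]
  have jnjn : BL E (JL j ν) (JL j ν) = 1 := by rw [F.inv, hnn]
  have jnx : BL E (JL j ν) X = 0 := by
    have h := F.inv (JL j ν) X
    rw [F.jj, map_neg, ContinuousLinearMap.neg_apply, h2] at h
    linarith
  have jnjx : BL E (JL j ν) (JL j X) = 0 := by rw [F.inv, h1]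
  -- the complement
  let D : Submodule ℝ (ℝ × ℝ × E) :=
    { carrier := {w | BL E w X = 0 ∧ BL E w (JL j X) = 0 ∧ BL E w ν = 0 ∧ BL E w (JL j ν) = 0}
      add_mem' := by
        rintro u v ⟨a1, a2, a3, a4⟩ ⟨b1, b2, b3, b4⟩
        refine ⟨?_, ?_, ?_, ?_⟩ <;> rw [map_add, ContinuousLinearMap.add_apply]
        · rw [a1, b1, add_zero]
        · rw [a2, b2, add_zero]
        · rw [a3, b3, add_zero]
        · rw [a4, b4, add_zero]
      zero_mem' := by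
        refine ⟨?_, ?_, ?_, ?_⟩ <;> rw [map_zero, ContinuousLinearMap.zero_apply]
      smul_mem' := by
        rintro c v ⟨b1, b2, b3, b4⟩
        refine ⟨?_, ?_, ?_, ?_⟩ <;> rw [map_smul, ContinuousLinearMap.smul_apply]
        · rw [b1, smul_zero]
        · rw [b2, smul_zero]
        · rw [b3, smul_zero]
        · rw [b4, smul_zero] }
  let b : LinearMap.BilinForm ℝ (ℝ × ℝ × E) := LinearMap.mk₂ ℝ (fun u v => BL E u v)
    (fun u u' v => by rw [map_add, ContinuousLinearMap.add_apply])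
    (fun c u v => by rw [map_smul, ContinuousLinearMap.smul_apply])
    (fun u v v' => by rw [map_add]) (fun c u v => by rw [map_smul])
  have hb : ∀ u v, b u v = BL E u v := fun _ _ => rfl
  obtain ⟨d, f, hfD, hfo, hfc⟩ := L3_basis b (fun u v => F.symm u v) D
    (fun w hw hw0 => BL_pos hj (by rw [hxx]; norm_num) hw.1 hw.2.1 hw0)
  have fD : ∀ i, BL E (f i) X = 0 ∧ BL E (f i) (JL j X) = 0 ∧ BL E (f i) ν = 0 ∧
      BL E (f i) (JL j ν) = 0 := hfD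
  refine ⟨d, fun i => i.elim (JL j ν) f, rfl, ?_, ?_, ?_⟩
  · rintro (_ | i)
    · exact ⟨jnx, jnjx, by rw [F.symm]; exact njn⟩
    · exact ⟨(fD i).1, (fD i).2.1, (fD i).2.2.1⟩
  · rintro (_ | i) (_ | k)
    · exact jnjn
    · change BL E (JL j ν) (f k) = _
      rw [F.symm, (fD k).2.2.2, if_neg (by simp)]
    · change BL E (f i) (JL j ν) = _
      rw [(fD i).2.2.2, if_neg (by simp)]
    · change BL E (f i) (f k) = _
      have := hfo i k
      rw [hb] at this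
      rw [this]
      by_cases hik : i = k
      · rw [if_pos hik, if_pos (by rw [hik])]
      · rw [if_neg hik, if_neg (by simpa using hik)]
  · intro w
    rw [Fintype.sum_option]
    change w = -(BL E w X • X) - BL E w (JL j X) • JL j X + BL E w ν • ν +
      (BL E w (JL j ν) • JL j ν + ∑ i, BL E w (f i) • f i)
    set w' : ℝ × ℝ × E := w + BL E w X • X + BL E w (JL j X) • JL j X - BL E w ν • ν -
      BL E w (JL j ν) • JL j ν with hw'
    have e : ∀ y, BL E w' y = BL E w y + BL E w X * BL E X y + BL E w (JL j X) * BL E (JL j X) y -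
        BL E w ν * BL E ν y - BL E w (JL j ν) * BL E (JL j ν) y := by
      intro y
      rw [hw']
      simp only [map_add, map_sub, map_smul, ContinuousLinearMap.add_apply,
        ContinuousLinearMap.sub_apply, ContinuousLinearMap.smul_apply, smul_eq_mul]
    have hwD : w' ∈ D := by
      refine ⟨?_, ?_, ?_, ?_⟩
      · rw [e, hxx, F.symm (JL j X) X, xjx, h1, jnx]
        ring
      · rw [e, xjx, jxjx, h2, jnjx]
        ring
      · rw [e, F.symm X ν, h1, F.symm (JL j X) ν, h2, hnn, F.symm (JL j ν) ν, njn]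
        ring
      · rw [e, F.symm X (JL j ν), jnx, F.symm (JL j X) (JL j ν), jnjx, njn, jnjn]
        ring
    have h3 := hfc w' hwD
    have h4 : ∀ i, b w' (f i) = BL E w (f i) := by
      intro i
      rw [hb, e, F.symm X (f i), (fD i).1, F.symm (JL j X) (f i), (fD i).2.1, F.symm ν (f i),
        (fD i).2.2.1, F.symm (JL j ν) (f i), (fD i).2.2.2]
      ring
    have h5 : ∑ i, b w' (f i) • f i = ∑ i, BL E w (f i) • f i :=
      Finset.sum_congr rfl fun i _ => by rw [h4]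
    rw [h5] at h3
    rw [← h3, hw']
    abel

/-- the field on the ball of a field on the cone -/
noncomputable def dn (j : E →L[ℝ] E) (V : ℝ × ℝ × E → ℝ × ℝ × E) (z : E) : E :=
  (V (io z)).2.2 - (V (io z)).1 • z - (V (io z)).2.1 • j z

private theorem tr_sm_h85 {L : Type*} [NormedAddCommGroup L] [NormedSpace ℝ L]
    [FiniteDimensional ℝ L] (f : L →ₗ[ℝ] ℝ) (x : L) :
    LinearMap.trace ℝ L (f.smulRight x) = f x := by
  have h : f.smulRight x = dualTensorHom ℝ L L (f ⊗ₜ[ℝ] x) := by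
    ext w
    simp [dualTensorHom_apply]
  rw [h, LinearMap.trace_eq_contract_apply, contractLeft_apply]

private theorem tr_prod_h85 {M N : Type*} [NormedAddCommGroup M] [NormedSpace ℝ M]
    [FiniteDimensional ℝ M] [NormedAddCommGroup N] [NormedSpace ℝ N] [FiniteDimensional ℝ N]
    (P : (M × N) →ₗ[ℝ] (M × N)) :
    LinearMap.trace ℝ (M × N) P =
      LinearMap.trace ℝ M (LinearMap.fst ℝ M N ∘ₗ P ∘ₗ LinearMap.inl ℝ M N) +
      LinearMap.trace ℝ N (LinearMap.snd ℝ M N ∘ₗ P ∘ₗ LinearMap.inr ℝ M N) := by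
  have h1 : P = (P ∘ₗ LinearMap.inl ℝ M N) ∘ₗ LinearMap.fst ℝ M N +
      (P ∘ₗ LinearMap.inr ℝ M N) ∘ₗ LinearMap.snd ℝ M N := by
    refine LinearMap.ext fun v => ?_
    show P v = P (v.1, 0) + P (0, v.2)
    rw [← map_add]
    congr 1
    simp
  conv_lhs => rw [h1]
  rw [map_add, LinearMap.trace_comp_comm' (P ∘ₗ LinearMap.inl ℝ M N) (LinearMap.fst ℝ M N),
    LinearMap.trace_comp_comm' (P ∘ₗ LinearMap.inr ℝ M N) (LinearMap.snd ℝ M N)]

private theorem tr_real_h85 (f : ℝ →ₗ[ℝ] ℝ) : LinearMap.trace ℝ ℝ f = f 1 := by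
  have h : f = f.smulRight (1 : ℝ) := by
    refine LinearMap.ext fun t => ?_
    simp
  conv_lhs => rw [h]
  rw [tr_sm_h85]

private theorem tr_L_h85 (P : (ℝ × ℝ × E) →ₗ[ℝ] (ℝ × ℝ × E)) :
    LinearMap.trace ℝ (ℝ × ℝ × E) P = (P (1, 0, 0)).1 + ((P (0, 1, 0)).2.1 +
      LinearMap.trace ℝ E ((LinearMap.snd ℝ ℝ E ∘ₗ LinearMap.snd ℝ ℝ (ℝ × E)) ∘ₗ P ∘ₗ
        (LinearMap.inr ℝ ℝ (ℝ × E) ∘ₗ LinearMap.inr ℝ ℝ E))) := by
  rw [tr_prod_h85, tr_prod_h85, tr_real_h85, tr_real_h85]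
  rfl

private theorem tr_j_h85 {j : E →L[ℝ] E} (hj : Cj j) :
    LinearMap.trace ℝ E (j : E →ₗ[ℝ] E) = 0 := by
  have hs : ∀ u v : E, inner ℝ (j u) v = -inner ℝ u (j v) := by
    intro u v
    have h := hj.inv u (j v)
    rw [hj.jj, inner_neg_right] at h
    linarith
  have h0 : ∀ v : E, inner ℝ v (j v) = (0 : ℝ) := by
    intro v
    have h := hs v v
    rw [real_inner_comm] at h
    linarith
  rw [LinearMap.trace_eq_sum_inner _ (stdOrthonormalBasis ℝ E)]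
  exact Finset.sum_eq_zero fun i _ => h0 _

/-- piece `JE-L4`: the divergence of the projected field.  (`D (dn V) h = (D V (0,0,h)).2.2 - .. `; the trace over
`ℝ × ℝ × E` is the sum of the diagonal terms; `(1, 0, 0) = X - (0, 0, z)`, `(0, 1, 0) = J X - (0, 0, j z)`.) -/
theorem descent {j : E →L[ℝ] E} (hj : Cj j) {n : ℕ} (hn : Module.finrank ℝ E = 2 * n)
    {V : ℝ × ℝ × E → ℝ × ℝ × E} {z : E} (hz : ‖z‖ < 1) (hV : DifferentiableAt ℝ V (io z))
    (h1 : fderiv ℝ V (io z) (io z) = V (io z))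
    (h2 : fderiv ℝ V (io z) (JL j (io z)) = JL j (V (io z)))
    (h3 : BL E (V (io z)) (io z) = 0) :
    divg (fun y => ((1 - ‖y‖ ^ 2) ^ (n + 1))⁻¹ • dn j V y) z =
      ((1 - ‖z‖ ^ 2) ^ (n + 1))⁻¹ *
        LinearMap.trace ℝ _ (fderiv ℝ V (io z) : (ℝ × ℝ × E) →ₗ[ℝ] (ℝ × ℝ × E)) := by
  have hzz : 0 < 1 - ‖z‖ ^ 2 := by
    have := norm_nonneg z
    nlinarith
  set P : (ℝ × ℝ × E) →L[ℝ] (ℝ × ℝ × E) := fderiv ℝ V (io z) with hP
  -- the inclusion
  set ι : E →L[ℝ] (ℝ × ℝ × E) :=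
    (ContinuousLinearMap.inr ℝ ℝ (ℝ × E)).comp (ContinuousLinearMap.inr ℝ ℝ E) with hι
  have hι1 : ∀ v : E, ι v = ((0 : ℝ), (0 : ℝ), v) := fun v => rfl
  have hio : HasFDerivAt (io : E → ℝ × ℝ × E) ι z := by
    have e1 : (io : E → ℝ × ℝ × E) = fun y => ((1, 0, 0) : ℝ × ℝ × E) + ι y := by
      funext y
      show ((1, 0, y) : ℝ × ℝ × E) = (1 + 0, 0 + 0, 0 + y)
      simp
    rw [e1]
    exact ι.hasFDerivAt.const_add _
  have hVio : HasFDerivAt (fun y : E => V (io y)) (P.comp ι) z := hV.hasFDerivAt.comp z hio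
  have hA : HasFDerivAt (fun y : E => (V (io y)).1) ((p1 E).comp (P.comp ι)) z :=
    (p1 E).hasFDerivAt.comp z hVio
  have hB : HasFDerivAt (fun y : E => (V (io y)).2.1) ((p2 E).comp (P.comp ι)) z :=
    (p2 E).hasFDerivAt.comp z hVio
  have hC : HasFDerivAt (fun y : E => (V (io y)).2.2) ((p3 E).comp (P.comp ι)) z :=
    (p3 E).hasFDerivAt.comp z hVio
  have hA' := hA.smul (hasFDerivAt_id z)
  have hB' := hB.smul (j.hasFDerivAt (x := z))
  have hdn : HasFDerivAt (dn j V) ((p3 E).comp (P.comp ι) -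
      ((V (io z)).1 • ContinuousLinearMap.id ℝ E + ((p1 E).comp (P.comp ι)).smulRight z) -
      ((V (io z)).2.1 • j + ((p2 E).comp (P.comp ι)).smulRight (j z))) z :=
    (hC.sub hA').sub hB'
  -- the factor
  have hc : HasFDerivAt (fun y : E => ((1 - ‖y‖ ^ 2) ^ (n + 1))⁻¹)
      ((2 * ((n : ℝ) + 1) * ((1 - ‖z‖ ^ 2) ^ (n + 2))⁻¹) • innerSL ℝ z) z := by
    have e1 : HasFDerivAt (fun y : E => 1 - ‖y‖ ^ 2) (-((2 : ℝ) • innerSL ℝ z)) z := by
      have := (hasStrictFDerivAt_norm_sq z).hasFDerivAt.const_sub (1 : ℝ)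
      rwa [two_nsmul, ← two_smul ℝ] at this
    have e2 : HasDerivAt (fun t : ℝ => (t ^ (n + 1))⁻¹)
        (-(((n + 1 : ℕ) : ℝ) * (1 - ‖z‖ ^ 2) ^ n) / ((1 - ‖z‖ ^ 2) ^ (n + 1)) ^ 2)
        (1 - ‖z‖ ^ 2) := by
      have hne : (1 - ‖z‖ ^ 2) ^ (n + 1) ≠ 0 := pow_ne_zero _ hzz.ne'
      have := HasDerivAt.fun_inv (c := fun t : ℝ => t ^ (n + 1))
        (hasDerivAt_pow (n + 1) (1 - ‖z‖ ^ 2)) hne
      simpa using this
    have e3 := e2.comp_hasFDerivAt z e1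
    refine e3.congr_fderiv ?_
    refine ContinuousLinearMap.ext fun v => ?_
    show (-(((n + 1 : ℕ) : ℝ) * (1 - ‖z‖ ^ 2) ^ n) / ((1 - ‖z‖ ^ 2) ^ (n + 1)) ^ 2) *
      -(2 * inner ℝ z v) = (2 * ((n : ℝ) + 1) * ((1 - ‖z‖ ^ 2) ^ (n + 2))⁻¹) * inner ℝ z v
    have hne := hzz.ne'
    generalize 1 - ‖z‖ ^ 2 = q at hne ⊢
    push_cast
    field_simp
    ring
  have hW := hc.smul hdn
  have key : ((((1 - ‖z‖ ^ 2) ^ (n + 1))⁻¹ • ((p3 E).comp (P.comp ι) -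
      ((V (io z)).1 • ContinuousLinearMap.id ℝ E + ((p1 E).comp (P.comp ι)).smulRight z) -
      ((V (io z)).2.1 • j + ((p2 E).comp (P.comp ι)).smulRight (j z))) +
      ((2 * ((n : ℝ) + 1) * ((1 - ‖z‖ ^ 2) ^ (n + 2))⁻¹) • innerSL ℝ z).smulRight (dn j V z) :
      E →L[ℝ] E) : E →ₗ[ℝ] E) =
      ((1 - ‖z‖ ^ 2) ^ (n + 1))⁻¹ • ((((p3 E).comp (P.comp ι) : E →L[ℝ] E) : E →ₗ[ℝ] E) -
      ((V (io z)).1 • LinearMap.id + (((p1 E).comp (P.comp ι) : E →L[ℝ] ℝ) : E →ₗ[ℝ] ℝ).smulRight z) -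
      ((V (io z)).2.1 • (j : E →ₗ[ℝ] E) +
        (((p2 E).comp (P.comp ι) : E →L[ℝ] ℝ) : E →ₗ[ℝ] ℝ).smulRight (j z))) +
      ((((2 * ((n : ℝ) + 1) * ((1 - ‖z‖ ^ 2) ^ (n + 2))⁻¹) • innerSL ℝ z : E →L[ℝ] ℝ)) :
        E →ₗ[ℝ] ℝ).smulRight (dn j V z) := rfl
  have hdiv : divg (fun y => ((1 - ‖y‖ ^ 2) ^ (n + 1))⁻¹ • dn j V y) z =
      ((1 - ‖z‖ ^ 2) ^ (n + 1))⁻¹ *
        (LinearMap.trace ℝ E (((p3 E).comp (P.comp ι) : E →L[ℝ] E) : E →ₗ[ℝ] E) -
        ((V (io z)).1 * (2 * n) + (P (ι z)).1) - (0 + (P (ι (j z))).2.1)) +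
      (2 * ((n : ℝ) + 1) * ((1 - ‖z‖ ^ 2) ^ (n + 2))⁻¹) * inner ℝ z (dn j V z) := by
    unfold divg
    have e : fderiv ℝ (fun y => ((1 - ‖y‖ ^ 2) ^ (n + 1))⁻¹ • dn j V y) z = _ := hW.fderiv
    rw [e, key, map_add, map_smul, map_sub, map_sub, map_add, map_add, map_smul, map_smul,
      LinearMap.trace_id, hn, tr_sm_h85, tr_sm_h85, tr_sm_h85, tr_j_h85 hj, smul_zero]
    push_cast
    rfl
  have e1 : P ((1 : ℝ), (0 : ℝ), (0 : E)) = V (io z) - P (ι z) := by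
    have : ((1 : ℝ), (0 : ℝ), (0 : E)) = io z - ι z := by
      rw [hι1]
      show ((1 : ℝ), (0 : ℝ), (0 : E)) = (1 - 0, 0 - 0, z - z)
      simp
    rw [this, map_sub, h1]
  have e2 : P ((0 : ℝ), (1 : ℝ), (0 : E)) = JL j (V (io z)) - P (ι (j z)) := by
    have : ((0 : ℝ), (1 : ℝ), (0 : E)) = JL j (io z) - ι (j z) := by
      rw [hι1, JL_apply]
      show ((0 : ℝ), (1 : ℝ), (0 : E)) = (-0 - 0, 1 - 0, j z - j z)
      simp
    rw [this, map_sub, h2]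
  have htr : LinearMap.trace ℝ _ (P : (ℝ × ℝ × E) →ₗ[ℝ] (ℝ × ℝ × E)) =
      ((V (io z)).1 - (P (ι z)).1) + (((V (io z)).1 - (P (ι (j z))).2.1) +
        LinearMap.trace ℝ E (((p3 E).comp (P.comp ι) : E →L[ℝ] E) : E →ₗ[ℝ] E)) := by
    rw [tr_L_h85]
    have e3 : ((P : (ℝ × ℝ × E) →ₗ[ℝ] (ℝ × ℝ × E)) (1, 0, 0)).1 =
        (V (io z)).1 - (P (ι z)).1 := by
      show (P ((1 : ℝ), (0 : ℝ), (0 : E))).1 = _
      rw [e1]
      rfl
    have e4 : ((P : (ℝ × ℝ × E) →ₗ[ℝ] (ℝ × ℝ × E)) (0, 1, 0)).2.1 =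
        (V (io z)).1 - (P (ι (j z))).2.1 := by
      show (P ((0 : ℝ), (1 : ℝ), (0 : E))).2.1 = _
      rw [e2]
      rfl
    rw [e3, e4]
    rfl
  have hzj : inner ℝ z (j z) = (0 : ℝ) := by
    have h := hj.inv z (j z)
    rw [hj.jj, inner_neg_right, real_inner_comm] at h
    linarith
  have hV3 : inner ℝ z (V (io z)).2.2 = (V (io z)).1 := by
    rw [BL_apply] at h3
    have h3' : inner ℝ (V (io z)).2.2 z - ((V (io z)).1 * 1 + (V (io z)).2.1 * 0) = 0 := h3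
    rw [real_inner_comm]
    linarith
  have hzd : inner ℝ z (dn j V z) = (V (io z)).1 * (1 - ‖z‖ ^ 2) := by
    unfold dn
    rw [inner_sub_right, inner_sub_right, inner_smul_right, inner_smul_right, hzj, hV3,
      real_inner_self_eq_norm_sq]
    ring
  rw [hdiv, htr, hzd]
  have hne := hzz.ne'
  generalize 1 - ‖z‖ ^ 2 = q at hne ⊢
  field_simp
  ring

private theorem rr_smul_h80 {G : ℝ × ℝ × E → ℝ × ℝ × E}
    (hG : ∀ c : ℝ, 0 < c → ∀ X, G (c • X) = c⁻¹ • G X) {c : ℝ} (hc : 0 < c) (X : ℝ × ℝ × E) :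
    rr (BL E) G (c • X) = c⁻¹ * rr (BL E) G X := by
  unfold rr
  rw [hG c hc X]
  have h : BL E (c⁻¹ • G X) (c⁻¹ • G X) = c⁻¹ ^ 2 * BL E (G X) (G X) := by
    simp only [map_smul, ContinuousLinearMap.smul_apply, smul_eq_mul]
    ring
  rw [h, Real.sqrt_mul (sq_nonneg _), Real.sqrt_sq (inv_pos.2 hc).le]

private theorem nu_smul_h80 {G : ℝ × ℝ × E → ℝ × ℝ × E}
    (hG : ∀ c : ℝ, 0 < c → ∀ X, G (c • X) = c⁻¹ • G X) {c : ℝ} (hc : 0 < c) (X : ℝ × ℝ × E) :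
    nu (BL E) G (c • X) = nu (BL E) G X := by
  unfold nu
  rw [rr_smul_h80 hG hc X, hG c hc X, smul_smul]
  congr 1
  rw [mul_inv, inv_inv]
  field_simp

private theorem NN_smul_h80 {G : ℝ × ℝ × E → ℝ × ℝ × E}
    (hG : ∀ c : ℝ, 0 < c → ∀ X, G (c • X) = c⁻¹ • G X) {c : ℝ} (hc : 0 < c) (X : ℝ × ℝ × E) :
    NN (BL E) G (c • X) = c⁻¹ • NN (BL E) G X := by
  unfold NN
  have h1 : (fun Y => nu (BL E) G (c • Y)) = nu (BL E) G := funext fun Y => nu_smul_h80 hG hc Y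
  have h2 := fderiv_comp_smul (𝕜 := ℝ) (f := nu (BL E) G) (x := X) c
  rw [h1] at h2
  rw [h2, smul_smul, inv_mul_cancel₀ hc.ne', one_smul]

private theorem tt_smul_h80 (c : ℝ) (X : ℝ × ℝ × E) :
    tt (BL E) (c • X) = c ^ 2 * tt (BL E) X := by
  unfold tt
  simp only [map_smul, ContinuousLinearMap.smul_apply, smul_eq_mul]
  ring

private theorem sqrt_tt_smul_h80 {c : ℝ} (hc : 0 < c) (X : ℝ × ℝ × E) :
    √(tt (BL E) (c • X)) = c * √(tt (BL E) X) := by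
  rw [tt_smul_h80, Real.sqrt_mul (sq_nonneg _), Real.sqrt_sq hc.le]

/-- piece `JE-L5`: homogeneity -/
theorem NN_smul {G : ℝ × ℝ × E → ℝ × ℝ × E}
    (hG : ∀ c : ℝ, 0 < c → ∀ X, G (c • X) = c⁻¹ • G X) {c : ℝ} (hc : 0 < c) (X : ℝ × ℝ × E) :
    nu (BL E) G (c • X) = nu (BL E) G X ∧ NN (BL E) G (c • X) = c⁻¹ • NN (BL E) G X ∧
    fderiv ℝ (NN (BL E) G) (c • X) = (c⁻¹ ^ 2) • fderiv ℝ (NN (BL E) G) X := by
  refine ⟨nu_smul_h80 hG hc X, NN_smul_h80 hG hc X, ?_⟩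
  have h1 : (fun Y => NN (BL E) G (c • Y)) = c⁻¹ • NN (BL E) G :=
    funext fun Y => NN_smul_h80 hG hc Y
  have h2 := fderiv_comp_smul (𝕜 := ℝ) (f := NN (BL E) G) (x := X) c
  have h4 := congrFun (fderiv_const_smul_field (𝕜 := ℝ) (f := NN (BL E) G) c⁻¹) X
  rw [h1, h4] at h2
  have h3 : fderiv ℝ (NN (BL E) G) (c • X) =
      c⁻¹ • (c • fderiv ℝ (NN (BL E) G) (c • X)) := by
    rw [smul_smul, inv_mul_cancel₀ hc.ne', one_smul]
  rw [h3, ← h2, Pi.smul_apply, smul_smul, sq]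

theorem VV_smul {j : E →L[ℝ] E} {G : ℝ × ℝ × E → ℝ × ℝ × E}
    (hG : ∀ c : ℝ, 0 < c → ∀ X, G (c • X) = c⁻¹ • G X) (lam m : ℝ) (p : ℝ × ℝ × E) {c : ℝ}
    (hc : 0 < c) (X : ℝ × ℝ × E) :
    VV (BL E) (JL j) lam m p G (c • X) = c • VV (BL E) (JL j) lam m p G X ∧
    fderiv ℝ (VV (BL E) (JL j) lam m p G) (c • X) = fderiv ℝ (VV (BL E) (JL j) lam m p G) X := by
  have key : ∀ Y, VV (BL E) (JL j) lam m p G (c • Y) = c • VV (BL E) (JL j) lam m p G Y := by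
    intro Y
    have hxs : xs (BL E) (c • Y) = xs (BL E) Y := by
      unfold xs
      rw [sqrt_tt_smul_h80 hc, smul_smul]
      congr 1
      rw [mul_inv]
      field_simp
    have hSS : SS (BL E) G (c • Y) = SS (BL E) G Y := by
      unfold SS
      rw [sqrt_tt_smul_h80 hc, NN_smul_h80 hG hc, smul_smul]
      congr 1
      field_simp
    unfold VV
    rw [hxs, hSS, nu_smul_h80 hG hc, rr_smul_h80 hG hc, tt_smul_h80, smul_smul]
    congr 1
    field_simp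
  refine ⟨key X, ?_⟩
  have h1 : (fun Y => VV (BL E) (JL j) lam m p G (c • Y)) = c • VV (BL E) (JL j) lam m p G :=
    funext key
  have h2 := fderiv_comp_smul (𝕜 := ℝ) (f := VV (BL E) (JL j) lam m p G) (x := X) c
  rw [h1, fderiv_const_smul_field, Pi.smul_apply] at h2
  exact (smul_right_injective _ hc.ne' h2).symm

/-- the function whose restriction to the hypersurface is the mean curvature -/
noncomputable def mc (j : E →L[ℝ] E) (ρ : E → ℝ) (z : E) : ℝ :=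
  √(1 - ‖z‖ ^ 2) *
    LinearMap.trace ℝ _ (NN (BL E) (GG j ρ) (io z) : (ℝ × ℝ × E) →ₗ[ℝ] (ℝ × ℝ × E))

/-- piece `JE-L6` (a): the unit normal: `g⁻¹ v = (1 - ‖z‖²) (v - ⟪z, v⟫ z - ⟪j z, v⟫ j z)` -/
theorem normal_eq {j : E →L[ℝ] E} (hj : Cj j) {ρ : E → ℝ} {z : E} (hz : ‖z‖ < 1)
    (hd : DifferentiableAt ℝ ρ z) (hr : fderiv ℝ ρ z ≠ 0) :
    (√(inner ℝ (gradient ρ z) ((1 - ‖z‖ ^ 2) • (gradient ρ z - inner ℝ z (gradient ρ z) • z -
        inner ℝ (j z) (gradient ρ z) • j z))))⁻¹ •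
      ((1 - ‖z‖ ^ 2) • (gradient ρ z - inner ℝ z (gradient ρ z) • z -
        inner ℝ (j z) (gradient ρ z) • j z)) =
    √(1 - ‖z‖ ^ 2) • dn j (nu (BL E) (GG j ρ)) z := by
  have hs : 0 < 1 - ‖z‖ ^ 2 := by
    have := norm_nonneg z
    nlinarith
  set g := gradient ρ z with hg
  have hG := GG_io (E := E) hj hd
  have h1 : BL E (GG j ρ (io z)) (GG j ρ (io z)) =
      inner ℝ g (g - inner ℝ z g • z - inner ℝ (j z) g • j z) := by
    rw [hG, BL_apply]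
    simp only [inner_sub_right, inner_smul_right, ← hg]
    rw [real_inner_comm g z, real_inner_comm g (j z)]
    ring
  have h2 : dn j (nu (BL E) (GG j ρ)) z =
      (√(inner ℝ g (g - inner ℝ z g • z - inner ℝ (j z) g • j z)))⁻¹ •
        (g - inner ℝ z g • z - inner ℝ (j z) g • j z) := by
    unfold dn nu rr
    rw [h1, hG]
    simp only [Prod.smul_fst, Prod.smul_snd, smul_eq_mul, ← hg, smul_sub, smul_smul]
    rw [real_inner_comm g z, real_inner_comm g (j z)]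
  rw [h2]
  set w := g - inner ℝ z g • z - inner ℝ (j z) g • j z with hw
  rw [inner_smul_right, Real.sqrt_mul hs.le, smul_smul, smul_smul, mul_inv]
  congr 1
  have h3 : √(1 - ‖z‖ ^ 2) ≠ 0 := (Real.sqrt_pos.2 hs).ne'
  have h4 : √(1 - ‖z‖ ^ 2) * √(1 - ‖z‖ ^ 2) = 1 - ‖z‖ ^ 2 := Real.mul_self_sqrt hs.le
  have h5 : (√(1 - ‖z‖ ^ 2))⁻¹ * (1 - ‖z‖ ^ 2) = √(1 - ‖z‖ ^ 2) := by
    rw [← h4]
    field_simp
    simp
  calc _ = (√(1 - ‖z‖ ^ 2))⁻¹ * (1 - ‖z‖ ^ 2) * (√(inner ℝ g w))⁻¹ := by ring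
    _ = _ := by rw [h5]

private theorem mm_tt_io (z : E) : tt (BL E) (io z) = 1 - ‖z‖ ^ 2 := by
  unfold tt
  rw [BL_apply]
  show -(inner ℝ z z - (1 * 1 + 0 * 0)) = _
  rw [real_inner_self_eq_norm_sq]
  ring

private theorem mm_tr {L : Type*} [NormedAddCommGroup L] [NormedSpace ℝ L] [FiniteDimensional ℝ L]
    (f : L →ₗ[ℝ] ℝ) (x : L) : LinearMap.trace ℝ L (f.smulRight x) = f x := by
  have h : f.smulRight x = dualTensorHom ℝ L L (f ⊗ₜ[ℝ] x) := by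
    ext w
    simp [dualTensorHom_apply]
  rw [h, LinearMap.trace_eq_contract_apply, contractLeft_apply]

private theorem mm_deriv {B : (ℝ × ℝ × E) →L[ℝ] (ℝ × ℝ × E) →L[ℝ] ℝ} {J : (ℝ × ℝ × E) →L[ℝ] (ℝ × ℝ × E)}
    {U : Set (ℝ × ℝ × E)} {G : ℝ × ℝ × E → ℝ × ℝ × E} (hH : Hf B J) (hG : Gd B J U G)
    {X : ℝ × ℝ × E} (hX : X ∈ U) :
    HasFDerivAt (fun Y => √(tt B Y) • nu B G Y)
      (√(tt B X) • NN B G X - ((√(tt B X))⁻¹ • B X).smulRight (nu B G X)) X := by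
  have hpos : 0 < tt B X := by
    have := hG.neg X hX
    unfold tt
    linarith
  have hn : HasFDerivAt (nu B G) (NN B G X) X :=
    ((hG.nu_c2.contDiffAt (hG.isOpen.mem_nhds hX)).differentiableAt (by norm_num)).hasFDerivAt
  have h1 : HasFDerivAt (fun Y => B Y Y) (B.precompR (ℝ × ℝ × E) X (ContinuousLinearMap.id ℝ _) +
      B.precompL (ℝ × ℝ × E) (ContinuousLinearMap.id ℝ _) X) X :=
    B.hasFDerivAt_of_bilinear (hasFDerivAt_id X) (hasFDerivAt_id X)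
  have h2 : HasFDerivAt (tt B) (-(B.precompR (ℝ × ℝ × E) X (ContinuousLinearMap.id ℝ _) +
      B.precompL (ℝ × ℝ × E) (ContinuousLinearMap.id ℝ _) X)) X := h1.neg
  have h3 := h2.sqrt hpos.ne'
  have h4 := h3.smul hn
  refine h4.congr_fderiv ?_
  refine ContinuousLinearMap.ext fun v => ?_
  have e1 : (B.precompR (ℝ × ℝ × E) X (ContinuousLinearMap.id ℝ _) +
      B.precompL (ℝ × ℝ × E) (ContinuousLinearMap.id ℝ _) X) v = 2 * B X v := by
    show B X v + B v X = _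
    rw [hH.symm v X]
    ring
  simp only [ContinuousLinearMap.add_apply, ContinuousLinearMap.sub_apply,
    ContinuousLinearMap.smul_apply, ContinuousLinearMap.smulRight_apply,
    ContinuousLinearMap.neg_apply, e1]
  have hs : √(tt B X) ≠ 0 := (Real.sqrt_pos.2 hpos).ne'
  rw [sub_eq_add_neg, ← neg_smul]
  congr 2
  simp only [smul_eq_mul]
  field_simp

/-- piece `JE-L6` (b): the mean curvature. `meanCurv` is `(√det)⁻¹ divg (√det • unit normal)`, `√det g = (1 - ‖z‖²)^{-(n+1)}`;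
`descent` for the field `√tt • nu`, whose trace is `√tt tr N`. -/
theorem meanCurv_mc {j : E →L[ℝ] E} (hj : Cj j) {n : ℕ} (hn : Module.finrank ℝ E = 2 * n)
    {g : E → E →L[ℝ] E}
    (hdet : ∀ z : E, ‖z‖ < 1 → LinearMap.det (g z : E →ₗ[ℝ] E) =
      ((1 - ‖z‖ ^ 2)⁻¹) ^ (2 * n + 2))
    (hinv : ∀ z v : E, ‖z‖ < 1 → (g z).inverse v = (1 - ‖z‖ ^ 2) • (v - inner ℝ z v • z -
        inner ℝ (j z) v • j z))
    {ρ : E → ℝ} (hs : ContDiffOn ℝ 3 ρ (Metric.ball 0 1)) {z : E} (hz : ‖z‖ < 1)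
    (hr : fderiv ℝ ρ z ≠ 0) : meanCurv g ρ z = mc j ρ z := by
  have hH := hfL hj
  have hG := gdL hj hs
  have hzb : z ∈ Metric.ball (0 : E) 1 := by simpa using hz
  have hsz : ∀ y : E, ‖y‖ < 1 → 0 < 1 - ‖y‖ ^ 2 := by
    intro y hy
    have := norm_nonneg y
    nlinarith
  have hXU : ∀ y : E, ‖y‖ < 1 → fderiv ℝ ρ y ≠ 0 → io y ∈ UU j ρ := by
    intro y hy hyr
    refine ⟨?_, ?_⟩
    · have := mm_tt_io y
      unfold tt at this
      have := hsz y hy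
      linarith
    · rw [pr_io]
      exact hyr
  have hX := hXU z hz hr
  -- the field on the cone
  set V : ℝ × ℝ × E → ℝ × ℝ × E := fun Y => √(tt (BL E) Y) • nu (BL E) (GG j ρ) Y with hV
  have hD := mm_deriv hH hG hX
  have hpt := hG.pt hH hX
  have htt : tt (BL E) (io z) = 1 - ‖z‖ ^ 2 := mm_tt_io z
  have hpos := hsz z hz
  have hsq : √(1 - ‖z‖ ^ 2) * √(1 - ‖z‖ ^ 2) = 1 - ‖z‖ ^ 2 := Real.mul_self_sqrt hpos.le
  have hs0 : √(1 - ‖z‖ ^ 2) ≠ 0 := (Real.sqrt_pos.2 hpos).ne'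
  have hfd : fderiv ℝ V (io z) = √(tt (BL E) (io z)) • NN (BL E) (GG j ρ) (io z) -
      ((√(tt (BL E) (io z)))⁻¹ • BL E (io z)).smulRight (nu (BL E) (GG j ρ) (io z)) := hD.fderiv
  have hXX : BL E (io z) (io z) = -(1 - ‖z‖ ^ 2) := by
    rw [← htt]
    unfold tt
    ring
  have hXJX : BL E (io z) (JL j (io z)) = 0 := by
    have h1 := hH.inv (io z) (JL j (io z))
    rw [hH.jj, map_neg, hH.symm (JL j (io z)) (io z)] at h1
    linarith
  have h1 : fderiv ℝ V (io z) (io z) = V (io z) := by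
    rw [hfd]
    show √(tt (BL E) (io z)) • NN (BL E) (GG j ρ) (io z) (io z) -
      ((√(tt (BL E) (io z)))⁻¹ • BL E (io z) (io z)) • nu (BL E) (GG j ρ) (io z) = _
    rw [hpt.Nx, smul_zero, zero_sub, ← neg_smul, hXX, htt]
    show _ = √(tt (BL E) (io z)) • nu (BL E) (GG j ρ) (io z)
    rw [htt]
    congr 1
    rw [smul_eq_mul]
    field_simp
    nlinarith
  have h2 : fderiv ℝ V (io z) (JL j (io z)) = JL j (V (io z)) := by
    rw [hfd]
    show √(tt (BL E) (io z)) • NN (BL E) (GG j ρ) (io z) (JL j (io z)) -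
      ((√(tt (BL E) (io z)))⁻¹ • BL E (io z) (JL j (io z))) • nu (BL E) (GG j ρ) (io z) = _
    rw [hpt.Njx, hXJX, smul_zero, zero_smul, sub_zero]
    show _ = JL j (√(tt (BL E) (io z)) • nu (BL E) (GG j ρ) (io z))
    rw [map_smul]
  have h3 : BL E (V (io z)) (io z) = 0 := by
    show BL E (√(tt (BL E) (io z)) • nu (BL E) (GG j ρ) (io z)) (io z) = 0
    rw [map_smul, ContinuousLinearMap.smul_apply, hH.symm, hpt.xn, smul_zero]
  have hdes := descent hj hn hz hD.differentiableAt h1 h2 h3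
  -- the trace
  have htr : LinearMap.trace ℝ _ (fderiv ℝ V (io z) : (ℝ × ℝ × E) →ₗ[ℝ] (ℝ × ℝ × E)) =
      mc j ρ z := by
    have e1 : (fderiv ℝ V (io z) : (ℝ × ℝ × E) →ₗ[ℝ] (ℝ × ℝ × E)) =
        √(tt (BL E) (io z)) • (NN (BL E) (GG j ρ) (io z) : (ℝ × ℝ × E) →ₗ[ℝ] (ℝ × ℝ × E)) -
        (((√(tt (BL E) (io z)))⁻¹ • BL E (io z) : (ℝ × ℝ × E) →L[ℝ] ℝ) :
          (ℝ × ℝ × E) →ₗ[ℝ] ℝ).smulRight (nu (BL E) (GG j ρ) (io z)) := by
      rw [hfd]
      rfl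
    rw [e1, map_sub, map_smul, mm_tr]
    show _ - (√(tt (BL E) (io z)))⁻¹ * BL E (io z) (nu (BL E) (GG j ρ) (io z)) = _
    rw [hpt.xn, mul_zero, sub_zero, htt]
    rfl
  -- the field of the mean curvature
  have hdt : ∀ y : E, ‖y‖ < 1 → √(LinearMap.det (g y : E →ₗ[ℝ] E)) =
      ((1 - ‖y‖ ^ 2) ^ (n + 1))⁻¹ := by
    intro y hy
    have h0 := hsz y hy
    rw [hdet y hy, show 2 * n + 2 = (n + 1) * 2 by ring, pow_mul, Real.sqrt_sq (by positivity),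
      inv_pow]
  have hcr : ∀ᶠ y in 𝓝 z, fderiv ℝ ρ y ≠ 0 := by
    have hc : ContinuousAt (fderiv ℝ ρ) z :=
      ((hs.contDiffAt (Metric.isOpen_ball.mem_nhds hzb)).fderiv_right
        (m := 2) (by norm_num)).continuousAt
    exact hc.eventually_ne hr
  have hfield : (fun y => (√(LinearMap.det (g y : E →ₗ[ℝ] E)) /
      √(inner ℝ (gradient ρ y) ((g y).inverse (gradient ρ y)))) •
        (g y).inverse (gradient ρ y)) =ᶠ[𝓝 z]
      (fun y => ((1 - ‖y‖ ^ 2) ^ (n + 1))⁻¹ • dn j V y) := by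
    filter_upwards [Metric.isOpen_ball.mem_nhds hzb, hcr] with y hyb hyr
    have hy : ‖y‖ < 1 := by simpa using hyb
    have hdy : DifferentiableAt ℝ ρ y :=
      (hs.contDiffAt (Metric.isOpen_ball.mem_nhds hyb)).differentiableAt (by norm_num)
    have hne := normal_eq hj hy hdy hyr
    rw [hdt y hy, hinv y _ hy, div_eq_mul_inv, mul_smul, hne]
    congr 1
    unfold dn
    show _ = (√(tt (BL E) (io y)) • nu (BL E) (GG j ρ) (io y)).2.2 -
      (√(tt (BL E) (io y)) • nu (BL E) (GG j ρ) (io y)).1 • y -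
      (√(tt (BL E) (io y)) • nu (BL E) (GG j ρ) (io y)).2.1 • j y
    rw [mm_tt_io]
    simp only [Prod.smul_snd, Prod.smul_fst, smul_sub, smul_smul, smul_eq_mul]
  unfold meanCurv
  have hdv : divg (fun y => (√(LinearMap.det (g y : E →ₗ[ℝ] E)) /
      √(inner ℝ (gradient ρ y) ((g y).inverse (gradient ρ y)))) •
        (g y).inverse (gradient ρ y)) z =
      divg (fun y => ((1 - ‖y‖ ^ 2) ^ (n + 1))⁻¹ • dn j V y) z := by
    unfold divg
    rw [hfield.fderiv_eq]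
  rw [hdv, hdes, htr, hdt z hz, inv_inv, ← mul_assoc, mul_inv_cancel₀ (by positivity), one_mul]

/-- piece `JE-L6` (c): the Bergman metric -/
theorem bergman_data {n : ℕ} :
    Cj (Pool.Agent.Helper75.ROT.iC n) ∧
    (∀ z : EuclideanSpace ℂ (Fin n), ‖z‖ < 1 →
      LinearMap.det (bergman n z : EuclideanSpace ℂ (Fin n) →ₗ[ℝ] EuclideanSpace ℂ (Fin n)) =
      ((1 - ‖z‖ ^ 2)⁻¹) ^ (2 * n + 2)) ∧
    (∀ z v : EuclideanSpace ℂ (Fin n), ‖z‖ < 1 → (bergman n z).inverse v =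
      (1 - ‖z‖ ^ 2) • (v - inner ℝ z v • z -
        inner ℝ (Pool.Agent.Helper75.ROT.iC n z) v • Pool.Agent.Helper75.ROT.iC n z)) := by
  refine ⟨⟨fun v => ?_, fun u v => ?_⟩, fun z hz => ?_, fun z v hz => ?_⟩
  · rw [Pool.Agent.Helper75.ROT.iC_apply, Pool.Agent.Helper75.ROT.iC_apply, smul_smul,
      Complex.I_mul_I, neg_one_smul]
  · rw [Pool.Agent.Helper75.ROT.iC_apply, Pool.Agent.Helper75.ROT.iC_apply,
      Pool.Agent.Helper75.ROT.re_inner, Pool.Agent.Helper75.ROT.re_inner, inner_smul_left,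
      inner_smul_right, ← mul_assoc, Complex.conj_I, neg_mul, Complex.I_mul_I, neg_neg, one_mul]
  · rw [bergman_eq, Pool.Agent.Helper41.ALX.det_ball (vertical_PC n) hz,
      finrank_real_of_complex, finrank_euclideanSpace_fin]
  · rw [bergman_eq, Pool.Agent.Helper75.ROT.inv_full (vertical_PC n) hz,
      Pool.Agent.Helper75.ROT.PC_apply, Pool.Agent.Helper75.ROT.iC_apply]
    congr 2
    by_cases h0 : z = 0
    · rw [h0]
      simp
    · have h3 : ‖z‖ ^ 2 ≠ 0 := by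
        have := norm_pos_iff.2 h0
        positivity
      rw [smul_smul, ← mul_assoc, mul_inv_cancel₀ h3, one_mul]

private lemma JE7_jz {j : E →L[ℝ] E} (hj : Cj j) (z : E) : inner ℝ (j z) z = (0 : ℝ) := by
  have h1 := hj.inv (j z) z
  rw [hj.jj, inner_neg_left, real_inner_comm] at h1
  linarith

private lemma JE7_alg {s q T a : ℝ} (hs : 0 < s) (hq : s * s = q) :
    T * (1 / (2 * s) * (-(2 * (a * q)))) = -(s * (T * a)) := by
  subst hq
  field_simp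

private noncomputable def JE7_i (E : Type*) [NormedAddCommGroup E] [InnerProductSpace ℝ E] :
    E →L[ℝ] (ℝ × ℝ × E) :=
  (ContinuousLinearMap.inr ℝ ℝ (ℝ × E)).comp (ContinuousLinearMap.inr ℝ ℝ E)

private noncomputable def JE7_tr (L : Type*) [NormedAddCommGroup L] [NormedSpace ℝ L]
    [FiniteDimensional ℝ L] : (L →L[ℝ] L) →L[ℝ] ℝ :=
  LinearMap.toContinuousLinearMap ((LinearMap.trace ℝ L).comp (ContinuousLinearMap.coeLM ℝ))

private lemma JE7_tr_apply {L : Type*} [NormedAddCommGroup L] [NormedSpace ℝ L]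
    [FiniteDimensional ℝ L] (M : L →L[ℝ] L) : JE7_tr L M = LinearMap.trace ℝ L (M : L →ₗ[ℝ] L) :=
  rfl

/-- piece `JE-L7`: the derivative of the trace of `N` is zero in the tangential horizontal directions. `lagrange` for `mc`;
`u = (a, b, v) = a X + b J X + (0, 0, h)`, `h = v - a z - b j z`, `dρ h = B G u = 0`, `a = ⟪v, z⟫`, `⟪h, z⟫ = a (1 - ‖z‖²)`. -/
theorem trace_const {j : E →L[ℝ] E} (hj : Cj j) {ρ : E → ℝ}
    (hs : ContDiffOn ℝ 3 ρ (Metric.ball 0 1)) {z : E} (hz : ‖z‖ < 1) (h0 : ρ z = 0)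
    (hr : fderiv ℝ ρ z ≠ 0) {H : ℝ} (hH : ∀ y : E, ‖y‖ < 1 → ρ y = 0 → mc j ρ y = H) :
    ∀ u, Hz (BL E) (JL j) (io z) (nu (BL E) (GG j ρ) (io z)) u →
      LinearMap.trace ℝ _ (fderiv ℝ (NN (BL E) (GG j ρ)) (io z) u :
        (ℝ × ℝ × E) →ₗ[ℝ] (ℝ × ℝ × E)) = 0 := by
  classical
  have hG := gdL hj hs
  have hzz : ‖z‖ ^ 2 < 1 := by
    have := norm_nonneg z
    nlinarith
  have hpos : 0 < 1 - ‖z‖ ^ 2 := by linarith
  have hX : io z ∈ UU j ρ := by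
    refine ⟨?_, ?_⟩
    · rw [BL_apply]
      show inner ℝ z z - ((1 : ℝ) * 1 + 0 * 0) < 0
      rw [real_inner_self_eq_norm_sq]
      linarith
    · rw [pr_io]
      exact hr
  have hdz : DifferentiableAt ℝ ρ z :=
    (hs.contDiffAt (Metric.isOpen_ball.mem_nhds (by simpa using hz))).differentiableAt (by norm_num)
  have hN : ContDiffAt ℝ 1 (NN (BL E) (GG j ρ)) (io z) :=
    hG.NN_c1.contDiffAt (hG.isOpen.mem_nhds hX)
  have hNd : DifferentiableAt ℝ (NN (BL E) (GG j ρ)) (io z) := hN.differentiableAt (by norm_num)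
  have hxR := hG.rr_pos hX
  have hjz : inner ℝ (j z) z = 0 := JE7_jz hj z
  intro u hu
  obtain ⟨h1, h2, h3⟩ := hu
  have ha : u.1 = inner ℝ u.2.2 z := by
    have h := h1
    rw [BL_apply] at h
    have h' : inner ℝ u.2.2 z - (u.1 * 1 + u.2.1 * 0) = 0 := h
    linarith
  have hb : u.2.1 = inner ℝ u.2.2 (j z) := by
    have h := h2
    rw [BL_apply, JL_apply] at h
    have h' : inner ℝ u.2.2 (j z) - (u.1 * (-0) + u.2.1 * 1) = 0 := h
    linarith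
  -- the component in the ball
  set h : E := u.2.2 - u.1 • z - u.2.1 • j z with hh
  have hu' : u = u.1 • io z + u.2.1 • JL j (io z) + JE7_i E h := by
    rw [JL_apply]
    refine Prod.ext ?_ (Prod.ext ?_ ?_)
    · show u.1 = u.1 * 1 + u.2.1 * (-0) + 0
      ring
    · show u.2.1 = u.1 * 0 + u.2.1 * 1 + 0
      ring
    · show u.2.2 = u.1 • z + u.2.1 • j z + h
      rw [hh]
      abel
  have hhz : inner ℝ z h = u.1 * (1 - ‖z‖ ^ 2) := by
    rw [hh, inner_sub_right, inner_sub_right, inner_smul_right, inner_smul_right,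
      real_inner_self_eq_norm_sq, real_inner_comm u.2.2 z, ← ha, real_inner_comm (j z) z, hjz]
    ring
  have hdρ : fderiv ℝ ρ z h = 0 := by
    have e1 : BL E (GG j ρ (io z)) u = 0 := by
      have e2 : BL E u ((rr (BL E) (GG j ρ) (io z))⁻¹ • GG j ρ (io z)) = 0 := h3
      rw [map_smul, smul_eq_mul] at e2
      have e3 := (mul_eq_zero.1 e2).resolve_left (inv_ne_zero hxR.ne')
      rw [(hfL hj).symm]
      exact e3
    rw [GG_B] at e1
    have e4 : HasFDerivAt (ff j ρ) ((fderiv ℝ ρ (pr j (io z))).comp (fderiv ℝ (pr j) (io z))) (io z) := by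
      have g1 : HasFDerivAt (pr j) (fderiv ℝ (pr j) (io z)) (io z) := by
        refine DifferentiableAt.hasFDerivAt ((pr_smooth j ?_).differentiableAt (by norm_num))
        show (1 : ℝ) ^ 2 + (0 : ℝ) ^ 2 ≠ 0
        norm_num
      have g2 : HasFDerivAt ρ (fderiv ℝ ρ (pr j (io z))) (pr j (io z)) := by
        rw [pr_io]
        exact hdz.hasFDerivAt
      exact g2.comp (io z) g1
    rw [e4.fderiv, ContinuousLinearMap.comp_apply, Dpr_io hj, pr_io] at e1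
    exact e1
  -- the trace
  have t1 : HasFDerivAt (fun y => JE7_tr (ℝ × ℝ × E) (NN (BL E) (GG j ρ) y))
      ((JE7_tr (ℝ × ℝ × E)).comp (fderiv ℝ (NN (BL E) (GG j ρ)) (io z))) (io z) :=
    (JE7_tr (ℝ × ℝ × E)).hasFDerivAt.comp (io z) hNd.hasFDerivAt
  have hio : HasFDerivAt (io : E → ℝ × ℝ × E) (JE7_i E) z := by
    have e1 : (io : E → ℝ × ℝ × E) = fun y => ((1, 0, 0) : ℝ × ℝ × E) + JE7_i E y := by
      funext y
      show ((1, 0, y) : ℝ × ℝ × E) = (1 + 0, 0 + 0, 0 + y)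
      simp
    rw [e1]
    exact (JE7_i E).hasFDerivAt.const_add _
  have hsq : HasFDerivAt (fun y : E => √(1 - ‖y‖ ^ 2))
      ((1 / (2 * √(1 - ‖z‖ ^ 2))) • (-((2 : ℝ) • innerSL ℝ z))) z := by
    have e1 : HasFDerivAt (fun y : E => 1 - ‖y‖ ^ 2) (-((2 : ℝ) • innerSL ℝ z)) z := by
      have := (hasStrictFDerivAt_norm_sq z).hasFDerivAt.const_sub (1 : ℝ)
      rwa [two_nsmul, ← two_smul ℝ] at this
    exact e1.sqrt hpos.ne'
  have hmc : HasFDerivAt (mc j ρ) (√(1 - ‖z‖ ^ 2) •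
      ((JE7_tr (ℝ × ℝ × E)).comp (fderiv ℝ (NN (BL E) (GG j ρ)) (io z))).comp (JE7_i E) +
      JE7_tr (ℝ × ℝ × E) (NN (BL E) (GG j ρ) (io z)) •
        ((1 / (2 * √(1 - ‖z‖ ^ 2))) • (-((2 : ℝ) • innerSL ℝ z)))) z :=
    hsq.mul (t1.comp z hio)
  have hmc1 : ContDiffAt ℝ 1 (mc j ρ) z := by
    have e1 : ContDiffAt ℝ 1 (fun y : E => √(1 - ‖y‖ ^ 2)) z :=
      ContDiffAt.sqrt (contDiffAt_const.sub (contDiff_norm_sq ℝ).contDiffAt) hpos.ne'
    have e2 : ContDiffAt ℝ 1 (io : E → ℝ × ℝ × E) z := by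
      have e3 : ContDiff ℝ 1 (io : E → ℝ × ℝ × E) :=
        contDiff_const.prodMk (contDiff_const.prodMk contDiff_id)
      exact e3.contDiffAt
    exact e1.mul (((JE7_tr (ℝ × ℝ × E)).contDiff.contDiffAt).comp z (hN.comp z e2))
  have hl := lagrange (hs.contDiffAt (Metric.isOpen_ball.mem_nhds (by simpa using hz)) |>.of_le
      (by norm_num)) hmc1 h0 hr (H := H)
    (by
      filter_upwards [Metric.isOpen_ball.mem_nhds (show z ∈ Metric.ball (0 : E) 1 by simpa using hz)]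
        with y hy h0
      exact hH y (by simpa using hy) h0) hdρ
  rw [hmc.fderiv] at hl
  set T : ℝ := JE7_tr (ℝ × ℝ × E) (NN (BL E) (GG j ρ) (io z)) with hT
  have hsp : 0 < √(1 - ‖z‖ ^ 2) := Real.sqrt_pos.2 hpos
  have hss : √(1 - ‖z‖ ^ 2) * √(1 - ‖z‖ ^ 2) = 1 - ‖z‖ ^ 2 := Real.mul_self_sqrt hpos.le
  have hl' : √(1 - ‖z‖ ^ 2) * JE7_tr (ℝ × ℝ × E) (fderiv ℝ (NN (BL E) (GG j ρ)) (io z) (JE7_i E h)) +
      T * (1 / (2 * √(1 - ‖z‖ ^ 2)) * (-(2 * inner ℝ z h))) = 0 := hl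
  rw [hhz] at hl'
  have k1 : JE7_tr (ℝ × ℝ × E) (fderiv ℝ (NN (BL E) (GG j ρ)) (io z) (JE7_i E h)) = T * u.1 := by
    have k2 : T * (1 / (2 * √(1 - ‖z‖ ^ 2)) * (-(2 * (u.1 * (1 - ‖z‖ ^ 2))))) =
        -(√(1 - ‖z‖ ^ 2) * (T * u.1)) := JE7_alg hsp hss
    rw [k2] at hl'
    have k3 : √(1 - ‖z‖ ^ 2) * (JE7_tr (ℝ × ℝ × E) (fderiv ℝ (NN (BL E) (GG j ρ)) (io z) (JE7_i E h)) -
        T * u.1) = 0 := by linarith
    have k4 := (mul_eq_zero.1 k3).resolve_left hsp.ne'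
    linarith
  have k5 : fderiv ℝ (NN (BL E) (GG j ρ)) (io z) (io z) = -(NN (BL E) (GG j ρ) (io z)) := by
    refine ContinuousLinearMap.ext fun v => ?_
    rw [hG.N2_symm hX, hG.N2_X (hfL hj) hX]
    rfl
  have k6 : fderiv ℝ (NN (BL E) (GG j ρ)) (io z) (JL j (io z)) =
      (JL j).comp (NN (BL E) (GG j ρ) (io z)) - (NN (BL E) (GG j ρ) (io z)).comp (JL j) := by
    refine ContinuousLinearMap.ext fun v => ?_
    rw [hG.N2_symm hX, hG.N2_JX (hfL hj) hX]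
    rfl
  have k7 : JE7_tr (ℝ × ℝ × E) ((JL j).comp (NN (BL E) (GG j ρ) (io z)) -
      (NN (BL E) (GG j ρ) (io z)).comp (JL j)) = 0 := by
    rw [map_sub, JE7_tr_apply, JE7_tr_apply]
    have e1 := LinearMap.trace_mul_comm ℝ (JL j : (ℝ × ℝ × E) →ₗ[ℝ] (ℝ × ℝ × E))
      (NN (BL E) (GG j ρ) (io z) : (ℝ × ℝ × E) →ₗ[ℝ] (ℝ × ℝ × E))
    exact sub_eq_zero.2 e1
  have l1 : fderiv ℝ (NN (BL E) (GG j ρ)) (io z) u = u.1 • -(NN (BL E) (GG j ρ) (io z)) +
      u.2.1 • ((JL j).comp (NN (BL E) (GG j ρ) (io z)) - (NN (BL E) (GG j ρ) (io z)).comp (JL j)) +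
      fderiv ℝ (NN (BL E) (GG j ρ)) (io z) (JE7_i E h) := by
    conv_lhs => rw [hu']
    rw [map_add (fderiv ℝ (NN (BL E) (GG j ρ)) (io z)), map_add (fderiv ℝ (NN (BL E) (GG j ρ)) (io z)),
      map_smul, map_smul, k5, k6]
  have goal : JE7_tr (ℝ × ℝ × E) (fderiv ℝ (NN (BL E) (GG j ρ)) (io z) u) = 0 := by
    rw [l1, map_add (JE7_tr (ℝ × ℝ × E)), map_add (JE7_tr (ℝ × ℝ × E)), map_smul (JE7_tr (ℝ × ℝ × E)),
      map_smul (JE7_tr (ℝ × ℝ × E)), k1, k7, map_neg (JE7_tr (ℝ × ℝ × E)), ← hT]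
    simp only [smul_eq_mul]
    ring
  exact goal

end Pool.Agent.Helper77.JE
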