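import Pool.Agent.Helper41.ALX.Metric

/-! # JE: a divergence theorem on a level set

`u` is a field tangent to the level sets of `ρ` near the compact regular level `ρ = 0`; if its divergence is nonnegative on
this level then it is zero there.
-/

set_option autoImplicit false
set_option linter.unusedSectionVars false
set_option linter.unusedVariables false

open Filter Topology Set MeasureTheory
open scoped ContDiff

namespace Pool.Agent.Helper77.JE

open Pool.Agent.Helper41.ALX (divg)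

/-- a smooth step: `0` for `s ≤ -1`, `1` for `1 ≤ s` -/
noncomputable def Ph (s : ℝ) : ℝ := Real.smoothTransition ((s + 1) / 2)

noncomputable def ph (s : ℝ) : ℝ := deriv Ph s

/-- piece `JE-M0` -/
theorem Ph_smooth : ContDiff ℝ ∞ Ph := by
  unfold Ph
  exact Real.smoothTransition.contDiff.comp (by fun_prop)

theorem ph_smooth : ContDiff ℝ ∞ ph := by
  have h := Ph_smooth
  rw [contDiff_infty_iff_deriv] at h
  exact h.2

theorem Ph_bd (s : ℝ) : 0 ≤ Ph s ∧ Ph s ≤ 1 :=
  ⟨Real.smoothTransition.nonneg _, Real.smoothTransition.le_one _⟩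

theorem Ph_zero {s : ℝ} (hs : s ≤ -1) : Ph s = 0 :=
  Real.smoothTransition.zero_of_nonpos (by linarith)

theorem Ph_one {s : ℝ} (hs : 1 ≤ s) : Ph s = 1 :=
  Real.smoothTransition.one_of_one_le (by linarith)

private lemma trans_mono : Monotone Real.smoothTransition := by
  intro a b hab
  rcases le_or_gt a 0 with ha | ha
  · rw [Real.smoothTransition.zero_of_nonpos ha]
    exact Real.smoothTransition.nonneg _
  rcases le_or_gt 1 b with hb | hb
  · rw [Real.smoothTransition.one_of_one_le hb]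
    exact Real.smoothTransition.le_one _
  have hm : ∀ x y : ℝ, x ≤ y → expNegInvGlue x ≤ expNegInvGlue y := by
    intro x y hxy
    exact expNegInvGlue.monotone hxy
  have e1 : expNegInvGlue a ≤ expNegInvGlue b := hm _ _ hab
  have e2 : expNegInvGlue (1 - b) ≤ expNegInvGlue (1 - a) := hm _ _ (by linarith)
  have p1 : 0 < expNegInvGlue a := expNegInvGlue.pos_of_pos ha
  have p2 : 0 < expNegInvGlue (1 - b) := expNegInvGlue.pos_of_pos (by linarith)
  unfold Real.smoothTransition
  rw [div_le_div_iff₀ (by linarith) (by linarith)]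
  nlinarith

/-- `Ph` is monotone -/
theorem ph_nonneg (s : ℝ) : 0 ≤ ph s := by
  have hm : Monotone Ph := by
    intro a b hab
    exact trans_mono (by linarith : (a + 1) / 2 ≤ (b + 1) / 2)
  exact hm.deriv_nonneg

/-- `Ph` is constant on the two half lines; at `±1` by continuity -/
theorem ph_zero {s : ℝ} (hs : 1 ≤ |s|) : ph s = 0 := by
  have hc : Continuous ph := ph_smooth.continuous
  have h1 : ∀ x : ℝ, 1 < |x| → ph x = 0 := by
    intro x hx
    unfold ph
    rcases lt_or_ge x 0 with h | h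
    · rw [abs_of_neg h] at hx
      have : Ph =ᶠ[𝓝 x] fun _ => 0 := by
        filter_upwards [Iio_mem_nhds (show x < -1 by linarith)] with y hy using Ph_zero (le_of_lt hy)
      rw [this.deriv_eq]; simp
    · rw [abs_of_nonneg h] at hx
      have : Ph =ᶠ[𝓝 x] fun _ => 1 := by
        filter_upwards [Ioi_mem_nhds hx] with y hy using Ph_one (le_of_lt hy)
      rw [this.deriv_eq]; simp
  have hcl : IsClosed {x : ℝ | ph x = 0} := isClosed_eq hc continuous_const
  have hs' : s ∈ closure {x : ℝ | 1 < |x|} := by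
    rcases lt_or_ge s 0 with h | h
    · rw [abs_of_neg h] at hs
      have : s ∈ closure (Iio (-1 : ℝ)) := by
        rw [closure_Iio]; exact (by linarith : s ≤ -1)
      refine closure_mono ?_ this
      intro y (hy : y < -1)
      show 1 < |y|
      rw [abs_of_neg (by linarith)]; linarith
    · rw [abs_of_nonneg h] at hs
      have : s ∈ closure (Ioi (1 : ℝ)) := by
        rw [closure_Ioi]; exact hs
      refine closure_mono ?_ this
      intro y (hy : 1 < y)
      show 1 < |y|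
      rw [abs_of_pos (by linarith)]; linarith
  exact (hcl.closure_subset_iff.2 h1) hs'

variable {E : Type*} [NormedAddCommGroup E] [InnerProductSpace ℝ E] [FiniteDimensional ℝ E]

/-- the data for cutting off -/
structure Cut (O : Set E) (ρ χ : E → ℝ) (ε₀ : ℝ) : Prop where
  pos : 0 < ε₀
  smooth : ContDiff ℝ ∞ χ
  supp : HasCompactSupport χ
  sub : tsupport χ ⊆ O
  bd : ∀ z, 0 ≤ χ z ∧ χ z ≤ 1
  near : ∀ z ∈ O, ρ z = 0 → χ =ᶠ[𝓝 z] fun _ => 1
  level : ∀ z ∈ tsupport χ, |ρ z| < ε₀ → χ =ᶠ[𝓝 z] fun _ => 1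

/-- piece `JE-M1`: `exists_contMDiff..`/`exists_contDiff_tsupport_subset` type bump functions for the compact set
`{z ∈ O | ρ z = 0}`: `χ = 1` on an open set `V` containing it, `tsupport χ ⊆ O` compact; `|ρ|` is positive, so bounded below, on
the compact set `tsupport χ \ V`. -/
theorem exists_cut {O : Set E} (hO : IsOpen O) {ρ : E → ℝ} (hρ : ContinuousOn ρ O)
    (hc : IsCompact {z | z ∈ O ∧ ρ z = 0}) : ∃ (χ : E → ℝ) (ε₀ : ℝ), Cut O ρ χ ε₀ := by
  obtain ⟨L, hLc, hZL, hLO⟩ := exists_compact_between hc hO (fun z hz => hz.1)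
  obtain ⟨f, h1, h0, hb⟩ := exists_contMDiffMap_one_nhds_of_subset_interior
    (modelWithCornersSelf ℝ E) (n := ⊤) hc.isClosed hZL
  have hsupp : Function.support (f : E → ℝ) ⊆ L := fun x hx => by
    by_contra h
    exact hx (h0 x h)
  have hts : tsupport (f : E → ℝ) ⊆ L := closure_minimal hsupp hLc.isClosed
  have hcs : HasCompactSupport (f : E → ℝ) :=
    hLc.of_isClosed_subset (isClosed_tsupport _) hts
  have hnear : ∀ z ∈ O, ρ z = 0 → (f : E → ℝ) =ᶠ[𝓝 z] fun _ => 1 := fun z hz hz0 =>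
    (eventually_nhdsSet_iff_forall.1 h1) z ⟨hz, hz0⟩
  have hW : IsOpen {x : E | ∀ᶠ y in 𝓝 x, f y = 1} := isOpen_setOfPred_eventually_nhds
  have hS : IsCompact (tsupport (f : E → ℝ) \ {x : E | ∀ᶠ y in 𝓝 x, f y = 1}) :=
    IsCompact.diff hcs hW
  have hmk : ∀ ε₀ : ℝ, 0 < ε₀ → (∀ z ∈ tsupport (f : E → ℝ), |ρ z| < ε₀ →
      (f : E → ℝ) =ᶠ[𝓝 z] fun _ => 1) → Cut O ρ (f : E → ℝ) ε₀ := fun ε₀ hp hl =>
    ⟨hp, f.contMDiff.contDiff, hcs, hts.trans hLO, fun z => ⟨(hb z).1, (hb z).2⟩, hnear, hl⟩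
  rcases (tsupport (f : E → ℝ) \ {x : E | ∀ᶠ y in 𝓝 x, f y = 1}).eq_empty_or_nonempty with he | hne
  · refine ⟨f, 1, hmk 1 one_pos fun z hz _ => ?_⟩
    by_contra hn
    have : z ∈ (∅ : Set E) := he ▸ ⟨hz, hn⟩
    exact this
  · obtain ⟨z₁, hz₁, hmin⟩ := hS.exists_isMinOn hne
      (f := fun z => |ρ z|) ((hρ.mono (diff_subset.trans (hts.trans hLO))).abs)
    refine ⟨f, |ρ z₁|, hmk _ ?_ fun z hz hzl => ?_⟩
    · rw [abs_pos]
      intro h
      exact hz₁.2 (hnear z₁ (hLO (hts hz₁.1)) h)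
    · by_contra hn
      exact absurd hzl (not_lt.2 (hmin ⟨hz, hn⟩))

section meas

variable [MeasurableSpace E] [BorelSpace E]

private lemma int_fderiv {g : E → ℝ} (hg : ContDiff ℝ 1 g) (hc : HasCompactSupport g)
    (v : E) : ∫ y, fderiv ℝ g y v = 0 := by
  have hcont : Continuous (fun y => fderiv ℝ g y v) :=
    (hg.continuous_fderiv one_ne_zero).clm_apply continuous_const
  have hcs : HasCompactSupport (fun y => fderiv ℝ g y v) := by
    refine (hc.fderiv (𝕜 := ℝ)).mono' ?_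
    intro y hy
    refine subset_tsupport _ ?_
    intro h
    apply hy
    show fderiv ℝ g y v = 0
    rw [h]; rfl
  have hint : Integrable (fun y => fderiv ℝ g y v) := hcont.integrable_of_hasCompactSupport hcs
  have hint2 : Integrable g := hg.continuous.integrable_of_hasCompactSupport hc
  have key := integral_mul_fderiv_eq_neg_fderiv_mul_of_integrable (μ := (volume : Measure E))
    (f := g) (g := fun _ => (1 : ℝ)) (v := v)
    (by simpa using hint) (by simp) (by simpa using hint2)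
    (fun x _ => (hg.differentiable one_ne_zero) x) (fun x _ => by fun_prop)
  simp only [fderiv_fun_const, Pi.zero_apply, zero_apply, mul_zero,
    integral_zero, mul_one] at key
  linarith

/-- piece `JE-M2`: the divergence theorem for compact support (see `integral_fderiv_eq_zero` in Helper64/DC/Stokes.lean) with
an orthonormal basis -/
theorem int_divg {F : E → E} (hF : ContDiff ℝ 1 F) (hc : HasCompactSupport F) :
    ∫ z, divg F z = 0 := by
  unfold Pool.Agent.Helper41.ALX.divg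
  have b := stdOrthonormalBasis ℝ E
  have htr : ∀ y, LinearMap.trace ℝ E (fderiv ℝ F y : E →ₗ[ℝ] E)
      = ∑ a, fderiv ℝ (fun z => inner ℝ (b a) (F z)) y (b a) := by
    intro y
    rw [LinearMap.trace_eq_sum_inner _ b]
    refine Finset.sum_congr rfl fun a _ => ?_
    have hd : HasFDerivAt (fun z => inner ℝ (b a) (F z))
        ((innerSL ℝ (b a) : E →L[ℝ] ℝ).comp (fderiv ℝ F y)) y := by
      have h1 : HasFDerivAt F (fderiv ℝ F y) y :=
        ((hF.differentiable one_ne_zero) y).hasFDerivAt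
      exact (innerSL ℝ (b a) : E →L[ℝ] ℝ).hasFDerivAt.comp y h1
    rw [hd.fderiv]
    rfl
  have hga : ∀ a, ContDiff ℝ 1 (fun z => inner ℝ (b a) (F z)) := fun a =>
    (innerSL ℝ (b a) : E →L[ℝ] ℝ).contDiff.comp hF
  have hgc : ∀ a, HasCompactSupport (fun z => inner ℝ (b a) (F z)) := by
    intro a
    refine hc.mono ?_
    intro y hy hGy
    apply hy
    simp [hGy]
  simp_rw [htr]
  rw [integral_finsetSum]
  · exact Finset.sum_eq_zero fun a _ => int_fderiv (hga a) (hgc a) _
  · intro a _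
    have hcont : Continuous (fun y => fderiv ℝ (fun z => inner ℝ (b a) (F z)) y (b a)) :=
      ((hga a).continuous_fderiv one_ne_zero).clm_apply continuous_const
    refine hcont.integrable_of_hasCompactSupport ?_
    refine ((hgc a).fderiv (𝕜 := ℝ)).mono' ?_
    intro y hy
    refine subset_tsupport _ ?_
    intro h
    apply hy
    show fderiv ℝ (fun z => inner ℝ (b a) (F z)) y (b a) = 0
    rw [h]; rfl

/-- piece `JE-M3`: apply `int_divg` to `(χ * ph (ρ / ε)) • u`. -/
theorem int_cut {O : Set E} (hO : IsOpen O) {ρ χ : E → ℝ} {ε₀ : ℝ} (hC : Cut O ρ χ ε₀)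
    (hρ : ContDiffOn ℝ 1 ρ O) {u : E → E} (hu : ContDiffOn ℝ 1 u O)
    (ht : ∀ z ∈ O, fderiv ℝ ρ z (u z) = 0) {ε : ℝ} (h0 : 0 < ε) (h1 : ε < ε₀) :
    ∫ z, χ z * ph (ρ z / ε) * divg u z = 0 := by
  have hK : IsCompact (tsupport χ) := hC.supp
  have hχ0 : ∀ z, z ∉ tsupport χ → χ z = 0 := fun z hz => image_eq_zero_of_notMem_tsupport hz
  have hFO : ContDiffOn ℝ 1 (fun z => (χ z * ph (ρ z / ε)) • u z) O := by
    have h2 : ContDiffOn ℝ 1 χ O := (hC.smooth.of_le (by exact_mod_cast le_top)).contDiffOn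
    have h3 : ContDiff ℝ 1 ph := ph_smooth.of_le (by exact_mod_cast le_top)
    exact (h2.mul (h3.comp_contDiffOn (hρ.div_const ε))).smul hu
  have hF0 : ∀ z, z ∉ tsupport χ → (χ z * ph (ρ z / ε)) • u z = 0 := by
    intro z hz
    rw [hχ0 z hz, zero_mul, zero_smul]
  have hFC : ContDiff ℝ 1 (fun z => (χ z * ph (ρ z / ε)) • u z) := by
    rw [contDiff_iff_contDiffAt]
    intro x
    by_cases hx : x ∈ O
    · exact hFO.contDiffAt (hO.mem_nhds hx)
    · have hx' : x ∈ (tsupport χ)ᶜ := fun h => hx (hC.sub h)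
      refine (contDiffAt_const (c := (0 : E))).congr_of_eventuallyEq ?_
      filter_upwards [(isClosed_tsupport χ).isOpen_compl.mem_nhds hx'] with y hy using hF0 y hy
  have hFc : HasCompactSupport (fun z => (χ z * ph (ρ z / ε)) • u z) := HasCompactSupport.intro hK hF0
  have hz := int_divg hFC hFc
  have key : ∀ z, divg (fun z => (χ z * ph (ρ z / ε)) • u z) z = χ z * ph (ρ z / ε) * divg u z := by
    intro z
    by_cases hzs : z ∈ tsupport χ
    · have hzO := hC.sub hzs
      have d1 : DifferentiableAt ℝ ρ z := (hρ.contDiffAt (hO.mem_nhds hzO)).differentiableAt one_ne_zero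
      have d2 : DifferentiableAt ℝ u z := (hu.contDiffAt (hO.mem_nhds hzO)).differentiableAt one_ne_zero
      have d3 : DifferentiableAt ℝ ph (ρ z / ε) := (ph_smooth.differentiable (by simp)) _
      have d4 : DifferentiableAt ℝ χ z := (hC.smooth.differentiable (by simp)) _
      have e1 : HasFDerivAt (fun z => ρ z / ε) (ε⁻¹ • fderiv ℝ ρ z) z := by
        have := d1.hasFDerivAt.const_mul ε⁻¹
        refine this.congr_of_eventuallyEq ?_ |>.congr_fderiv ?_
        · filter_upwards with y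
          rw [div_eq_inv_mul]
        · rfl
      have e2 : HasFDerivAt (fun z => ph (ρ z / ε))
          (deriv ph (ρ z / ε) • (ε⁻¹ • fderiv ℝ ρ z)) z :=
        (d3.hasDerivAt).comp_hasFDerivAt z e1
      have e3 : HasFDerivAt (fun z => χ z * ph (ρ z / ε))
          (χ z • (deriv ph (ρ z / ε) • (ε⁻¹ • fderiv ℝ ρ z)) + ph (ρ z / ε) • fderiv ℝ χ z) z :=
        d4.hasFDerivAt.mul e2
      set A : E →L[ℝ] ℝ :=
        χ z • (deriv ph (ρ z / ε) • (ε⁻¹ • fderiv ℝ ρ z)) + ph (ρ z / ε) • fderiv ℝ χ z with hA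
      have hA0 : A (u z) = 0 := by
        have h5 : ph (ρ z / ε) * fderiv ℝ χ z (u z) = 0 := by
          by_cases hρz : |ρ z| < ε
          · have h6 : fderiv ℝ χ z = 0 := by
              rw [(hC.level z hzs (hρz.trans h1)).fderiv_eq]
              simp
            rw [h6]
            simp
          · have h6 : ph (ρ z / ε) = 0 := by
              refine ph_zero ?_
              rw [abs_div, abs_of_pos h0, le_div_iff₀ h0, one_mul]
              exact not_lt.1 hρz
            rw [h6, zero_mul]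
        have h6 : A (u z) = χ z * (deriv ph (ρ z / ε) * (ε⁻¹ * fderiv ℝ ρ z (u z))) +
            ph (ρ z / ε) * fderiv ℝ χ z (u z) := by
          rw [hA]
          rfl
        rw [h6, h5, ht z hzO]
        ring
      have d5 : HasFDerivAt (fun z => (χ z * ph (ρ z / ε)) • u z)
          ((χ z * ph (ρ z / ε)) • fderiv ℝ u z + A.smulRight (u z)) z := e3.smul d2.hasFDerivAt
      unfold Pool.Agent.Helper41.ALX.divg
      rw [d5.fderiv]
      have e4 : (((χ z * ph (ρ z / ε)) • fderiv ℝ u z + A.smulRight (u z) : E →L[ℝ] E) : E →ₗ[ℝ] E) =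
          (χ z * ph (ρ z / ε)) • (fderiv ℝ u z : E →ₗ[ℝ] E) +
            LinearMap.smulRight (A : E →ₗ[ℝ] ℝ) (u z) := by
        ext v
        simp
      rw [e4, map_add, map_smul, LinearMap.trace_smulRight]
      have e5 : (A : E →ₗ[ℝ] ℝ) (u z) = 0 := hA0
      rw [e5, add_zero, smul_eq_mul]
    · have h2 : (fun z => (χ z * ph (ρ z / ε)) • u z) =ᶠ[𝓝 z] fun _ => (0 : E) := by
        filter_upwards [(isClosed_tsupport χ).isOpen_compl.mem_nhds hzs] with y hy using hF0 y hy
      unfold Pool.Agent.Helper41.ALX.divg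
      rw [h2.fderiv_eq, hχ0 z hzs]
      simp
  rw [← hz]
  exact integral_congr_ae (Eventually.of_forall fun z => (key z).symm)

/-- piece `JE-M4`: with `Y = (χ / |∇ρ|²) • ∇ρ` (class `C¹`, compact support) `dρ (Y) = χ` and
`0 = ∫ divg (Ph (ρ / ε) • Y) = ε⁻¹ ∫ ph (ρ / ε) χ + ∫ Ph (ρ / ε) divg Y`. -/
theorem int_upper {O : Set E} (hO : IsOpen O) {ρ χ : E → ℝ} {ε₀ : ℝ} (hC : Cut O ρ χ ε₀)
    (hρ : ContDiffOn ℝ 2 ρ O) (hr : ∀ z ∈ O, fderiv ℝ ρ z ≠ 0) :
    ∃ C : ℝ, ∀ ε : ℝ, 0 < ε → ε < ε₀ → ∫ z, χ z * ph (ρ z / ε) ≤ C * ε := by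
  classical
  have hK : IsCompact (tsupport χ) := hC.supp
  have hχ0 : ∀ z, z ∉ tsupport χ → χ z = 0 := fun z hz => image_eq_zero_of_notMem_tsupport hz
  set G : E → E := gradient ρ with hG
  have hGO : ContDiffOn ℝ 1 G O := by
    have h1 : ContDiffOn ℝ 1 (fderiv ℝ ρ) O := hρ.fderiv_of_isOpen hO (by norm_num)
    exact (InnerProductSpace.toDual ℝ E).symm.contDiff.comp_contDiffOn h1
  have hGne : ∀ z ∈ O, ‖G z‖ ^ 2 ≠ 0 := by
    intro z hz h
    apply hr z hz
    have h1 : G z = 0 := by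
      rw [← norm_eq_zero]
      exact pow_eq_zero_iff (two_ne_zero) |>.1 h
    have h2 : (InnerProductSpace.toDual ℝ E).symm (fderiv ℝ ρ z) = 0 := h1
    simpa using h2
  have hGd : ∀ z v, fderiv ℝ ρ z v = inner ℝ (G z) v := by
    intro z v
    exact (InnerProductSpace.toDual_symm_apply (x := v) (y := fderiv ℝ ρ z)).symm
  set Y : E → E := fun z => (χ z * (‖G z‖ ^ 2)⁻¹) • G z with hY
  have hYO : ContDiffOn ℝ 1 Y O := by
    have h1 : ContDiffOn ℝ 1 χ O := (hC.smooth.of_le (by exact_mod_cast le_top)).contDiffOn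
    have h2 : ContDiffOn ℝ 1 (fun z => ‖G z‖ ^ 2) O := hGO.norm_sq ℝ
    exact (h1.mul (h2.inv hGne)).smul hGO
  have hY0 : ∀ z, z ∉ tsupport χ → Y z = 0 := by
    intro z hz
    simp only [hY, hχ0 z hz, zero_mul, zero_smul]
  have hYd : ∀ z ∈ O, fderiv ℝ ρ z (Y z) = χ z := by
    intro z hz
    rw [hGd]
    simp only [hY]
    rw [real_inner_smul_right, real_inner_self_eq_norm_sq, mul_assoc, inv_mul_cancel₀ (hGne z hz), mul_one]
  have glue : ∀ (F : E → E), ContDiffOn ℝ 1 F O → (∀ z, z ∉ tsupport χ → F z = 0) →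
      ContDiff ℝ 1 F ∧ HasCompactSupport F := by
    intro F h1 h2
    constructor
    · rw [contDiff_iff_contDiffAt]
      intro x
      by_cases hx : x ∈ O
      · exact h1.contDiffAt (hO.mem_nhds hx)
      · have hx' : x ∈ (tsupport χ)ᶜ := fun h => hx (hC.sub h)
        refine (contDiffAt_const (c := (0 : E))).congr_of_eventuallyEq ?_
        filter_upwards [(isClosed_tsupport χ).isOpen_compl.mem_nhds hx'] with y hy using h2 y hy
    · exact HasCompactSupport.intro hK h2
  obtain ⟨hYC, hYc⟩ := glue Y hYO hY0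
  have hcd : Continuous (fun z => divg Y z) := by
    have h1 : Continuous (fderiv ℝ Y) := hYC.continuous_fderiv one_ne_zero
    have h2 : Continuous (fun A : E →L[ℝ] E => LinearMap.trace ℝ E (A : E →ₗ[ℝ] E)) := by
      have h3 : (fun A : E →L[ℝ] E => LinearMap.trace ℝ E (A : E →ₗ[ℝ] E)) =
          fun A => ((LinearMap.trace ℝ E) ∘ₗ (ContinuousLinearMap.coeLM ℝ)) A := rfl
      rw [h3]
      exact LinearMap.continuous_of_finiteDimensional _
    exact h2.comp h1
  have hdz : ∀ F : E → E, (∀ z, z ∉ tsupport χ → F z = 0) → ∀ z, z ∉ tsupport χ → divg F z = 0 := by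
    intro F hF z hz
    have h1 : F =ᶠ[𝓝 z] fun _ => (0 : E) := by
      filter_upwards [(isClosed_tsupport χ).isOpen_compl.mem_nhds hz] with y hy using hF y hy
    unfold divg
    rw [h1.fderiv_eq]
    simp
  have hdc : HasCompactSupport (fun z => divg Y z) := HasCompactSupport.intro hK (hdz Y hY0)
  have hint : Integrable (fun z => divg Y z) := hcd.integrable_of_hasCompactSupport hdc
  refine ⟨∫ z, |divg Y z|, fun ε h0 h1 => ?_⟩
  have hρ1 : ContDiffOn ℝ 1 ρ O := hρ.of_le (by norm_num)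
  have hPO : ContDiffOn ℝ 1 (fun z => Ph (ρ z / ε)) O := by
    have h2 : ContDiff ℝ 1 Ph := Ph_smooth.of_le (by exact_mod_cast le_top)
    exact h2.comp_contDiffOn (hρ1.div_const ε)
  have hF1 : ContDiffOn ℝ 1 (fun z => Ph (ρ z / ε) • Y z) O := hPO.smul hYO
  obtain ⟨hFC, hFc⟩ := glue (fun z => Ph (ρ z / ε) • Y z) hF1 (fun z hz => by
    show Ph (ρ z / ε) • Y z = 0
    rw [hY0 z hz, smul_zero])
  have hz := int_divg hFC hFc
  have key : ∀ z, divg (fun z => Ph (ρ z / ε) • Y z) z =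
      ε⁻¹ * (χ z * ph (ρ z / ε)) + Ph (ρ z / ε) * divg Y z := by
    intro z
    by_cases hzs : z ∈ tsupport χ
    · have hzO := hC.sub hzs
      have d1 : DifferentiableAt ℝ ρ z := (hρ1.contDiffAt (hO.mem_nhds hzO)).differentiableAt one_ne_zero
      have d2 : DifferentiableAt ℝ Y z := hYC.differentiable one_ne_zero z
      have d3 : DifferentiableAt ℝ Ph (ρ z / ε) := (Ph_smooth.differentiable (by simp)) _
      have d4 : HasFDerivAt (fun z => Ph (ρ z / ε)) ((ph (ρ z / ε) * ε⁻¹) • fderiv ℝ ρ z) z := by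
        have e1 : HasFDerivAt (fun z => ρ z / ε) (ε⁻¹ • fderiv ℝ ρ z) z := by
          have := d1.hasFDerivAt.const_mul ε⁻¹
          refine this.congr_of_eventuallyEq ?_ |>.congr_fderiv ?_
          · filter_upwards with y
            rw [div_eq_inv_mul]
          · rfl
        have e2 := (d3.hasDerivAt).comp_hasFDerivAt z e1
        refine e2.congr_fderiv ?_
        rw [smul_smul]
        rfl
      have d5 : HasFDerivAt (fun z => Ph (ρ z / ε) • Y z) (Ph (ρ z / ε) • fderiv ℝ Y z +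
          ((ph (ρ z / ε) * ε⁻¹) • fderiv ℝ ρ z).smulRight (Y z)) z := d4.smul d2.hasFDerivAt
      unfold divg
      rw [d5.fderiv]
      have e3 : LinearMap.trace ℝ E ((Ph (ρ z / ε) • fderiv ℝ Y z +
          ((ph (ρ z / ε) * ε⁻¹) • fderiv ℝ ρ z).smulRight (Y z) : E →L[ℝ] E) : E →ₗ[ℝ] E) =
          Ph (ρ z / ε) * LinearMap.trace ℝ E (fderiv ℝ Y z : E →ₗ[ℝ] E) +
            (ph (ρ z / ε) * ε⁻¹) * fderiv ℝ ρ z (Y z) := by
        have e4 : ((Ph (ρ z / ε) • fderiv ℝ Y z +
          ((ph (ρ z / ε) * ε⁻¹) • fderiv ℝ ρ z).smulRight (Y z) : E →L[ℝ] E) : E →ₗ[ℝ] E) =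
            Ph (ρ z / ε) • (fderiv ℝ Y z : E →ₗ[ℝ] E) +
            LinearMap.smulRight (((ph (ρ z / ε) * ε⁻¹) • fderiv ℝ ρ z : E →L[ℝ] ℝ) : E →ₗ[ℝ] ℝ) (Y z) := by
          ext v
          simp
        rw [e4, map_add, map_smul, LinearMap.trace_smulRight]
        simp
      rw [e3, hYd z hzO]
      ring
    · rw [hdz _ (fun z hz => by
        show Ph (ρ z / ε) • Y z = 0
        rw [hY0 z hz, smul_zero]) z hzs, hχ0 z hzs, hdz Y hY0 z hzs]
      ring
  have hcF : Continuous (fun z => χ z * ph (ρ z / ε)) := by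
    rw [continuous_iff_continuousAt]
    intro x
    by_cases hx : x ∈ O
    · exact hC.smooth.continuous.continuousAt.mul
        (ph_smooth.continuous.continuousAt.comp ((hρ1.continuousOn.continuousAt (hO.mem_nhds hx)).div_const ε))
    · have hx' : x ∈ (tsupport χ)ᶜ := fun h => hx (hC.sub h)
      refine (continuousAt_const (y := (0 : ℝ))).congr ?_
      filter_upwards [(isClosed_tsupport χ).isOpen_compl.mem_nhds hx'] with y hy
      rw [hχ0 y hy, zero_mul]
  have hcS : HasCompactSupport (fun z => χ z * ph (ρ z / ε)) :=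
    HasCompactSupport.intro hK fun z hz => by
      show χ z * ph (ρ z / ε) = 0
      rw [hχ0 z hz, zero_mul]
  have hi1 : Integrable (fun z => χ z * ph (ρ z / ε)) := hcF.integrable_of_hasCompactSupport hcS
  have hcP : Continuous (fun z => Ph (ρ z / ε) * divg Y z) := by
    rw [continuous_iff_continuousAt]
    intro x
    by_cases hx : x ∈ O
    · exact (hPO.continuousOn.continuousAt (hO.mem_nhds hx)).mul hcd.continuousAt
    · have hx' : x ∈ (tsupport χ)ᶜ := fun h => hx (hC.sub h)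
      refine (continuousAt_const (y := (0 : ℝ))).congr ?_
      filter_upwards [(isClosed_tsupport χ).isOpen_compl.mem_nhds hx'] with y hy
      rw [hdz Y hY0 y hy, mul_zero]
  have hi2 : Integrable (fun z => Ph (ρ z / ε) * divg Y z) :=
    hcP.integrable_of_hasCompactSupport (HasCompactSupport.intro hK fun z hz => by
      show Ph (ρ z / ε) * divg Y z = 0
      rw [hdz Y hY0 z hz, mul_zero])
  have hsum : ε⁻¹ * ∫ z, χ z * ph (ρ z / ε) = -∫ z, Ph (ρ z / ε) * divg Y z := by
    have e1 : ∫ z, (ε⁻¹ * (χ z * ph (ρ z / ε)) + Ph (ρ z / ε) * divg Y z) = 0 := by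
      rw [← hz]
      exact integral_congr_ae (Eventually.of_forall fun z => (key z).symm)
    rw [integral_add (hi1.const_mul _) hi2, integral_const_mul] at e1
    linarith
  have hle : -∫ z, Ph (ρ z / ε) * divg Y z ≤ ∫ z, |divg Y z| := by
    rw [← integral_neg]
    refine integral_mono hi2.neg hint.abs fun z => ?_
    show -(Ph (ρ z / ε) * divg Y z) ≤ |divg Y z|
    have hb := Ph_bd (ρ z / ε)
    calc -(Ph (ρ z / ε) * divg Y z) ≤ |Ph (ρ z / ε) * divg Y z| := neg_le_abs _
      _ = Ph (ρ z / ε) * |divg Y z| := by rw [abs_mul, abs_of_nonneg hb.1]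
      _ ≤ 1 * |divg Y z| := mul_le_mul_of_nonneg_right hb.2 (abs_nonneg _)
      _ = |divg Y z| := one_mul _
  have hfin : ∫ z, χ z * ph (ρ z / ε) = ε * (ε⁻¹ * ∫ z, χ z * ph (ρ z / ε)) := by
    rw [← mul_assoc, mul_inv_cancel₀ h0.ne', one_mul]
  rw [hfin, hsum, mul_comm (∫ z, |divg Y z|) ε]
  exact mul_le_mul_of_nonneg_left hle h0.le

private lemma ph_bound : ∃ B : ℝ, ∀ s, ‖ph s‖ ≤ B := by
  refine ph_smooth.continuous.bounded_above_of_compact_support ?_
  refine HasCompactSupport.intro (isCompact_Icc (a := (-1 : ℝ)) (b := 1)) fun s hs => ?_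
  refine ph_zero ?_
  by_contra hcon
  push Not at hcon
  exact hs ⟨(abs_lt.1 hcon).1.le, (abs_lt.1 hcon).2.le⟩

private lemma line_one {ρ : E → ℝ} {z e : E} {h ε M : ℝ} (hh : 0 < h) (hε : 0 < ε)
    (hd : ∀ s ∈ Icc (-h) h, ContDiffAt ℝ 1 ρ (z + s • e))
    (h1 : ε ≤ ρ (z + h • e)) (h2 : ρ (z + (-h) • e) ≤ -ε)
    (hM : ∀ s ∈ Icc (-h) h, fderiv ℝ ρ (z + s • e) e ≤ M) :
    ε ≤ M * ∫ s in (-h)..h, ph (ρ (z + s • e) / ε) := by
  have hu : uIcc (-h) h = Icc (-h) h := uIcc_of_le (by linarith)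
  have hline : ∀ s : ℝ, HasDerivAt (fun s : ℝ => z + s • e) e s := by
    intro s
    have := ((hasDerivAt_id s).smul_const e).const_add z
    simpa using this
  have hρd : ∀ s ∈ Icc (-h) h, HasDerivAt (fun s : ℝ => ρ (z + s • e)) (fderiv ℝ ρ (z + s • e) e) s := by
    intro s hs
    exact ((hd s hs).differentiableAt one_ne_zero).hasFDerivAt.comp_hasDerivAt s (hline s)
  have hder : ∀ s ∈ uIcc (-h) h, HasDerivAt (fun s : ℝ => Ph (ρ (z + s • e) / ε))
      (ph (ρ (z + s • e) / ε) * (fderiv ℝ ρ (z + s • e) e / ε)) s := by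
    intro s hs
    rw [hu] at hs
    have e1 := (hρd s hs).div_const ε
    have e2 : HasDerivAt Ph (ph (ρ (z + s • e) / ε)) (ρ (z + s • e) / ε) :=
      ((Ph_smooth.differentiable (by simp)) _).hasDerivAt
    have e3 := HasDerivAt.comp (h₂ := Ph) (h := fun x : ℝ => ρ (z + x • e) / ε) s e2 e1
    exact e3
  have hc1 : ContinuousOn (fun s : ℝ => ρ (z + s • e)) (Icc (-h) h) := fun s hs =>
    (hρd s hs).continuousAt.continuousWithinAt
  have hc2 : ContinuousOn (fun s : ℝ => fderiv ℝ ρ (z + s • e) e) (Icc (-h) h) := by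
    intro s hs
    have h3 : ContinuousAt (fun y => fderiv ℝ ρ y e) (z + s • e) :=
      ((hd s hs).continuousAt_fderiv one_ne_zero).clm_apply continuousAt_const
    exact (ContinuousAt.comp (f := fun s : ℝ => z + s • e) h3 (hline s).continuousAt).continuousWithinAt
  have hc3 : ContinuousOn (fun s : ℝ => ph (ρ (z + s • e) / ε)) (Icc (-h) h) :=
    ph_smooth.continuous.comp_continuousOn (hc1.div_const ε)
  have hi : IntervalIntegrable (fun s : ℝ => ph (ρ (z + s • e) / ε) * (fderiv ℝ ρ (z + s • e) e / ε))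
      volume (-h) h := (by rw [hu]; exact hc3.mul (hc2.div_const ε) :
        ContinuousOn _ (uIcc (-h) h)).intervalIntegrable
  have hi3 : IntervalIntegrable (fun s : ℝ => ph (ρ (z + s • e) / ε)) volume (-h) h :=
    (by rw [hu]; exact hc3 : ContinuousOn _ (uIcc (-h) h)).intervalIntegrable
  have hI := intervalIntegral.integral_eq_sub_of_hasDerivAt hder hi
  have e1 : Ph (ρ (z + h • e) / ε) = 1 := Ph_one (by rwa [le_div_iff₀ hε, one_mul])
  have e2 : Ph (ρ (z + (-h) • e) / ε) = 0 := Ph_zero (by rw [div_le_iff₀ hε]; linarith)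
  simp only [e1, e2, sub_zero] at hI
  have hle : ∫ s in (-h)..h, ph (ρ (z + s • e) / ε) * (fderiv ℝ ρ (z + s • e) e / ε) ≤
      ∫ s in (-h)..h, ph (ρ (z + s • e) / ε) * (M / ε) := by
    refine intervalIntegral.integral_mono_on (by linarith) hi (hi3.mul_const _) fun s hs => ?_
    exact mul_le_mul_of_nonneg_left (div_le_div_of_nonneg_right (hM s hs) hε.le) (ph_nonneg _)
  rw [hI, intervalIntegral.integral_mul_const] at hle
  rw [← mul_div_assoc, le_div_iff₀ hε] at hle
  linarith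

/-- piece `JE-M5`: let `e` be a vector with `dρ(z₀) e > 0`. For small `h` and then small `r` (`r ≤ h`, `h ‖e‖ + r ≤ δ`):
`0 ≤ dρ(y) e ≤ M` on the ball `B(z₀, h ‖e‖ + r)`, `ρ (z + h e) > 0`, `ρ (z - h e) < 0` for `z ∈ D = closedBall z₀ r`. For `ε`
smaller than these values `∫ s in -h..h, ph (ρ (z + s e) / ε) dρ(z + s e) e = ε (Ph (..) - Ph (..)) = ε`, so
`∫ s in -h..h, ph (ρ (z + s e) / ε) ≥ ε / M`. Integrate over `z ∈ D`, exchange the integrals and translate:
`vol D ε / M ≤ 2 h ∫ z in closedBall z₀ δ, ph (ρ z / ε)`. -/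
theorem int_lower {O : Set E} (hO : IsOpen O) {ρ : E → ℝ} (hρ : ContDiffOn ℝ 1 ρ O) {z₀ : E}
    (hz : z₀ ∈ O) (h0 : ρ z₀ = 0) (hr : fderiv ℝ ρ z₀ ≠ 0) {δ : ℝ} (hδ : 0 < δ)
    (hsub : Metric.closedBall z₀ δ ⊆ O) :
    ∃ c ε₁ : ℝ, 0 < c ∧ 0 < ε₁ ∧ ∀ ε : ℝ, 0 < ε → ε < ε₁ →
      c * ε ≤ ∫ z in Metric.closedBall z₀ δ, ph (ρ z / ε) := by
  classical
  -- the direction
  obtain ⟨e, he⟩ : ∃ e, 0 < fderiv ℝ ρ z₀ e := by
    by_contra hcon
    push Not at hcon
    apply hr
    ext v
    have h1 := hcon v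
    have h2 := hcon (-v)
    rw [map_neg] at h2
    rw [show (0 : E →L[ℝ] ℝ) v = 0 from rfl]
    linarith
  have hCA : ∀ y ∈ O, ContDiffAt ℝ 1 ρ y := fun y hy => hρ.contDiffAt (hO.mem_nhds hy)
  have hcA : ContinuousAt (fun y => fderiv ℝ ρ y e) z₀ :=
    ((hCA z₀ hz).continuousAt_fderiv one_ne_zero).clm_apply continuousAt_const
  set m : ℝ := fderiv ℝ ρ z₀ e / 2 with hm
  set M : ℝ := fderiv ℝ ρ z₀ e * 2 with hM
  have hm0 : 0 < m := by positivity
  have hM0 : 0 < M := by positivity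
  obtain ⟨d, hd0, hd⟩ : ∃ d > 0, ∀ y, dist y z₀ < d → m < fderiv ℝ ρ y e ∧ fderiv ℝ ρ y e < M := by
    have h1 : ∀ᶠ y in 𝓝 z₀, fderiv ℝ ρ y e ∈ Ioo m M :=
      hcA (Ioo_mem_nhds (by rw [hm]; linarith) (by rw [hM]; linarith))
    obtain ⟨d, hd0, hd⟩ := Metric.eventually_nhds_iff.1 h1
    exact ⟨d, hd0, fun y hy => ⟨(hd hy).1, (hd hy).2⟩⟩
  -- the length of the segment
  have hne : 0 < ‖e‖ := by
    rw [norm_pos_iff]
    rintro rfl
    simp at he
  set D' : ℝ := min (d / 2) δ with hD'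
  have hD'0 : 0 < D' := lt_min (by linarith) hδ
  set h : ℝ := D' / (2 * ‖e‖) with hh
  have hh0 : 0 < h := by positivity
  have hhe : h * ‖e‖ = D' / 2 := by rw [hh]; field_simp
  have hball : ∀ z, dist z z₀ ≤ D' / 2 → ∀ s ∈ Icc (-h) h, dist (z + s • e) z₀ ≤ D' := by
    intro z hz s hs
    have h1 : dist (z + s • e) z₀ ≤ dist (z + s • e) z + dist z z₀ := dist_triangle _ _ _
    have h2 : dist (z + s • e) z = |s| * ‖e‖ := by
      rw [dist_eq_norm, add_sub_cancel_left, norm_smul, Real.norm_eq_abs]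
    have h3 : |s| * ‖e‖ ≤ h * ‖e‖ := mul_le_mul_of_nonneg_right (abs_le.2 hs) hne.le
    linarith
  have hOm : ∀ y, dist y z₀ ≤ D' → y ∈ O := fun y hy =>
    hsub (Metric.mem_closedBall.2 (hy.trans (min_le_right _ _)))
  have hdm : ∀ y, dist y z₀ ≤ D' → m < fderiv ℝ ρ y e ∧ fderiv ℝ ρ y e < M := fun y hy =>
    hd y (hy.trans_lt ((min_le_left _ _).trans_lt (by linarith)))
  -- values at the ends of the segment through `z₀`
  have hline : ∀ s : ℝ, HasDerivAt (fun s : ℝ => z₀ + s • e) e s := by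
    intro s
    have := ((hasDerivAt_id s).smul_const e).const_add z₀
    simpa using this
  have hρd : ∀ s ∈ Icc (-h) h, HasDerivAt (fun s : ℝ => ρ (z₀ + s • e)) (fderiv ℝ ρ (z₀ + s • e) e) s := by
    intro s hs
    refine ((hCA _ (hOm _ (hball z₀ ?_ s hs))).differentiableAt one_ne_zero).hasFDerivAt.comp_hasDerivAt s
      (hline s)
    rw [dist_self]; positivity
  have hmono : ∀ a b, a ∈ Icc (-h) h → b ∈ Icc (-h) h → a < b →
      m * (b - a) ≤ ρ (z₀ + b • e) - ρ (z₀ + a • e) := by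
    intro a b ha hb hab
    obtain ⟨c, hc, hc2⟩ := exists_hasDerivAt_eq_slope (fun s : ℝ => ρ (z₀ + s • e))
      (fun s => fderiv ℝ ρ (z₀ + s • e) e) hab
      (fun s hs => (hρd s ⟨ha.1.trans hs.1, hs.2.trans hb.2⟩).continuousAt.continuousWithinAt)
      (fun s hs => hρd s ⟨ha.1.trans hs.1.le, hs.2.le.trans hb.2⟩)
    have h3 := (hdm (z₀ + c • e) (hball z₀ (by rw [dist_self]; positivity) c
      ⟨ha.1.trans hc.1.le, hc.2.le.trans hb.2⟩)).1
    rw [hc2, lt_div_iff₀ (by linarith)] at h3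
    exact h3.le
  have hup : m * h ≤ ρ (z₀ + h • e) := by
    have := hmono 0 h ⟨by linarith, hh0.le⟩ ⟨by linarith, le_rfl⟩ hh0
    simp only [zero_smul, add_zero, h0, sub_zero] at this
    exact this
  have hlo : ρ (z₀ + (-h) • e) ≤ -(m * h) := by
    have := hmono (-h) 0 ⟨le_rfl, by linarith⟩ ⟨by linarith, hh0.le⟩ (by linarith)
    simp only [zero_smul, add_zero, h0] at this
    linarith
  -- the radius of the disk
  have hcont : ∀ s ∈ Icc (-h) h, ContinuousAt (fun z => ρ (z + s • e)) z₀ := by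
    intro s hs
    have h3 : ContinuousAt ρ (z₀ + s • e) :=
      (hCA _ (hOm _ (hball z₀ (by rw [dist_self]; positivity) s hs))).continuousAt
    exact ContinuousAt.comp (f := fun z : E => z + s • e) h3 (by fun_prop)
  obtain ⟨r, hr0, hrD, hr1, hr2⟩ : ∃ r : ℝ, 0 < r ∧ r ≤ D' / 2 ∧
      (∀ z, dist z z₀ ≤ r → m * h / 2 ≤ ρ (z + h • e)) ∧
      ∀ z, dist z z₀ ≤ r → ρ (z + (-h) • e) ≤ -(m * h / 2) := by
    have hmh : 0 < m * h := by positivity
    have e1 : ∀ᶠ z in 𝓝 z₀, m * h / 2 < ρ (z + h • e) :=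
      (hcont h ⟨by linarith, le_rfl⟩).eventually_const_lt (by linarith)
    have e2 : ∀ᶠ z in 𝓝 z₀, ρ (z + (-h) • e) < -(m * h / 2) :=
      (hcont (-h) ⟨le_rfl, by linarith⟩).eventually_lt_const (by linarith)
    obtain ⟨r, hr0, hr⟩ := Metric.eventually_nhds_iff.1 (e1.and e2)
    refine ⟨min (r / 2) (D' / 2), by positivity, min_le_right _ _, fun z hz => ?_, fun z hz => ?_⟩
    · exact (hr (hz.trans_lt ((min_le_left _ _).trans_lt (by linarith)))).1.le
    · exact (hr (hz.trans_lt ((min_le_left _ _).trans_lt (by linarith)))).2.le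
  obtain ⟨B, hB⟩ := ph_bound
  have hvol : 0 < (volume : Measure E).real (Metric.closedBall z₀ r) := by
    refine ENNReal.toReal_pos (Metric.measure_closedBall_pos _ _ hr0).ne' ?_
    exact (isCompact_closedBall _ _).measure_lt_top.ne
  refine ⟨(volume : Measure E).real (Metric.closedBall z₀ r) / (M * (2 * h)), m * h / 2, by positivity,
    by positivity, fun ε hε hε1 => ?_⟩
  -- the extended function
  set G : E → ℝ := (Metric.closedBall z₀ δ).piecewise (fun w => ph (ρ w / ε)) (fun _ => 0) with hG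
  have hGm : Measurable G := by
    refine ContinuousOn.measurable_piecewise ?_ continuousOn_const Metric.isClosed_closedBall.measurableSet
    exact ph_smooth.continuous.comp_continuousOn ((hρ.continuousOn.mono hsub).div_const ε)
  have hG0 : ∀ w, 0 ≤ G w := by
    intro w
    simp only [hG, Set.piecewise]
    split_ifs
    · exact ph_nonneg _
    · exact le_rfl
  have hGB : ∀ w, ‖G w‖ ≤ B := by
    intro w
    simp only [hG, Set.piecewise]
    split_ifs
    · exact hB _
    · rw [norm_zero]; exact (norm_nonneg _).trans (hB 0)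
  have hGi : Integrable G := by
    have h1 : G = (Metric.closedBall z₀ δ).indicator G := by
      funext w
      by_cases hw : w ∈ Metric.closedBall z₀ δ
      · rw [Set.indicator_of_mem hw]
      · rw [Set.indicator_of_notMem hw, hG, Set.piecewise_eq_of_notMem _ _ _ hw]
    rw [h1, integrable_indicator_iff Metric.isClosed_closedBall.measurableSet]
    refine Measure.integrableOn_of_bounded (M := B) (isCompact_closedBall _ _).measure_lt_top.ne
      hGm.aestronglyMeasurable (Eventually.of_forall fun w => hGB w)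
  have hGI : ∫ z in Metric.closedBall z₀ δ, ph (ρ z / ε) = ∫ w, G w := by
    rw [← integral_indicator Metric.isClosed_closedBall.measurableSet]
    refine integral_congr_ae (Eventually.of_forall fun w => ?_)
    by_cases hw : w ∈ Metric.closedBall z₀ δ
    · simp only [Set.indicator_of_mem hw, hG, Set.piecewise_eq_of_mem _ _ _ hw]
    · simp only [Set.indicator_of_notMem hw, hG, Set.piecewise_eq_of_notMem _ _ _ hw]
  -- the inner integral
  have hin : ∀ z ∈ Metric.closedBall z₀ r, ε / M ≤ ∫ s in (-h)..h, G (z + s • e) := by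
    intro z hz
    have hz' : dist z z₀ ≤ r := Metric.mem_closedBall.1 hz
    have h1 := line_one (ρ := ρ) (z := z) (e := e) hh0 hε (M := M)
      (fun s hs => hCA _ (hOm _ (hball z (hz'.trans hrD) s hs)))
      (hε1.le.trans (hr1 z hz')) ((hr2 z hz').trans (by linarith))
      (fun s hs => (hdm _ (hball z (hz'.trans hrD) s hs)).2.le)
    rw [div_le_iff₀ hM0, mul_comm]
    refine h1.trans (le_of_eq ?_)
    congr 1
    refine intervalIntegral.integral_congr fun s hs => ?_
    rw [uIcc_of_le (by linarith)] at hs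
    have h2 : z + s • e ∈ Metric.closedBall z₀ δ :=
      Metric.mem_closedBall.2 ((hball z (hz'.trans hrD) s hs).trans (min_le_right _ _))
    simp only [hG, Set.piecewise_eq_of_mem _ _ _ h2]
  -- integration
  set μ : Measure E := volume.restrict (Metric.closedBall z₀ r) with hμ
  set ν : Measure ℝ := volume.restrict (Ioc (-h) h) with hν
  have : IsFiniteMeasure μ := ⟨by
    rw [hμ, Measure.restrict_apply_univ]; exact (isCompact_closedBall _ _).measure_lt_top⟩
  have : IsFiniteMeasure ν := ⟨by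
    rw [hν, Measure.restrict_apply_univ]; exact measure_Ioc_lt_top⟩
  have hFm : Measurable (fun p : E × ℝ => G (p.1 + p.2 • e)) :=
    hGm.comp (by fun_prop)
  have hFi : Integrable (fun p : E × ℝ => G (p.1 + p.2 • e)) (μ.prod ν) :=
    Integrable.of_bound hFm.aestronglyMeasurable B (Eventually.of_forall fun p => hGB _)
  have hswap : ∫ z, ∫ s, G (z + s • e) ∂ν ∂μ = ∫ s, ∫ z, G (z + s • e) ∂μ ∂ν :=
    integral_integral_swap hFi
  have hL : (volume : Measure E).real (Metric.closedBall z₀ r) * (ε / M) ≤ ∫ z, ∫ s, G (z + s • e) ∂ν ∂μ := by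
    have h1 : ∫ _z, (ε / M) ∂μ = (volume : Measure E).real (Metric.closedBall z₀ r) * (ε / M) := by
      rw [integral_const, smul_eq_mul, hμ, measureReal_restrict_apply MeasurableSet.univ, univ_inter]
    rw [← h1]
    refine integral_mono_ae (integrable_const _) hFi.integral_prod_left ?_
    rw [hμ, Filter.EventuallyLE, ae_restrict_iff' Metric.isClosed_closedBall.measurableSet]
    refine Eventually.of_forall fun z hz => ?_
    have h2 := hin z hz
    rwa [intervalIntegral.integral_of_le (by linarith)] at h2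
  have hR : ∫ s, ∫ z, G (z + s • e) ∂μ ∂ν ≤ (2 * h) * ∫ w, G w := by
    have h1 : ∫ _s, (∫ w, G w) ∂ν = (2 * h) * ∫ w, G w := by
      rw [integral_const, smul_eq_mul, hν, measureReal_restrict_apply MeasurableSet.univ, univ_inter,
        Real.volume_real_Ioc_of_le (by linarith)]
      ring
    rw [← h1]
    refine integral_mono_ae hFi.integral_prod_right (integrable_const _) (Eventually.of_forall fun s => ?_)
    show ∫ z, G (z + s • e) ∂μ ≤ ∫ w, G w
    have h3 : ∫ w, G w = ∫ z, G (z + s • e) := (integral_add_right_eq_self G (s • e)).symm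
    rw [h3, hμ]
    exact setIntegral_le_integral (hGi.comp_add_right (s • e)) (Eventually.of_forall fun z => hG0 _)
  rw [hGI]
  have hfin : (volume : Measure E).real (Metric.closedBall z₀ r) * (ε / M) ≤ (2 * h) * ∫ w, G w :=
    hL.trans (hswap.trans_le hR)
  rw [div_mul_eq_mul_div, div_le_iff₀ (by positivity)]
  rw [← mul_div_assoc, div_le_iff₀ hM0] at hfin
  linarith

end meas

/-- piece `JE-M6` (any Borel structure and volume; `borelize E`). Suppose `g = divg u` is positive at `z₀` on the level: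
`g ≥ c₀` on `closedBall z₀ δ`, inside the set where `χ = 1`. For `κ > 0` there is `ε` with `g ≥ -κ` on
`{z ∈ tsupport χ | |ρ z| ≤ ε}` (compactness), so `0 = ∫ χ ph (ρ / ε) g ≥ c₀ c ε - κ C ε`, a contradiction for small `κ`. -/
theorem divg_zero {O : Set E} (hO : IsOpen O) {ρ : E → ℝ} (hρ : ContDiffOn ℝ 2 ρ O)
    (hc : IsCompact {z | z ∈ O ∧ ρ z = 0}) (hr : ∀ z ∈ O, fderiv ℝ ρ z ≠ 0) {u : E → E}
    (hu : ContDiffOn ℝ 1 u O) (ht : ∀ z ∈ O, fderiv ℝ ρ z (u z) = 0)
    (hpos : ∀ z ∈ O, ρ z = 0 → 0 ≤ divg u z) : ∀ z ∈ O, ρ z = 0 → divg u z = 0 := by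
  classical
  borelize E
  intro z₀ hz₀ h0
  by_contra hne
  have hgpos : 0 < divg u z₀ := lt_of_le_of_ne (hpos z₀ hz₀ h0) (Ne.symm hne)
  have hρ1 : ContDiffOn ℝ 1 ρ O := hρ.of_le (by norm_num)
  have hgc : ContinuousOn (fun z => divg u z) O := by
    have h1 : ContinuousOn (fderiv ℝ u) O := hu.continuousOn_fderiv_of_isOpen hO le_rfl
    have h2 : Continuous (fun A : E →L[ℝ] E => LinearMap.trace ℝ E (A : E →ₗ[ℝ] E)) := by
      have h3 : (fun A : E →L[ℝ] E => LinearMap.trace ℝ E (A : E →ₗ[ℝ] E)) =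
          fun A => ((LinearMap.trace ℝ E) ∘ₗ (ContinuousLinearMap.coeLM ℝ)) A := rfl
      rw [h3]
      exact LinearMap.continuous_of_finiteDimensional _
    exact h2.comp_continuousOn h1
  obtain ⟨χ, ε₀, hC⟩ := exists_cut hO hρ.continuousOn hc
  have hK : IsCompact (tsupport χ) := hC.supp
  have hχ0 : ∀ z, z ∉ tsupport χ → χ z = 0 := fun z hz => image_eq_zero_of_notMem_tsupport hz
  obtain ⟨δ, hδ, hball⟩ : ∃ δ > 0, ∀ z ∈ Metric.closedBall z₀ δ,
      z ∈ O ∧ χ z = 1 ∧ divg u z₀ / 2 < divg u z := by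
    have e1 : ∀ᶠ z in 𝓝 z₀, z ∈ O := hO.mem_nhds hz₀
    have e2 : ∀ᶠ z in 𝓝 z₀, χ z = 1 := hC.near z₀ hz₀ h0
    have e3 : ∀ᶠ z in 𝓝 z₀, divg u z₀ / 2 < divg u z :=
      (hgc.continuousAt (hO.mem_nhds hz₀)).eventually (lt_mem_nhds (by linarith))
    obtain ⟨δ, hδ, h⟩ := Metric.nhds_basis_closedBall.eventually_iff.1 (e1.and (e2.and e3))
    exact ⟨δ, hδ, fun z hz => h hz⟩
  obtain ⟨c, ε₁, hc0, hε₁, hlow⟩ := int_lower hO hρ1 hz₀ h0 (hr z₀ hz₀) hδ (fun z hz => (hball z hz).1)
  obtain ⟨C, hup⟩ := int_upper hO hC hρ hr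
  set c₀ : ℝ := divg u z₀ / 2 with hc₀def
  have hc₀ : 0 < c₀ := by linarith
  set κ : ℝ := c₀ * c / (2 * (|C| + 1)) with hκdef
  have hκ : 0 < κ := by positivity
  obtain ⟨ε₂, hε₂, hcomp⟩ : ∃ ε₂ > 0, ∀ z ∈ tsupport χ, |ρ z| < ε₂ → -κ < divg u z := by
    have hcl : IsClosed (tsupport χ ∩ (fun z => divg u z) ⁻¹' Iic (-κ)) :=
      (hgc.mono hC.sub).preimage_isClosed_of_isClosed (isClosed_tsupport χ) isClosed_Iic
    have hKc : IsCompact (tsupport χ ∩ (fun z => divg u z) ⁻¹' Iic (-κ)) :=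
      hK.of_isClosed_subset hcl inter_subset_left
    rcases (tsupport χ ∩ (fun z => divg u z) ⁻¹' Iic (-κ)).eq_empty_or_nonempty with h | h
    · refine ⟨1, one_pos, fun z hz _ => ?_⟩
      by_contra hlt
      have : z ∈ (tsupport χ ∩ (fun z => divg u z) ⁻¹' Iic (-κ)) := ⟨hz, not_lt.1 hlt⟩
      rw [h] at this
      exact this
    · have hcon : ContinuousOn (fun z => |ρ z|) (tsupport χ ∩ (fun z => divg u z) ⁻¹' Iic (-κ)) :=
        (hρ.continuousOn.mono (inter_subset_left.trans hC.sub)).abs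
      obtain ⟨z₁, hz₁, hmin⟩ := hKc.exists_isMinOn h hcon
      have hz₁O : z₁ ∈ O := hC.sub hz₁.1
      have hz₁κ : divg u z₁ ≤ -κ := hz₁.2
      have hp : 0 < |ρ z₁| := by
        rw [abs_pos]
        intro h1
        have := hpos z₁ hz₁O h1
        linarith
      refine ⟨|ρ z₁|, hp, fun z hz hlt => ?_⟩
      by_contra hlt2
      have : |ρ z₁| ≤ |ρ z| := hmin (show z ∈ _ from ⟨hz, not_lt.1 hlt2⟩)
      linarith
  set ε : ℝ := min (min ε₀ ε₁) ε₂ / 2 with hεdef
  have hm : 0 < min (min ε₀ ε₁) ε₂ := lt_min (lt_min hC.pos hε₁) hε₂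
  have hε : 0 < ε := by positivity
  have hm1 : min (min ε₀ ε₁) ε₂ ≤ ε₀ := (min_le_left _ _).trans (min_le_left _ _)
  have hm2 : min (min ε₀ ε₁) ε₂ ≤ ε₁ := (min_le_left _ _).trans (min_le_right _ _)
  have hm3 : min (min ε₀ ε₁) ε₂ ≤ ε₂ := min_le_right _ _
  have hεa : ε < ε₀ := by linarith
  have hεb : ε < ε₁ := by linarith
  have hεc : ε < ε₂ := by linarith
  have hcut := int_cut hO hC hρ1 hu ht hε hεa
  have hl := hlow ε hε hεb
  have hu2 := hup ε hε hεa
  have hcF : Continuous (fun z => χ z * ph (ρ z / ε)) := by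
    rw [continuous_iff_continuousAt]
    intro x
    by_cases hx : x ∈ O
    · exact hC.smooth.continuous.continuousAt.mul
        (ph_smooth.continuous.continuousAt.comp ((hρ1.continuousOn.continuousAt (hO.mem_nhds hx)).div_const ε))
    · have hx' : x ∈ (tsupport χ)ᶜ := fun h => hx (hC.sub h)
      refine (continuousAt_const (y := (0 : ℝ))).congr ?_
      filter_upwards [(isClosed_tsupport χ).isOpen_compl.mem_nhds hx'] with y hy
      rw [hχ0 y hy, zero_mul]
  have hi1 : Integrable (fun z => χ z * ph (ρ z / ε)) :=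
    hcF.integrable_of_hasCompactSupport (HasCompactSupport.intro hK fun z hz => by
      show χ z * ph (ρ z / ε) = 0
      rw [hχ0 z hz, zero_mul])
  have hcG : Continuous (fun z => χ z * ph (ρ z / ε) * divg u z) := by
    rw [continuous_iff_continuousAt]
    intro x
    by_cases hx : x ∈ O
    · exact hcF.continuousAt.mul (hgc.continuousAt (hO.mem_nhds hx))
    · have hx' : x ∈ (tsupport χ)ᶜ := fun h => hx (hC.sub h)
      refine (continuousAt_const (y := (0 : ℝ))).congr ?_
      filter_upwards [(isClosed_tsupport χ).isOpen_compl.mem_nhds hx'] with y hy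
      rw [hχ0 y hy, zero_mul, zero_mul]
  have hi2 : Integrable (fun z => χ z * ph (ρ z / ε) * divg u z) :=
    hcG.integrable_of_hasCompactSupport (HasCompactSupport.intro hK fun z hz => by
      show χ z * ph (ρ z / ε) * divg u z = 0
      rw [hχ0 z hz, zero_mul, zero_mul])
  have hi3 : IntegrableOn (fun z => ph (ρ z / ε)) (Metric.closedBall z₀ δ) := by
    refine ContinuousOn.integrableOn_compact (isCompact_closedBall z₀ δ) ?_
    exact ph_smooth.continuous.comp_continuousOn
      ((hρ1.continuousOn.mono fun z hz => (hball z hz).1).div_const ε)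
  have hi4 : Integrable ((Metric.closedBall z₀ δ).indicator (fun z => ph (ρ z / ε))) :=
    hi3.integrable_indicator Metric.isClosed_closedBall.measurableSet
  have hmono : ∫ z, (c₀ * (Metric.closedBall z₀ δ).indicator (fun z => ph (ρ z / ε)) z -
      κ * (χ z * ph (ρ z / ε))) ≤ ∫ z, χ z * ph (ρ z / ε) * divg u z := by
    refine integral_mono ((hi4.const_mul c₀).sub (hi1.const_mul κ)) hi2 fun z => ?_
    show c₀ * (Metric.closedBall z₀ δ).indicator (fun z => ph (ρ z / ε)) z -
      κ * (χ z * ph (ρ z / ε)) ≤ χ z * ph (ρ z / ε) * divg u z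
    have hph := ph_nonneg (ρ z / ε)
    by_cases hzb : z ∈ Metric.closedBall z₀ δ
    · obtain ⟨-, h1, h2⟩ := hball z hzb
      rw [Set.indicator_of_mem hzb, h1, one_mul]
      have h3 : 0 ≤ κ * ph (ρ z / ε) := mul_nonneg hκ.le hph
      have h4 : c₀ * ph (ρ z / ε) ≤ divg u z * ph (ρ z / ε) := mul_le_mul_of_nonneg_right h2.le hph
      linarith
    · rw [Set.indicator_of_notMem hzb, mul_zero, zero_sub]
      by_cases hzs : z ∈ tsupport χ
      · by_cases hρz : |ρ z| < ε
        · have h1 := hcomp z hzs (hρz.trans hεc)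
          have h2 : 0 ≤ χ z * ph (ρ z / ε) := mul_nonneg (hC.bd z).1 hph
          nlinarith [mul_nonneg h2 (by linarith : 0 ≤ divg u z + κ)]
        · have h1 : ph (ρ z / ε) = 0 := by
            refine ph_zero ?_
            rw [abs_div, abs_of_pos hε, le_div_iff₀ hε, one_mul]
            exact not_lt.1 hρz
          rw [h1]
          simp
      · rw [hχ0 z hzs]
        simp
  rw [hcut, integral_sub (hi4.const_mul c₀) (hi1.const_mul κ), integral_const_mul, integral_const_mul,
    integral_indicator Metric.isClosed_closedBall.measurableSet] at hmono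
  have h5 : c₀ * (c * ε) ≤ c₀ * ∫ z in Metric.closedBall z₀ δ, ph (ρ z / ε) :=
    mul_le_mul_of_nonneg_left hl hc₀.le
  have h6 : κ * ∫ z, χ z * ph (ρ z / ε) ≤ κ * (C * ε) := mul_le_mul_of_nonneg_left hu2 hκ.le
  have h7 : κ * (C * ε) ≤ κ * ((|C| + 1) * ε) := by
    have : C ≤ |C| + 1 := by linarith [le_abs_self C]
    have : C * ε ≤ (|C| + 1) * ε := mul_le_mul_of_nonneg_right this hε.le
    exact mul_le_mul_of_nonneg_left this hκ.le
  have h8 : κ * ((|C| + 1) * ε) = c₀ * c * ε / 2 := by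
    rw [hκdef]
    have : (0 : ℝ) < |C| + 1 := by positivity
    field_simp
  have h9 : 0 < c₀ * c * ε := by positivity
  nlinarith

end Pool.Agent.Helper77.JE
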