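import Pool.Agent.Helper75.ROT.St

/-! # JE: definitions for the statement

In the unit ball of `ℂⁿ` with the metric `g` (the Bergman metric).
-/

set_option autoImplicit false

namespace Pool.Agent.Helper77.JE

variable {n : ℕ}

/-- The unit normal `∇ρ / |∇ρ|` of the level sets of `ρ` for the metric `g`. -/
noncomputable def unor
    (g : EuclideanSpace ℂ (Fin n) → EuclideanSpace ℂ (Fin n) →L[ℝ] EuclideanSpace ℂ (Fin n))
    (ρ : EuclideanSpace ℂ (Fin n) → ℝ) (z : EuclideanSpace ℂ (Fin n)) : EuclideanSpace ℂ (Fin n) :=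
  (√(inner ℝ (gradient ρ z) ((g z).inverse (gradient ρ z))))⁻¹ • (g z).inverse (gradient ρ z)

/-- The point `exp_z (- R u)` at distance `R` from `z` on the inner normal geodesic (`u` the unit normal,
`s = tanh R`). -/
noncomputable def centre
    (g : EuclideanSpace ℂ (Fin n) → EuclideanSpace ℂ (Fin n) →L[ℝ] EuclideanSpace ℂ (Fin n))
    (ρ : EuclideanSpace ℂ (Fin n) → ℝ) (s : ℝ) (z : EuclideanSpace ℂ (Fin n)) :
    EuclideanSpace ℂ (Fin n) :=
  z - ((s : ℂ) / (1 - s * (inner ℂ z (unor g ρ z) / (1 - ‖z‖ ^ 2)))) • unor g ρ z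

/-- `cosh²` of the distance of `a` and `b`. -/
noncomputable def coshSq (a b : EuclideanSpace ℂ (Fin n)) : ℝ :=
  ‖1 - inner ℂ a b‖ ^ 2 / ((1 - ‖a‖ ^ 2) * (1 - ‖b‖ ^ 2))

end Pool.Agent.Helper77.JE
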