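import Pool.Agent.Helper77.JE.PtD
import Pool.Agent.Helper77.JE.Lift
import Pool.Agent.Helper77.JE.Meas
import Pool.Agent.Helper77.JE.Lev
import Pool.Agent.Helper77.JE.St

/-! # JE: end of the proof -/

set_option autoImplicit false
set_option linter.unusedSectionVars false
set_option linter.unusedVariables false

open Filter Topology Set
open scoped ContDiff

namespace Pool.Agent.Helper77.JE

open Pool.Agent.Helper41.ALX (divg Vertical ballMetric meanCurv PC bergman vertical_PC bergman_eq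
  radial)

variable {E : Type*} [NormedAddCommGroup E] [InnerProductSpace ℝ E] [FiniteDimensional ℝ E]

/-- the set where everything is defined -/
def OO (ρ : E → ℝ) : Set E := {z | ‖z‖ < 1 ∧ fderiv ℝ ρ z ≠ 0}

/-- the hypotheses -/
structure Hyp (j : E →L[ℝ] E) (ρ : E → ℝ) (n : ℕ) (lam : ℝ) (p : ℝ × ℝ × E) : Prop where
  cj : Cj j
  dim : Module.finrank ℝ E = 2 * n
  two : 2 ≤ n
  one : 1 < lam
  smooth : ContDiffOn ℝ 3 ρ (Metric.ball 0 1)
  reg : ∀ z : E, ‖z‖ < 1 → ρ z = 0 → fderiv ℝ ρ z ≠ 0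
  curv : ∀ z : E, ‖z‖ < 1 → ρ z = 0 → mc j ρ z = (2 * n - 1) * lam + lam⁻¹
  pp : BL E p p = -1
  cen : ∀ z : E, ‖z‖ < 1 → ρ z = 0 →
    (n1 (BL E) lam p (xs (BL E) (io z)) (nu (BL E) (GG j ρ) (io z)) ^ 2 +
      n2 (BL E) (JL j) lam p (xs (BL E) (io z)) (nu (BL E) (GG j ρ) (io z)) ^ 2) *
        (lam ^ 2 - 81 / 100) ≤ lam ^ 2 * (lam ^ 2 - 1)

variable {j : E →L[ℝ] E} {ρ : E → ℝ} {n : ℕ} {lam : ℝ} {p : ℝ × ℝ × E}

/-- the field on the ball -/
noncomputable def fu (j : E →L[ℝ] E) (ρ : E → ℝ) (n : ℕ) (lam : ℝ) (p : ℝ × ℝ × E) (z : E) : E :=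
  ((1 - ‖z‖ ^ 2) ^ (n + 1))⁻¹ • dn j (VV (BL E) (JL j) lam (2 * n - 2) p (GG j ρ)) z

/-- piece `JE-F1` (a) -/
theorem oo_open (h : Hyp j ρ n lam p) : IsOpen (OO ρ) := by
  have h1 : ContinuousOn (fderiv ℝ ρ) (Metric.ball (0 : E) 1) :=
    (h.smooth.fderiv_of_isOpen (m := 2) Metric.isOpen_ball (by norm_num)).continuousOn
  have h2 := h1.isOpen_inter_preimage Metric.isOpen_ball
    (isOpen_compl_singleton (x := (0 : E →L[ℝ] ℝ)))
  have h3 : OO ρ = Metric.ball (0 : E) 1 ∩ fderiv ℝ ρ ⁻¹' {(0 : E →L[ℝ] ℝ)}ᶜ := by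
    ext z
    simp [OO]
  rw [h3]
  exact h2

theorem io_UU (h : Hyp j ρ n lam p) {z : E} (hz : z ∈ OO ρ) : io z ∈ UU j ρ := by
  refine ⟨?_, ?_⟩
  · rw [BL_apply]
    simp only [io]
    rw [real_inner_self_eq_norm_sq]
    have h1 := hz.1
    have := norm_nonneg z
    nlinarith
  · rw [pr_io]
    exact hz.2

/-- piece `JE-F1` (b): `VV_c1` -/
theorem fu_c1 (h : Hyp j ρ n lam p) : ContDiffOn ℝ 1 (fu j ρ n lam p) (OO ρ) := by
  have hG := gdL h.cj h.smooth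
  have hio : ContDiff ℝ 1 (fun z : E => (io z : ℝ × ℝ × E)) := by
    unfold io
    fun_prop
  have hV : ContDiffOn ℝ 1 (fun z : E => VV (BL E) (JL j) lam (2 * n - 2) p (GG j ρ) (io z)) (OO ρ) :=
    (hG.VV_c1 lam (2 * n - 2) p).comp hio.contDiffOn fun z hz => io_UU h hz
  have h1 : ContDiffOn ℝ 1 (fun z : E => (VV (BL E) (JL j) lam (2 * n - 2) p (GG j ρ) (io z)).1)
      (OO ρ) := contDiff_fst.comp_contDiffOn hV
  have h2 : ContDiffOn ℝ 1 (fun z : E => (VV (BL E) (JL j) lam (2 * n - 2) p (GG j ρ) (io z)).2)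
      (OO ρ) := contDiff_snd.comp_contDiffOn hV
  have h3 : ContDiffOn ℝ 1 (fun z : E => (VV (BL E) (JL j) lam (2 * n - 2) p (GG j ρ) (io z)).2.1)
      (OO ρ) := contDiff_fst.comp_contDiffOn h2
  have h4 : ContDiffOn ℝ 1 (fun z : E => (VV (BL E) (JL j) lam (2 * n - 2) p (GG j ρ) (io z)).2.2)
      (OO ρ) := contDiff_snd.comp_contDiffOn h2
  have h5 : ContDiffOn ℝ 1 (fun z : E => ((1 - ‖z‖ ^ 2) ^ (n + 1))⁻¹) (OO ρ) := by
    refine ContDiffOn.inv ?_ fun z hz => ?_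
    · exact ((contDiff_const.sub (contDiff_norm_sq ℝ)).pow (n + 1)).contDiffOn
    · have h6 := hz.1
      have h7 := norm_nonneg z
      have h8 : 0 < 1 - ‖z‖ ^ 2 := by nlinarith
      exact (pow_pos h8 _).ne'
  have h6 : ContDiffOn ℝ 1 (fun z : E => j z) (OO ρ) := j.contDiff.contDiffOn
  exact h5.smul ((h4.sub (h1.smul contDiffOn_id)).sub (h3.smul h6))

/-- piece `JE-F1` (c): `dn V z = D pr (io z) (V (io z))` (`Dpr_io`), so `dρ (dn V z) = D ff (V (io z)) = B G V = 0`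
(`GG_B`, `VV_hz`) -/
theorem fu_tan (h : Hyp j ρ n lam p) {z : E} (hz : z ∈ OO ρ) :
    fderiv ℝ ρ z (fu j ρ n lam p z) = 0 := by
  have hG := gdL h.cj h.smooth
  have hH := hfL h.cj
  have hX := io_UU h hz
  have hV := (hG.VV_hz hH lam (2 * n - 2) p hX).2.2
  have hX0 : (io z : ℝ × ℝ × E).1 ^ 2 + (io z : ℝ × ℝ × E).2.1 ^ 2 ≠ 0 := by simp [io]
  have g1 : HasFDerivAt (pr j) (fderiv ℝ (pr j) (io z)) (io z) :=
    ((pr_smooth j hX0).differentiableAt (by simp)).hasFDerivAt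
  have g2 : HasFDerivAt ρ (fderiv ℝ ρ z) (pr j (io z)) := by
    rw [pr_io]
    exact ((h.smooth.contDiffAt (Metric.isOpen_ball.mem_nhds
      (mem_ball_zero_iff.2 hz.1))).differentiableAt (by norm_num)).hasFDerivAt
  have g3 : fderiv ℝ (ff j ρ) (io z) = (fderiv ℝ ρ z).comp (fderiv ℝ (pr j) (io z)) :=
    (g2.comp (io z) g1).fderiv
  rw [hH.symm, GG_B, g3, ContinuousLinearMap.comp_apply, Dpr_io h.cj] at hV
  unfold fu
  rw [map_smul, smul_eq_mul]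
  unfold dn
  rw [hV, mul_zero]

/-- piece `JE-F2`: the sign of the divergence. Let `X = io z`, `X' = xs X = c • X`, `c = (√(1 - ‖z‖²))⁻¹`; `B X' X' = -1`,
`nu X' = nu X`, `NN X' = SS X`, `X' ∈ UU`. Frame at `X'`: `exists_fr`; `Gd.jt` at `X'`: `h1` is `h.curv` (`mc`), `h2` is `trace_const`
with `NN_smul`; `m = 2 n - 2`. `descent` (`DVV_X`, `DVV_JX`, `VV_hz`), `VV_smul`, `trace_VV`, `point_pos`; `rr > 0`. -/
theorem fu_div (h : Hyp j ρ n lam p) {z : E} (hz : ‖z‖ < 1) (h0 : ρ z = 0) :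
    0 ≤ divg (fu j ρ n lam p) z ∧ (divg (fu j ρ n lam p) z = 0 →
      ∀ w, Hz (BL E) (JL j) (xs (BL E) (io z)) (nu (BL E) (GG j ρ) (io z)) w →
        Tm (BL E) (JL j) lam (xs (BL E) (io z)) (nu (BL E) (GG j ρ) (io z))
          (SS (BL E) (GG j ρ) (io z)) w = 0) := by
  have hr := h.reg z hz h0
  have hH := hfL h.cj
  have hG := gdL h.cj h.smooth
  have hs : 0 < 1 - ‖z‖ ^ 2 := by
    have := norm_nonneg z
    nlinarith
  have hBX : BL E (io z) (io z) = ‖z‖ ^ 2 - 1 := by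
    rw [BL_apply, real_inner_self_eq_norm_sq]
    simp [io]
  have hneg : BL E (io z) (io z) < 0 := by rw [hBX]; linarith
  have htt : tt (BL E) (io z) = 1 - ‖z‖ ^ 2 := by
    unfold tt
    rw [hBX]
    ring
  obtain ⟨c, hc⟩ : ∃ c : ℝ, c = (√(1 - ‖z‖ ^ 2))⁻¹ := ⟨_, rfl⟩
  have hsq : 0 < √(1 - ‖z‖ ^ 2) := Real.sqrt_pos.2 hs
  have hc0 : 0 < c := by rw [hc]; exact inv_pos.2 hsq
  have hci : c⁻¹ = √(1 - ‖z‖ ^ 2) := by rw [hc, inv_inv]
  have hxs : xs (BL E) (io z) = c • io z := by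
    unfold xs
    rw [htt, hc]
  have hcc : c * c * (1 - ‖z‖ ^ 2) = 1 := by
    have h4 : √(1 - ‖z‖ ^ 2) * √(1 - ‖z‖ ^ 2) = 1 - ‖z‖ ^ 2 := Real.mul_self_sqrt hs.le
    have h5 : c * √(1 - ‖z‖ ^ 2) = 1 := by
      rw [hc]
      exact inv_mul_cancel₀ hsq.ne'
    linear_combination (-(c * c)) * h4 + (c * √(1 - ‖z‖ ^ 2) + 1) * h5
  have hxx : BL E (c • io z) (c • io z) = -1 := by
    simp only [map_smul, ContinuousLinearMap.smul_apply, smul_eq_mul]
    rw [hBX]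
    linear_combination -hcc
  have hX : io z ∈ UU j ρ := ⟨hneg, by rw [pr_io]; exact hr⟩
  have hX' : c • io z ∈ UU j ρ :=
    ⟨by rw [hxx]; norm_num, by rw [pr_smul j hc0.ne', pr_io]; exact hr⟩
  have hGs : ∀ a : ℝ, 0 < a → ∀ Y, GG j ρ (a • Y) = a⁻¹ • GG j ρ Y := fun a ha Y => GG_smul j ρ ha Y
  obtain ⟨e1, e2, e3⟩ := NN_smul hGs hc0 (io z)
  have hSS : SS (BL E) (GG j ρ) (io z) = NN (BL E) (GG j ρ) (c • io z) := by
    unfold SS
    rw [htt, e2, hci]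
  have hP := hG.pt hH hX'
  obtain ⟨d, e, he⟩ := exists_fr h.cj hxx hP.nn (by rw [hH.symm]; exact hP.xn)
    (by rw [hH.symm]; exact hP.jxn)
  have hdim : (Module.finrank ℝ (ℝ × ℝ × E) : ℝ) = (2 * n - 2 : ℝ) + 4 := by
    rw [Module.finrank_prod, Module.finrank_prod, h.dim, Module.finrank_self]
    push_cast
    ring
  have htr : LinearMap.trace ℝ _ (NN (BL E) (GG j ρ) (c • io z) : (ℝ × ℝ × E) →ₗ[ℝ] (ℝ × ℝ × E)) =
      ((2 * n - 2 : ℝ) + 1) * lam + lam⁻¹ := by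
    have h5 := h.curv z hz h0
    unfold mc at h5
    rw [e2, hci]
    have h6 : ((√(1 - ‖z‖ ^ 2) • NN (BL E) (GG j ρ) (io z) : (ℝ × ℝ × E) →L[ℝ] (ℝ × ℝ × E)) :
        (ℝ × ℝ × E) →ₗ[ℝ] (ℝ × ℝ × E)) =
        √(1 - ‖z‖ ^ 2) • (NN (BL E) (GG j ρ) (io z) : (ℝ × ℝ × E) →ₗ[ℝ] (ℝ × ℝ × E)) := rfl
    rw [h6, map_smul, smul_eq_mul, h5]
    ring
  have htr2 : ∀ u, Hz (BL E) (JL j) (c • io z) (nu (BL E) (GG j ρ) (c • io z)) u →
      LinearMap.trace ℝ _ (fderiv ℝ (NN (BL E) (GG j ρ)) (c • io z) u :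
        (ℝ × ℝ × E) →ₗ[ℝ] (ℝ × ℝ × E)) = 0 := by
    intro u hu
    have h7 : Hz (BL E) (JL j) (io z) (nu (BL E) (GG j ρ) (io z)) u := by
      refine ⟨?_, ?_, ?_⟩
      · have h8 := hu.1
        rw [map_smul, smul_eq_mul] at h8
        exact (mul_eq_zero.1 h8).resolve_left hc0.ne'
      · have h8 := hu.2.1
        rw [map_smul, map_smul, smul_eq_mul] at h8
        exact (mul_eq_zero.1 h8).resolve_left hc0.ne'
      · rw [← e1]
        exact hu.2.2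
    have h9 := trace_const h.cj h.smooth hz h0 hr h.curv u h7
    rw [e3]
    have h6 : (((c⁻¹ ^ 2) • fderiv ℝ (NN (BL E) (GG j ρ)) (io z)) u : (ℝ × ℝ × E) →L[ℝ] (ℝ × ℝ × E)) =
        (c⁻¹ ^ 2) • (fderiv ℝ (NN (BL E) (GG j ρ)) (io z) u) := rfl
    rw [h6]
    have h10 : (((c⁻¹ ^ 2) • (fderiv ℝ (NN (BL E) (GG j ρ)) (io z) u) :
        (ℝ × ℝ × E) →L[ℝ] (ℝ × ℝ × E)) : (ℝ × ℝ × E) →ₗ[ℝ] (ℝ × ℝ × E)) =
        (c⁻¹ ^ 2) • ((fderiv ℝ (NN (BL E) (GG j ρ)) (io z) u : (ℝ × ℝ × E) →L[ℝ] (ℝ × ℝ × E)) :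
          (ℝ × ℝ × E) →ₗ[ℝ] (ℝ × ℝ × E)) := rfl
    rw [h10, map_smul, h9, smul_zero]
  have hJt := hG.jt hH hX' hxx he hdim htr htr2
  have hm : (2 : ℝ) ≤ 2 * n - 2 := by
    have h11 : (2 : ℝ) ≤ n := by exact_mod_cast h.two
    linarith
  have hcen := h.cen z hz h0
  rw [hxs, ← e1] at hcen
  obtain ⟨q1, q2⟩ := point_pos hH hP hxx h.one hm he hJt p h.pp hcen
  have hdes := descent h.cj h.dim (V := VV (BL E) (JL j) lam (2 * n - 2) p (GG j ρ)) hz
    (((hG.VV_c1 lam (2 * n - 2) p).contDiffAt (hG.isOpen.mem_nhds hX)).differentiableAt one_ne_zero)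
    (hG.DVV_X hH lam (2 * n - 2) p hX) (hG.DVV_JX hH lam (2 * n - 2) p hX)
    (hG.VV_hz hH lam (2 * n - 2) p hX).1
  have hVs := (VV_smul (j := j) hGs lam (2 * n - 2) p hc0 (io z)).2
  have htV := hG.trace_VV hH lam (2 * n - 2) p hX' hxx he
  rw [hVs] at htV
  have hfu : divg (fu j ρ n lam p) z = ((1 - ‖z‖ ^ 2) ^ (n + 1))⁻¹ *
      (rr (BL E) (GG j ρ) (c • io z) * ∑ i, BL E (dV2 (BL E) (JL j) lam (2 * n - 2) p (c • io z)
        (nu (BL E) (GG j ρ) (c • io z)) (NN (BL E) (GG j ρ) (c • io z)) (e i)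
        (NN (BL E) (GG j ρ) (c • io z) (e i))
        (fderiv ℝ (NN (BL E) (GG j ρ)) (c • io z) (e i))) (e i)) := by
    rw [← htV, ← hdes]
    rfl
  have hK : 0 < ((1 - ‖z‖ ^ 2) ^ (n + 1))⁻¹ := inv_pos.2 (pow_pos hs _)
  have hR := hG.rr_pos hX'
  rw [hfu]
  refine ⟨mul_nonneg hK.le (mul_nonneg hR.le q1), fun h12 => ?_⟩
  have h13 := (mul_eq_zero.1 ((mul_eq_zero.1 h12).resolve_left hK.ne')).resolve_left hR.ne'
  have h14 := q2 h13
  rw [hxs, hSS, ← e1]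
  exact h14

/-- piece `JE-F3`: `divg_zero` -/
theorem T_zero (h : Hyp j ρ n lam p)
    (hbd : ∃ R : ℝ, R < 1 ∧ ∀ z ∈ Metric.ball (0 : E) 1, ρ z ≤ 0 → ‖z‖ ≤ R) {z : E}
    (hz : ‖z‖ < 1) (h0 : ρ z = 0) {w : ℝ × ℝ × E}
    (hw : Hz (BL E) (JL j) (xs (BL E) (io z)) (nu (BL E) (GG j ρ) (io z)) w) :
    Tm (BL E) (JL j) lam (xs (BL E) (io z)) (nu (BL E) (GG j ρ) (io z))
      (SS (BL E) (GG j ρ) (io z)) w = 0 := by
  have hsub : OO ρ ⊆ Metric.ball (0 : E) 1 := fun y hy => mem_ball_zero_iff.2 hy.1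
  have hcomp : IsCompact {y : E | y ∈ OO ρ ∧ ρ y = 0} := by
    obtain ⟨R, hR1, hR⟩ := hbd
    have hsub' : Metric.closedBall (0 : E) R ⊆ Metric.ball (0 : E) 1 :=
      Metric.closedBall_subset_ball hR1
    have e : {y : E | y ∈ OO ρ ∧ ρ y = 0} = Metric.closedBall (0 : E) R ∩ ρ ⁻¹' {0} := by
      ext y
      constructor
      · rintro ⟨hy, hy0⟩
        exact ⟨mem_closedBall_zero_iff.2 (hR y (hsub hy) hy0.le), hy0⟩
      · rintro ⟨hy, hy0⟩
        have hy1 : ‖y‖ < 1 := mem_ball_zero_iff.1 (hsub' hy)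
        exact ⟨⟨hy1, h.reg y hy1 hy0⟩, hy0⟩
    rw [e]
    have hcl : IsClosed (Metric.closedBall (0 : E) R ∩ ρ ⁻¹' {0}) :=
      (h.smooth.continuousOn.mono hsub').preimage_isClosed_of_isClosed
        Metric.isClosed_closedBall isClosed_singleton
    exact (isCompact_closedBall (0 : E) R).of_isClosed_subset hcl Set.inter_subset_left
  have hd := divg_zero (oo_open h) ((h.smooth.mono hsub).of_le (by norm_num)) hcomp
    (fun y hy => hy.2) (fu_c1 h) (fun y hy => fu_tan h hy)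
    (fun y hy hy0 => (fu_div h hy.1 hy0).1) z ⟨hz, h.reg z hz h0⟩ h0
  exact (fu_div h hz h0).2 hd w hw

/-- the direction of the centre: `lam x - ν` -/
noncomputable def cc (j : E →L[ℝ] E) (ρ : E → ℝ) (lam : ℝ) (X : ℝ × ℝ × E) : ℝ × ℝ × E :=
  lam • xs (BL E) X - nu (BL E) (GG j ρ) X

theorem io_neg {z : E} (hz : ‖z‖ < 1) : BL E (io z) (io z) < 0 := by
  rw [BL_apply]
  simp only [io]
  rw [real_inner_self_eq_norm_sq]
  have := norm_nonneg z
  nlinarith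

theorem xs_B {X : ℝ × ℝ × E} (hX : BL E X X < 0) : BL E (xs (BL E) X) (xs (BL E) X) = -1 := by
  have h : 0 < tt (BL E) X := by unfold tt; linarith
  have h2 : √(tt (BL E) X) * √(tt (BL E) X) = tt (BL E) X := Real.mul_self_sqrt h.le
  have h3 : √(tt (BL E) X) ≠ 0 := (Real.sqrt_pos.2 h).ne'
  unfold xs
  rw [map_smul, map_smul, smul_apply, smul_eq_mul, smul_eq_mul]
  have h4 : BL E X X = -(√(tt (BL E) X) * √(tt (BL E) X)) := by rw [h2]; unfold tt; ring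
  rw [h4]
  field_simp

/-- piece `JE-F4` (a): `B c c = 1 - lam²` -/
theorem cc_B (h : Hyp j ρ n lam p) {z : E} (hz : z ∈ OO ρ) :
    BL E (cc j ρ lam (io z)) (cc j ρ lam (io z)) = 1 - lam ^ 2 := by
  have hU := io_UU h hz
  have hP := (gdL h.cj h.smooth).pt (hfL h.cj) hU
  have h1 := xs_B (io_neg hz.1)
  have hH := hfL h.cj
  have h2 : BL E (xs (BL E) (io z)) (nu (BL E) (GG j ρ) (io z)) = 0 := by
    unfold xs
    rw [map_smul, smul_apply, hP.xn, smul_zero]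
  have h3 : BL E (nu (BL E) (GG j ρ) (io z)) (xs (BL E) (io z)) = 0 := by
    rw [hH.symm]; exact h2
  unfold cc
  simp only [map_sub, map_smul, sub_apply, smul_apply, smul_eq_mul]
  rw [h1, h2, h3, hP.nn]
  ring

/-- piece `JE-F4` (b): the map to the centre is of class `C¹` -/
theorem cen_c1 (h : Hyp j ρ n lam p) :
    ContDiffOn ℝ 1 (fun z : E => pr j (cc j ρ lam (io z))) (OO ρ) := by
  intro z hz
  have hU := io_UU h hz
  have hG := gdL h.cj h.smooth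
  have hio : ContDiffAt ℝ 1 (fun z : E => (io z : ℝ × ℝ × E)) z := by
    unfold io
    fun_prop
  have hneg := io_neg hz.1
  have hxs : ContDiffAt ℝ 1 (xs (BL E)) (io z) := by
    have ht : ContDiffAt ℝ 1 (fun X : ℝ × ℝ × E => tt (BL E) X) (io z) := by
      unfold tt
      fun_prop
    have h0 : 0 < tt (BL E) (io z) := by unfold tt; linarith
    have hs : ContDiffAt ℝ 1 (fun X : ℝ × ℝ × E => √(tt (BL E) X)) (io z) :=
      ht.sqrt h0.ne'
    exact (hs.inv (Real.sqrt_pos.2 h0).ne').smul contDiffAt_id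
  have hnu : ContDiffAt ℝ 1 (nu (BL E) (GG j ρ)) (io z) :=
    ((hG.nu_c2.contDiffAt (hG.isOpen.mem_nhds hU))).of_le (by norm_num)
  have hcc : ContDiffAt ℝ 1 (cc j ρ lam) (io z) := by
    unfold cc
    exact (hxs.const_smul lam).sub hnu
  have hB := cc_B h hz
  have hl := h.one
  have hBn : BL E (cc j ρ lam (io z)) (cc j ρ lam (io z)) < 0 := by
    rw [hB]; nlinarith
  have hpr : ContDiffAt ℝ 1 (pr j) (cc j ρ lam (io z)) :=
    (pr_smooth j (pr_ball h.cj hBn).1.ne').of_le (by exact_mod_cast le_top)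
  exact ((hpr.comp z (hcc.comp z hio))).contDiffWithinAt

private theorem xs_hd {L : Type*} [NormedAddCommGroup L] [NormedSpace ℝ L]
    {B : L →L[ℝ] L →L[ℝ] ℝ} {J : L →L[ℝ] L} (hH : Hf B J) {X : L} (hX : B X X < 0) :
    ∃ D : L →L[ℝ] L, HasFDerivAt (xs B) D X ∧
      ∀ v, D v = (√(tt B X))⁻¹ • v + ((√(tt B X))⁻¹ * (tt B X)⁻¹ * B X v) • X := by
  have ht : 0 < tt B X := by
    unfold tt
    linarith
  have hs : 0 < √(tt B X) := Real.sqrt_pos.2 ht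
  have h1 : HasFDerivAt (fun Y => B Y) B X := B.hasFDerivAt
  have h2 := (h1.clm_apply (hasFDerivAt_id X)).neg
  have h3 := h2.sqrt (show -(B X (id X)) ≠ 0 from ht.ne')
  have h4 := (hasDerivAt_inv (show √(-(B X (id X))) ≠ 0 from hs.ne')).comp_hasFDerivAt X h3
  have h5 := h4.smul (hasFDerivAt_id X)
  refine ⟨_, h5, fun v => ?_⟩
  have e1 : √(tt B X) ^ 2 = tt B X := Real.sq_sqrt ht.le
  have e2 : √(-(B X X)) = √(tt B X) := rfl
  simp only [ContinuousLinearMap.add_apply, ContinuousLinearMap.smul_apply,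
    ContinuousLinearMap.neg_apply, ContinuousLinearMap.smulRight_apply, id_eq,
    ContinuousLinearMap.comp_apply, ContinuousLinearMap.id_apply, Function.comp,
    ContinuousLinearMap.flip_apply, e2, e1, smul_eq_mul]
  rw [hH.symm v X]
  congr 1
  congr 1
  have e3 : √((-fun y => (B y) y) X) = √(tt B X) := rfl
  rw [e3, one_div, mul_inv]
  ring

private theorem cc_hd {j : E →L[ℝ] E} {ρ : E → ℝ} (hj : Cj j)
    (hG : Gd (BL E) (JL j) (UU j ρ) (GG j ρ)) (lam : ℝ) {X : ℝ × ℝ × E} (hX : X ∈ UU j ρ) :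
    ∃ D : (ℝ × ℝ × E) →L[ℝ] (ℝ × ℝ × E), HasFDerivAt (cc j ρ lam) D X ∧
      ∀ v, D v = lam • ((√(tt (BL E) X))⁻¹ • v +
        ((√(tt (BL E) X))⁻¹ * (tt (BL E) X)⁻¹ * BL E X v) • X) - NN (BL E) (GG j ρ) X v := by
  obtain ⟨D, hD, hDv⟩ := xs_hd (hfL hj) (hG.neg X hX)
  have hn : HasFDerivAt (nu (BL E) (GG j ρ)) (NN (BL E) (GG j ρ) X) X :=
    ((hG.nu_c2.contDiffAt (hG.isOpen.mem_nhds hX)).differentiableAt (by norm_num)).hasFDerivAt
  refine ⟨_, (hD.const_smul lam).sub hn, fun v => ?_⟩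
  rw [← hDv]
  rfl

/-- piece `JE-F4` (c): its tangential derivative is zero on the hypersurface. `X = io z`, `w` with `dρ w = 0`:
`(0, 0, w) = u + a X + b J X` with `u` tangential horizontal at `xs X`. The derivatives of `cc` in the directions `X`, `J X`
are `0`, `J cc` (`N2`-free: `xs`, `nu` have degree `0` and are equivariant: `Nx`, `Njx`). In the direction `u`:
`√tt D cc u = lam u - S u` and `S u = lam u + lam⁻¹ B(ξ, u) ξ - B(ξ, u) J x` (`N_eq`, `T_zero`), so it is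
`B(ξ, u) (J x - lam⁻¹ J ν) = lam⁻¹ B(ξ, u) J (lam x - ν)`. Hence `D cc (0, 0, w)` is a multiple of `J cc`, and
`D pr (cc) (J cc) = 0` (`Dpr_JX`). -/
theorem cen_der (h : Hyp j ρ n lam p)
    (hT : ∀ z : E, ‖z‖ < 1 → ρ z = 0 → ∀ w,
      Hz (BL E) (JL j) (xs (BL E) (io z)) (nu (BL E) (GG j ρ) (io z)) w →
      Tm (BL E) (JL j) lam (xs (BL E) (io z)) (nu (BL E) (GG j ρ) (io z))
        (SS (BL E) (GG j ρ) (io z)) w = 0) {z : E}
    (hz : ‖z‖ < 1) (h0 : ρ z = 0) {w : E} (hw : fderiv ℝ ρ z w = 0) :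
    fderiv ℝ (fun z : E => pr j (cc j ρ lam (io z))) z w = 0 := by
  have hj := h.cj
  have hH := hfL hj
  have hG : Gd (BL E) (JL j) (UU j ρ) (GG j ρ) := gdL hj h.smooth
  have hO : z ∈ OO ρ := ⟨hz, h.reg z hz h0⟩
  have hX : io z ∈ UU j ρ := io_UU h hO
  have hP := hG.pt hH hX
  obtain ⟨D, hD, hDv⟩ := cc_hd hj hG lam hX
  have hxx := hG.neg _ hX
  have ht : 0 < tt (BL E) (io z) := by
    unfold tt
    linarith
  have hs : 0 < √(tt (BL E) (io z)) := Real.sqrt_pos.2 ht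
  have hcc : BL E (cc j ρ lam (io z)) (cc j ρ lam (io z)) < 0 := by
    rw [cc_B h hO]
    nlinarith [h.one]
  have hc0 := (pr_ball hj hcc).1.ne'
  have hpr : HasFDerivAt (pr j) (fderiv ℝ (pr j) (cc j ρ lam (io z))) (cc j ρ lam (io z)) :=
    ((pr_smooth j hc0).differentiableAt (by norm_num)).hasFDerivAt
  have hio : HasFDerivAt (io : E → ℝ × ℝ × E)
      ((0 : E →L[ℝ] ℝ).prod ((0 : E →L[ℝ] ℝ).prod (ContinuousLinearMap.id ℝ E))) z :=
    (hasFDerivAt_const (1 : ℝ) z).prodMk ((hasFDerivAt_const (0 : ℝ) z).prodMk (hasFDerivAt_id z))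
  have hF := hpr.comp z (hD.comp z hio)
  have hF' : fderiv ℝ (fun z : E => pr j (cc j ρ lam (io z))) z = _ := hF.fderiv
  rw [hF']
  show fderiv ℝ (pr j) (cc j ρ lam (io z)) (D (0, 0, w)) = 0
  set X : ℝ × ℝ × E := io z with hXd
  set v : ℝ × ℝ × E := (0, 0, w) with hv
  set a : ℝ := -((tt (BL E) X)⁻¹ * BL E X v) with ha
  set b : ℝ := -((tt (BL E) X)⁻¹ * BL E (JL j X) v) with hb
  set ν := nu (BL E) (GG j ρ) X with hν
  have x1 : BL E X X = -(tt (BL E) X) := by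
    unfold tt
    ring
  have x2 : BL E (JL j X) X = 0 := hH.self0 X
  have x3 : BL E X (JL j X) = 0 := by rw [hH.symm, x2]
  have x4 : BL E (JL j X) (JL j X) = -(tt (BL E) X) := by rw [hH.inv, x1]
  have hrr := hG.rr_pos hX
  have hvν : BL E v ν = 0 := by
    have h1 : DifferentiableAt ℝ ρ z :=
      (h.smooth.contDiffAt (Metric.isOpen_ball.mem_nhds (by simpa using hz))).differentiableAt
        (by norm_num)
    have h2 : BL E (GG j ρ X) v = 0 := by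
      rw [GG_io hj h1, BL_apply]
      have h3 : inner ℝ (gradient ρ z) w = fderiv ℝ ρ z w := by
        unfold gradient
        rw [InnerProductSpace.toDual_symm_apply]
      simp [hv, h3, hw]
    rw [hH.symm, hν]
    unfold nu
    simp [h2]
  set u : ℝ × ℝ × E := v - a • X - b • JL j X with hu
  have hvu : v = u + a • X + b • JL j X := by
    rw [hu]
    abel
  have u1 : BL E u X = 0 := by
    rw [hu]
    simp only [map_sub, map_smul, ContinuousLinearMap.sub_apply, ContinuousLinearMap.smul_apply,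
      smul_eq_mul]
    rw [x1, x2, hH.symm v X, ha]
    field_simp
    ring
  have u2 : BL E u (JL j X) = 0 := by
    rw [hu]
    simp only [map_sub, map_smul, ContinuousLinearMap.sub_apply, ContinuousLinearMap.smul_apply,
      smul_eq_mul]
    rw [x3, x4, hH.symm v (JL j X), hb]
    field_simp
    ring
  have u3 : BL E u ν = 0 := by
    rw [hu]
    simp only [map_sub, map_smul, ContinuousLinearMap.sub_apply, ContinuousLinearMap.smul_apply,
      smul_eq_mul]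
    rw [hvν, hP.xn, hP.jxn]
    ring
  have hHz : Hz (BL E) (JL j) (xs (BL E) X) ν u := by
    refine ⟨?_, ?_, u3⟩
    · unfold xs
      simp [u1]
    · unfold xs
      simp [u2]
  have hTu := hT z hz h0 u hHz
  rw [Tm_apply] at hTu
  set s := √(tt (BL E) X) with hsd
  set β := BL E (JL j ν) u with hβ
  set Nu := NN (BL E) (GG j ρ) X u with hNu
  have hSS : SS (BL E) (GG j ρ) X u = s • Nu := rfl
  rw [← hν, hSS] at hTu
  have hNu' : Nu = s⁻¹ • (lam • u + (lam⁻¹ * β) • JL j ν - β • JL j (xs (BL E) X)) := by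
    have h1 : s • Nu = lam • u + (lam⁻¹ * β) • JL j ν - β • JL j (xs (BL E) X) := by
      rw [← sub_eq_zero]
      rw [← hTu]
      abel
    rw [← h1, smul_smul, inv_mul_cancel₀ hs.ne', one_smul]
  have hlam0 : lam ≠ 0 := by linarith [h.one]
  have hxsd : xs (BL E) X = s⁻¹ • X := rfl
  have hccd : JL j (cc j ρ lam X) = lam • s⁻¹ • JL j X - JL j ν := by
    unfold cc
    rw [map_sub, map_smul, hxsd, map_smul]
  have hDv1 : D v = (s⁻¹ * lam⁻¹ * β + b) • JL j (cc j ρ lam X) := by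
    have hDX : D X = 0 := by
      rw [hDv, hP.Nx, x1]
      have : (√(tt (BL E) X))⁻¹ * (tt (BL E) X)⁻¹ * -(tt (BL E) X) = -(√(tt (BL E) X))⁻¹ := by
        field_simp
      rw [this]
      module
    have hDJ : D (JL j X) = JL j (cc j ρ lam X) := by
      rw [hDv, hP.Njx, x3, hccd]
      module
    have hDu : D u = (s⁻¹ * lam⁻¹ * β) • JL j (cc j ρ lam X) := by
      rw [hDv, hH.symm X u, u1, ← hNu, hNu', hccd, hxsd, map_smul]
      have : β = lam⁻¹ * lam * β := by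
        rw [inv_mul_cancel₀ hlam0, one_mul]
      match_scalars <;> field_simp <;> ring
    conv_lhs => rw [hvu]
    rw [map_add, map_add, map_smul, map_smul, hDX, hDJ, hDu]
    module
  rw [hDv1, map_smul, Dpr_JX hj hc0, smul_zero]

/-- `cosh²` times the norms -/
noncomputable def cq (j : E →L[ℝ] E) (a b : E) : ℝ :=
  BL E (io a) (io b) ^ 2 + BL E (JL j (io a)) (io b) ^ 2

private theorem cj_skew46 {j : E →L[ℝ] E} (hj : Cj j) (u v : E) : inner ℝ u (j v) = -inner ℝ (j u) v := by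
  have h := hj.inv u (j v)
  rw [hj.jj, inner_neg_right] at h
  linarith

private theorem cq_eq46 (j : E →L[ℝ] E) (a b : E) :
    cq j a b = (inner ℝ a b - 1) ^ 2 + inner ℝ (j a) b ^ 2 := by
  simp [cq, BL_apply, JL_apply, io]

/-- piece `JE-F5` (a): `Y = c • (1, 0, pr Y)` with a complex number `c ≠ 0` -/
theorem cq_pr (hj : Cj j) {a : E} {Y : ℝ × ℝ × E} (hY : BL E Y Y < 0) :
    cq j a (pr j Y) * (-(BL E Y Y)) =
      (BL E (io a) Y ^ 2 + BL E (JL j (io a)) Y ^ 2) * (1 - ‖pr j Y‖ ^ 2) := by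
  obtain ⟨h0, -⟩ := pr_ball hj hY
  rw [pr_norm hj h0.ne', cq_eq46]
  obtain ⟨c1, c2, v⟩ := Y
  simp only [BL_apply, JL_apply, io, pr, inner_smul_right, inner_sub_right, cj_skew46 hj, hj.jj, inner_neg_left,
    real_inner_self_eq_norm_sq] at h0 ⊢
  have h1 : c1 ^ 2 + c2 ^ 2 ≠ 0 := h0.ne'
  field_simp
  ring

theorem cq_symm (hj : Cj j) (a b : E) : cq j a b = cq j b a := by
  rw [cq_eq46, cq_eq46, real_inner_comm b a, real_inner_comm a (j b), cj_skew46 hj a b]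
  ring

/-- piece `JE-F5` (b): at a point of the hypersurface, `c₀ = pr (cc (io z))`: `cq c₀ z (lam² - 1) =
lam² (1 - ‖c₀‖²) (1 - ‖z‖²)` (`cq_symm`, `cq_pr`; `B (io z) (lam x - ν) = - lam √(1 - ‖z‖²)`, `B (J (io z)) (lam x - ν) = 0`) -/
theorem cq_level (h : Hyp j ρ n lam p) {z : E} (hz : z ∈ OO ρ) :
    cq j (pr j (cc j ρ lam (io z))) z * (lam ^ 2 - 1) =
      lam ^ 2 * (1 - ‖pr j (cc j ρ lam (io z))‖ ^ 2) * (1 - ‖z‖ ^ 2) := by
  have hl := h.one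
  have hH := hfL h.cj
  have hG := gdL h.cj h.smooth
  have hX := io_UU h hz
  have hB := cc_B h hz
  have hneg : BL E (cc j ρ lam (io z)) (cc j ρ lam (io z)) < 0 := by
    rw [hB]
    nlinarith
  have hz1 : 0 < 1 - ‖z‖ ^ 2 := by
    have h1 := hz.1
    have h2 := norm_nonneg z
    nlinarith
  have hbx : BL E (io z) (io z) = -(1 - ‖z‖ ^ 2) := by
    simp [BL_apply, io]
  have htt : tt (BL E) (io z) = 1 - ‖z‖ ^ 2 := by
    rw [tt, hbx, neg_neg]
  have hs : √(1 - ‖z‖ ^ 2) ^ 2 = 1 - ‖z‖ ^ 2 := Real.sq_sqrt hz1.le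
  have hs0 : √(1 - ‖z‖ ^ 2) ≠ 0 := (Real.sqrt_pos.2 hz1).ne'
  have e1 : BL E (io z) (nu (BL E) (GG j ρ) (io z)) = 0 := by
    rw [hH.symm, nu, map_smul, ContinuousLinearMap.smul_apply, hG.gx _ hX, smul_zero]
  have e2 : BL E (JL j (io z)) (nu (BL E) (GG j ρ) (io z)) = 0 := by
    rw [hH.symm, nu, map_smul, ContinuousLinearMap.smul_apply, hG.gjx _ hX, smul_zero]
  have e3 : BL E (io z) (cc j ρ lam (io z)) = -(lam * √(1 - ‖z‖ ^ 2)) := by
    rw [cc, map_sub, map_smul, xs, map_smul, e1, htt, hbx]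
    simp only [smul_eq_mul, sub_zero]
    nth_rw 2 [← hs]
    field_simp
  have e4 : BL E (JL j (io z)) (cc j ρ lam (io z)) = 0 := by
    rw [cc, map_sub, map_smul, xs, map_smul, e2, hH.self0]
    simp
  have h3 := cq_pr (a := z) h.cj hneg
  rw [hB, e3, e4] at h3
  rw [cq_symm h.cj]
  have h4 : cq j z (pr j (cc j ρ lam (io z))) * (lam ^ 2 - 1) =
      lam ^ 2 * √(1 - ‖z‖ ^ 2) ^ 2 * (1 - ‖pr j (cc j ρ lam (io z))‖ ^ 2) := by
    linear_combination h3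
  rw [h4, hs]
  ring

private theorem sq_convex46 (s t u v : ℝ) (hs : 0 ≤ s) (ht : 0 ≤ t) (hst : s + t = 1) :
    (s * u + t * v) ^ 2 ≤ s * u ^ 2 + t * v ^ 2 := by
  have h1 : 0 ≤ s * t * (u - v) ^ 2 := by positivity
  have h2 : s = 1 - t := by linarith
  subst h2
  nlinarith

/-- piece `JE-F5` (c): sum of squares of affine functions and a multiple of `‖z‖²` -/
theorem cq_convex (hj : Cj j) (a : E) {K : ℝ} (hK : 0 ≤ K) :
    ConvexOn ℝ Set.univ (fun z : E => cq j a z - K * (1 - ‖z‖ ^ 2)) ∧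
    Continuous (fun z : E => cq j a z - K * (1 - ‖z‖ ^ 2)) := by
  constructor
  · refine ⟨convex_univ, fun x _ y _ s t hs ht hst => ?_⟩
    have h1 : ‖s • x + t • y‖ ^ 2 ≤ s * ‖x‖ ^ 2 + t * ‖y‖ ^ 2 := by
      have h2 : ‖s • x + t • y‖ ≤ s * ‖x‖ + t * ‖y‖ := by
        refine (norm_add_le _ _).trans ?_
        rw [norm_smul, norm_smul, Real.norm_of_nonneg hs, Real.norm_of_nonneg ht]
      have h3 := sq_convex46 s t ‖x‖ ‖y‖ hs ht hst
      have h4 := norm_nonneg (s • x + t • y)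
      nlinarith
    have h2 : (inner ℝ a (s • x + t • y) - 1) ^ 2 ≤
        s * (inner ℝ a x - 1) ^ 2 + t * (inner ℝ a y - 1) ^ 2 := by
      have h3 := sq_convex46 s t (inner ℝ a x - 1) (inner ℝ a y - 1) hs ht hst
      have h4 : inner ℝ a (s • x + t • y) - 1 =
          s * (inner ℝ a x - 1) + t * (inner ℝ a y - 1) := by
        rw [inner_add_right, inner_smul_right, inner_smul_right]
        linear_combination hst
      rw [h4]
      exact h3
    have h3 : inner ℝ (j a) (s • x + t • y) ^ 2 ≤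
        s * inner ℝ (j a) x ^ 2 + t * inner ℝ (j a) y ^ 2 := by
      rw [inner_add_right, inner_smul_right, inner_smul_right]
      exact sq_convex46 s t _ _ hs ht hst
    simp only [cq_eq46, smul_eq_mul]
    have h4 := mul_le_mul_of_nonneg_left h1 hK
    have h5 : K = s * K + t * K := by rw [← add_mul, hst, one_mul]
    nlinarith
  · simp only [cq_eq46]
    fun_prop

private lemma F6_cq_self (hj : Cj j) (a : E) : cq j a a = (1 - ‖a‖ ^ 2) ^ 2 := by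
  have hH := hfL hj
  have h1 : BL E (JL j (io a)) (io a) = 0 := by
    have e1 := hH.inv (JL j (io a)) (io a)
    rw [hH.jj, map_neg, neg_apply, hH.symm (io a) (JL j (io a))] at e1
    linarith
  unfold cq
  rw [h1, BL_apply]
  simp only [io]
  rw [real_inner_self_eq_norm_sq]
  ring

/-- piece `JE-F6`: the theorem in the form of the proof. `T_zero`, `cen_der`, `const_on_level` (on `OO ρ`; the hypersurface is
not empty: intermediate values on the ray through a point with `ρ < 0`), `cq_level`, `set_eq` with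
`q z = cq c₀ z - K (1 - ‖z‖²)`, `K = lam² / (lam² - 1) (1 - ‖c₀‖²)`, `z₁ = c₀`. -/
theorem main (h : Hyp j ρ n lam p)
    (hbd : ∃ R : ℝ, R < 1 ∧ ∀ z ∈ Metric.ball (0 : E) 1, ρ z ≤ 0 → ‖z‖ ≤ R)
    (hne : ∃ z ∈ Metric.ball (0 : E) 1, ρ z < 0)
    (hcon : IsPreconnected {z ∈ Metric.ball (0 : E) 1 | ρ z = 0}) :
    ∃ c₀ : E, ‖c₀‖ < 1 ∧ ∀ z ∈ Metric.ball (0 : E) 1,
      (ρ z < 0 ↔ cq j c₀ z < lam ^ 2 / (lam ^ 2 - 1) * (1 - ‖c₀‖ ^ 2) * (1 - ‖z‖ ^ 2)) ∧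
      (ρ z = 0 ↔ cq j c₀ z = lam ^ 2 / (lam ^ 2 - 1) * (1 - ‖c₀‖ ^ 2) * (1 - ‖z‖ ^ 2)) := by
  have hlam : 0 < lam ^ 2 - 1 := by nlinarith [h.one]
  have hlam0 : 0 < lam ^ 2 := by nlinarith [h.one]
  have hn : ∀ z : E, z ∈ Metric.ball (0 : E) 1 ↔ ‖z‖ < 1 := fun z => mem_ball_zero_iff
  have hρc : ContinuousOn ρ (Metric.ball 0 1) := h.smooth.continuousOn
  -- the hypersurface is not empty
  have : Nontrivial E := by
    have h1 : 0 < Module.finrank ℝ E := by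
      have := h.two
      rw [h.dim]
      omega
    exact Module.nontrivial_of_finrank_pos h1
  obtain ⟨R, hR, hR2⟩ := hbd
  obtain ⟨z₁, hz₁, hz₁'⟩ := hne
  obtain ⟨z₀, hz₀, hz₀'⟩ : ∃ z ∈ Metric.ball (0 : E) 1, ρ z = 0 := by
    have hm0 : 0 ≤ max R 0 := le_max_right _ _
    have hm1 : max R 0 < 1 := max_lt hR one_pos
    obtain ⟨x, hx⟩ := exists_norm_eq E (show 0 ≤ (max R 0 + 1) / 2 by linarith)
    have hxb : x ∈ Metric.ball (0 : E) 1 := by
      rw [hn, hx]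
      linarith
    have hxp : 0 < ρ x := by
      by_contra hcon
      have h1 := hR2 x hxb (not_lt.1 hcon)
      have h2 := le_max_left R 0
      rw [hx] at h1
      linarith
    have h1 := (convex_ball (0 : E) 1).isPreconnected.intermediate_value hz₁ hxb hρc
    obtain ⟨z, hz, hz'⟩ := h1 ⟨hz₁'.le, hxp.le⟩
    exact ⟨z, hz, hz'⟩
  have hz₀n : ‖z₀‖ < 1 := (hn z₀).1 hz₀
  have hOO : ∀ z : E, ‖z‖ < 1 → ρ z = 0 → z ∈ OO ρ := fun z hz h0 => ⟨hz, h.reg z hz h0⟩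
  have hT := fun (z : E) (hz : ‖z‖ < 1) (h0 : ρ z = 0) w hw => T_zero h ⟨R, hR, hR2⟩ hz h0 (w := w) hw
  have hset : {z | z ∈ OO ρ ∧ ρ z = 0} = {z ∈ Metric.ball (0 : E) 1 | ρ z = 0} := by
    ext z
    constructor
    · rintro ⟨h1, h2⟩
      exact ⟨(hn z).2 h1.1, h2⟩
    · rintro ⟨h1, h2⟩
      exact ⟨hOO z ((hn z).1 h1) h2, h2⟩
  have hconst := const_on_level (oo_open h)
    ((h.smooth.of_le (by norm_num)).mono fun z hz => (hn z).2 hz.1)
    (fun z hz _ => hz.2) (cen_c1 h)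
    (fun z hz h0 w hw => cen_der h hT hz.1 h0 hw) (by rw [hset]; exact hcon)
  set c₀ : E := pr j (cc j ρ lam (io z₀)) with hc₀
  have hcB := cc_B h (hOO z₀ hz₀n hz₀')
  have hcn : ‖c₀‖ < 1 := by
    have h1 := (pr_ball h.cj (X := cc j ρ lam (io z₀)) (by rw [hcB]; linarith)).2
    exact (hn _).1 h1
  have hc2 : 0 < 1 - ‖c₀‖ ^ 2 := by nlinarith [norm_nonneg c₀]
  refine ⟨c₀, hcn, ?_⟩
  set K : ℝ := lam ^ 2 / (lam ^ 2 - 1) * (1 - ‖c₀‖ ^ 2) with hK
  have hK0 : 0 ≤ K := by positivity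
  obtain ⟨hq1, hq2⟩ := cq_convex h.cj c₀ hK0
  have hq0 : cq j c₀ c₀ - K * (1 - ‖c₀‖ ^ 2) < 0 := by
    rw [F6_cq_self h.cj, hK]
    have h1 : 1 < lam ^ 2 / (lam ^ 2 - 1) := by
      rw [one_lt_div hlam]
      linarith
    have h2 : 0 < (1 - ‖c₀‖ ^ 2) ^ 2 := by positivity
    nlinarith
  have hlev : ∀ z ∈ Metric.ball (0 : E) 1, ρ z = 0 → cq j c₀ z - K * (1 - ‖z‖ ^ 2) = 0 := by
    intro z hz h0
    have hzO := hOO z ((hn z).1 hz) h0
    have h1 := hconst z hzO h0 z₀ (hOO z₀ hz₀n hz₀') hz₀'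
    have h2 := cq_level h hzO
    rw [h1, ← hc₀] at h2
    rw [hK, sub_eq_zero]
    field_simp
    linarith
  have hfin := set_eq hρc ⟨R, hR, hR2⟩ ⟨z₁, hz₁, hz₁'⟩ hq1 hq2 ((hn c₀).2 hcn) hq0 hlev
  intro z hz
  obtain ⟨h1, h2⟩ := hfin z hz
  exact ⟨h1.trans sub_neg, h2.trans sub_eq_zero⟩

/-- piece `JE-F7` (a) -/
theorem coshSq_eq {n : ℕ} (a b : EuclideanSpace ℂ (Fin n)) :
    coshSq a b = cq (Pool.Agent.Helper75.ROT.iC n) a b / ((1 - ‖a‖ ^ 2) * (1 - ‖b‖ ^ 2)) := by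
  unfold coshSq
  congr 1
  unfold cq
  rw [BL_apply, BL_apply, JL_apply]
  simp only [io]
  rw [Pool.Agent.Helper75.ROT.iC_apply, Pool.Agent.Helper75.ROT.re_inner_I,
    Pool.Agent.Helper75.ROT.re_inner, ← Complex.normSq_eq_norm_sq, Complex.normSq_apply]
  simp only [Complex.sub_re, Complex.one_re, Complex.sub_im, Complex.one_im]
  ring

private theorem je7_inner {n : ℕ} (x y : EuclideanSpace ℂ (Fin n)) :
    inner ℝ x y = (inner ℂ x y).re := by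
  simp [PiLp.inner_apply]

private theorem je7_inner_I {n : ℕ} (z v : EuclideanSpace ℂ (Fin n)) :
    inner ℝ (Complex.I • z) v = (inner ℂ z v).im := by
  rw [je7_inner, inner_smul_left]
  simp

private theorem je7_smul {n : ℕ} (a : ℝ) (z : EuclideanSpace ℂ (Fin n)) : a • z = (a : ℂ) • z := by
  ext i
  simp

/-- piece `JE-F7` (b): the formula for the centre. `unor = √(1 - ‖z‖²) • dn nu` (`normal_eq`); write `ν = nu (io z)`, `q'` the
complex number `ν.1 + i ν.2.1`; `B ν X = B ν (J X) = 0` gives `⟪z, ν.2.2⟫ = q'`, so `⟪z, unor⟫ = (1 - ‖z‖²)^(3/2) q'`. -/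
theorem centre_eq {n : ℕ} {ρ : EuclideanSpace ℂ (Fin n) → ℝ}
    (hs : ContDiffOn ℝ 3 ρ (Metric.ball 0 1)) {z : EuclideanSpace ℂ (Fin n)} (hz : ‖z‖ < 1)
    (hr : fderiv ℝ ρ z ≠ 0) {lam : ℝ} (hlam : 1 < lam) :
    centre (bergman n) ρ lam⁻¹ z =
      pr (Pool.Agent.Helper75.ROT.iC n) (cc (Pool.Agent.Helper75.ROT.iC n) ρ lam (io z)) := by
  obtain ⟨hj, -, hinv⟩ := bergman_data (n := n)
  have hz' : z ∈ Metric.ball (0 : EuclideanSpace ℂ (Fin n)) 1 := by simpa using hz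
  have hd : DifferentiableAt ℝ ρ z :=
    ((hs.differentiableOn (by norm_num)) z hz').differentiableAt (Metric.isOpen_ball.mem_nhds hz')
  have hS : 0 < 1 - ‖z‖ ^ 2 := by
    have := norm_nonneg z
    nlinarith
  have hbx : BL (EuclideanSpace ℂ (Fin n)) (io z) (io z) = -(1 - ‖z‖ ^ 2) := by
    simp [BL_apply, io]
  have htt : tt (BL (EuclideanSpace ℂ (Fin n))) (io z) = 1 - ‖z‖ ^ 2 := by
    rw [tt, hbx, neg_neg]
  have hX : io z ∈ UU (Pool.Agent.Helper75.ROT.iC n) ρ := by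
    refine ⟨by rw [hbx]; linarith, ?_⟩
    rw [pr_io]
    exact hr
  have hP := (gdL hj hs).pt (hfL hj) hX
  have hu : unor (bergman n) ρ z = √(1 - ‖z‖ ^ 2) •
      dn (Pool.Agent.Helper75.ROT.iC n) (nu (BL (EuclideanSpace ℂ (Fin n)))
        (GG (Pool.Agent.Helper75.ROT.iC n) ρ)) z := by
    unfold unor
    rw [hinv z _ hz]
    exact normal_eq hj hz hd hr
  have hcc : cc (Pool.Agent.Helper75.ROT.iC n) ρ lam (io z) =
      lam • xs (BL (EuclideanSpace ℂ (Fin n))) (io z) - nu (BL (EuclideanSpace ℂ (Fin n)))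
        (GG (Pool.Agent.Helper75.ROT.iC n) ρ) (io z) := rfl
  have hdn : dn (Pool.Agent.Helper75.ROT.iC n) (nu (BL (EuclideanSpace ℂ (Fin n)))
        (GG (Pool.Agent.Helper75.ROT.iC n) ρ)) z =
      (nu (BL (EuclideanSpace ℂ (Fin n))) (GG (Pool.Agent.Helper75.ROT.iC n) ρ) (io z)).2.2 -
      (nu (BL (EuclideanSpace ℂ (Fin n))) (GG (Pool.Agent.Helper75.ROT.iC n) ρ) (io z)).1 • z -
      (nu (BL (EuclideanSpace ℂ (Fin n))) (GG (Pool.Agent.Helper75.ROT.iC n) ρ) (io z)).2.1 •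
        (Complex.I • z) := rfl
  have hnn := hP.nn
  have hxn := hP.xn
  have hjxn := hP.jxn
  rw [hdn] at hu
  generalize nu (BL (EuclideanSpace ℂ (Fin n))) (GG (Pool.Agent.Helper75.ROT.iC n) ρ) (io z) = ν
    at hu hcc hnn hxn hjxn
  obtain ⟨σ, hσ⟩ : ∃ σ, σ = √(1 - ‖z‖ ^ 2) := ⟨_, rfl⟩
  have hσ0 : 0 < σ := by
    rw [hσ]
    exact Real.sqrt_pos.2 hS
  have hσ2 : σ ^ 2 = 1 - ‖z‖ ^ 2 := by
    rw [hσ]
    exact Real.sq_sqrt hS.le
  have hneg : BL (EuclideanSpace ℂ (Fin n)) (cc (Pool.Agent.Helper75.ROT.iC n) ρ lam (io z))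
      (cc (Pool.Agent.Helper75.ROT.iC n) ρ lam (io z)) < 0 := by
    have h1 : BL (EuclideanSpace ℂ (Fin n)) ν (io z) = 0 := by
      rw [(hfL hj).symm]
      exact hxn
    have h2 : BL (EuclideanSpace ℂ (Fin n)) (cc (Pool.Agent.Helper75.ROT.iC n) ρ lam (io z))
        (cc (Pool.Agent.Helper75.ROT.iC n) ρ lam (io z)) = 1 - lam ^ 2 := by
      rw [hcc, xs, htt, ← hσ]
      simp only [map_sub, map_smul, ContinuousLinearMap.sub_apply, ContinuousLinearMap.smul_apply,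
        smul_eq_mul, hbx, hxn, h1, hnn]
      rw [← hσ2]
      field_simp
      ring
    rw [h2]
    nlinarith
  have hc0 := (pr_ball hj hneg).1
  obtain ⟨a, b, v⟩ := ν
  simp only [BL_apply, JL_apply, io] at hxn hjxn
  simp only at hu
  have hxn' : inner ℝ z v = a := by linarith
  have hjxn' : inner ℝ (Complex.I • z) v = b := by
    have h1 : inner ℝ (Pool.Agent.Helper75.ROT.iC n z) v = b := by linarith
    exact h1
  obtain ⟨q, hq⟩ : ∃ q : ℂ, q = (a : ℂ) + b * Complex.I := ⟨_, rfl⟩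
  have hin : inner ℂ z v = q := by
    rw [hq]
    refine Complex.ext ?_ ?_
    · rw [← je7_inner, hxn']
      simp
    · rw [← je7_inner_I, hjxn']
      simp
  have hu2 : unor (bergman n) ρ z = (σ : ℂ) • (v - q • z) := by
    rw [hu, ← hσ, je7_smul σ, je7_smul a, je7_smul b, hq, smul_smul]
    congr 1
    module
  have hzz : inner ℂ z z = ((‖z‖ ^ 2 : ℝ) : ℂ) := by
    rw [inner_self_eq_norm_sq_to_K]
    push_cast
    rfl
  have hin2 : inner ℂ z (unor (bergman n) ρ z) = (σ : ℂ) * (q * ((σ ^ 2 : ℝ) : ℂ)) := by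
    rw [hu2, inner_smul_right, inner_sub_right, inner_smul_right, hin, hzz, hσ2]
    push_cast
    ring
  have hσc : (σ : ℂ) ≠ 0 := by exact_mod_cast hσ0.ne'
  have hlc : (lam : ℂ) ≠ 0 := by
    have : lam ≠ 0 := by positivity
    exact_mod_cast this
  -- the complex number `c`
  have hcc1 : (cc (Pool.Agent.Helper75.ROT.iC n) ρ lam (io z)).1 = lam * σ⁻¹ - a := by
    rw [hcc, xs, htt, ← hσ]
    simp [io]
  have hcc2 : (cc (Pool.Agent.Helper75.ROT.iC n) ρ lam (io z)).2.1 = -b := by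
    rw [hcc, xs, htt, ← hσ]
    simp [io]
  have hcc3 : (cc (Pool.Agent.Helper75.ROT.iC n) ρ lam (io z)).2.2 = (lam * σ⁻¹) • z - v := by
    rw [hcc, xs, htt, ← hσ]
    simp [io, smul_smul]
  rw [hcc1, hcc2] at hc0
  obtain ⟨c, hc⟩ : ∃ c : ℂ, c = (lam : ℂ) * (σ : ℂ)⁻¹ - q := ⟨_, rfl⟩
  have hcre : c = ((lam * σ⁻¹ - a : ℝ) : ℂ) + ((-b : ℝ) : ℂ) * Complex.I := by
    rw [hc, hq]
    push_cast
    ring
  have hcne : c ≠ 0 := by
    intro h0
    have h1 : c.re = lam * σ⁻¹ - a := by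
      rw [hcre]
      simp
    have h2 : c.im = -b := by
      rw [hcre]
      simp
    rw [h0] at h1 h2
    simp only [Complex.zero_re, Complex.zero_im] at h1 h2
    rw [← h1, ← h2] at hc0
    simp at hc0
  have hlq : (lam : ℂ) - σ * q = σ * c := by
    rw [hc]
    field_simp
  have hlq0 : (lam : ℂ) - σ * q ≠ 0 := by
    rw [hlq]
    exact mul_ne_zero hσc hcne
  -- both sides times `c`
  have hR : c • pr (Pool.Agent.Helper75.ROT.iC n) (cc (Pool.Agent.Helper75.ROT.iC n) ρ lam (io z)) =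
      ((lam * σ⁻¹ : ℝ) : ℂ) • z - v := by
    unfold pr
    rw [hcc1, hcc2, hcc3, Pool.Agent.Helper75.ROT.iC_apply]
    rw [je7_smul, je7_smul, je7_smul (-b), je7_smul (lam * σ⁻¹)]
    generalize ((lam * σ⁻¹ : ℝ) : ℂ) • z - v = w
    rw [smul_smul (((-b : ℝ) : ℂ)) Complex.I w, ← sub_smul, smul_smul, smul_smul]
    have h1 : c * (((((lam * σ⁻¹ - a) ^ 2 + (-b) ^ 2)⁻¹ : ℝ) : ℂ) *
        (((lam * σ⁻¹ - a : ℝ) : ℂ) - ((-b : ℝ) : ℂ) * Complex.I)) = 1 := by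
      rw [hcre]
      have h2 : ((((lam * σ⁻¹ - a) ^ 2 + (-b) ^ 2 : ℝ)) : ℂ) ≠ 0 := by exact_mod_cast hc0.ne'
      rw [Complex.ofReal_inv]
      rw [mul_left_comm, ← mul_assoc, inv_mul_eq_div, div_mul_eq_mul_div, div_eq_one_iff_eq h2]
      push_cast
      ring_nf
      rw [Complex.I_sq]
      ring
    rw [← mul_assoc] at h1
    rw [h1, one_smul]
  have hL : c • centre (bergman n) ρ lam⁻¹ z = ((lam * σ⁻¹ : ℝ) : ℂ) • z - v := by
    unfold centre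
    have h1 : ((lam⁻¹ : ℝ) : ℂ) / (1 - ((lam⁻¹ : ℝ) : ℂ) *
        (inner ℂ z (unor (bergman n) ρ z) / (1 - (‖z‖ : ℂ) ^ 2))) = ((lam : ℂ) - σ * q)⁻¹ := by
      have h2 : (1 : ℂ) - (‖z‖ : ℂ) ^ 2 = (σ : ℂ) ^ 2 := by
        have : ((σ ^ 2 : ℝ) : ℂ) = ((1 - ‖z‖ ^ 2 : ℝ) : ℂ) := by rw [hσ2]
        push_cast at this
        exact this.symm
      rw [hin2, h2]
      push_cast
      field_simp
    rw [h1, hu2, hlq, smul_sub, smul_smul, smul_smul]
    have h2 : c * (σ * c)⁻¹ * σ = 1 := by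
      field_simp
    rw [h2, one_smul]
    have h3 : c • z = (((lam * σ⁻¹ : ℝ) : ℂ) - q) • z := by
      rw [hc]
      push_cast
      rfl
    rw [h3]
    module
  have h := hL.trans hR.symm
  exact smul_right_injective _ hcne h

/-- `B c c = 1 - lam²` without the structure of hypotheses -/
private theorem cc_B0 {j : E →L[ℝ] E} (hj : Cj j) {ρ : E → ℝ}
    (hs : ContDiffOn ℝ 3 ρ (Metric.ball 0 1)) {z : E} (hz : ‖z‖ < 1) (hr : fderiv ℝ ρ z ≠ 0)
    (lam : ℝ) :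
    BL E (cc j ρ lam (io z)) (cc j ρ lam (io z)) = 1 - lam ^ 2 := by
  have hG := gdL hj hs
  have hzz : BL E (io z) (io z) = ‖z‖ ^ 2 - 1 := by
    rw [BL_apply]
    simp [io]
  have hneg : BL E (io z) (io z) < 0 := by
    rw [hzz]
    nlinarith [norm_nonneg z]
  have hX : io z ∈ UU j ρ := ⟨hneg, by rw [pr_io]; exact hr⟩
  have hp := hG.pt (hfL hj) hX
  have hsy := (hfL hj).symm
  have ht : 0 < tt (BL E) (io z) := by
    unfold tt
    linarith
  have hsq : (√(tt (BL E) (io z)))⁻¹ * ((√(tt (BL E) (io z)))⁻¹ * BL E (io z) (io z)) = -1 := by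
    have h1 : √(tt (BL E) (io z)) * √(tt (BL E) (io z)) = tt (BL E) (io z) :=
      Real.mul_self_sqrt ht.le
    have h2 : BL E (io z) (io z) = - tt (BL E) (io z) := by
      unfold tt
      ring
    rw [h2]
    have h3 : √(tt (BL E) (io z)) ≠ 0 := (Real.sqrt_pos.2 ht).ne'
    field_simp
    nlinarith [h1]
  unfold cc xs
  set t := (√(tt (BL E) (io z)))⁻¹ with htd
  set ν := nu (BL E) (GG j ρ) (io z) with hν
  have hnx : BL E ν (io z) = 0 := by rw [hsy]; exact hp.xn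
  have hxn : BL E (io z) ν = 0 := hp.xn
  have hnn : BL E ν ν = 1 := hp.nn
  simp only [map_sub, map_smul, ContinuousLinearMap.sub_apply, ContinuousLinearMap.smul_apply,
    smul_eq_mul]
  rw [hnx, hxn, hnn]
  linear_combination lam ^ 2 * hsq

/-- piece `JE-F8`: the theorem. `P = (√(1 - ‖p‖²))⁻¹ • io p`, `cen` from `cq_pr`, `coshSq_eq`, `centre_eq`, `cc_B`. -/
theorem final {n : ℕ} (hn : 2 ≤ n) {ρ : EuclideanSpace ℂ (Fin n) → ℝ} {lam : ℝ} (hlam : 1 < lam)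
    (hc : Pool.Agent.Helper75.ROT.CMC (bergman n) ρ ((2 * n - 1) * lam + lam⁻¹))
    {p : EuclideanSpace ℂ (Fin n)} (hp : ‖p‖ < 1)
    (hcen : ∀ z ∈ Metric.ball (0 : EuclideanSpace ℂ (Fin n)) 1, ρ z = 0 →
      coshSq p (centre (bergman n) ρ lam⁻¹ z) * (1 - 81 / 100 * lam⁻¹ ^ 2) ≤ 1) :
    ∃ c : EuclideanSpace ℂ (Fin n), ‖c‖ < 1 ∧
      ∀ z ∈ Metric.ball (0 : EuclideanSpace ℂ (Fin n)) 1,
        (ρ z < 0 ↔ coshSq c z * (1 - lam⁻¹ ^ 2) < 1) ∧
        (ρ z = 0 ↔ coshSq c z * (1 - lam⁻¹ ^ 2) = 1) := by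
  obtain ⟨hj, hdet, hinv⟩ := bergman_data (n := n)
  have hdim : Module.finrank ℝ (EuclideanSpace ℂ (Fin n)) = 2 * n := by
    have h1 := finrank_real_of_complex (EuclideanSpace ℂ (Fin n))
    rw [finrank_euclideanSpace_fin] at h1
    exact h1
  have hreg : ∀ z : EuclideanSpace ℂ (Fin n), ‖z‖ < 1 → ρ z = 0 → fderiv ℝ ρ z ≠ 0 := by
    intro z hz h0 hf
    apply hc.regular z (by simpa using hz) h0
    rw [gradient, hf, map_zero]
  have hcurv : ∀ z : EuclideanSpace ℂ (Fin n), ‖z‖ < 1 → ρ z = 0 →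
      mc (Pool.Agent.Helper75.ROT.iC n) ρ z = (2 * n - 1) * lam + lam⁻¹ := by
    intro z hz h0
    rw [← meanCurv_mc hj hdim hdet hinv hc.smooth hz (hreg z hz h0)]
    exact hc.curvature z (by simpa using hz) h0
  have hp2 : 0 < 1 - ‖p‖ ^ 2 := by nlinarith [norm_nonneg p]
  have hl0 : 0 < lam := by linarith
  have hl2 : 0 < lam ^ 2 - 1 := by nlinarith
  have hinvl : lam⁻¹ ^ 2 * lam ^ 2 = 1 := by
    rw [← mul_pow, inv_mul_cancel₀ hl0.ne', one_pow]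
  set c := (√(1 - ‖p‖ ^ 2))⁻¹ with hcd
  have hc2 : c ^ 2 * (1 - ‖p‖ ^ 2) = 1 := by
    rw [hcd, inv_pow, Real.sq_sqrt hp2.le, inv_mul_cancel₀ hp2.ne']
  have hPP : BL (EuclideanSpace ℂ (Fin n)) (c • io p) (c • io p) = -1 := by
    have h1 : BL (EuclideanSpace ℂ (Fin n)) (io p) (io p) = ‖p‖ ^ 2 - 1 := by
      rw [BL_apply]
      simp [io]
    simp only [map_smul, ContinuousLinearMap.smul_apply, smul_eq_mul]
    rw [h1]
    linear_combination -hc2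
  have hyp : Hyp (Pool.Agent.Helper75.ROT.iC n) ρ n lam (c • io p) := by
    refine ⟨hj, hdim, hn, hlam, hc.smooth, hreg, hcurv, hPP, ?_⟩
    intro z hz h0
    have hr := hreg z hz h0
    have hB := cc_B0 hj hc.smooth hz hr lam
    have hY : BL (EuclideanSpace ℂ (Fin n)) (cc (Pool.Agent.Helper75.ROT.iC n) ρ lam (io z))
        (cc (Pool.Agent.Helper75.ROT.iC n) ρ lam (io z)) < 0 := by
      rw [hB]
      linarith
    have h1 := cq_pr hj (a := p) hY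
    have h2 := (pr_ball hj hY).2
    have h3 := hcen z (by simpa using hz) h0
    rw [centre_eq hc.smooth hz hr hlam, coshSq_eq] at h3
    rw [hB] at h1
    set c₀ := pr (Pool.Agent.Helper75.ROT.iC n)
      (cc (Pool.Agent.Helper75.ROT.iC n) ρ lam (io z)) with hc0
    have hn0 : ‖c₀‖ < 1 := by simpa using h2
    have hn2 : 0 < 1 - ‖c₀‖ ^ 2 := by nlinarith [norm_nonneg c₀]
    have hn1 : n1 (BL (EuclideanSpace ℂ (Fin n))) lam (c • io p) (xs (BL _) (io z))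
        (nu (BL _) (GG (Pool.Agent.Helper75.ROT.iC n) ρ) (io z)) =
        -(c * BL (EuclideanSpace ℂ (Fin n)) (io p)
          (cc (Pool.Agent.Helper75.ROT.iC n) ρ lam (io z))) := by
      unfold n1 cc
      simp only [map_sub, map_smul, ContinuousLinearMap.smul_apply, smul_eq_mul]
      ring
    have hn2' : n2 (BL (EuclideanSpace ℂ (Fin n))) (JL (Pool.Agent.Helper75.ROT.iC n)) lam
        (c • io p) (xs (BL _) (io z))
        (nu (BL _) (GG (Pool.Agent.Helper75.ROT.iC n) ρ) (io z)) =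
        -(c * BL (EuclideanSpace ℂ (Fin n)) (JL (Pool.Agent.Helper75.ROT.iC n) (io p))
          (cc (Pool.Agent.Helper75.ROT.iC n) ρ lam (io z))) := by
      unfold n2 cc
      simp only [map_sub, map_smul, ContinuousLinearMap.smul_apply, smul_eq_mul]
      ring
    rw [hn1, hn2']
    set u := BL (EuclideanSpace ℂ (Fin n)) (io p)
      (cc (Pool.Agent.Helper75.ROT.iC n) ρ lam (io z)) with hu
    set v := BL (EuclideanSpace ℂ (Fin n)) (JL (Pool.Agent.Helper75.ROT.iC n) (io p))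
      (cc (Pool.Agent.Helper75.ROT.iC n) ρ lam (io z)) with hv
    set Q := cq (Pool.Agent.Helper75.ROT.iC n) p c₀ with hQ
    have h5 : (-(c * u)) ^ 2 + (-(c * v)) ^ 2 =
        Q / ((1 - ‖p‖ ^ 2) * (1 - ‖c₀‖ ^ 2)) * (lam ^ 2 - 1) := by
      have h6 : (u ^ 2 + v ^ 2) = Q * (lam ^ 2 - 1) / (1 - ‖c₀‖ ^ 2) := by
        rw [eq_div_iff hn2.ne']
        linarith
      have h7 : c ^ 2 = 1 / (1 - ‖p‖ ^ 2) := by
        rw [eq_div_iff hp2.ne']
        exact hc2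
      have h8 : (-(c * u)) ^ 2 + (-(c * v)) ^ 2 = c ^ 2 * (u ^ 2 + v ^ 2) := by ring
      rw [h8, h6, h7]
      field_simp
    rw [h5]
    set K := Q / ((1 - ‖p‖ ^ 2) * (1 - ‖c₀‖ ^ 2)) with hK
    have h9 : K * (lam ^ 2 - 81 / 100) ≤ lam ^ 2 := by
      have h10 : K * (lam ^ 2 - 81 / 100) = lam ^ 2 * (K * (1 - 81 / 100 * lam⁻¹ ^ 2)) := by
        linear_combination (81 / 100 * K) * hinvl
      rw [h10]
      nlinarith [sq_nonneg lam, h3, mul_le_mul_of_nonneg_left h3 (sq_nonneg lam)]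
    calc K * (lam ^ 2 - 1) * (lam ^ 2 - 81 / 100)
        = (K * (lam ^ 2 - 81 / 100)) * (lam ^ 2 - 1) := by ring
      _ ≤ lam ^ 2 * (lam ^ 2 - 1) := mul_le_mul_of_nonneg_right h9 hl2.le
  obtain ⟨c₀, hc0, hm⟩ := main hyp hc.bounded hc.nonempty hc.connected
  refine ⟨c₀, hc0, fun z hz => ?_⟩
  have hz1 : ‖z‖ < 1 := by simpa using hz
  have hz2 : 0 < 1 - ‖z‖ ^ 2 := by nlinarith [norm_nonneg z]
  have hn2 : 0 < 1 - ‖c₀‖ ^ 2 := by nlinarith [norm_nonneg c₀]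
  obtain ⟨ha, hb⟩ := hm z hz
  have key : coshSq c₀ z * (1 - lam⁻¹ ^ 2) =
      cq (Pool.Agent.Helper75.ROT.iC n) c₀ z /
        (lam ^ 2 / (lam ^ 2 - 1) * (1 - ‖c₀‖ ^ 2) * (1 - ‖z‖ ^ 2)) := by
    rw [coshSq_eq]
    have h1 : (1 - lam⁻¹ ^ 2) = (lam ^ 2 - 1) / lam ^ 2 := by
      rw [eq_div_iff (by positivity)]
      linear_combination -hinvl
    rw [h1]
    field_simp
  have hpos : 0 < lam ^ 2 / (lam ^ 2 - 1) * (1 - ‖c₀‖ ^ 2) * (1 - ‖z‖ ^ 2) := by positivity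
  rw [key, div_lt_one hpos, div_eq_one_iff_eq hpos.ne']
  exact ⟨ha, hb⟩

end Pool.Agent.Helper77.JE
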