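import Pool.Agent.Helper77.JE.PtC

/-! # JE: calculus on the cone -/

set_option autoImplicit false
set_option linter.unusedSectionVars false
set_option linter.unusedVariables false

namespace Pool.Agent.Helper77.JE

variable {L : Type*} [NormedAddCommGroup L] [NormedSpace ℝ L]

/-- `G` is (the `B`-gradient of a function of degree zero on the cone) -/
structure Gd (B : L →L[ℝ] L →L[ℝ] ℝ) (J : L →L[ℝ] L) (U : Set L) (G : L → L) : Prop where
  isOpen : IsOpen U
  c2 : ContDiffOn ℝ 2 G U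
  neg : ∀ X ∈ U, B X X < 0
  pos : ∀ X ∈ U, 0 < B (G X) (G X)
  gx : ∀ X ∈ U, B (G X) X = 0
  gjx : ∀ X ∈ U, B (G X) (J X) = 0
  sym : ∀ X ∈ U, ∀ v w, B (fderiv ℝ G X v) w = B (fderiv ℝ G X w) v

noncomputable def rr (B : L →L[ℝ] L →L[ℝ] ℝ) (G : L → L) (X : L) : ℝ := √(B (G X) (G X))

/-- the unit normal -/
noncomputable def nu (B : L →L[ℝ] L →L[ℝ] ℝ) (G : L → L) (X : L) : L := (rr B G X)⁻¹ • G X

noncomputable def NN (B : L →L[ℝ] L →L[ℝ] ℝ) (G : L → L) (X : L) : L →L[ℝ] L :=
  fderiv ℝ (nu B G) X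

noncomputable def tt (B : L →L[ℝ] L →L[ℝ] ℝ) (X : L) : ℝ := -(B X X)

/-- the normalised point -/
noncomputable def xs (B : L →L[ℝ] L →L[ℝ] ℝ) (X : L) : L := (√(tt B X))⁻¹ • X

/-- the normalised shape operator -/
noncomputable def SS (B : L →L[ℝ] L →L[ℝ] ℝ) (G : L → L) (X : L) : L →L[ℝ] L :=
  √(tt B X) • NN B G X

/-- the vector field on the cone -/
noncomputable def VV (B : L →L[ℝ] L →L[ℝ] ℝ) (J : L →L[ℝ] L) (lam m : ℝ) (p : L) (G : L → L)
    (X : L) : L :=
  (tt B X * rr B G X) • V2 B J lam m p (xs B X) (nu B G X) (SS B G X)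

variable {B : L →L[ℝ] L →L[ℝ] ℝ} {J : L →L[ℝ] L} {U : Set L} {G : L → L}

/-- piece `JE-C1` (a) -/
theorem Gd.rr_pos (hG : Gd B J U G) {X : L} (hX : X ∈ U) : 0 < rr B G X :=
  Real.sqrt_pos.2 (hG.pos X hX)

theorem Gd.rr_c2 (hG : Gd B J U G) : ContDiffOn ℝ 2 (rr B G) U := by
  have h1 : ContDiffOn ℝ 2 (fun X => B (G X) (G X)) U :=
    (B.contDiff.comp_contDiffOn hG.c2).clm_apply hG.c2
  exact h1.sqrt fun X hX => (hG.pos X hX).ne'

theorem Gd.nu_c2 (hG : Gd B J U G) : ContDiffOn ℝ 2 (nu B G) U :=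
  (hG.rr_c2.inv fun X hX => (hG.rr_pos hX).ne').smul hG.c2

theorem Gd.NN_c1 (hG : Gd B J U G) : ContDiffOn ℝ 1 (NN B G) U :=
  hG.nu_c2.fderiv_of_isOpen hG.isOpen (by norm_num)

/-- piece `JE-C1` (b): `rr² = B G G` -/
theorem Gd.drr (hH : Hf B J) (hG : Gd B J U G) {X : L} (hX : X ∈ U) (v : L) :
    fderiv ℝ (rr B G) X v = B (fderiv ℝ G X v) (nu B G X) := by
  have hd : HasFDerivAt G (fderiv ℝ G X) X :=
    ((hG.c2.contDiffAt (hG.isOpen.mem_nhds hX)).differentiableAt (by norm_num)).hasFDerivAt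
  have h1 : HasFDerivAt (fun Y => B (G Y)) (B.comp (fderiv ℝ G X)) X :=
    B.hasFDerivAt.comp X hd
  have h2 := (h1.clm_apply hd).sqrt (hG.pos X hX).ne'
  have h3 : fderiv ℝ (rr B G) X = _ := h2.fderiv
  have hpos := hG.rr_pos hX
  rw [h3]
  show (1 / (2 * √(B (G X) (G X)))) • (B (G X) (fderiv ℝ G X v) + B (fderiv ℝ G X v) (G X)) =
    B (fderiv ℝ G X v) ((rr B G X)⁻¹ • G X)
  rw [map_smul, smul_eq_mul, smul_eq_mul, hH.symm (G X) (fderiv ℝ G X v)]
  show 1 / (2 * rr B G X) * _ = _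
  field_simp
  ring

private theorem bil_zero_c1b {B : L →L[ℝ] L →L[ℝ] ℝ} {U : Set L} {f g : L → L} {f' g' : L →L[ℝ] L} {X : L} {c : ℝ}
    (hU : IsOpen U) (hX : X ∈ U) (hf : HasFDerivAt f f' X) (hg : HasFDerivAt g g' X)
    (h : ∀ Y ∈ U, B (f Y) (g Y) = c) (v : L) : B (f X) (g' v) + B (f' v) (g X) = 0 := by
  have h1 := B.hasFDerivAt_of_bilinear hf hg
  have h2 : HasFDerivAt (fun Y => B (f Y) (g Y)) (0 : L →L[ℝ] ℝ) X := by
    refine (hasFDerivAt_const c X).congr_of_eventuallyEq ?_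
    filter_upwards [hU.mem_nhds hX] with Y hY using h Y hY
  have h3 := congrArg (fun T : L →L[ℝ] ℝ => T v) (h1.unique h2)
  simpa using h3

private theorem nu_has_c1b (hG : Gd B J U G) {X : L} (hX : X ∈ U) :
    HasFDerivAt (nu B G) (NN B G X) X :=
  ((hG.nu_c2.contDiffAt (hG.isOpen.mem_nhds hX)).differentiableAt (by norm_num)).hasFDerivAt

private theorem G_eq_c1b (hG : Gd B J U G) {X : L} (hX : X ∈ U) : G X = rr B G X • nu B G X := by
  unfold nu
  rw [smul_smul, mul_inv_cancel₀ (hG.rr_pos hX).ne', one_smul]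

private theorem nn_c1b (hG : Gd B J U G) {X : L} (hX : X ∈ U) : B (nu B G X) (nu B G X) = 1 := by
  have h0 := hG.rr_pos hX
  have h1 : rr B G X ^ 2 = B (G X) (G X) := Real.sq_sqrt (hG.pos X hX).le
  unfold nu
  simp only [map_smul, ContinuousLinearMap.smul_apply, smul_eq_mul, ← h1]
  field_simp

private theorem Nn_c1b (hH : Hf B J) (hG : Gd B J U G) {X : L} (hX : X ∈ U) (v : L) :
    B (NN B G X v) (nu B G X) = 0 := by
  have h1 := bil_zero_c1b hG.isOpen hX (nu_has_c1b hG hX) (nu_has_c1b hG hX) (fun Y hY => nn_c1b hG hY) v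
  rw [hH.symm (nu B G X)] at h1
  linarith

private theorem D_eq_c1b (hG : Gd B J U G) {X : L} (hX : X ∈ U) (v : L) :
    fderiv ℝ G X v = fderiv ℝ (rr B G) X v • nu B G X + rr B G X • NN B G X v := by
  have h1 : HasFDerivAt (rr B G) (fderiv ℝ (rr B G) X) X :=
    ((hG.rr_c2.contDiffAt (hG.isOpen.mem_nhds hX)).differentiableAt (by norm_num)).hasFDerivAt
  have h2 := h1.smul (nu_has_c1b hG hX)
  have h3 : HasFDerivAt G (rr B G X • NN B G X + (fderiv ℝ (rr B G) X).smulRight (nu B G X)) X := by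
    refine h2.congr_of_eventuallyEq ?_
    filter_upwards [hG.isOpen.mem_nhds hX] with Y hY using G_eq_c1b hG hY
  rw [h3.fderiv]
  simp [add_comm]

private theorem drr_gen_c1b (hH : Hf B J) (hG : Gd B J U G) {X : L} (hX : X ∈ U) (v : L) :
    fderiv ℝ (rr B G) X v = fderiv ℝ (rr B G) X (nu B G X) * B (nu B G X) v +
      rr B G X * B (NN B G X (nu B G X)) v := by
  have h1 := hG.sym X hX v (nu B G X)
  rw [D_eq_c1b hG hX v, D_eq_c1b hG hX (nu B G X)] at h1
  simp only [map_add, map_smul, ContinuousLinearMap.add_apply, ContinuousLinearMap.smul_apply, smul_eq_mul,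
    nn_c1b hG hX, Nn_c1b hH hG hX v] at h1
  linarith

/-- piece `JE-C1` (c): the general antisymmetry. `G = rr • ν`, so `DG v = Drr(v) ν + rr N v`; symmetry of `DG` and
`B ν ν = 1`, `B (N v) ν = 0`; first with `w = ν`, then in general. -/
theorem Gd.asym (hH : Hf B J) (hG : Gd B J U G) {X : L} (hX : X ∈ U) (v w : L) :
    B (NN B G X v) w - B (NN B G X w) v =
      - B (NN B G X (nu B G X)) v * B (nu B G X) w + B (NN B G X (nu B G X)) w * B (nu B G X) v := by
  have h0 := hG.rr_pos hX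
  have h1 := hG.sym X hX v w
  rw [D_eq_c1b hG hX v, D_eq_c1b hG hX w] at h1
  simp only [map_add, map_smul, ContinuousLinearMap.add_apply, ContinuousLinearMap.smul_apply, smul_eq_mul] at h1
  rw [drr_gen_c1b hH hG hX v, drr_gen_c1b hH hG hX w] at h1
  refine mul_left_cancel₀ h0.ne' ?_
  linear_combination h1

/-- piece `JE-C1` (d): differentiate `B ν ν = 1`, `B ν X = 0`, `B ν (J X) = 0`; `N X = 0`, `N (J X) = J ν` from `asym` and
`nd`. -/
theorem Gd.pt (hH : Hf B J) (hG : Gd B J U G) {X : L} (hX : X ∈ U) :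
    Pt B J X (nu B G X) (NN B G X) := by
  have hnx : ∀ Y ∈ U, B (nu B G Y) Y = 0 := by
    intro Y hY
    unfold nu
    simp only [map_smul, ContinuousLinearMap.smul_apply, smul_eq_mul, hG.gx Y hY, mul_zero]
  have hnjx : ∀ Y ∈ U, B (nu B G Y) (J Y) = 0 := by
    intro Y hY
    unfold nu
    simp only [map_smul, ContinuousLinearMap.smul_apply, smul_eq_mul, hG.gjx Y hY, mul_zero]
  have hn := nu_has_c1b hG hX
  have hNX : ∀ v, B (NN B G X v) X = - B (nu B G X) v := by
    intro v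
    have h1 := bil_zero_c1b hG.isOpen hX hn (hasFDerivAt_id X) (fun Y hY => hnx Y hY) v
    simp only [ContinuousLinearMap.id_apply, id_eq] at h1
    linarith
  have hNJX : ∀ v, B (NN B G X v) (J X) = - B (nu B G X) (J v) := by
    intro v
    have h1 := bil_zero_c1b hG.isOpen hX hn J.hasFDerivAt (fun Y hY => hnjx Y hY) v
    linarith
  have hnn := nn_c1b hG hX
  have hxn : B (nu B G X) X = 0 := hnx X hX
  have hjxn : B (nu B G X) (J X) = 0 := hnjx X hX
  have hJn : B (nu B G X) (J (nu B G X)) = 0 := by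
    have h1 := hH.inv (nu B G X) (J (nu B G X))
    rw [hH.jj, map_neg, hH.symm (J (nu B G X)) (nu B G X)] at h1
    linarith
  refine ⟨hnn, ?_, ?_, ?_, ?_, fun v => Nn_c1b hH hG hX v, hNX, hNJX, ?_⟩
  · rw [hH.symm]
    exact hxn
  · rw [hH.symm]
    exact hjxn
  · refine hH.nd _ fun w => ?_
    have h1 := hG.asym hH hX X w
    rw [hNX w, hNX (nu B G X), hxn, hnn] at h1
    linarith
  · refine sub_eq_zero.1 (hH.nd _ fun w => ?_)
    have h1 := hG.asym hH hX (J X) w
    rw [hNJX w, hNJX (nu B G X), hjxn, hJn] at h1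
    have h2 := hH.inv (J (nu B G X)) w
    rw [hH.jj, map_neg, ContinuousLinearMap.neg_apply] at h2
    rw [map_sub, ContinuousLinearMap.sub_apply, ← h2]
    linarith
  · intro v w hv hw
    have h1 := hG.asym hH hX v w
    rw [hv, hw] at h1
    linarith

/-- piece `JE-C1` (e): for `v` orthogonal to `ν`: `B (DG v) ν = B (DG ν) v = rr B (N ν) v` -/
theorem Gd.drr_hz (hH : Hf B J) (hG : Gd B J U G) {X : L} (hX : X ∈ U) {v : L}
    (hv : B v (nu B G X) = 0) :
    fderiv ℝ (rr B G) X v = rr B G X * B (NN B G X (nu B G X)) v := by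
  have h1 := drr_gen_c1b hH hG hX v
  rw [hH.symm] at hv
  rw [hv, mul_zero, zero_add] at h1
  exact h1

private lemma c2_nu (hG : Gd B J U G) {X : L} (hX : X ∈ U) :
    HasFDerivAt (nu B G) (NN B G X) X :=
  ((hG.nu_c2.differentiableOn (by norm_num)).differentiableAt (hG.isOpen.mem_nhds hX)).hasFDerivAt

private lemma c2_NN (hG : Gd B J U G) {X : L} (hX : X ∈ U) :
    HasFDerivAt (NN B G) (fderiv ℝ (NN B G) X) X :=
  ((hG.NN_c1.differentiableOn (by norm_num)).differentiableAt (hG.isOpen.mem_nhds hX)).hasFDerivAt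

/-- two functions that agree on `U` have the same derivative -/
private lemma c2_uniq (hG : Gd B J U G) {X : L} (hX : X ∈ U) {E : Type*} [NormedAddCommGroup E]
    [NormedSpace ℝ E] {f g : L → E} {f' g' : L →L[ℝ] E} (hf : HasFDerivAt f f' X)
    (hg : HasFDerivAt g g' X) (h : ∀ Y ∈ U, f Y = g Y) : f' = g' := by
  refine hf.unique (hg.congr_of_eventuallyEq ?_)
  filter_upwards [hG.isOpen.mem_nhds hX] with Y hY
  exact h Y hY

/-- piece `JE-C2` (a): second derivatives are symmetric -/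
theorem Gd.N2_symm (hG : Gd B J U G) {X : L} (hX : X ∈ U) (u v : L) :
    fderiv ℝ (NN B G) X u v = fderiv ℝ (NN B G) X v u := by
  have h1 : ContDiffAt ℝ 2 (nu B G) X := hG.nu_c2.contDiffAt (hG.isOpen.mem_nhds hX)
  have h2 : IsSymmSndFDerivAt ℝ (nu B G) X := h1.isSymmSndFDerivAt (by simp)
  exact h2 u v

/-- piece `JE-C2` (b): differentiate `asym` (fixed `v`, `w`, orthogonal to `ν` at `X`) in the direction `u` -/
theorem Gd.N2_cc (hH : Hf B J) (hG : Gd B J U G) {X : L} (hX : X ∈ U) {u v w : L}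
    (hv : B v (nu B G X) = 0) (hw : B w (nu B G X) = 0) :
    B (fderiv ℝ (NN B G) X u v) w - B (NN B G X u) v * B (NN B G X (nu B G X)) w =
      B (fderiv ℝ (NN B G) X u w) v - B (NN B G X u) w * B (NN B G X (nu B G X)) v := by
  have hN := c2_NN hG hX
  have hn := c2_nu hG hX
  -- derivative of `Y ↦ B (N Y v) w`
  have h1 : ∀ v w : L, HasFDerivAt (fun Y => B (NN B G Y v) w)
      (((B.flip w).comp (ContinuousLinearMap.apply ℝ L v)).comp (fderiv ℝ (NN B G) X)) X :=
    fun v w => (((B.flip w).comp (ContinuousLinearMap.apply ℝ L v)).hasFDerivAt).comp X hN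
  -- derivative of `Y ↦ B (ν Y) w`
  have h2 : ∀ w : L, HasFDerivAt (fun Y => B (nu B G Y) w) ((B.flip w).comp (NN B G X)) X :=
    fun w => ((B.flip w).hasFDerivAt).comp X hn
  -- derivative of `Y ↦ B (N Y (ν Y)) v`
  have h3 : ∀ v : L, HasFDerivAt (fun Y => B (NN B G Y (nu B G Y)) v)
      ((B.flip v).comp ((NN B G X).comp (NN B G X) + (fderiv ℝ (NN B G) X).flip (nu B G X))) X :=
    fun v => ((B.flip v).hasFDerivAt).comp X (hN.clm_apply hn)
  have key := c2_uniq hG hX ((h1 v w).sub (h1 w v))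
    (((h3 v).mul (h2 w)).neg.add ((h3 w).mul (h2 v))) (fun Y hY => by
      have := hG.asym hH hY v w
      show B (NN B G Y v) w - B (NN B G Y w) v = -(B (NN B G Y (nu B G Y)) v * B (nu B G Y) w) +
        B (NN B G Y (nu B G Y)) w * B (nu B G Y) v
      rw [this]
      ring)
  have k2 := DFunLike.congr_fun key u
  have e1 : B (nu B G X) v = 0 := by rw [hH.symm]; exact hv
  have e2 : B (nu B G X) w = 0 := by rw [hH.symm]; exact hw
  simp only [ContinuousLinearMap.sub_apply, ContinuousLinearMap.add_apply,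
    ContinuousLinearMap.neg_apply, ContinuousLinearMap.smul_apply, ContinuousLinearMap.comp_apply,
    ContinuousLinearMap.flip_apply, ContinuousLinearMap.apply_apply, smul_eq_mul, e1, e2] at k2
  linear_combination k2

/-- piece `JE-C2` (c): differentiate `N X = 0`, `N (J X) = J ν`, `B (N v) ν = 0` (fixed `v`) -/
theorem Gd.N2_X (hH : Hf B J) (hG : Gd B J U G) {X : L} (hX : X ∈ U) (u : L) :
    fderiv ℝ (NN B G) X u X = - NN B G X u := by
  have key := c2_uniq hG hX ((c2_NN hG hX).clm_apply (hasFDerivAt_id X))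
    (hasFDerivAt_const (0 : L) X) (fun Y hY => (hG.pt hH hY).Nx)
  have k2 := DFunLike.congr_fun key u
  simp only [ContinuousLinearMap.add_apply, ContinuousLinearMap.comp_apply,
    ContinuousLinearMap.flip_apply, ContinuousLinearMap.id_apply, id_eq,
    ContinuousLinearMap.zero_apply] at k2
  exact eq_neg_of_add_eq_zero_right k2

theorem Gd.N2_JX (hH : Hf B J) (hG : Gd B J U G) {X : L} (hX : X ∈ U) (u : L) :
    fderiv ℝ (NN B G) X u (J X) = J (NN B G X u) - NN B G X (J u) := by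
  have key := c2_uniq hG hX ((c2_NN hG hX).clm_apply J.hasFDerivAt)
    (J.hasFDerivAt.comp X (c2_nu hG hX)) (fun Y hY => (hG.pt hH hY).Njx)
  have k2 := DFunLike.congr_fun key u
  simp only [ContinuousLinearMap.add_apply, ContinuousLinearMap.comp_apply,
    ContinuousLinearMap.flip_apply] at k2
  rw [← k2]
  abel

theorem Gd.N2_ν (hH : Hf B J) (hG : Gd B J U G) {X : L} (hX : X ∈ U) (u v : L) :
    B (fderiv ℝ (NN B G) X u v) (nu B G X) = - B (NN B G X v) (NN B G X u) := by
  have h1 : HasFDerivAt (fun Y => B (NN B G Y v))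
      ((B.comp (ContinuousLinearMap.apply ℝ L v)).comp (fderiv ℝ (NN B G) X)) X :=
    ((B.comp (ContinuousLinearMap.apply ℝ L v)).hasFDerivAt).comp X (c2_NN hG hX)
  have key := c2_uniq hG hX (h1.clm_apply (c2_nu hG hX))
    (hasFDerivAt_const (0 : ℝ) X) (fun Y hY => (hG.pt hH hY).Nn v)
  have k2 := DFunLike.congr_fun key u
  simp only [ContinuousLinearMap.add_apply, ContinuousLinearMap.comp_apply,
    ContinuousLinearMap.flip_apply, ContinuousLinearMap.apply_apply,
    ContinuousLinearMap.zero_apply] at k2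
  linear_combination k2

section frame

variable {κ : Type*} [Fintype κ] [DecidableEq κ] {e : Option κ → L}

private theorem trace_smulRight_aux [FiniteDimensional ℝ L] (f : L →ₗ[ℝ] ℝ) (x : L) :
    LinearMap.trace ℝ L (f.smulRight x) = f x := by
  have h : f.smulRight x = dualTensorHom ℝ L L (f ⊗ₜ[ℝ] x) := by
    ext w
    simp [dualTensorHom_apply]
  rw [h, LinearMap.trace_eq_contract_apply, contractLeft_apply]

/-- piece `JE-C3` (a): the trace in a frame. Proof: `X, J X, ν, e i` is a basis (independent: test with `B`; spanning: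
`comp`); or: both sides are linear in `M` and by `comp` `M` is a sum of operators `f.smulRight w`
(`M w = M (..)`), for which the trace is `f w` (`LinearMap.trace_smulRight`..), i.e. apply `trace` to
`M = -(B · X) M X - (B · (J X)) M (J X) + (B · ν) M ν + ∑ (B · (e i)) M (e i)`. -/
theorem Fr.trace [FiniteDimensional ℝ L] {X ν : L} (hH : Hf B J) (he : Fr B J X ν e)
    (M : L →L[ℝ] L) :
    LinearMap.trace ℝ L (M : L →ₗ[ℝ] L) =
      - B (M X) X - B (M (J X)) (J X) + B (M ν) ν + ∑ i, B (M (e i)) (e i) := by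
  let g : L → L →ₗ[ℝ] ℝ := fun y => ((B.flip y).comp M : L →L[ℝ] ℝ)
  have hg : ∀ y w, g y w = B (M w) y := fun y w => rfl
  have h : (M : L →ₗ[ℝ] L) = -((g X).smulRight X) - (g (J X)).smulRight (J X) +
      (g ν).smulRight ν + ∑ i, (g (e i)).smulRight (e i) := by
    refine LinearMap.ext fun w => ?_
    have h1 := he.comp (M w)
    rw [LinearMap.add_apply, LinearMap.add_apply, LinearMap.sub_apply, LinearMap.neg_apply,
      LinearMap.sum_apply]
    exact h1
  rw [h, map_add, map_add, map_sub, map_neg, map_sum]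
  simp only [trace_smulRight_aux, hg]

/-- piece `JE-C3` (b): the second order data. `card`: `Fr.trace` for the identity gives
`finrank L = 2 + 1 + (card κ + 1)` (`B X X = -1`). `tr1`: `Fr.trace` for `N` (`Nx`, `Njx`, `Nn`, `xiJX`).
`tr2`: `Fr.trace` for `N2 u = fderiv (NN) X u` (`N2_X`, `N2_JX`, `N2_ν`, `NX`, `NJX`) and
`∑ B (N u) (e i) B (N ν) (e i) = B (N u) (N ν)` from `comp`, `Nn`, `NX`, `NJX`. -/
theorem Gd.jt [FiniteDimensional ℝ L] (hH : Hf B J) (hG : Gd B J U G) {X : L} (hX : X ∈ U)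
    (hxx : B X X = -1) (he : Fr B J X (nu B G X) e) {lam m : ℝ}
    (hdim : (Module.finrank ℝ L : ℝ) = m + 4)
    (h1 : LinearMap.trace ℝ L (NN B G X : L →ₗ[ℝ] L) = (m + 1) * lam + lam⁻¹)
    (h2 : ∀ u, Hz B J X (nu B G X) u →
      LinearMap.trace ℝ L (fderiv ℝ (NN B G) X u : L →ₗ[ℝ] L) = 0) :
    Jt B J lam m X (nu B G X) (NN B G X) (fderiv ℝ (NN B G) X) e := by
  have hP := hG.pt hH hX
  have hνν : B (nu B G X) (nu B G X) = 1 := hP.nn
  have hJJ : B (J X) (J X) = -1 := by rw [hH.inv, hxx]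
  refine ⟨?_, fun u v => hG.N2_symm hX u v, ?_, ?_, ?_⟩
  · have h := Fr.trace hH he (ContinuousLinearMap.id ℝ L)
    have h3 : LinearMap.trace ℝ L ((ContinuousLinearMap.id ℝ L : L →L[ℝ] L) : L →ₗ[ℝ] L) =
        (Module.finrank ℝ L : ℝ) := by
      rw [ContinuousLinearMap.coe_id, LinearMap.trace_id]
    rw [h3, hdim] at h
    have h4 : ∑ i : Option κ, B (ContinuousLinearMap.id ℝ L (e i)) (e i) =
        (Fintype.card κ : ℝ) + 1 := by
      have h5 : ∀ i : Option κ, B (ContinuousLinearMap.id ℝ L (e i)) (e i) = 1 := fun i => by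
        rw [ContinuousLinearMap.id_apply, he.on i i, if_pos rfl]
      rw [Finset.sum_congr rfl (fun i _ => h5 i)]
      simp [Fintype.card_option]
    rw [h4] at h
    simp only [ContinuousLinearMap.id_apply] at h
    rw [hxx, hJJ, hνν] at h
    linarith
  · intro u v w _ hv hw
    exact hG.N2_cc hH hX hv.2.2 hw.2.2
  · have h := Fr.trace hH he (NN B G X)
    rw [h1, hP.Nx, hP.Njx, hP.xiJX hH, hP.Nn] at h
    simp only [map_zero, ContinuousLinearMap.zero_apply] at h
    linarith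
  · intro u hu
    have h := Fr.trace hH he (fderiv ℝ (NN B G) X u)
    have hu1 : B (nu B G X) u = 0 := by rw [hH.symm]; exact hu.2.2
    have e1 : B (fderiv ℝ (NN B G) X u X) X = 0 := by
      rw [hG.N2_X hH hX, map_neg, ContinuousLinearMap.neg_apply, hP.NX, hu1]
      simp
    have e2 : B (fderiv ℝ (NN B G) X u (J X)) (J X) = 0 := by
      rw [hG.N2_JX hH hX, map_sub, ContinuousLinearMap.sub_apply, hH.inv, hP.NX, hP.NJX, hH.jj,
        map_neg, hu1]
      simp
    rw [h2 u hu, e1, e2, hG.N2_ν hH hX] at h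
    have e3 : B (NN B G X (nu B G X)) (J X) = 0 := by
      rw [hP.NJX, hH.symm, hH.self0, neg_zero]
    have e4 : B (NN B G X u) X = 0 := by rw [hP.NX, hu1, neg_zero]
    have e5 : B (NN B G X (nu B G X)) (NN B G X u) =
        ∑ i, B (NN B G X u) (e i) * B (NN B G X (nu B G X)) (e i) := by
      have h6 := congrArg (B (NN B G X (nu B G X))) (he.comp (NN B G X u))
      rw [e4, hP.Nn] at h6
      simp only [map_add, map_sub, map_neg, map_smul, map_sum, smul_eq_mul, zero_smul,
        zero_mul, neg_zero, map_zero] at h6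
      rw [e3] at h6
      rw [h6]
      ring
    rw [Finset.sum_sub_distrib, ← e5]
    linarith

end frame

private theorem c4_bil {E F G : Type*} [NormedAddCommGroup E] [NormedSpace ℝ E]
    [NormedAddCommGroup F] [NormedSpace ℝ F] [NormedAddCommGroup G] [NormedSpace ℝ G]
    (b : E →L[ℝ] F →L[ℝ] G) {u : ℝ → E} {v : ℝ → F} {du : E} {dv : F} {s : ℝ}
    (hu : HasDerivAt u du s) (hv : HasDerivAt v dv s) :
    HasDerivAt (fun t => b (u t) (v t)) (b du (v s) + b (u s) dv) s :=
  (b.hasFDerivAt.comp_hasDerivAt s hu).clm_apply hv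

private theorem c4_lin {E F : Type*} [NormedAddCommGroup E] [NormedSpace ℝ E]
    [NormedAddCommGroup F] [NormedSpace ℝ F]
    (b : E →L[ℝ] F) {u : ℝ → E} {du : E} {s : ℝ}
    (hu : HasDerivAt u du s) :
    HasDerivAt (fun t => b (u t)) (b du) s :=
  b.hasFDerivAt.comp_hasDerivAt s hu

private theorem c4_n1 (B : L →L[ℝ] L →L[ℝ] ℝ) (lam : ℝ) (p : L)
    {x ν : ℝ → L} {dx dν : L} {s : ℝ}
    (hx : HasDerivAt x dx s) (hν : HasDerivAt ν dν s) :
    HasDerivAt (fun s => n1 B lam p (x s) (ν s)) (n1 B lam p dx dν) s := by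
  unfold n1
  exact (c4_lin (B p) hν).sub ((c4_lin (B p) hx).const_mul lam)

private theorem c4_n2 (B : L →L[ℝ] L →L[ℝ] ℝ) (J : L →L[ℝ] L) (lam : ℝ) (p : L)
    {x ν : ℝ → L} {dx dν : L} {s : ℝ}
    (hx : HasDerivAt x dx s) (hν : HasDerivAt ν dν s) :
    HasDerivAt (fun s => n2 B J lam p (x s) (ν s)) (n2 B J lam p dx dν) s := by
  unfold n2
  exact (c4_lin (B (J p)) hν).sub ((c4_lin (B (J p)) hx).const_mul lam)

private theorem c4_kp (B : L →L[ℝ] L →L[ℝ] ℝ) (J : L →L[ℝ] L) (p : L)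
    {x ν : ℝ → L} {dx dν : L} {s : ℝ}
    (hx : HasDerivAt x dx s) (hν : HasDerivAt ν dν s) :
    HasDerivAt (fun s => kp B J p (x s) (ν s)) (dkp B J p (x s) (ν s) dx dν) s := by
  unfold kp dkp
  exact ((c4_lin (B p) hx).mul (c4_lin (B (J p)) hν)).sub
    ((c4_lin (B (J p)) hx).mul (c4_lin (B p) hν))

private theorem c4_Aa (B : L →L[ℝ] L →L[ℝ] ℝ) (J : L →L[ℝ] L) (lam : ℝ) (p : L)
    {x ν : ℝ → L} {dx dν : L} {s : ℝ}
    (hx : HasDerivAt x dx s) (hν : HasDerivAt ν dν s) :
    HasDerivAt (fun s => Aa B J lam p (x s) (ν s)) (dAa B J lam p (x s) (ν s) dx dν) s := by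
  unfold Aa
  have h1 := (((c4_lin (B p) hx).mul (c4_lin (B p) hν)).add
    ((c4_lin (B (J p)) hx).mul (c4_lin (B (J p)) hν))).const_mul lam
  have h2 := ((c4_lin (B p) hν).pow 2).add ((c4_lin (B (J p)) hν).pow 2)
  refine (h1.sub h2).congr_deriv ?_
  unfold dAa
  simp
  ring

private theorem c4_Wd (B : L →L[ℝ] L →L[ℝ] ℝ) (J : L →L[ℝ] L) (lam : ℝ) (p : L)
    {x ν : ℝ → L} {dx dν : L} {s : ℝ}
    (hx : HasDerivAt x dx s) (hν : HasDerivAt ν dν s) :
    HasDerivAt (fun s => Wd B J lam p (x s) (ν s)) (dWd B J lam p (x s) (ν s) dx dν) s := by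
  have h1 := c4_n1 B lam p hx hν
  have h2 := c4_n2 B J lam p hx hν
  have hA := c4_Aa B J lam p hx hν
  have hx1 := c4_lin (B p) hx
  have hx2 := c4_lin (B (J p)) hx
  have hJx := c4_lin J hx
  unfold Wd
  refine ((((h1.smul_const p).add (h2.smul_const (J p))).add
    (((h1.mul hx1).add (h2.mul hx2)).smul hx)).add
    (((h2.mul hx1).sub (h1.mul hx2)).smul hJx)).add (hA.smul hν) |>.congr_deriv ?_
  unfold dWd
  simp only [Pi.add_apply, Pi.mul_apply, Pi.sub_apply]
  module

private theorem c4_Tm (B : L →L[ℝ] L →L[ℝ] ℝ) (J : L →L[ℝ] L) (lam : ℝ)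
    {x ν : ℝ → L} {S : ℝ → L →L[ℝ] L} {dx dν : L} {dS : L →L[ℝ] L} {s : ℝ}
    (hx : HasDerivAt x dx s) (hν : HasDerivAt ν dν s) (hS : HasDerivAt S dS s) :
    HasDerivAt (fun s => Tm B J lam (x s) (ν s) (S s))
      (dTm B J lam (x s) (ν s) dx dν dS) s := by
  have hJx := c4_lin J hx
  have hJν := c4_lin J hν
  have hB := c4_lin B hJν
  have h1 := c4_bil (ContinuousLinearMap.smulRightL ℝ L L) hB hJx
  have h2 := c4_bil (ContinuousLinearMap.smulRightL ℝ L L) hB hJν
  have h3 := ((hS.add h1).sub (hasDerivAt_const s (lam • ContinuousLinearMap.id ℝ L))).sub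
    (h2.const_smul lam⁻¹)
  have e1 : (fun s => Tm B J lam (x s) (ν s) (S s)) = (fun t => (S t +
      ContinuousLinearMap.smulRightL ℝ L L (B (J (ν t))) (J (x t))) -
      (lam • ContinuousLinearMap.id ℝ L) -
      lam⁻¹ • ContinuousLinearMap.smulRightL ℝ L L (B (J (ν t))) (J (ν t))) := by
    funext t
    ext v
    simp [Tm]
  rw [e1]
  refine h3.congr_deriv ?_
  ext v
  simp [dTm]
  module

/-- piece `JE-C4`: the derivative of `V2` along curves -/
theorem V2_deriv (B : L →L[ℝ] L →L[ℝ] ℝ) (J : L →L[ℝ] L) (lam m : ℝ) (p : L)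
    {x ν : ℝ → L} {S : ℝ → L →L[ℝ] L} {dx dν : L} {dS : L →L[ℝ] L} {s : ℝ}
    (hx : HasDerivAt x dx s) (hν : HasDerivAt ν dν s) (hS : HasDerivAt S dS s) :
    HasDerivAt (fun s => V2 B J lam m p (x s) (ν s) (S s))
      (dV2 B J lam m p (x s) (ν s) (S s) dx dν dS) s := by
  have hT := c4_Tm B J lam hx hν hS
  have hW := c4_Wd B J lam p hx hν
  have hk := c4_kp B J p hx hν
  have hJν := c4_lin J hν
  have hTW := hT.clm_apply hW
  have hTJ := hT.clm_apply hJν
  have hBW := c4_bil B hTJ hW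
  have hBJ := c4_bil B hTJ hJν
  unfold V2
  refine ((((hTW.const_smul (N0 lam m)).add (hBW.smul hJν)).sub (hBJ.smul hW)).add
    ((hk.const_mul (m * lam)).smul hTJ)).congr_deriv ?_
  unfold dV2
  module

private theorem c5a_B (hH : Hf B J) (u v : L) : B u (J v) = -B (J u) v := by
  have h := hH.inv u (J v)
  rw [hH.jj, map_neg] at h
  rw [← h]

private theorem c5a_n1 (hH : Hf B J) (lam : ℝ) (p x ν : L) :
    n1 B lam p (J x) (J ν) = -n2 B J lam p x ν := by
  unfold n1 n2
  rw [c5a_B hH, c5a_B hH]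
  ring

private theorem c5a_n2 (hH : Hf B J) (lam : ℝ) (p x ν : L) :
    n2 B J lam p (J x) (J ν) = n1 B lam p x ν := by
  unfold n1 n2
  rw [hH.inv, hH.inv]

private theorem c5a_kp (hH : Hf B J) (p x ν : L) : dkp B J p x ν (J x) (J ν) = 0 := by
  unfold dkp
  rw [hH.inv, hH.inv, c5a_B hH, c5a_B hH]
  ring

private theorem c5a_Aa (hH : Hf B J) (lam : ℝ) (p x ν : L) :
    dAa B J lam p x ν (J x) (J ν) = 0 := by
  unfold dAa
  rw [hH.inv, hH.inv, c5a_B hH, c5a_B hH]
  ring

private theorem c5a_Wd (hH : Hf B J) (lam : ℝ) (p x ν : L) :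
    dWd B J lam p x ν (J x) (J ν) = J (Wd B J lam p x ν) := by
  unfold dWd Wd
  rw [c5a_n1 hH, c5a_n2 hH, c5a_Aa hH, hH.inv, c5a_B hH p x]
  simp only [map_add, map_smul, hH.jj]
  module

private theorem c5a_Tm (hH : Hf B J) (lam : ℝ) (x ν : L) (S : L →L[ℝ] L) (w : L) :
    dTm B J lam x ν (J x) (J ν) (J.comp S - S.comp J) w =
      J (Tm B J lam x ν S w) - Tm B J lam x ν S (J w) := by
  unfold dTm Tm
  simp only [ContinuousLinearMap.add_apply, ContinuousLinearMap.sub_apply,
    ContinuousLinearMap.smul_apply, ContinuousLinearMap.smulRight_apply,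
    ContinuousLinearMap.comp_apply, ContinuousLinearMap.id_apply, map_add, map_sub, map_smul, hH.jj,
    hH.inv, map_neg, ContinuousLinearMap.neg_apply]
  module

/-- piece `JE-C5` (a): equivariance under the circle. Proof: the curves `R s x`, `R s ν`, `R s ∘ S ∘ R (-s)` with
`R s = cos s • id + sin s • J`, for which `V2` is `R s (V2 x ν S)`, have the derivatives `J x`, `J ν`, `J S - S J` at `0`;
`V2_deriv` and uniqueness of the derivative. -/
theorem dV2_J (hH : Hf B J) (lam m : ℝ) (p x ν : L) (S : L →L[ℝ] L) :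
    dV2 B J lam m p x ν S (J x) (J ν) (J.comp S - S.comp J) = J (V2 B J lam m p x ν S) := by
  unfold dV2 V2
  rw [c5a_kp hH, c5a_Wd hH, c5a_Tm hH, c5a_Tm hH]
  simp only [sub_add_cancel, c5a_B hH, mul_zero, zero_smul, add_neg_cancel, map_add,
    map_sub, map_smul, hH.jj, map_neg, ContinuousLinearMap.neg_apply]
  module

private theorem c5b_bil {f g : L → L} (hf : ContDiffOn ℝ 1 f U) (hg : ContDiffOn ℝ 1 g U) :
    ContDiffOn ℝ 1 (fun X => B (f X) (g X)) U :=
  (B.contDiff.comp_contDiffOn hf).clm_apply hg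

private theorem c5b_J {f : L → L} (hf : ContDiffOn ℝ 1 f U) : ContDiffOn ℝ 1 (fun X => J (f X)) U :=
  J.contDiff.comp_contDiffOn hf

private theorem c5b_lin (p : L) {f : L → L} (hf : ContDiffOn ℝ 1 f U) :
    ContDiffOn ℝ 1 (fun X => B p (f X)) U :=
  (B p).contDiff.comp_contDiffOn hf

private theorem c5b_Tm (lam : ℝ) {x ν w : L → L} {S : L → L →L[ℝ] L} (hx : ContDiffOn ℝ 1 x U)
    (hν : ContDiffOn ℝ 1 ν U) (hS : ContDiffOn ℝ 1 S U) (hw : ContDiffOn ℝ 1 w U) :
    ContDiffOn ℝ 1 (fun X => Tm B J lam (x X) (ν X) (S X) (w X)) U := by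
  have h1 : ContDiffOn ℝ 1 (fun X => B (J (ν X)) (w X)) U := c5b_bil (c5b_J hν) hw
  have h2 := ((((hS.clm_apply hw).add (h1.smul (c5b_J (J := J) hx))).sub (hw.const_smul lam)).sub
    ((h1.const_smul lam⁻¹).smul (c5b_J (J := J) hν)))
  refine h2.congr fun X _ => ?_
  simp [Tm, smul_smul]

private theorem c5b_Wd (lam : ℝ) (p : L) {x ν : L → L} (hx : ContDiffOn ℝ 1 x U)
    (hν : ContDiffOn ℝ 1 ν U) : ContDiffOn ℝ 1 (fun X => Wd B J lam p (x X) (ν X)) U := by
  have a1 := c5b_lin (B := B) p hx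
  have a2 := c5b_lin (B := B) (J p) hx
  have b1 := c5b_lin (B := B) p hν
  have b2 := c5b_lin (B := B) (J p) hν
  have jx := c5b_J (J := J) hx
  have hn1 : ContDiffOn ℝ 1 (fun X => n1 B lam p (x X) (ν X)) U := b1.sub (contDiffOn_const.mul a1)
  have hn2 : ContDiffOn ℝ 1 (fun X => n2 B J lam p (x X) (ν X)) U := b2.sub (contDiffOn_const.mul a2)
  have hA : ContDiffOn ℝ 1 (fun X => Aa B J lam p (x X) (ν X)) U :=
    (contDiffOn_const.mul ((a1.mul b1).add (a2.mul b2))).sub ((b1.pow 2).add (b2.pow 2))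
  exact ((((hn1.smul contDiffOn_const).add (hn2.smul contDiffOn_const)).add
    (((hn1.mul a1).add (hn2.mul a2)).smul hx)).add (((hn2.mul a1).sub (hn1.mul a2)).smul jx)).add
    (hA.smul hν)

/-- piece `JE-C5` (b) -/
theorem Gd.VV_c1 (hG : Gd B J U G) (lam m : ℝ) (p : L) : ContDiffOn ℝ 1 (VV B J lam m p G) U := by
  have ht : ContDiffOn ℝ 1 (tt B) U := (c5b_bil contDiffOn_id contDiffOn_id).neg
  have htp : ∀ X ∈ U, 0 < tt B X := fun X hX => neg_pos.2 (hG.neg X hX)
  have hst : ContDiffOn ℝ 1 (fun X => √(tt B X)) U := ht.sqrt fun X hX => (htp X hX).ne'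
  have hx : ContDiffOn ℝ 1 (xs B) U :=
    (hst.inv fun X hX => (Real.sqrt_pos.2 (htp X hX)).ne').smul contDiffOn_id
  have hν : ContDiffOn ℝ 1 (nu B G) U := hG.nu_c2.of_le (by norm_num)
  have hr : ContDiffOn ℝ 1 (rr B G) U := hG.rr_c2.of_le (by norm_num)
  have hS : ContDiffOn ℝ 1 (SS B G) U := hst.smul hG.NN_c1
  have hW : ContDiffOn ℝ 1 (fun X => Wd B J lam p (xs B X) (nu B G X)) U := c5b_Wd lam p hx hν
  have hJ := c5b_J (J := J) hν
  have hTJ : ContDiffOn ℝ 1 (fun X => Tm B J lam (xs B X) (nu B G X) (SS B G X) (J (nu B G X))) U :=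
    c5b_Tm lam hx hν hS hJ
  have hTW : ContDiffOn ℝ 1 (fun X => Tm B J lam (xs B X) (nu B G X) (SS B G X)
      (Wd B J lam p (xs B X) (nu B G X))) U := c5b_Tm lam hx hν hS hW
  have hk : ContDiffOn ℝ 1 (fun X => kp B J p (xs B X) (nu B G X)) U :=
    ((c5b_lin (B := B) p hx).mul (c5b_lin (B := B) (J p) hν)).sub
      ((c5b_lin (B := B) (J p) hx).mul (c5b_lin (B := B) p hν))
  exact (ht.mul hr).smul ((((hTW.const_smul (N0 lam m)).add ((c5b_bil hTJ hW).smul hJ)).sub
    ((c5b_bil hTJ hJ).smul hW)).add ((contDiffOn_const.mul hk).smul hTJ))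

private theorem c5c_lin {X ν u v : L} (hu : Hz B J X ν u) (hv : Hz B J X ν v) (a b : ℝ) :
    Hz B J X ν (a • u + b • v) := by
  obtain ⟨h1, h2, h3⟩ := hu
  obtain ⟨h4, h5, h6⟩ := hv
  refine ⟨?_, ?_, ?_⟩ <;>
    simp only [map_add, map_smul, ContinuousLinearMap.add_apply, ContinuousLinearMap.smul_apply, smul_eq_mul,
      h1, h2, h3, h4, h5, h6, mul_zero, add_zero]

/-- piece `JE-C5` (c): `V2` is tangential horizontal (at `xs X`, `nu X`, `SS X`) -/
theorem Gd.VV_hz (hH : Hf B J) (hG : Gd B J U G) (lam m : ℝ) (p : L) {X : L} (hX : X ∈ U) :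
    Hz B J X (G X) (VV B J lam m p G X) := by
  have htp : 0 < tt B X := neg_pos.2 (hG.neg X hX)
  have hs : 0 < √(tt B X) := Real.sqrt_pos.2 htp
  have hsq : √(tt B X) * √(tt B X) = tt B X := Real.mul_self_sqrt htp.le
  have hP := hG.pt hH hX
  have hxX : √(tt B X) • xs B X = X := by
    unfold xs
    rw [smul_smul, mul_inv_cancel₀ hs.ne', one_smul]
  have hxx : B (xs B X) (xs B X) = -1 := by
    have h1 : B X X = - (√(tt B X) * √(tt B X)) := by rw [hsq]; unfold tt; ring
    unfold xs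
    simp only [map_smul, ContinuousLinearMap.smul_apply, smul_eq_mul, h1]
    field_simp
  have hQ : Pt B J (xs B X) (nu B G X) (SS B G X) := by
    refine ⟨hP.nn, ?_, ?_, ?_, ?_, ?_, ?_, ?_, ?_⟩
    · unfold xs
      simp only [map_smul, ContinuousLinearMap.smul_apply, smul_eq_mul, hP.xn, mul_zero]
    · unfold xs
      simp only [map_smul, ContinuousLinearMap.smul_apply, smul_eq_mul, hP.jxn, mul_zero]
    · unfold xs SS
      simp only [map_smul, ContinuousLinearMap.smul_apply, hP.Nx, smul_zero]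
    · unfold xs SS
      simp only [map_smul, ContinuousLinearMap.smul_apply, hP.Njx, smul_smul]
      rw [inv_mul_cancel₀ hs.ne', one_smul]
    · intro v
      unfold SS
      simp only [map_smul, ContinuousLinearMap.smul_apply, smul_eq_mul, hP.Nn, mul_zero]
    · intro v
      unfold SS xs
      simp only [map_smul, ContinuousLinearMap.smul_apply, smul_eq_mul, hP.NX]
      field_simp
    · intro v
      unfold SS xs
      simp only [map_smul, ContinuousLinearMap.smul_apply, smul_eq_mul, hP.NJX]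
      field_simp
    · intro v w hv hw
      unfold SS
      simp only [map_smul, ContinuousLinearMap.smul_apply, smul_eq_mul, hP.sy v w hv hw]
  have hW := W_hz hH hQ hxx lam p
  have hJ := hQ.hz_xi hH
  have hTW := T_hz hH hQ hxx lam hW
  have hTJ := T_hz hH hQ hxx lam hJ
  have hV : Hz B J (xs B X) (nu B G X) (V2 B J lam m p (xs B X) (nu B G X) (SS B G X)) := by
    have h1 := c5c_lin (c5c_lin hTW hJ (N0 lam m)
      (B (Tm B J lam (xs B X) (nu B G X) (SS B G X) (J (nu B G X))) (Wd B J lam p (xs B X) (nu B G X))))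
      (c5c_lin hW hTJ (-B (Tm B J lam (xs B X) (nu B G X) (SS B G X) (J (nu B G X))) (J (nu B G X)))
        (m * lam * kp B J p (xs B X) (nu B G X))) 1 1
    have h2 : V2 B J lam m p (xs B X) (nu B G X) (SS B G X) =
        (1 : ℝ) • (N0 lam m • Tm B J lam (xs B X) (nu B G X) (SS B G X)
        (Wd B J lam p (xs B X) (nu B G X)) +
        B (Tm B J lam (xs B X) (nu B G X) (SS B G X) (J (nu B G X))) (Wd B J lam p (xs B X) (nu B G X)) •
          J (nu B G X)) + (1 : ℝ) • ((-B (Tm B J lam (xs B X) (nu B G X) (SS B G X) (J (nu B G X)))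
        (J (nu B G X))) • Wd B J lam p (xs B X) (nu B G X) + (m * lam * kp B J p (xs B X) (nu B G X)) •
          Tm B J lam (xs B X) (nu B G X) (SS B G X) (J (nu B G X))) := by
      unfold V2
      module
    rw [h2]
    exact h1
  obtain ⟨h1, h2, h3⟩ := hV
  have hGX : G X = rr B G X • nu B G X := by
    unfold nu
    rw [smul_smul, mul_inv_cancel₀ (hG.rr_pos hX).ne', one_smul]
  have hJX : √(tt B X) • J (xs B X) = J X := by
    rw [← map_smul, hxX]
  refine ⟨?_, ?_, ?_⟩
  · have e1 : B (VV B J lam m p G X) X = (tt B X * rr B G X) * (√(tt B X) *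
        B (V2 B J lam m p (xs B X) (nu B G X) (SS B G X)) (xs B X)) := by
      conv_lhs => rw [show B (VV B J lam m p G X) X = B (VV B J lam m p G X) (√(tt B X) • xs B X) by rw [hxX]]
      unfold VV
      simp only [map_smul, ContinuousLinearMap.smul_apply, smul_eq_mul]
      ring
    rw [e1, h1, mul_zero, mul_zero]
  · have e1 : B (VV B J lam m p G X) (J X) = (tt B X * rr B G X) * (√(tt B X) *
        B (V2 B J lam m p (xs B X) (nu B G X) (SS B G X)) (J (xs B X))) := by
      conv_lhs => rw [show B (VV B J lam m p G X) (J X) =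
        B (VV B J lam m p G X) (√(tt B X) • J (xs B X)) by rw [hJX]]
      unfold VV
      simp only [map_smul, ContinuousLinearMap.smul_apply, smul_eq_mul]
      ring
    rw [e1, h2, mul_zero, mul_zero]
  · have e1 : B (VV B J lam m p G X) (G X) = (tt B X * rr B G X) * (rr B G X *
        B (V2 B J lam m p (xs B X) (nu B G X) (SS B G X)) (nu B G X)) := by
      conv_lhs => rw [show B (VV B J lam m p G X) (G X) =
        B (VV B J lam m p G X) (rr B G X • nu B G X) by rw [← hGX]]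
      unfold VV
      simp only [map_smul, ContinuousLinearMap.smul_apply, smul_eq_mul]
      ring
    rw [e1, h3, mul_zero, mul_zero]

private theorem c5d_curve {F : Type*} [NormedAddCommGroup F] [NormedSpace ℝ F] {f : L → F} {X : L}
    (hf : DifferentiableAt ℝ f X) (u : L) : HasDerivAt (fun s : ℝ => f (X + s • u)) (fderiv ℝ f X u) 0 := by
  have h1 : HasDerivAt (fun s : ℝ => X + s • u) u 0 := by
    have h2 := ((hasDerivAt_id (0 : ℝ)).smul_const u).const_add X
    rw [one_smul] at h2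
    exact h2
  have h3 : HasFDerivAt f (fderiv ℝ f X) (X + (0 : ℝ) • u) := by
    rw [zero_smul, add_zero]
    exact hf.hasFDerivAt
  exact h3.comp_hasDerivAt (0 : ℝ) h1

/-- the derivative of `VV` in the direction `u` from the derivatives of the ingredients -/
private theorem c5d_gen (hG : Gd B J U G) (lam m : ℝ) (p : L) {X : L} (hX : X ∈ U) (u : L) {tt' : ℝ}
    {dx dν : L} {dS : L →L[ℝ] L} (htt : HasDerivAt (fun s : ℝ => tt B (X + s • u)) tt' 0)
    (hxs : HasDerivAt (fun s : ℝ => xs B (X + s • u)) dx 0)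
    (hnu : NN B G X u = dν)
    (hSS : HasDerivAt (fun s : ℝ => SS B G (X + s • u)) dS 0) :
    fderiv ℝ (VV B J lam m p G) X u =
      (tt' * rr B G X + tt B X * fderiv ℝ (rr B G) X u) • V2 B J lam m p (xs B X) (nu B G X) (SS B G X) +
      (tt B X * rr B G X) • dV2 B J lam m p (xs B X) (nu B G X) (SS B G X) dx dν dS := by
  have hU : U ∈ nhds X := hG.isOpen.mem_nhds hX
  have h0 : X + (0 : ℝ) • u = X := by rw [zero_smul, add_zero]
  have hν : HasDerivAt (fun s : ℝ => nu B G (X + s • u)) dν 0 := by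
    rw [← hnu]
    exact c5d_curve ((hG.nu_c2.contDiffAt hU).differentiableAt two_ne_zero) u
  have hrr : HasDerivAt (fun s : ℝ => rr B G (X + s • u)) (fderiv ℝ (rr B G) X u) 0 :=
    c5d_curve ((hG.rr_c2.contDiffAt hU).differentiableAt two_ne_zero) u
  have hV2 := V2_deriv B J lam m p hxs hν hSS
  have hc := htt.mul hrr
  have h2 := hc.smul hV2
  have h3 : HasDerivAt (fun s : ℝ => VV B J lam m p G (X + s • u)) (fderiv ℝ (VV B J lam m p G) X u) 0 :=
    c5d_curve (((hG.VV_c1 lam m p).contDiffAt hU).differentiableAt one_ne_zero) u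
  have h4 := h3.unique h2
  rw [h4]
  simp only [h0, Pi.mul_apply]
  rw [add_comm]

private theorem c5d_tt (hG : Gd B J U G) {X : L} (hX : X ∈ U) : 0 < tt B X := neg_pos.2 (hG.neg X hX)

private theorem c5d_dV2 (lam m : ℝ) (p x ν : L) (S : L →L[ℝ] L) :
    dV2 B J lam m p x ν S 0 0 0 = 0 := by
  have h1 := V2_deriv B J lam m p (hasDerivAt_const (0 : ℝ) x) (hasDerivAt_const (0 : ℝ) ν)
    (hasDerivAt_const (0 : ℝ) S)
  exact h1.unique (hasDerivAt_const (0 : ℝ) _)

/-- piece `JE-C5` (d): along `X` the functions `xs`, `nu`, `SS` are constant to first order (`N2 X v = N2 v X = - N v`),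
`tt` has degree `2`, `rr` degree `-1`. -/
theorem Gd.DVV_X (hH : Hf B J) (hG : Gd B J U G) (lam m : ℝ) (p : L) {X : L} (hX : X ∈ U) :
    fderiv ℝ (VV B J lam m p G) X X = VV B J lam m p G X := by
  have hU : U ∈ nhds X := hG.isOpen.mem_nhds hX
  have hP := hG.pt hH hX
  have ht0 := c5d_tt hG hX
  have hs0 : √(tt B X) ≠ 0 := (Real.sqrt_pos.2 ht0).ne'
  have h0 : X + (0 : ℝ) • X = X := by rw [zero_smul, add_zero]
  have htt : HasDerivAt (fun s : ℝ => tt B (X + s • X)) (2 * tt B X) 0 := by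
    have e : (fun s : ℝ => tt B (X + s • X)) = fun s : ℝ => (1 + s) ^ 2 * tt B X := by
      funext s
      unfold tt
      simp only [map_add, map_smul, ContinuousLinearMap.add_apply, ContinuousLinearMap.smul_apply, smul_eq_mul]
      ring
    rw [e]
    have h1 := (((hasDerivAt_id (0 : ℝ)).const_add 1).pow 2).mul_const (tt B X)
    simpa using h1
  have hsq : HasDerivAt (fun s : ℝ => √(tt B (X + s • X))) (√(tt B X)) 0 := by
    have h1 := htt.sqrt (by rw [h0]; exact ht0.ne')
    refine h1.congr_deriv ?_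
    rw [h0]
    have h2 := Real.mul_self_sqrt ht0.le
    field_simp
    rw [sq, h2]
  have hline : HasDerivAt (fun s : ℝ => X + s • X) X 0 := by
    have h2 := ((hasDerivAt_id (0 : ℝ)).smul_const X).const_add X
    rw [one_smul] at h2
    exact h2
  have hxs : HasDerivAt (fun s : ℝ => xs B (X + s • X)) 0 0 := by
    have h1 := (hsq.inv (by rw [h0]; exact hs0)).smul hline
    refine h1.congr_deriv ?_
    simp only [Pi.inv_apply, h0]
    rw [← add_smul]
    have : (√(tt B X))⁻¹ + -√(tt B X) / √(tt B X) ^ 2 = 0 := by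
      field_simp
      ring
    rw [this, zero_smul]
  have hSS : HasDerivAt (fun s : ℝ => SS B G (X + s • X)) 0 0 := by
    have hNN : HasDerivAt (fun s : ℝ => NN B G (X + s • X)) (fderiv ℝ (NN B G) X X) 0 :=
      c5d_curve ((hG.NN_c1.contDiffAt hU).differentiableAt one_ne_zero) X
    have h1 := hsq.smul hNN
    have h2 : fderiv ℝ (NN B G) X X = - NN B G X := by
      ext v
      rw [hG.N2_symm hX X v, hG.N2_X hH hX v]
      rfl
    refine h1.congr_deriv ?_
    rw [h2, h0, smul_neg, neg_add_cancel]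
  have hr : fderiv ℝ (rr B G) X X = - rr B G X := by
    rw [drr_gen_c1b hH hG hX X, hP.NX, hP.nn, hH.symm (nu B G X) X, hP.xn]
    ring
  rw [c5d_gen hG lam m p hX X htt hxs hP.Nx hSS, c5d_dV2, hr]
  unfold VV
  rw [smul_zero, add_zero]
  congr 1
  ring

/-- piece `JE-C5` (e): along `J X` the derivatives of `xs`, `nu`, `SS` are `J x`, `J ν`, `J S - S J`
(`N2 (J X) v = N2 v (J X) = J (N v) - N (J v)`), those of `tt` and `rr` are zero; `dV2_J`. -/
theorem Gd.DVV_JX (hH : Hf B J) (hG : Gd B J U G) (lam m : ℝ) (p : L) {X : L} (hX : X ∈ U) :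
    fderiv ℝ (VV B J lam m p G) X (J X) = J (VV B J lam m p G X) := by
  have hU : U ∈ nhds X := hG.isOpen.mem_nhds hX
  have hP := hG.pt hH hX
  have ht0 := c5d_tt hG hX
  have hs0 : √(tt B X) ≠ 0 := (Real.sqrt_pos.2 ht0).ne'
  have h0 : X + (0 : ℝ) • J X = X := by rw [zero_smul, add_zero]
  have hJX1 : B (J X) X = 0 := hH.self0 X
  have hJX2 : B X (J X) = 0 := by rw [hH.symm]; exact hJX1
  have htt : HasDerivAt (fun s : ℝ => tt B (X + s • J X)) 0 0 := by
    have e : (fun s : ℝ => tt B (X + s • J X)) = fun s : ℝ => (1 + s ^ 2) * tt B X := by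
      funext s
      unfold tt
      simp only [map_add, map_smul, ContinuousLinearMap.add_apply, ContinuousLinearMap.smul_apply, smul_eq_mul,
        hJX1, hJX2, hH.inv]
      ring
    rw [e]
    have h1 := (((hasDerivAt_id (0 : ℝ)).pow 2).const_add 1).mul_const (tt B X)
    simpa using h1
  have hsq : HasDerivAt (fun s : ℝ => √(tt B (X + s • J X))) 0 0 := by
    have h1 := htt.sqrt (by rw [h0]; exact ht0.ne')
    rw [zero_div] at h1
    exact h1
  have hline : HasDerivAt (fun s : ℝ => X + s • J X) (J X) 0 := by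
    have h2 := ((hasDerivAt_id (0 : ℝ)).smul_const (J X)).const_add X
    rw [one_smul] at h2
    exact h2
  have hxs : HasDerivAt (fun s : ℝ => xs B (X + s • J X)) (J (xs B X)) 0 := by
    have h1 := (hsq.inv (by rw [h0]; exact hs0)).smul hline
    refine h1.congr_deriv ?_
    unfold xs
    simp only [Pi.inv_apply, h0]
    rw [neg_zero, zero_div, zero_smul, add_zero, map_smul]
  have hSS : HasDerivAt (fun s : ℝ => SS B G (X + s • J X))
      (J.comp (SS B G X) - (SS B G X).comp J) 0 := by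
    have hNN : HasDerivAt (fun s : ℝ => NN B G (X + s • J X)) (fderiv ℝ (NN B G) X (J X)) 0 :=
      c5d_curve ((hG.NN_c1.contDiffAt hU).differentiableAt one_ne_zero) (J X)
    have h1 := hsq.smul hNN
    refine h1.congr_deriv ?_
    rw [h0, zero_smul, add_zero]
    ext v
    unfold SS
    simp only [ContinuousLinearMap.smul_apply, ContinuousLinearMap.sub_apply, ContinuousLinearMap.comp_apply,
      map_smul]
    rw [hG.N2_symm hX (J X) v, hG.N2_JX hH hX v, smul_sub]
  have hr : fderiv ℝ (rr B G) X (J X) = 0 := by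
    have e1 : B (nu B G X) (J X) = 0 := by rw [hH.symm]; exact hP.jxn
    have e2 : B (nu B G X) (J (nu B G X)) = 0 := by rw [hH.symm]; exact hH.self0 _
    rw [drr_gen_c1b hH hG hX (J X), hP.NJX, e1, e2]
    ring
  rw [c5d_gen hG lam m p hX (J X) htt hxs hP.Njx hSS, dV2_J hH, hr]
  unfold VV
  rw [zero_mul, mul_zero, add_zero, zero_smul, zero_add, map_smul]

private lemma JE_curve {F : Type*} [NormedAddCommGroup F] [NormedSpace ℝ F] {f : L → F} {X : L}
    (hf : DifferentiableAt ℝ f X) (u : L) : HasDerivAt (fun s : ℝ => f (X + s • u)) (fderiv ℝ f X u) 0 := by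
  have h1 : HasDerivAt (fun s : ℝ => X + s • u) u 0 := by
    have h2 := ((hasDerivAt_id (0 : ℝ)).smul_const u).const_add X
    rw [one_smul] at h2
    exact h2
  have h3 : HasFDerivAt f (fderiv ℝ f X) (X + (0 : ℝ) • u) := by
    rw [zero_smul, add_zero]
    exact hf.hasFDerivAt
  exact h3.comp_hasDerivAt (0 : ℝ) h1

private lemma JE_VV_at {B : L →L[ℝ] L →L[ℝ] ℝ} {J : L →L[ℝ] L} {G : L → L} (lam m : ℝ) (p : L) {X : L}
    (hxx : B X X = -1) : VV B J lam m p G X = rr B G X • V2 B J lam m p X (nu B G X) (NN B G X) := by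
  have h1 : tt B X = 1 := by
    unfold tt
    rw [hxx, neg_neg]
  unfold VV xs SS
  rw [h1, Real.sqrt_one, inv_one, one_smul, one_smul, one_mul]

/-- piece `JE-C6` (a): at a point with `B X X = -1` in a tangential horizontal direction -/
theorem Gd.DVV_hz (hH : Hf B J) (hG : Gd B J U G) (lam m : ℝ) (p : L) {X : L} (hX : X ∈ U)
    (hxx : B X X = -1) {u : L} (hu : Hz B J X (nu B G X) u) :
    fderiv ℝ (VV B J lam m p G) X u =
      (rr B G X * B (NN B G X (nu B G X)) u) • V2 B J lam m p X (nu B G X) (NN B G X) +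
      rr B G X • dV2 B J lam m p X (nu B G X) (NN B G X) u (NN B G X u)
        (fderiv ℝ (NN B G) X u) := by
  have hU : U ∈ nhds X := hG.isOpen.mem_nhds hX
  have htt1 : tt B X = 1 := by
    unfold tt
    rw [hxx, neg_neg]
  have hXu : B X u = 0 := by rw [hH.symm]; exact hu.1
  -- the derivatives along the line
  have htt : HasDerivAt (fun s : ℝ => tt B (X + s • u)) 0 0 := by
    have e : (fun s : ℝ => tt B (X + s • u)) = fun s : ℝ => 1 - s ^ 2 * B u u := by
      funext s
      unfold tt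
      simp only [map_add, map_smul, add_apply, smul_apply, smul_eq_mul, hxx, hu.1, hXu]
      ring
    rw [e]
    have h1 := (((hasDerivAt_id (0 : ℝ)).pow 2).mul_const (B u u)).const_sub 1
    simpa using h1
  have h0 : X + (0 : ℝ) • u = X := by rw [zero_smul, add_zero]
  have hsq : HasDerivAt (fun s : ℝ => √(tt B (X + s • u))) 0 0 := by
    have h1 := htt.sqrt (by rw [h0, htt1]; norm_num)
    rw [zero_div] at h1
    exact h1
  have hinv : HasDerivAt (fun s : ℝ => (√(tt B (X + s • u)))⁻¹) 0 0 := by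
    have h1 := hsq.inv (by rw [h0, htt1, Real.sqrt_one]; norm_num)
    rw [neg_zero, zero_div] at h1
    exact h1
  have hline : HasDerivAt (fun s : ℝ => X + s • u) u 0 := by
    have h2 := ((hasDerivAt_id (0 : ℝ)).smul_const u).const_add X
    rw [one_smul] at h2
    exact h2
  have hxs : HasDerivAt (fun s : ℝ => xs B (X + s • u)) u 0 := by
    have h1 := hinv.smul hline
    rw [h0, htt1, Real.sqrt_one, inv_one, one_smul, zero_smul, add_zero] at h1
    exact h1
  have hnu : HasDerivAt (fun s : ℝ => nu B G (X + s • u)) (NN B G X u) 0 :=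
    JE_curve ((hG.nu_c2.contDiffAt hU).differentiableAt two_ne_zero) u
  have hrr : HasDerivAt (fun s : ℝ => rr B G (X + s • u)) (rr B G X * B (NN B G X (nu B G X)) u) 0 := by
    have h1 := JE_curve ((hG.rr_c2.contDiffAt hU).differentiableAt two_ne_zero) u
    rw [hG.drr_hz hH hX hu.2.2] at h1
    exact h1
  have hNN : HasDerivAt (fun s : ℝ => NN B G (X + s • u)) (fderiv ℝ (NN B G) X u) 0 :=
    JE_curve ((hG.NN_c1.contDiffAt hU).differentiableAt one_ne_zero) u
  have hSS : HasDerivAt (fun s : ℝ => SS B G (X + s • u)) (fderiv ℝ (NN B G) X u) 0 := by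
    have h1 := hsq.smul hNN
    rw [h0, htt1, Real.sqrt_one, one_smul, zero_smul, add_zero] at h1
    exact h1
  have hV2 := V2_deriv B J lam m p hxs hnu hSS
  have hxs0 : xs B (X + (0 : ℝ) • u) = X := by
    rw [h0]
    unfold xs
    rw [htt1, Real.sqrt_one, inv_one, one_smul]
  have hSS0 : SS B G (X + (0 : ℝ) • u) = NN B G X := by
    rw [h0]
    unfold SS
    rw [htt1, Real.sqrt_one, one_smul]
  have hnu0 : nu B G (X + (0 : ℝ) • u) = nu B G X := by rw [h0]
  rw [hxs0, hSS0, hnu0] at hV2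
  have hc := htt.mul hrr
  have h2 := hc.smul hV2
  have h3 : HasDerivAt (fun s : ℝ => VV B J lam m p G (X + s • u)) (fderiv ℝ (VV B J lam m p G) X u) 0 :=
    JE_curve (((hG.VV_c1 lam m p).contDiffAt hU).differentiableAt one_ne_zero) u
  have h4 := h3.unique h2
  rw [h4]
  rw [h0] at hxs0 hSS0
  simp only [h0, hxs0, hSS0, htt1, Pi.mul_apply, zero_mul, one_mul, zero_add]
  rw [add_comm]

/-- piece `JE-C6` (b): the trace: `Fr.trace`; `B (DVV X) X = B VV X = 0`, `B (DVV (J X)) (J X) = B (J VV) (J X) = 0`,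
`B (DVV ν) ν = - B VV (N ν)` (differentiate `B VV ν = 0`), and `∑ B (N ν) (e i) B V2 (e i) = B (N ν) V2` (`Fr.parseval`). -/
theorem Gd.trace_VV [FiniteDimensional ℝ L] {κ : Type*} [Fintype κ] [DecidableEq κ]
    {e : Option κ → L} (hH : Hf B J) (hG : Gd B J U G) (lam m : ℝ) (p : L) {X : L} (hX : X ∈ U)
    (hxx : B X X = -1) (he : Fr B J X (nu B G X) e) :
    LinearMap.trace ℝ L (fderiv ℝ (VV B J lam m p G) X : L →ₗ[ℝ] L) =
      rr B G X * ∑ i, B (dV2 B J lam m p X (nu B G X) (NN B G X) (e i) (NN B G X (e i))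
        (fderiv ℝ (NN B G) X (e i))) (e i) := by
  have hU : U ∈ nhds X := hG.isOpen.mem_nhds hX
  have hHz := hG.VV_hz hH lam m p hX
  have hV := JE_VV_at (J := J) (G := G) lam m p hxx
  obtain ⟨M, hM⟩ : ∃ M, M = fderiv ℝ (VV B J lam m p G) X := ⟨_, rfl⟩
  obtain ⟨W, hW⟩ : ∃ W, W = VV B J lam m p G X := ⟨_, rfl⟩
  have hWν : B W (nu B G X) = 0 := by
    unfold nu
    rw [map_smul, hW, hHz.2.2, smul_zero]
  have hWz : Hz B J X (nu B G X) W := ⟨by rw [hW]; exact hHz.1, by rw [hW]; exact hHz.2.1, hWν⟩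
  have hMX : M X = W := by rw [hM, hW]; exact hG.DVV_X hH lam m p hX
  have hMJ : M (J X) = J W := by rw [hM, hW]; exact hG.DVV_JX hH lam m p hX
  have hMν : B (M (nu B G X)) (nu B G X) = - B W (NN B G X (nu B G X)) := by
    have d1 : DifferentiableAt ℝ (VV B J lam m p G) X :=
      ((hG.VV_c1 lam m p).contDiffAt hU).differentiableAt one_ne_zero
    have d2 : DifferentiableAt ℝ (nu B G) X := (hG.nu_c2.contDiffAt hU).differentiableAt two_ne_zero
    have h1 : HasDerivAt (fun s : ℝ => VV B J lam m p G (X + s • nu B G X)) (M (nu B G X)) 0 := by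
      rw [hM]
      exact JE_curve d1 _
    have h2 : HasDerivAt (fun s : ℝ => nu B G (X + s • nu B G X)) (NN B G X (nu B G X)) 0 := JE_curve d2 _
    have h0 : X + (0 : ℝ) • nu B G X = X := by rw [zero_smul, add_zero]
    have h3 : HasDerivAt (fun s : ℝ => B (VV B J lam m p G (X + s • nu B G X)))
        (B (M (nu B G X))) 0 := B.hasFDerivAt.comp_hasDerivAt (0 : ℝ) h1
    have h4 := h3.clm_apply h2
    rw [h0, ← hW] at h4
    have h5 : (fun s : ℝ => B (VV B J lam m p G (X + s • nu B G X)) (nu B G (X + s • nu B G X))) =ᶠ[nhds 0]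
        fun _ => (0 : ℝ) := by
      have hc : Filter.Tendsto (fun s : ℝ => X + s • nu B G X) (nhds 0) (nhds X) := by
        have h6 : Continuous fun s : ℝ => X + s • nu B G X :=
          continuous_const.add (continuous_id.smul continuous_const)
        have h7 := h6.tendsto 0
        rw [h0] at h7
        exact h7
      filter_upwards [hc hU] with s hs
      have h8 := (hG.VV_hz hH lam m p (show X + s • nu B G X ∈ U from hs)).2.2
      unfold nu at h8 ⊢
      rw [map_smul, h8, smul_zero]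
    have h6 : HasDerivAt (fun s : ℝ => B (VV B J lam m p G (X + s • nu B G X)) (nu B G (X + s • nu B G X)))
        0 0 := (hasDerivAt_const (0 : ℝ) (0 : ℝ)).congr_of_eventuallyEq h5
    have h7 := h4.unique h6
    linarith
  rw [← hM, Fr.trace hH he M, hMX, hMJ, hMν, hWz.1, hH.inv, hWz.1]
  have hpar := he.parseval hH hWz (NN B G X (nu B G X))
  have hei : ∀ i, B (M (e i)) (e i) = B W (e i) * B (NN B G X (nu B G X)) (e i) +
      rr B G X * B (dV2 B J lam m p X (nu B G X) (NN B G X) (e i) (NN B G X (e i))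
        (fderiv ℝ (NN B G) X (e i))) (e i) := by
    intro i
    rw [hM, hG.DVV_hz hH lam m p hX hxx (he.hz i), hW, hV]
    simp only [map_add, map_smul, add_apply, smul_apply, smul_eq_mul]
    ring
  rw [Finset.sum_congr rfl fun i _ => hei i, Finset.sum_add_distrib, hpar, Finset.mul_sum]
  ring

end Pool.Agent.Helper77.JE
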