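import Mathlib

/-! # JE: definitions for the pointwise part

`L` is a real vector space with a complex structure `J` and a symmetric form `B` invariant under `J` (signature `(2, 2 n)`).
`X` is a point of the cone `B X X < 0` over a hypersurface of complex hyperbolic space, `ν` the unit normal there (a vector
of `L` that is `B`-orthogonal to `X`, `J X`), `N` its derivative; `ξ = J ν`.
-/

set_option autoImplicit false
set_option linter.unusedSectionVars false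
set_option linter.unusedVariables false

namespace Pool.Agent.Helper77.JE

section defs

variable {L : Type*} [NormedAddCommGroup L] [NormedSpace ℝ L]

/-- symmetric non degenerate form, invariant under the complex structure `J` -/
structure Hf (B : L →L[ℝ] L →L[ℝ] ℝ) (J : L →L[ℝ] L) : Prop where
  symm : ∀ u v, B u v = B v u
  jj : ∀ u, J (J u) = -u
  inv : ∀ u v, B (J u) (J v) = B u v
  nd : ∀ u, (∀ v, B u v = 0) → u = 0

/-- horizontal tangential vectors -/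
def Hz (B : L →L[ℝ] L →L[ℝ] ℝ) (J : L →L[ℝ] L) (X ν w : L) : Prop :=
  B w X = 0 ∧ B w (J X) = 0 ∧ B w ν = 0

/-- the first order data at a point of the cone -/
structure Pt (B : L →L[ℝ] L →L[ℝ] ℝ) (J : L →L[ℝ] L) (X ν : L) (N : L →L[ℝ] L) : Prop where
  nn : B ν ν = 1
  xn : B X ν = 0
  jxn : B (J X) ν = 0
  Nx : N X = 0
  Njx : N (J X) = J ν
  Nn : ∀ v, B (N v) ν = 0
  NX : ∀ v, B (N v) X = - B ν v
  NJX : ∀ v, B (N v) (J X) = - B ν (J v)
  sy : ∀ v w, B ν v = 0 → B ν w = 0 → B (N v) w = B (N w) v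

/-- an orthonormal frame of the horizontal tangential vectors (at a point with `B X X = -1`); the index `none` is used
for `ξ = J ν` -/
structure Fr {κ : Type*} [Fintype κ] [DecidableEq κ] (B : L →L[ℝ] L →L[ℝ] ℝ) (J : L →L[ℝ] L)
    (X ν : L) (e : Option κ → L) : Prop where
  xi : e none = J ν
  hz : ∀ i, Hz B J X ν (e i)
  on : ∀ i j, B (e i) (e j) = if i = j then 1 else 0
  comp : ∀ w, w = -(B w X • X) - B w (J X) • J X + B w ν • ν + ∑ i, B w (e i) • e i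

/-- the second order data at a point of the cone over the hypersurface of constant mean curvature
`(m + 1) lam + lam⁻¹`; `N2` is the second derivative of `ν` -/
structure Jt {κ : Type*} [Fintype κ] [DecidableEq κ] (B : L →L[ℝ] L →L[ℝ] ℝ) (J : L →L[ℝ] L)
    (lam m : ℝ) (X ν : L) (N : L →L[ℝ] L) (N2 : L →L[ℝ] L →L[ℝ] L) (e : Option κ → L) : Prop where
  card : (Fintype.card κ : ℝ) = m
  s2 : ∀ u v, N2 u v = N2 v u
  cc : ∀ u v w, Hz B J X ν u → Hz B J X ν v → Hz B J X ν w →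
    B (N2 u v) w - B (N u) v * B (N ν) w = B (N2 u w) v - B (N u) w * B (N ν) v
  tr1 : ∑ i, B (N (e i)) (e i) = (m + 1) * lam + lam⁻¹
  tr2 : ∀ u, Hz B J X ν u → ∑ i, (B (N2 u (e i)) (e i) - B (N u) (e i) * B (N ν) (e i)) = 0

/-- the trace free part of the shape operator; `x` is the normalised point and `S` the normalised shape operator -/
noncomputable def Tm (B : L →L[ℝ] L →L[ℝ] ℝ) (J : L →L[ℝ] L) (lam : ℝ) (x ν : L) (S : L →L[ℝ] L) :
    L →L[ℝ] L :=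
  S + (B (J ν)).smulRight (J x) - lam • ContinuousLinearMap.id ℝ L -
    lam⁻¹ • (B (J ν)).smulRight (J ν)

/-- its derivative in the direction `dx`, `dν`, `dS` -/
noncomputable def dTm (B : L →L[ℝ] L →L[ℝ] ℝ) (J : L →L[ℝ] L) (lam : ℝ) (x ν dx dν : L)
    (dS : L →L[ℝ] L) : L →L[ℝ] L :=
  dS + (B (J dν)).smulRight (J x) + (B (J ν)).smulRight (J dx) -
    lam⁻¹ • ((B (J dν)).smulRight (J ν) + (B (J ν)).smulRight (J dν))

/-- real part of `n̂ = h(p, ν) - lam h(p, x)` -/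
noncomputable def n1 (B : L →L[ℝ] L →L[ℝ] ℝ) (lam : ℝ) (p x ν : L) : ℝ := B p ν - lam * B p x

/-- imaginary part of `n̂` (with `J p` for `p`) -/
noncomputable def n2 (B : L →L[ℝ] L →L[ℝ] ℝ) (J : L →L[ℝ] L) (lam : ℝ) (p x ν : L) : ℝ :=
  B (J p) ν - lam * B (J p) x

/-- `𝒜 = lam Re (z̄ ζ) - |ζ|²` -/
noncomputable def Aa (B : L →L[ℝ] L →L[ℝ] ℝ) (J : L →L[ℝ] L) (lam : ℝ) (p x ν : L) : ℝ :=
  lam * (B p x * B p ν + B (J p) x * B (J p) ν) - (B p ν ^ 2 + B (J p) ν ^ 2)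

/-- `κ = Im (z̄ ζ)` -/
noncomputable def kp (B : L →L[ℝ] L →L[ℝ] ℝ) (J : L →L[ℝ] L) (p x ν : L) : ℝ :=
  B p x * B (J p) ν - B (J p) x * B p ν

/-- derivative of `kp` -/
noncomputable def dkp (B : L →L[ℝ] L →L[ℝ] ℝ) (J : L →L[ℝ] L) (p x ν dx dν : L) : ℝ :=
  B p dx * B (J p) ν + B p x * B (J p) dν - (B (J p) dx * B p ν + B (J p) x * B p dν)

/-- derivative of `Aa` -/
noncomputable def dAa (B : L →L[ℝ] L →L[ℝ] ℝ) (J : L →L[ℝ] L) (lam : ℝ) (p x ν dx dν : L) : ℝ :=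
  lam * (B p dx * B p ν + B p x * B p dν + (B (J p) dx * B (J p) ν + B (J p) x * B (J p) dν)) -
    2 * (B p ν * B p dν + B (J p) ν * B (J p) dν)

/-- `W = n̂ (p + z̄ x) + 𝒜 ν` -/
noncomputable def Wd (B : L →L[ℝ] L →L[ℝ] ℝ) (J : L →L[ℝ] L) (lam : ℝ) (p x ν : L) : L :=
  n1 B lam p x ν • p + n2 B J lam p x ν • J p +
    (n1 B lam p x ν * B p x + n2 B J lam p x ν * B (J p) x) • x +
    (n2 B J lam p x ν * B p x - n1 B lam p x ν * B (J p) x) • J x + Aa B J lam p x ν • ν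

/-- derivative of `Wd` -/
noncomputable def dWd (B : L →L[ℝ] L →L[ℝ] ℝ) (J : L →L[ℝ] L) (lam : ℝ) (p x ν dx dν : L) : L :=
  n1 B lam p dx dν • p + n2 B J lam p dx dν • J p +
    (n1 B lam p dx dν * B p x + n1 B lam p x ν * B p dx +
      (n2 B J lam p dx dν * B (J p) x + n2 B J lam p x ν * B (J p) dx)) • x +
    (n1 B lam p x ν * B p x + n2 B J lam p x ν * B (J p) x) • dx +
    (n2 B J lam p dx dν * B p x + n2 B J lam p x ν * B p dx -
      (n1 B lam p dx dν * B (J p) x + n1 B lam p x ν * B (J p) dx)) • J x +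
    (n2 B J lam p x ν * B p x - n1 B lam p x ν * B (J p) x) • J dx +
    dAa B J lam p x ν dx dν • ν + Aa B J lam p x ν • dν

/-- `N₀ = (m / 2 + 1) lam² - 1` -/
noncomputable def N0 (lam m : ℝ) : ℝ := (m / 2 + 1) * lam ^ 2 - 1

/-- the vector field (normalised) -/
noncomputable def V2 (B : L →L[ℝ] L →L[ℝ] ℝ) (J : L →L[ℝ] L) (lam m : ℝ) (p x ν : L)
    (S : L →L[ℝ] L) : L :=
  N0 lam m • Tm B J lam x ν S (Wd B J lam p x ν) +
    B (Tm B J lam x ν S (J ν)) (Wd B J lam p x ν) • J ν -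
    B (Tm B J lam x ν S (J ν)) (J ν) • Wd B J lam p x ν +
    (m * lam * kp B J p x ν) • Tm B J lam x ν S (J ν)

/-- its derivative -/
noncomputable def dV2 (B : L →L[ℝ] L →L[ℝ] ℝ) (J : L →L[ℝ] L) (lam m : ℝ) (p x ν : L)
    (S : L →L[ℝ] L) (dx dν : L) (dS : L →L[ℝ] L) : L :=
  N0 lam m • (dTm B J lam x ν dx dν dS (Wd B J lam p x ν) +
      Tm B J lam x ν S (dWd B J lam p x ν dx dν)) +
    (B (dTm B J lam x ν dx dν dS (J ν) + Tm B J lam x ν S (J dν)) (Wd B J lam p x ν) +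
      B (Tm B J lam x ν S (J ν)) (dWd B J lam p x ν dx dν)) • J ν +
    B (Tm B J lam x ν S (J ν)) (Wd B J lam p x ν) • J dν -
    (B (dTm B J lam x ν dx dν dS (J ν) + Tm B J lam x ν S (J dν)) (J ν) +
      B (Tm B J lam x ν S (J ν)) (J dν)) • Wd B J lam p x ν -
    B (Tm B J lam x ν S (J ν)) (J ν) • dWd B J lam p x ν dx dν +
    (m * lam * dkp B J p x ν dx dν) • Tm B J lam x ν S (J ν) +
    (m * lam * kp B J p x ν) • (dTm B J lam x ν dx dν dS (J ν) + Tm B J lam x ν S (J dν))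

end defs

section quad

variable {F : Type*} [NormedAddCommGroup F] [InnerProductSpace ℝ F]

/-- the quadratic form of the theorem without the term `N₀ |T η|²`; `z = z1 + i z2 = h(p, x)`, `ζ = s1 + i s2 = h(p, ν)`,
`τ = T(ξ, ξ)`, `b = T ξ` in `F = {X, J X, ν, ξ}^⊥`, `b' = J b`, `v` the `F` part of `p`, `v' = J v` up to sign, `A1 = T v`,
`A2 = T v'`, `TT = |T|²` on `F` -/
noncomputable def R2f (lam m z1 z2 s1 s2 τ TT : ℝ) (v v' b b' A1 A2 : F) : ℝ :=
  N0 lam m * (lam * (z1 * s1 + z2 * s2) - (s1 ^ 2 + s2 ^ 2)) * (τ ^ 2 + 2 * ‖b‖ ^ 2 + TT) +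
    (lam * (z1 * s1 + z2 * s2) - (s1 ^ 2 + s2 ^ 2) + m * lam * (z1 * s1 + z2 * s2)) *
      (τ ^ 2 + ‖b‖ ^ 2) +
    (inner ℝ v b ^ 2 + inner ℝ v' b ^ 2) - τ * (inner ℝ v A1 + inner ℝ v' A2) +
    3 * inner ℝ b' ((s1 - lam * z1) • A1 + (s2 - lam * z2) • A2) +
    m * lam * inner ℝ b (z1 • A2 - z2 • A1) +
    m * lam * τ * (z1 * inner ℝ v' b - z2 * inner ℝ v b)

end quad

end Pool.Agent.Helper77.JE
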