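import Pool.Agent.Helper77.JE.Defs

/-! # JE: algebra at a point, first part -/

set_option autoImplicit false
set_option linter.unusedSectionVars false
set_option linter.unusedVariables false

namespace Pool.Agent.Helper77.JE

variable {L : Type*} [NormedAddCommGroup L] [NormedSpace ℝ L]
variable {B : L →L[ℝ] L →L[ℝ] ℝ} {J : L →L[ℝ] L}

/-- piece `JE-A0`: `inv` with `jj` -/
theorem Hf.skew (hH : Hf B J) (u v : L) : B (J u) v = - B u (J v) := by
  have h := hH.inv u (J v)
  rw [hH.jj, map_neg] at h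
  linarith

theorem Hf.self0 (hH : Hf B J) (u : L) : B (J u) u = 0 := by
  have h := hH.skew u u
  rw [hH.symm u (J u)] at h
  linarith

section pt

variable {X ν : L} {N : L →L[ℝ] L}

theorem Pt.xiX (hH : Hf B J) (hP : Pt B J X ν N) : B (J ν) X = 0 := by
  rw [hH.skew, hH.symm, hP.jxn, neg_zero]

theorem Pt.xiJX (hH : Hf B J) (hP : Pt B J X ν N) : B (J ν) (J X) = 0 := by
  rw [hH.inv, hH.symm, hP.xn]

theorem Pt.hz_xi (hH : Hf B J) (hP : Pt B J X ν N) : Hz B J X ν (J ν) :=
  ⟨hP.xiX hH, hP.xiJX hH, hH.self0 ν⟩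

theorem Tm_apply (lam : ℝ) (x : L) (S : L →L[ℝ] L) (Q : L) :
    Tm B J lam x ν S Q = S Q + B (J ν) Q • J x - lam • Q - (lam⁻¹ * B (J ν) Q) • J ν := by
  simp [Tm, smul_smul]

/-- piece `JE-A1` (a): `N` in terms of `T` -/
theorem N_eq (lam : ℝ) (Q : L) :
    N Q = Tm B J lam X ν N Q + lam • Q + (lam⁻¹ * B (J ν) Q) • J ν - B (J ν) Q • J X := by
  rw [Tm_apply]
  abel

/-- piece `JE-A1` (b): on the three directions which are not tangential horizontal -/
theorem T_X (hH : Hf B J) (hP : Pt B J X ν N) (lam : ℝ) : Tm B J lam X ν N X = -(lam • X) := by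
  rw [Tm_apply, hP.xiX hH, hP.Nx]
  simp

theorem T_JX (hH : Hf B J) (hP : Pt B J X ν N) (lam : ℝ) :
    Tm B J lam X ν N (J X) = J ν - lam • J X := by
  rw [Tm_apply, hP.xiJX hH, hP.Njx]
  simp

theorem T_ν (hH : Hf B J) (lam : ℝ) : Tm B J lam X ν N ν = N ν - lam • ν := by
  rw [Tm_apply, hH.self0]
  simp

/-- piece `JE-A1` (c): `T` maps tangential horizontal vectors to such vectors (needs `B X X = -1`) -/
theorem T_hz (hH : Hf B J) (hP : Pt B J X ν N) (hxx : B X X = -1) (lam : ℝ) {Q : L}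
    (hQ : Hz B J X ν Q) : Hz B J X ν (Tm B J lam X ν N Q) := by
  obtain ⟨h1, h2, h3⟩ := hQ
  have e1 : B (J X) X = 0 := hH.self0 X
  have e2 : B (J X) (J X) = -1 := by rw [hH.inv, hxx]
  have e3 := hP.xiX hH
  have e4 := hP.xiJX hH
  have e5 := hH.self0 ν
  refine ⟨?_, ?_, ?_⟩
  · rw [Tm_apply]
    simp only [map_sub, map_add, map_smul, ContinuousLinearMap.sub_apply,
      ContinuousLinearMap.add_apply, ContinuousLinearMap.smul_apply, smul_eq_mul]
    rw [hP.NX, e1, e3, h1, hH.symm ν Q, h3]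
    ring
  · rw [Tm_apply]
    simp only [map_sub, map_add, map_smul, ContinuousLinearMap.sub_apply,
      ContinuousLinearMap.add_apply, ContinuousLinearMap.smul_apply, smul_eq_mul]
    rw [hP.NJX, e2, e4, h2, hH.skew ν Q]
    ring
  · rw [Tm_apply]
    simp only [map_sub, map_add, map_smul, ContinuousLinearMap.sub_apply,
      ContinuousLinearMap.add_apply, ContinuousLinearMap.smul_apply, smul_eq_mul]
    rw [hP.Nn, hP.jxn, h3, e5]
    ring

/-- piece `JE-A1` (d): symmetry -/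
theorem T_symm (hH : Hf B J) (hP : Pt B J X ν N) (lam : ℝ) {Q R : L}
    (hQ : Hz B J X ν Q) (hR : Hz B J X ν R) :
    B (Tm B J lam X ν N Q) R = B (Tm B J lam X ν N R) Q := by
  have h1 := hP.sy Q R (by rw [hH.symm]; exact hQ.2.2) (by rw [hH.symm]; exact hR.2.2)
  have h2 : B (J X) R = 0 := by rw [hH.symm]; exact hR.2.1
  have h3 : B (J X) Q = 0 := by rw [hH.symm]; exact hQ.2.1
  rw [Tm_apply, Tm_apply]
  simp only [map_sub, map_add, map_smul, ContinuousLinearMap.sub_apply,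
    ContinuousLinearMap.add_apply, ContinuousLinearMap.smul_apply, smul_eq_mul]
  rw [h1, h2, h3, hH.symm Q R]
  ring

end pt

end Pool.Agent.Helper77.JE
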