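import Pool.Agent.Helper77.JE.PtA

/-! # JE: algebra at a point, second part: derivative of `T Q`, derivative of `W` -/

set_option autoImplicit false
set_option linter.unusedSectionVars false
set_option linter.unusedVariables false

namespace Pool.Agent.Helper77.JE

variable {L : Type*} [NormedAddCommGroup L] [NormedSpace ℝ L]
variable {B : L →L[ℝ] L →L[ℝ] ℝ} {J : L →L[ℝ] L} {X ν : L} {N : L →L[ℝ] L}

/-- piece `JE-A2`: the derivative of `T Q` in the direction `u`, tested with `e`.
Proof. `N u = T u + lam u + lam⁻¹ B(ξ, u) ξ - B(ξ, u) J X` (`N_eq`), so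
`J (N u) = J (T u) + lam J u - lam⁻¹ B(ξ, u) ν + B(ξ, u) X` (`jj`) and
`B (J (N u)) Q = B (J (T u)) Q + lam B (J u) Q`, same with `e` (`Q`, `e` are orthogonal to `X`, `ν`). Expand `dTm`.
For the second term write `Q' = R + B(Q', ν) ν - B(Q', X) X - B(Q', J X) J X` with `R` tangential horizontal (`Hz`;
`B X X = -1 = B (J X) (J X)`, `B ν ν = 1`); `B (T R) e = B (T e) R` (`T_symm`), `B (T e) R = B (T e) Q'` (`T_hz`),
`B (T ν) e = B (N ν) e`, `B (T X) e = 0`, `B (T (J X)) e = B (J ν) e` (`T_ν`, `T_X`, `T_JX`). -/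
theorem dTQ (hH : Hf B J) (hP : Pt B J X ν N) (hxx : B X X = -1) {lam : ℝ} (hlam : lam ≠ 0)
    (N2 : L →L[ℝ] L →L[ℝ] L) {u Q Q' e : L} (hu : Hz B J X ν u) (hQ : Hz B J X ν Q)
    (he : Hz B J X ν e) (h1 : B Q' ν = - B Q (N u)) (h2 : B Q' X = - B Q u)
    (h3 : B Q' (J X) = - B Q (J u)) :
    B (dTm B J lam X ν u (N u) (N2 u) Q + Tm B J lam X ν N Q') e =
      (B (N2 u Q) e - B (N u) Q * B (N ν) e) -
        lam⁻¹ * (B (J (Tm B J lam X ν N u)) Q * B (J ν) e +
          B (J ν) Q * B (J (Tm B J lam X ν N u)) e) +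
        B (Tm B J lam X ν N e) Q' := by
  have e0 : B (J X) X = 0 := hH.self0 X
  have e1 : B X (J X) = 0 := by rw [hH.symm, e0]
  have e2 : B (J X) (J X) = -1 := by rw [hH.inv, hxx]
  have e3 : B ν X = 0 := by rw [hH.symm, hP.xn]
  have e4 : B ν (J X) = 0 := by rw [hH.symm, hP.jxn]
  have key : ∀ v : L, Hz B J X ν v →
      B (J (N u)) v = B (J (Tm B J lam X ν N u)) v + lam * B (J u) v := by
    intro v hv
    have h4 : B ν v = 0 := by rw [hH.symm]; exact hv.2.2
    have h5 : B X v = 0 := by rw [hH.symm]; exact hv.1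
    have h6 : J (N u) = J (Tm B J lam X ν N u) + lam • J u - (lam⁻¹ * B (J ν) u) • ν +
        B (J ν) u • X := by
      have h7 : J (N u) = J (Tm B J lam X ν N u + lam • u + (lam⁻¹ * B (J ν) u) • J ν -
          B (J ν) u • J X) := congrArg (fun w => J w) (N_eq (B := B) (J := J) (X := X) (ν := ν) lam u)
      rw [h7]
      simp only [map_sub, map_add, map_smul, hH.jj, smul_neg]
      abel
    rw [h6]
    simp only [map_sub, map_add, map_smul, ContinuousLinearMap.sub_apply,
      ContinuousLinearMap.add_apply, ContinuousLinearMap.smul_apply, smul_eq_mul, h4, h5]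
    ring
  -- the first part
  have hA : B (dTm B J lam X ν u (N u) (N2 u) Q) e = B (N2 u Q) e -
      lam⁻¹ * (B (J (Tm B J lam X ν N u)) Q * B (J ν) e +
        B (J ν) Q * B (J (Tm B J lam X ν N u)) e) - B (J u) Q * B (J ν) e := by
    have h4 : B (J X) e = 0 := by rw [hH.symm]; exact he.2.1
    have h5 : dTm B J lam X ν u (N u) (N2 u) Q = N2 u Q + B (J (N u)) Q • J X +
        B (J ν) Q • J u - lam⁻¹ • (B (J (N u)) Q • J ν + B (J ν) Q • J (N u)) := by
      simp [dTm]
    rw [h5]
    simp only [map_sub, map_add, map_smul, ContinuousLinearMap.sub_apply,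
      ContinuousLinearMap.add_apply, ContinuousLinearMap.smul_apply, smul_eq_mul, h4]
    rw [key Q hQ, key e he]
    have h6 : lam⁻¹ * lam = 1 := inv_mul_cancel₀ hlam
    have h7 : lam⁻¹ * ((B (J (Tm B J lam X ν N u)) Q + lam * B (J u) Q) * B (J ν) e +
        B (J ν) Q * (B (J (Tm B J lam X ν N u)) e + lam * B (J u) e)) =
        lam⁻¹ * (B (J (Tm B J lam X ν N u)) Q * B (J ν) e +
        B (J ν) Q * B (J (Tm B J lam X ν N u)) e) +
        (lam⁻¹ * lam) * (B (J u) Q * B (J ν) e + B (J ν) Q * B (J u) e) := by ring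
    rw [h7, h6]
    ring
  -- the second part
  have hB : B (Tm B J lam X ν N Q') e = B (Tm B J lam X ν N e) Q' - B Q (N u) * B (N ν) e +
      B Q (J u) * B (J ν) e := by
    set R : L := Q' + B Q (N u) • ν - B Q u • X - B Q (J u) • J X with hR
    have hRz : Hz B J X ν R := by
      refine ⟨?_, ?_, ?_⟩
      · rw [hR]
        simp only [map_sub, map_add, map_smul, ContinuousLinearMap.sub_apply,
          ContinuousLinearMap.add_apply, ContinuousLinearMap.smul_apply, smul_eq_mul, h2, e3, hxx,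
          e0]
        ring
      · rw [hR]
        simp only [map_sub, map_add, map_smul, ContinuousLinearMap.sub_apply,
          ContinuousLinearMap.add_apply, ContinuousLinearMap.smul_apply, smul_eq_mul, h3, e4, e1,
          e2]
        ring
      · rw [hR]
        simp only [map_sub, map_add, map_smul, ContinuousLinearMap.sub_apply,
          ContinuousLinearMap.add_apply, ContinuousLinearMap.smul_apply, smul_eq_mul, h1, hP.nn,
          hP.xn, hP.jxn]
        ring
    have hQ' : Q' = R - B Q (N u) • ν + B Q u • X + B Q (J u) • J X := by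
      rw [hR]
      abel
    clear_value R
    have h4 : B (Tm B J lam X ν N R) e = B (Tm B J lam X ν N e) R := T_symm hH hP lam hRz he
    obtain ⟨h5, h6, h7⟩ := T_hz hH hP hxx lam he
    have h8 : B ν e = 0 := by rw [hH.symm]; exact he.2.2
    have h9 : B X e = 0 := by rw [hH.symm]; exact he.1
    have h10 : B (J X) e = 0 := by rw [hH.symm]; exact he.2.1
    have h11 : B (Tm B J lam X ν N Q') e = B (Tm B J lam X ν N R) e - B Q (N u) * B (N ν) e +
        B Q (J u) * B (J ν) e := by
      have h13 : Tm B J lam X ν N Q' = Tm B J lam X ν N R - B Q (N u) • (N ν - lam • ν) +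
          B Q u • (-(lam • X)) + B Q (J u) • (J ν - lam • J X) := by
        rw [← T_ν (X := X) (N := N) hH, ← T_X hH hP, ← T_JX hH hP]
        conv_lhs => rw [hQ']
        simp only [map_sub, map_add, map_smul]
      rw [h13]
      simp only [map_sub, map_add, map_smul, map_neg, ContinuousLinearMap.sub_apply,
        ContinuousLinearMap.add_apply, ContinuousLinearMap.smul_apply,
        ContinuousLinearMap.neg_apply, smul_eq_mul, h8, h9, h10]
      ring
    have h12 : B (Tm B J lam X ν N e) Q' = B (Tm B J lam X ν N e) R := by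
      conv_lhs => rw [hQ']
      simp only [map_sub, map_add, map_smul, smul_eq_mul, h5, h6, h7]
      ring
    rw [h11, h4, h12]
  rw [map_add, ContinuousLinearMap.add_apply, hA, hB, hH.symm (N u) Q, hH.symm (J u) Q]
  ring

/-- piece `JE-A3` (a) -/
theorem W_hz (hH : Hf B J) (hP : Pt B J X ν N) (hxx : B X X = -1) (lam : ℝ) (p : L) :
    Hz B J X ν (Wd B J lam p X ν) := by
  have e1 : B (J X) X = 0 := hH.self0 X
  have e2 : B (J X) (J X) = -1 := by rw [hH.inv, hxx]
  have e3 : B X (J X) = 0 := by rw [hH.symm, e1]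
  have e4 : B ν X = 0 := by rw [hH.symm, hP.xn]
  have e5 : B ν (J X) = 0 := by rw [hH.symm, hP.jxn]
  have e6 : B p (J X) = -B (J p) X := by rw [hH.skew]; ring
  have e7 : B (J p) (J X) = B p X := hH.inv p X
  refine ⟨?_, ?_, ?_⟩
  · unfold Wd
    simp only [map_add, map_smul, ContinuousLinearMap.add_apply, ContinuousLinearMap.smul_apply,
      smul_eq_mul]
    rw [hxx, e1, e4]
    ring
  · unfold Wd
    simp only [map_add, map_smul, ContinuousLinearMap.add_apply, ContinuousLinearMap.smul_apply,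
      smul_eq_mul]
    rw [e6, e7, e3, e2, e5]
    ring
  · unfold Wd
    simp only [map_add, map_smul, ContinuousLinearMap.add_apply, ContinuousLinearMap.smul_apply,
      smul_eq_mul]
    rw [hP.xn, hP.jxn, hP.nn]
    unfold n1 n2 Aa
    ring

/-- piece `JE-A3` (b) -/
theorem W_test (hH : Hf B J) (lam : ℝ) (p : L) {v : L} (hv : Hz B J X ν v) :
    B (Wd B J lam p X ν) v = n1 B lam p X ν * B p v + n2 B J lam p X ν * B (J p) v := by
  have e1 : B X v = 0 := by rw [hH.symm, hv.1]
  have e2 : B (J X) v = 0 := by rw [hH.symm, hv.2.1]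
  have e3 : B ν v = 0 := by rw [hH.symm, hv.2.2]
  unfold Wd
  simp only [map_add, map_smul, ContinuousLinearMap.add_apply, ContinuousLinearMap.smul_apply,
    smul_eq_mul]
  rw [e1, e2, e3]
  ring

/-- piece `JE-A3` (c): the derivative of `n̂` (`N_eq`; `B p (J ν) = - B (J p) ν`, `B p (J X) = - B (J p) X`,
`B (J p) (J ν) = B p ν`, ..) -/
theorem dn1 (hH : Hf B J) (hP : Pt B J X ν N) {lam : ℝ} (hlam : lam ≠ 0) (p u : L) :
    n1 B lam p u (N u) = B p (Tm B J lam X ν N u) - lam⁻¹ * B (J ν) u * n2 B J lam p X ν := by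
  have e1 : B p (J ν) = -B (J p) ν := by rw [hH.skew]; ring
  have e2 : B p (J X) = -B (J p) X := by rw [hH.skew]; ring
  unfold n1 n2
  rw [N_eq (B := B) (J := J) (X := X) (ν := ν) lam u]
  simp only [map_add, map_sub, map_smul, smul_eq_mul]
  rw [e1, e2]
  field_simp
  ring

theorem dn2 (hH : Hf B J) (hP : Pt B J X ν N) {lam : ℝ} (hlam : lam ≠ 0) (p u : L) :
    n2 B J lam p u (N u) = B (J p) (Tm B J lam X ν N u) + lam⁻¹ * B (J ν) u * n1 B lam p X ν := by
  have e1 : B (J p) (J ν) = B p ν := hH.inv p ν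
  have e2 : B (J p) (J X) = B p X := hH.inv p X
  unfold n1 n2
  rw [N_eq (B := B) (J := J) (X := X) (ν := ν) lam u]
  simp only [map_add, map_sub, map_smul, smul_eq_mul]
  rw [e1, e2]
  field_simp
  ring

/-- piece `JE-A3` (d): the derivative of `W`, tested with a tangential horizontal vector (expand `dWd`) -/
theorem dW_test (hH : Hf B J) (hP : Pt B J X ν N) {lam : ℝ} (hlam : lam ≠ 0) (p : L) {u v : L}
    (hu : Hz B J X ν u) (hv : Hz B J X ν v) :
    B (dWd B J lam p X ν u (N u)) v =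
      (B p (Tm B J lam X ν N u) - lam⁻¹ * B (J ν) u * n2 B J lam p X ν) * B p v +
      (B (J p) (Tm B J lam X ν N u) + lam⁻¹ * B (J ν) u * n1 B lam p X ν) * B (J p) v +
      (n1 B lam p X ν * B p X + n2 B J lam p X ν * B (J p) X) * B u v +
      (n2 B J lam p X ν * B p X - n1 B lam p X ν * B (J p) X) * B (J u) v +
      Aa B J lam p X ν *
        (B (Tm B J lam X ν N u) v + lam * B u v + lam⁻¹ * B (J ν) u * B (J ν) v) := by
  have e1 : B X v = 0 := by rw [hH.symm, hv.1]
  have e2 : B (J X) v = 0 := by rw [hH.symm, hv.2.1]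
  have e3 : B ν v = 0 := by rw [hH.symm, hv.2.2]
  have e4 : B (N u) v = B (Tm B J lam X ν N u) v + lam * B u v +
      lam⁻¹ * B (J ν) u * B (J ν) v := by
    rw [N_eq (B := B) (J := J) (X := X) (ν := ν) lam u]
    simp only [map_add, map_sub, map_smul, ContinuousLinearMap.add_apply,
      ContinuousLinearMap.sub_apply, ContinuousLinearMap.smul_apply, smul_eq_mul]
    rw [e2]
    ring
  unfold dWd
  rw [dn1 hH hP hlam p u, dn2 hH hP hlam p u]
  simp only [map_add, map_smul, ContinuousLinearMap.add_apply, ContinuousLinearMap.smul_apply,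
    smul_eq_mul]
  rw [e1, e2, e3, e4]
  ring

/-- piece `JE-A3` (e): the derivatives of `B W ν = 0`, `B W X = 0`, `B W (J X) = 0`: expand everything
(`Wd`, `dWd`, `n1`, `n2`, `Aa`, `dAa`; `Nn`, `NX`, `NJX`, `hu`, `xn`, `jxn`, `xiX`, `xiJX`, `self0`, `skew`), `ring`. -/
theorem dW_con (hH : Hf B J) (hP : Pt B J X ν N) (hxx : B X X = -1) (lam : ℝ) (p : L) {u : L}
    (hu : Hz B J X ν u) :
    B (dWd B J lam p X ν u (N u)) ν = - B (Wd B J lam p X ν) (N u) ∧
    B (dWd B J lam p X ν u (N u)) X = - B (Wd B J lam p X ν) u ∧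
    B (dWd B J lam p X ν u (N u)) (J X) = - B (Wd B J lam p X ν) (J u) := by
  obtain ⟨h1, h2, h3⟩ := hu
  have a1 : B X ν = 0 := hP.xn
  have a2 : B (J X) ν = 0 := hP.jxn
  have a3 : B (J X) X = 0 := hH.self0 X
  have a4 : B (J X) (J X) = -1 := by rw [hH.inv, hxx]
  have a5 : B X (J X) = 0 := by rw [hH.symm]; exact a3
  have a6 : B ν X = 0 := by rw [hH.symm]; exact a1
  have a7 : B ν (J X) = 0 := by rw [hH.symm]; exact a2
  have c1 : B ν u = 0 := by rw [hH.symm]; exact h3
  have c2 : B X u = 0 := by rw [hH.symm]; exact h1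
  have c3 : B (J X) u = 0 := by rw [hH.symm]; exact h2
  have c4 : B (J u) ν = - B (J ν) u := by rw [hH.skew, hH.symm]
  have c5 : B ν (J u) = - B (J ν) u := by rw [hH.symm, c4]
  have c6 : B (J u) X = 0 := by rw [hH.skew, h2, neg_zero]
  have c7 : B (J u) (J X) = 0 := by rw [hH.inv, h1]
  have c8 : B X (J u) = 0 := by rw [hH.symm]; exact c6
  have c9 : B (J X) (J u) = 0 := by rw [hH.symm]; exact c7
  have d1 : B (N u) ν = 0 := hP.Nn u
  have d2 : B (N u) X = 0 := by rw [hP.NX, c1, neg_zero]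
  have d3 : B (N u) (J X) = B (J ν) u := by rw [hP.NJX, c5, neg_neg]
  have d4 : B ν (N u) = 0 := by rw [hH.symm]; exact d1
  have d5 : B X (N u) = 0 := by rw [hH.symm]; exact d2
  have d6 : B (J X) (N u) = B (J ν) u := by rw [hH.symm]; exact d3
  have p1 : ∀ w, B (J p) (J w) = B p w := fun w => hH.inv p w
  have p2 : ∀ w, B p (J w) = - B (J p) w := fun w => by rw [hH.skew, neg_neg]
  refine ⟨?_, ?_, ?_⟩
  · simp only [Wd, dWd, n1, n2, Aa, dAa, map_add, map_smul, ContinuousLinearMap.add_apply,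
      ContinuousLinearMap.smul_apply, smul_eq_mul, a1, a2, h3, c4, d1, hP.nn, d5, d6, d4]
    ring
  · simp only [Wd, dWd, n1, n2, Aa, dAa, map_add, map_smul, ContinuousLinearMap.add_apply,
      ContinuousLinearMap.smul_apply, smul_eq_mul, hxx, h1, a3, c6, a6, d2, c2, c3, c1]
    ring
  · simp only [Wd, dWd, n1, n2, Aa, dAa, map_add, map_smul, ContinuousLinearMap.add_apply,
      ContinuousLinearMap.smul_apply, smul_eq_mul, p1, p2, a5, h2, a4, c7, a7, d3, c8, c9, c5]
    ring

/-- piece `JE-A3` (f): the same for `ξ = J ν` -/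
theorem dxi_con (hH : Hf B J) (hP : Pt B J X ν N) {u : L} (hu : Hz B J X ν u) :
    B (J (N u)) ν = - B (J ν) (N u) ∧ B (J (N u)) X = - B (J ν) u ∧
    B (J (N u)) (J X) = - B (J ν) (J u) := by
  refine ⟨?_, ?_, ?_⟩
  · rw [hH.skew, hH.symm]
  · rw [hH.skew, hP.NJX, hH.skew ν u]
  · rw [hH.inv, hH.inv, hP.NX]

/-- piece `JE-A3` (g): the derivative of `ξ` tested with a tangential horizontal vector -/
theorem dxi_test (hH : Hf B J) (hP : Pt B J X ν N) {lam : ℝ} (hlam : lam ≠ 0) {u v : L}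
    (hv : Hz B J X ν v) :
    B (J (N u)) v = B (J (Tm B J lam X ν N u)) v + lam * B (J u) v := by
  obtain ⟨h1, h2, h3⟩ := hv
  have e1 : B ν v = 0 := by rw [hH.symm]; exact h3
  have e2 : B X v = 0 := by rw [hH.symm]; exact h1
  have e3 := congrArg (fun w => B (J w) v) (N_eq (B := B) (J := J) (X := X) (ν := ν) (N := N) lam u)
  simp only [map_sub, map_add, map_smul, ContinuousLinearMap.sub_apply,
    ContinuousLinearMap.add_apply, ContinuousLinearMap.smul_apply, smul_eq_mul, hH.jj, map_neg,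
    ContinuousLinearMap.neg_apply, e1, e2] at e3
  rw [e3]
  ring

end Pool.Agent.Helper77.JE
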