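import Pool.Agent.Helper77.JE.PtB

/-! # JE: algebra at a point, third part: the trace of the derivative of the field -/

set_option autoImplicit false
set_option linter.unusedSectionVars false
set_option linter.unusedVariables false

namespace Pool.Agent.Helper77.JE

variable {L : Type*} [NormedAddCommGroup L] [NormedSpace ℝ L]
variable {B : L →L[ℝ] L →L[ℝ] ℝ} {J : L →L[ℝ] L} {X ν : L} {N : L →L[ℝ] L}
variable {κ : Type*} [Fintype κ] [DecidableEq κ] {e : Option κ → L}

/-- piece `JE-A5`: Parseval (`comp` with `hz`) -/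
theorem Fr.hz_sum (he : Fr B J X ν e) {w : L} (hw : Hz B J X ν w) :
    ∑ i, B w (e i) • e i = w := by
  obtain ⟨h1, h2, h3⟩ := hw
  have h := he.comp w
  rw [h1, h2, h3] at h
  simp only [zero_smul, neg_zero, sub_zero, zero_add] at h
  exact h.symm

theorem Fr.parseval (hH : Hf B J) (he : Fr B J X ν e) {w : L} (hw : Hz B J X ν w) (u : L) :
    ∑ i, B w (e i) * B u (e i) = B w u := by
  have h := congrArg (fun v => B u v) (he.hz_sum hw)
  simp only [map_sum, map_smul, smul_eq_mul] at h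
  rw [h, hH.symm]

/-- for linear functions -/
theorem Fr.lin (he : Fr B J X ν e) {w : L} (hw : Hz B J X ν w) (f : L → ℝ)
    (hadd : ∀ a b, f (a + b) = f a + f b) (hsmul : ∀ (c : ℝ) (a : L), f (c • a) = c * f a) :
    ∑ i, B w (e i) * f (e i) = f w := by
  let g : L →ₗ[ℝ] ℝ := { toFun := f, map_add' := hadd, map_smul' := hsmul }
  have h := congrArg (fun v => g v) (he.hz_sum hw)
  simp only [map_sum, map_smul, smul_eq_mul] at h
  exact h

/-- sums with the antisymmetric `J`: `∑ B (J (T e_i)) (e_i) = 0`, `∑ B (J e_i) (T e_i) = 0`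
(the second is the negative of the first, `skew`; write `J (e i)`.. as sums: with `t i j = B (T (e i)) (e j)` (symmetric) and
`c i j = B (J (e i)) (e j)` (antisymmetric) both are `± ∑ i j, t i j * c i j = 0`) -/
theorem sum_JT (hH : Hf B J) (hP : Pt B J X ν N) (hxx : B X X = -1) (lam : ℝ)
    (he : Fr B J X ν e) :
    ∑ i, B (J (Tm B J lam X ν N (e i))) (e i) = 0 := by
  have h1 : ∀ i, B (J (Tm B J lam X ν N (e i))) (e i) =
      ∑ k, B (Tm B J lam X ν N (e i)) (e k) * B (J (e k)) (e i) := fun i =>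
    (he.lin (T_hz hH hP hxx lam (he.hz i)) (fun a => B (J a) (e i))
      (fun a b => by simp only [map_add, ContinuousLinearMap.add_apply])
      (fun c a => by simp only [map_smul, ContinuousLinearMap.smul_apply, smul_eq_mul])).symm
  have h2 : ∑ i, B (J (Tm B J lam X ν N (e i))) (e i) =
      ∑ i, ∑ k, B (Tm B J lam X ν N (e i)) (e k) * B (J (e k)) (e i) :=
    Finset.sum_congr rfl fun i _ => h1 i
  have h3 : ∑ i, ∑ k, B (Tm B J lam X ν N (e i)) (e k) * B (J (e k)) (e i) =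
      -∑ i, ∑ k, B (Tm B J lam X ν N (e i)) (e k) * B (J (e k)) (e i) := by
    conv_lhs => rw [Finset.sum_comm]
    rw [← Finset.sum_neg_distrib]
    refine Finset.sum_congr rfl fun i _ => ?_
    rw [← Finset.sum_neg_distrib]
    refine Finset.sum_congr rfl fun k _ => ?_
    rw [T_symm hH hP lam (he.hz k) (he.hz i), hH.skew (e i) (e k), hH.symm (e i) (J (e k))]
    ring
  rw [h2]
  linarith

/-- `∑ B (J (T e_i)) (T e_i)`: each term is zero; `∑ B (J e_i) (e_i)`: too. Trace of `T`: from `tr1`, `N_eq`, `card`. -/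
theorem tr_T (hH : Hf B J) (hP : Pt B J X ν N) {lam m : ℝ} (hlam : lam ≠ 0)
    {N2 : L →L[ℝ] L →L[ℝ] L} (he : Fr B J X ν e) (hJ : Jt B J lam m X ν N N2 e) :
    ∑ i, B (Tm B J lam X ν N (e i)) (e i) = 0 := by
  have h1 : ∀ i, B (Tm B J lam X ν N (e i)) (e i) =
      B (N (e i)) (e i) - lam - lam⁻¹ * (B (J ν) (e i) * B (J ν) (e i)) := by
    intro i
    have h2 : B (J X) (e i) = 0 := by rw [hH.symm]; exact (he.hz i).2.1
    have h3 : B (e i) (e i) = 1 := by rw [he.on, if_pos rfl]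
    rw [Tm_apply]
    simp only [map_sub, map_add, map_smul, ContinuousLinearMap.sub_apply,
      ContinuousLinearMap.add_apply, ContinuousLinearMap.smul_apply, smul_eq_mul]
    rw [h2, h3]
    ring
  have h4 : ∑ i, B (J ν) (e i) * B (J ν) (e i) = 1 := by
    rw [he.parseval hH (hP.hz_xi hH), hH.inv, hP.nn]
  rw [Finset.sum_congr rfl fun i _ => h1 i, Finset.sum_sub_distrib, Finset.sum_sub_distrib,
    ← Finset.mul_sum, h4, hJ.tr1, Finset.sum_const, Finset.card_univ, Fintype.card_option,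
    nsmul_eq_mul]
  push_cast
  rw [hJ.card]
  ring

/-- piece `JE-A6` (α). Proof: `dTQ` with `Q = W`, `Q' = dW (e i)` (constraints: `dW_con`); first part: `cc` moves `W` to the
first slot, `tr2` gives `0`; second part: `Fr.parseval` (`e none = ξ`) and `sum_JT`; third part: `dW_test` and
`∑ T_ii = 0`, antisymmetry (`sum_JT`), `∑ B (T e_i) (e_i) = 0`, `∑ B(ξ, e_i) f(e_i) = f(ξ)`; the two terms linear in `T ξ`
combine because `B (J (T ξ)) W = n1 B p (J T ξ) + n2 B (J p) (J T ξ) - 𝒜 B (T ξ) ξ`. -/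
theorem sum_alpha (hH : Hf B J) (hP : Pt B J X ν N) (hxx : B X X = -1) {lam m : ℝ} (hlam : lam ≠ 0)
    {N2 : L →L[ℝ] L →L[ℝ] L} (he : Fr B J X ν e) (hJ : Jt B J lam m X ν N N2 e) (p : L) :
    ∑ i, B (dTm B J lam X ν (e i) (N (e i)) (N2 (e i)) (Wd B J lam p X ν) +
        Tm B J lam X ν N (dWd B J lam p X ν (e i) (N (e i)))) (e i) =
      ∑ i, (B p (Tm B J lam X ν N (e i)) ^ 2 + B (J p) (Tm B J lam X ν N (e i)) ^ 2) +
      Aa B J lam p X ν * ∑ i, B (Tm B J lam X ν N (e i)) (Tm B J lam X ν N (e i)) -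
      2 * lam⁻¹ * B (J (Tm B J lam X ν N (J ν))) (Wd B J lam p X ν) := by
  have hW : Hz B J X ν (Wd B J lam p X ν) := W_hz hH hP hxx lam p
  have hξ : Hz B J X ν (J ν) := hP.hz_xi hH
  have hTξ : Hz B J X ν (Tm B J lam X ν N (J ν)) := T_hz hH hP hxx lam hξ
  -- the term at one frame vector
  have h1 : ∀ i, B (dTm B J lam X ν (e i) (N (e i)) (N2 (e i)) (Wd B J lam p X ν) +
        Tm B J lam X ν N (dWd B J lam p X ν (e i) (N (e i)))) (e i) =
      (B (N2 (Wd B J lam p X ν) (e i)) (e i) - B (N (Wd B J lam p X ν)) (e i) * B (N ν) (e i)) -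
        lam⁻¹ * (B (J ν) (e i) * B (J (Tm B J lam X ν N (e i))) (Wd B J lam p X ν)) -
        lam⁻¹ * B (J ν) (Wd B J lam p X ν) * B (J (Tm B J lam X ν N (e i))) (e i) +
        ((B p (Tm B J lam X ν N (e i)) ^ 2 + B (J p) (Tm B J lam X ν N (e i)) ^ 2) -
          lam⁻¹ * n2 B J lam p X ν * (B (J ν) (e i) * B p (Tm B J lam X ν N (e i))) +
          lam⁻¹ * n1 B lam p X ν * (B (J ν) (e i) * B (J p) (Tm B J lam X ν N (e i))) +
          (n1 B lam p X ν * B p X + n2 B J lam p X ν * B (J p) X + Aa B J lam p X ν * lam) *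
            B (Tm B J lam X ν N (e i)) (e i) -
          (n2 B J lam p X ν * B p X - n1 B lam p X ν * B (J p) X) *
            B (J (Tm B J lam X ν N (e i))) (e i) +
          Aa B J lam p X ν * B (Tm B J lam X ν N (e i)) (Tm B J lam X ν N (e i)) +
          Aa B J lam p X ν * lam⁻¹ * (B (J ν) (e i) * B (J ν) (Tm B J lam X ν N (e i)))) := by
    intro i
    have hi := he.hz i
    have hTi : Hz B J X ν (Tm B J lam X ν N (e i)) := T_hz hH hP hxx lam hi
    obtain ⟨c1, c2, c3⟩ := dW_con hH hP hxx lam p hi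
    have hsy : B (N (e i)) (Wd B J lam p X ν) = B (N (Wd B J lam p X ν)) (e i) :=
      hP.sy _ _ (by rw [hH.symm]; exact hi.2.2) (by rw [hH.symm]; exact hW.2.2)
    have hd := dW_test hH hP hlam p hi hTi
    have hsk : B (J (e i)) (Tm B J lam X ν N (e i)) = - B (J (Tm B J lam X ν N (e i))) (e i) := by
      rw [hH.skew, hH.symm]
    rw [dTQ hH hP hxx hlam N2 hi hW hi c1 c2 c3, hJ.s2 (e i) (Wd B J lam p X ν), hsy,
      hH.symm (Tm B J lam X ν N (e i)) (dWd B J lam p X ν (e i) (N (e i))), hd, hsk,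
      hH.symm (e i) (Tm B J lam X ν N (e i))]
    ring
  have s1 : ∑ i, (B (N2 (Wd B J lam p X ν) (e i)) (e i) -
      B (N (Wd B J lam p X ν)) (e i) * B (N ν) (e i)) = 0 := hJ.tr2 _ hW
  have s2 : ∑ i, B (J ν) (e i) * B (J (Tm B J lam X ν N (e i))) (Wd B J lam p X ν) =
      B (J (Tm B J lam X ν N (J ν))) (Wd B J lam p X ν) :=
    he.lin hξ (fun a => B (J (Tm B J lam X ν N a)) (Wd B J lam p X ν))
      (fun a b => by simp only [map_add, ContinuousLinearMap.add_apply])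
      (fun c a => by simp only [map_smul, ContinuousLinearMap.smul_apply, smul_eq_mul])
  have s3 : ∑ i, B (J (Tm B J lam X ν N (e i))) (e i) = 0 := sum_JT hH hP hxx lam he
  have s4 : ∑ i, B (J ν) (e i) * B p (Tm B J lam X ν N (e i)) = B p (Tm B J lam X ν N (J ν)) :=
    he.lin hξ (fun a => B p (Tm B J lam X ν N a)) (fun a b => by simp only [map_add])
      (fun c a => by simp only [map_smul, smul_eq_mul])
  have s5 : ∑ i, B (J ν) (e i) * B (J p) (Tm B J lam X ν N (e i)) =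
      B (J p) (Tm B J lam X ν N (J ν)) :=
    he.lin hξ (fun a => B (J p) (Tm B J lam X ν N a)) (fun a b => by simp only [map_add])
      (fun c a => by simp only [map_smul, smul_eq_mul])
  have s6 : ∑ i, B (J ν) (e i) * B (J ν) (Tm B J lam X ν N (e i)) =
      B (J ν) (Tm B J lam X ν N (J ν)) :=
    he.lin hξ (fun a => B (J ν) (Tm B J lam X ν N a)) (fun a b => by simp only [map_add])
      (fun c a => by simp only [map_smul, smul_eq_mul])
  have s7 : ∑ i, B (Tm B J lam X ν N (e i)) (e i) = 0 := tr_T hH hP hlam he hJ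
  have hJW : B (J (Tm B J lam X ν N (J ν))) (Wd B J lam p X ν) =
      n2 B J lam p X ν * B p (Tm B J lam X ν N (J ν)) -
        n1 B lam p X ν * B (J p) (Tm B J lam X ν N (J ν)) -
        Aa B J lam p X ν * B (J ν) (Tm B J lam X ν N (J ν)) := by
    have a1 : B (J (Tm B J lam X ν N (J ν))) p = - B (J p) (Tm B J lam X ν N (J ν)) := by
      rw [hH.skew, hH.symm]
    have a2 : B (J (Tm B J lam X ν N (J ν))) (J p) = B p (Tm B J lam X ν N (J ν)) := by
      rw [hH.inv, hH.symm]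
    have a3 : B (J (Tm B J lam X ν N (J ν))) X = 0 := by
      rw [hH.skew, hTξ.2.1, neg_zero]
    have a4 : B (J (Tm B J lam X ν N (J ν))) (J X) = 0 := by
      rw [hH.inv, hTξ.1]
    have a5 : B (J (Tm B J lam X ν N (J ν))) ν = - B (J ν) (Tm B J lam X ν N (J ν)) := by
      rw [hH.skew, hH.symm]
    unfold Wd
    simp only [map_add, map_smul, smul_eq_mul]
    rw [a1, a2, a3, a4, a5]
    ring
  rw [Finset.sum_congr rfl fun i _ => h1 i]
  simp only [Finset.sum_add_distrib, Finset.sum_sub_distrib, ← Finset.mul_sum]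
  simp only [Finset.sum_sub_distrib] at s1
  rw [s2, s3, s4, s5, s6, s7]
  rw [s1]
  rw [hJW]
  ring

/-- piece `JE-A6` (β). `dTQ` with `Q = ξ`, `Q' = J (N (e i))` (`dxi_con`), `dxi_test`. -/
theorem sum_beta (hH : Hf B J) (hP : Pt B J X ν N) (hxx : B X X = -1) {lam m : ℝ} (hlam : lam ≠ 0)
    {N2 : L →L[ℝ] L →L[ℝ] L} (he : Fr B J X ν e) (hJ : Jt B J lam m X ν N N2 e) :
    ∑ i, B (dTm B J lam X ν (e i) (N (e i)) (N2 (e i)) (J ν) +
        Tm B J lam X ν N (J (N (e i)))) (e i) = 0 := by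
  have hxi : Hz B J X ν (J ν) := hP.hz_xi hH
  have hcon : ∀ i, B (J (N (e i))) ν = - B (J ν) (N (e i)) ∧ B (J (N (e i))) X = - B (J ν) (e i) ∧
      B (J (N (e i))) (J X) = - B (J ν) (J (e i)) := fun i => dxi_con hH hP (he.hz i)
  have hxx1 : B (J ν) (J ν) = 1 := by rw [hH.inv, hP.nn]
  have key : ∀ i, B (dTm B J lam X ν (e i) (N (e i)) (N2 (e i)) (J ν) +
        Tm B J lam X ν N (J (N (e i)))) (e i) =
      (B (N2 (J ν) (e i)) (e i) - B (N (J ν)) (e i) * B (N ν) (e i)) -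
        lam⁻¹ * (B (J ν) (e i) * B (J (Tm B J lam X ν N (e i))) (J ν)) -
        lam⁻¹ * B (J (Tm B J lam X ν N (e i))) (e i) -
        lam * B (J (Tm B J lam X ν N (e i))) (e i) := by
    intro i
    have hT : Hz B J X ν (Tm B J lam X ν N (e i)) := T_hz hH hP hxx lam (he.hz i)
    rw [dTQ hH hP hxx hlam N2 (he.hz i) hxi (he.hz i) (hcon i).1 (hcon i).2.1 (hcon i).2.2]
    have h1 : B (Tm B J lam X ν N (e i)) (J (N (e i))) =
        - (lam * B (J (Tm B J lam X ν N (e i))) (e i)) := by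
      rw [hH.symm, dxi_test hH hP hlam hT, hH.self0, hH.skew (e i), hH.symm (e i)]
      ring
    have h2 : B (N (e i)) (J ν) = B (N (J ν)) (e i) :=
      hP.sy (e i) (J ν) (by rw [hH.symm]; exact (he.hz i).2.2) (by rw [hH.symm]; exact hxi.2.2)
    rw [h1, h2, hxx1, hJ.s2 (e i) (J ν)]
    ring
  rw [Finset.sum_congr rfl (fun i _ => key i), Finset.sum_sub_distrib, Finset.sum_sub_distrib,
    Finset.sum_sub_distrib, hJ.tr2 (J ν) hxi, ← Finset.mul_sum, ← Finset.mul_sum, ← Finset.mul_sum,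
    sum_JT hH hP hxx lam he]
  have hlin := he.lin hxi (fun a => B (J (Tm B J lam X ν N a)) (J ν))
    (fun a b => by simp only [map_add, ContinuousLinearMap.add_apply])
    (fun c a => by simp only [map_smul, ContinuousLinearMap.smul_apply, smul_eq_mul])
  have h0 : B (J (Tm B J lam X ν N (J ν))) (J ν) = 0 := by
    rw [hH.inv]
    exact (T_hz hH hP hxx lam hxi).2.2
  rw [hlin, h0]
  ring

/-- piece `JE-A6` (ε) -/
theorem sum_eps (hH : Hf B J) (hP : Pt B J X ν N) (hxx : B X X = -1) {lam : ℝ} (hlam : lam ≠ 0)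
    (he : Fr B J X ν e) : ∑ i, B (J (N (e i))) (e i) = 0 := by
  have key : ∀ i, B (J (N (e i))) (e i) = B (J (Tm B J lam X ν N (e i))) (e i) := by
    intro i
    rw [dxi_test hH hP hlam (he.hz i), hH.self0]
    ring
  rw [Finset.sum_congr rfl (fun i _ => key i), sum_JT hH hP hxx lam he]

/-- piece `JE-A6` (γ1). `dTQ` with `u = Q = ξ`, `e = W` minus `dTQ` with `u = W`, `Q = e = ξ`; the terms with `cc` cancel
(`cc`, `s2`, `Pt.sy`); `B (J (T ξ)) ξ = 0 = B (J (T W)) ξ` (`skew`, `jj`, `T_hz`); `dxi_test`. -/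
theorem gamma1 (hH : Hf B J) (hP : Pt B J X ν N) (hxx : B X X = -1) {lam m : ℝ} (hlam : lam ≠ 0)
    {N2 : L →L[ℝ] L →L[ℝ] L} (he : Fr B J X ν e) (hJ : Jt B J lam m X ν N N2 e) {W : L}
    (hW : Hz B J X ν W) :
    B (dTm B J lam X ν (J ν) (N (J ν)) (N2 (J ν)) (J ν) + Tm B J lam X ν N (J (N (J ν)))) W -
      (B (dTm B J lam X ν W (N W) (N2 W) (J ν) + Tm B J lam X ν N (J (N W))) (J ν) +
        B (Tm B J lam X ν N (J ν)) (J (N W))) =
      -(lam⁻¹) * B (J (Tm B J lam X ν N (J ν))) W +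
        3 * B (J (Tm B J lam X ν N (J ν))) (Tm B J lam X ν N W) +
        2 * lam * B (J (Tm B J lam X ν N (J ν))) W := by
  have hxi : Hz B J X ν (J ν) := hP.hz_xi hH
  have hTx : Hz B J X ν (Tm B J lam X ν N (J ν)) := T_hz hH hP hxx lam hxi
  have hTW : Hz B J X ν (Tm B J lam X ν N W) := T_hz hH hP hxx lam hW
  obtain ⟨c1, c2, c3⟩ := dxi_con hH hP hxi
  obtain ⟨d1, d2, d3⟩ := dxi_con hH hP hW
  rw [dTQ hH hP hxx hlam N2 hxi hxi hW c1 c2 c3, dTQ hH hP hxx hlam N2 hW hxi hxi d1 d2 d3]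
  have e1 := hJ.cc (J ν) (J ν) W hxi hxi hW
  have e2 : N2 (J ν) W = N2 W (J ν) := hJ.s2 _ _
  have e3 : B (N (J ν)) W = B (N W) (J ν) :=
    hP.sy _ _ (by rw [hH.symm]; exact hxi.2.2) (by rw [hH.symm]; exact hW.2.2)
  have e4 : B (J ν) (J ν) = 1 := by rw [hH.inv, hP.nn]
  have e5 : B (J (Tm B J lam X ν N (J ν))) (J ν) = 0 := by rw [hH.inv]; exact hTx.2.2
  have e6 : B (J (Tm B J lam X ν N W)) (J ν) = 0 := by rw [hH.inv]; exact hTW.2.2
  have e7 : B (J (N (J ν))) (Tm B J lam X ν N W) =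
      B (J (Tm B J lam X ν N (J ν))) (Tm B J lam X ν N W) +
        lam * B (J (J ν)) (Tm B J lam X ν N W) := dxi_test hH hP hlam hTW
  have e8 : B (J (J ν)) (Tm B J lam X ν N W) = 0 := by
    rw [hH.skew, hH.inv, hH.symm, hTW.2.2, neg_zero]
  have e9 : B (J (N W)) (Tm B J lam X ν N (J ν)) =
      B (J (Tm B J lam X ν N W)) (Tm B J lam X ν N (J ν)) +
        lam * B (J W) (Tm B J lam X ν N (J ν)) := dxi_test hH hP hlam hTx
  have e10 : B (J (Tm B J lam X ν N W)) (Tm B J lam X ν N (J ν)) =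
      -B (J (Tm B J lam X ν N (J ν))) (Tm B J lam X ν N W) := by
    rw [hH.skew, hH.symm]
  have e11 : B (J W) (Tm B J lam X ν N (J ν)) = -B (J (Tm B J lam X ν N (J ν))) W := by
    rw [hH.skew, hH.symm]
  have e12 : B (Tm B J lam X ν N W) (J (N (J ν))) =
      B (J (N (J ν))) (Tm B J lam X ν N W) := hH.symm _ _
  have e13 : B (Tm B J lam X ν N (J ν)) (J (N W)) =
      B (J (N W)) (Tm B J lam X ν N (J ν)) := hH.symm _ _
  rw [e12, e13, e7, e8, e9, e10, e11, e4, e5, e6]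
  rw [e2, e3] at e1
  rw [e1]
  ring

/-- piece `JE-A6` (γ2): `dW_test` with `u = ξ`, `v = T ξ` -/
theorem gamma2 (hH : Hf B J) (hP : Pt B J X ν N) (hxx : B X X = -1) {lam : ℝ} (hlam : lam ≠ 0)
    (p : L) :
    B (Tm B J lam X ν N (J ν)) (dWd B J lam p X ν (J ν) (N (J ν))) =
      (B p (Tm B J lam X ν N (J ν)) ^ 2 + B (J p) (Tm B J lam X ν N (J ν)) ^ 2) +
      lam⁻¹ * (n1 B lam p X ν * B (J p) (Tm B J lam X ν N (J ν)) -
        n2 B J lam p X ν * B p (Tm B J lam X ν N (J ν))) +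
      (n1 B lam p X ν * B p X + n2 B J lam p X ν * B (J p) X) *
        B (Tm B J lam X ν N (J ν)) (J ν) +
      Aa B J lam p X ν * (B (Tm B J lam X ν N (J ν)) (Tm B J lam X ν N (J ν)) +
        (lam + lam⁻¹) * B (Tm B J lam X ν N (J ν)) (J ν)) := by
  have hxi : Hz B J X ν (J ν) := hP.hz_xi hH
  have hTx : Hz B J X ν (Tm B J lam X ν N (J ν)) := T_hz hH hP hxx lam hxi
  have e1 : B (J ν) (J ν) = 1 := by rw [hH.inv, hP.nn]
  have e2 : B (J (J ν)) (Tm B J lam X ν N (J ν)) = 0 := by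
    rw [hH.skew, hH.inv, hH.symm, hTx.2.2, neg_zero]
  have e3 : B (J ν) (Tm B J lam X ν N (J ν)) = B (Tm B J lam X ν N (J ν)) (J ν) := hH.symm _ _
  rw [hH.symm (Tm B J lam X ν N (J ν)) (dWd B J lam p X ν (J ν) (N (J ν))),
    dW_test hH hP hlam p hxi hTx, e1, e2, e3]
  ring

/-- piece `JE-A6` (γ3): `dW_test` with `u = v = e i`, summed -/
theorem gamma3 (hH : Hf B J) (hP : Pt B J X ν N) (hxx : B X X = -1) {lam m : ℝ} (hlam : lam ≠ 0)
    {N2 : L →L[ℝ] L →L[ℝ] L} (he : Fr B J X ν e) (hJ : Jt B J lam m X ν N N2 e) (p : L) :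
    ∑ i, B (dWd B J lam p X ν (e i) (N (e i))) (e i) =
      ∑ i, (B p (Tm B J lam X ν N (e i)) * B p (e i) +
        B (J p) (Tm B J lam X ν N (e i)) * B (J p) (e i)) +
      lam⁻¹ * (n1 B lam p X ν * B (J p) (J ν) - n2 B J lam p X ν * B p (J ν)) +
      (m + 1) * (n1 B lam p X ν * B p X + n2 B J lam p X ν * B (J p) X) +
      Aa B J lam p X ν * ((m + 1) * lam + lam⁻¹) := by
  have hxi : Hz B J X ν (J ν) := hP.hz_xi hH
  have key : ∀ i, B (dWd B J lam p X ν (e i) (N (e i))) (e i) =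
      (B p (Tm B J lam X ν N (e i)) * B p (e i) +
        B (J p) (Tm B J lam X ν N (e i)) * B (J p) (e i)) -
      lam⁻¹ * n2 B J lam p X ν * (B (J ν) (e i) * B p (e i)) +
      lam⁻¹ * n1 B lam p X ν * (B (J ν) (e i) * B (J p) (e i)) +
      (n1 B lam p X ν * B p X + n2 B J lam p X ν * B (J p) X + Aa B J lam p X ν * lam) *
        B (e i) (e i) +
      Aa B J lam p X ν * B (Tm B J lam X ν N (e i)) (e i) +
      Aa B J lam p X ν * lam⁻¹ * (B (J ν) (e i) * B (J ν) (e i)) := by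
    intro i
    rw [dW_test hH hP hlam p (he.hz i) (he.hz i), hH.self0]
    ring
  have s1 : ∑ i, B (J ν) (e i) * B p (e i) = B p (J ν) :=
    he.lin hxi (fun a => B p a) (fun a b => by simp only [map_add])
      (fun c a => by simp only [map_smul, smul_eq_mul])
  have s2 : ∑ i, B (J ν) (e i) * B (J p) (e i) = B (J p) (J ν) :=
    he.lin hxi (fun a => B (J p) a) (fun a b => by simp only [map_add])
      (fun c a => by simp only [map_smul, smul_eq_mul])
  have s3 : ∑ i, B (J ν) (e i) * B (J ν) (e i) = 1 := by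
    rw [he.lin hxi (fun a => B (J ν) a) (fun a b => by simp only [map_add])
      (fun c a => by simp only [map_smul, smul_eq_mul]), hH.inv, hP.nn]
  have s4 : ∑ i, B (e i) (e i) = m + 1 := by
    have h : ∀ i, B (e i) (e i) = 1 := fun i => by rw [he.on, if_pos rfl]
    rw [Finset.sum_congr rfl fun i _ => h i, Finset.sum_const, Finset.card_univ,
      Fintype.card_option, nsmul_eq_mul, mul_one, Nat.cast_add, Nat.cast_one, hJ.card]
  have s5 : ∑ i, B (Tm B J lam X ν N (e i)) (e i) = 0 := tr_T hH hP hlam he hJ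
  rw [Finset.sum_congr rfl fun i _ => key i]
  simp only [Finset.sum_add_distrib, Finset.sum_sub_distrib, ← Finset.mul_sum]
  rw [s1, s2, s3, s4, s5]
  ring

/-- piece `JE-A6` (δ): `dkp` in the direction `T ξ` (`N_eq` with `Q = T ξ`, `B (J ν) (T ξ)`) -/
theorem delta1 (hH : Hf B J) (hP : Pt B J X ν N) (hxx : B X X = -1) {lam : ℝ} (hlam : lam ≠ 0)
    (p : L) :
    dkp B J p X ν (Tm B J lam X ν N (J ν)) (N (Tm B J lam X ν N (J ν))) =
      (B p (Tm B J lam X ν N (J ν)) * B (J p) ν - B (J p) (Tm B J lam X ν N (J ν)) * B p ν) +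
      (B p X * B (J p) (Tm B J lam X ν N (Tm B J lam X ν N (J ν))) -
        B (J p) X * B p (Tm B J lam X ν N (Tm B J lam X ν N (J ν)))) +
      lam * (B p X * B (J p) (Tm B J lam X ν N (J ν)) -
        B (J p) X * B p (Tm B J lam X ν N (J ν))) +
      B (Tm B J lam X ν N (J ν)) (J ν) *
        (lam⁻¹ * (B p X * B p ν + B (J p) X * B (J p) ν) - (B p X ^ 2 + B (J p) X ^ 2)) := by
  have e1 : B (J p) (J ν) = B p ν := hH.inv p ν
  have e2 : B p (J ν) = -B (J p) ν := by rw [hH.skew, neg_neg]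
  have e3 : B (J p) (J X) = B p X := hH.inv p X
  have e4 : B p (J X) = -B (J p) X := by rw [hH.skew, neg_neg]
  have e5 : B (J ν) (Tm B J lam X ν N (J ν)) = B (Tm B J lam X ν N (J ν)) (J ν) := hH.symm _ _
  have e6 := N_eq (B := B) (J := J) (X := X) (ν := ν) (N := N) lam (Tm B J lam X ν N (J ν))
  have e7 : B (J p) (N (Tm B J lam X ν N (J ν))) =
      B (J p) (Tm B J lam X ν N (Tm B J lam X ν N (J ν))) +
        lam * B (J p) (Tm B J lam X ν N (J ν)) +
        lam⁻¹ * B (Tm B J lam X ν N (J ν)) (J ν) * B p ν -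
        B (Tm B J lam X ν N (J ν)) (J ν) * B p X := by
    rw [e6]
    simp only [map_sub, map_add, map_smul, smul_eq_mul]
    rw [e1, e3, e5]
  have e8 : B p (N (Tm B J lam X ν N (J ν))) =
      B p (Tm B J lam X ν N (Tm B J lam X ν N (J ν))) +
        lam * B p (Tm B J lam X ν N (J ν)) -
        lam⁻¹ * B (Tm B J lam X ν N (J ν)) (J ν) * B (J p) ν +
        B (Tm B J lam X ν N (J ν)) (J ν) * B (J p) X := by
    rw [e6]
    simp only [map_sub, map_add, map_smul, smul_eq_mul]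
    rw [e2, e4, e5]
    ring
  unfold dkp
  rw [e7, e8]
  ring

private theorem s7_dTm (lam : ℝ) (x dx dν : L) (dS : L →L[ℝ] L) (Q : L) :
    dTm B J lam x ν dx dν dS Q = dS Q + B (J dν) Q • J x + B (J ν) Q • J dx -
      lam⁻¹ • (B (J dν) Q • J ν + B (J ν) Q • J dν) := by
  simp [dTm]

private theorem s7_dTm_add (lam : ℝ) (x : L) (N2 : L →L[ℝ] L →L[ℝ] L) (a b Q : L) :
    dTm B J lam x ν (a + b) (N (a + b)) (N2 (a + b)) Q =
      dTm B J lam x ν a (N a) (N2 a) Q + dTm B J lam x ν b (N b) (N2 b) Q := by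
  rw [s7_dTm, s7_dTm, s7_dTm]
  simp only [map_add, ContinuousLinearMap.add_apply]
  module

private theorem s7_dTm_smul (lam : ℝ) (x : L) (N2 : L →L[ℝ] L →L[ℝ] L) (c : ℝ) (a Q : L) :
    dTm B J lam x ν (c • a) (N (c • a)) (N2 (c • a)) Q =
      c • dTm B J lam x ν a (N a) (N2 a) Q := by
  rw [s7_dTm, s7_dTm]
  simp only [map_smul, ContinuousLinearMap.smul_apply, smul_eq_mul]
  module

private theorem s7_dWd_add (lam : ℝ) (p a b : L) :
    dWd B J lam p X ν (a + b) (N (a + b)) =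
      dWd B J lam p X ν a (N a) + dWd B J lam p X ν b (N b) := by
  simp only [dWd, n1, n2, dAa, map_add]
  module

private theorem s7_dWd_smul (lam : ℝ) (p : L) (c : ℝ) (a : L) :
    dWd B J lam p X ν (c • a) (N (c • a)) = c • dWd B J lam p X ν a (N a) := by
  simp only [dWd, n1, n2, dAa, map_smul, smul_eq_mul]
  module

private theorem s7_dkp_add (p a b : L) :
    dkp B J p X ν (a + b) (N (a + b)) =
      dkp B J p X ν a (N a) + dkp B J p X ν b (N b) := by
  simp only [dkp, map_add]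
  ring

private theorem s7_dkp_smul (p : L) (c : ℝ) (a : L) :
    dkp B J p X ν (c • a) (N (c • a)) = c * dkp B J p X ν a (N a) := by
  simp only [dkp, map_smul, smul_eq_mul]
  ring

/-- piece `JE-A7`: the trace of `dV2` in terms of the sums above. Expand `dV2`, distribute (`Finset.sum_add_distrib`, ..);
`∑ f (e i) * B ξ (e i) = f ξ` and `∑ f (e i) * B W (e i) = f W` for the linear `f` (`Fr.lin`; `dTm`, `dWd`, `dkp` are linear in
`u`), `∑ B (T ξ) (e i) * dkp (e i) = dkp (T ξ)`. -/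
theorem sum_dV2 (hH : Hf B J) (hP : Pt B J X ν N) (hxx : B X X = -1) {lam m : ℝ} (hlam : lam ≠ 0)
    {N2 : L →L[ℝ] L →L[ℝ] L} (he : Fr B J X ν e) (hJ : Jt B J lam m X ν N N2 e) (p : L) :
    ∑ i, B (dV2 B J lam m p X ν N (e i) (N (e i)) (N2 (e i))) (e i) =
      N0 lam m * ∑ i, B (dTm B J lam X ν (e i) (N (e i)) (N2 (e i)) (Wd B J lam p X ν) +
        Tm B J lam X ν N (dWd B J lam p X ν (e i) (N (e i)))) (e i) +
      (B (dTm B J lam X ν (J ν) (N (J ν)) (N2 (J ν)) (J ν) + Tm B J lam X ν N (J (N (J ν))))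
          (Wd B J lam p X ν) +
        B (Tm B J lam X ν N (J ν)) (dWd B J lam p X ν (J ν) (N (J ν)))) +
      B (Tm B J lam X ν N (J ν)) (Wd B J lam p X ν) * ∑ i, B (J (N (e i))) (e i) -
      (B (dTm B J lam X ν (Wd B J lam p X ν) (N (Wd B J lam p X ν)) (N2 (Wd B J lam p X ν)) (J ν) +
          Tm B J lam X ν N (J (N (Wd B J lam p X ν)))) (J ν) +
        B (Tm B J lam X ν N (J ν)) (J (N (Wd B J lam p X ν)))) -
      B (Tm B J lam X ν N (J ν)) (J ν) * ∑ i, B (dWd B J lam p X ν (e i) (N (e i))) (e i) +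
      m * lam * dkp B J p X ν (Tm B J lam X ν N (J ν)) (N (Tm B J lam X ν N (J ν))) +
      m * lam * kp B J p X ν *
        ∑ i, B (dTm B J lam X ν (e i) (N (e i)) (N2 (e i)) (J ν) +
          Tm B J lam X ν N (J (N (e i)))) (e i) := by
  have hξ : Hz B J X ν (J ν) := hP.hz_xi hH
  have hT : Hz B J X ν (Tm B J lam X ν N (J ν)) := T_hz hH hP hxx lam hξ
  have hW : Hz B J X ν (Wd B J lam p X ν) := W_hz hH hP hxx lam p
  have f1 := he.lin hξ (fun u => B (dTm B J lam X ν u (N u) (N2 u) (J ν) +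
      Tm B J lam X ν N (J (N u))) (Wd B J lam p X ν) +
      B (Tm B J lam X ν N (J ν)) (dWd B J lam p X ν u (N u)))
    (by
      intro a b
      simp only [s7_dTm_add, s7_dWd_add]
      simp only [map_add, ContinuousLinearMap.add_apply]
      ring)
    (by
      intro c a
      simp only [s7_dTm_smul, s7_dWd_smul]
      simp only [map_add, map_smul, ContinuousLinearMap.add_apply,
        ContinuousLinearMap.smul_apply, smul_eq_mul]
      ring)
  have f2 := he.lin hW (fun u => B (dTm B J lam X ν u (N u) (N2 u) (J ν) +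
      Tm B J lam X ν N (J (N u))) (J ν) +
      B (Tm B J lam X ν N (J ν)) (J (N u)))
    (by
      intro a b
      simp only [s7_dTm_add]
      simp only [map_add, ContinuousLinearMap.add_apply]
      ring)
    (by
      intro c a
      simp only [s7_dTm_smul]
      simp only [map_add, map_smul, ContinuousLinearMap.add_apply,
        ContinuousLinearMap.smul_apply, smul_eq_mul]
      ring)
  have f3 := he.lin hT (fun u => dkp B J p X ν u (N u))
    (fun a b => s7_dkp_add p a b) (fun c a => s7_dkp_smul p c a)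
  rw [← f1, ← f2, ← f3]
  simp only [Finset.mul_sum, ← Finset.sum_add_distrib, ← Finset.sum_sub_distrib]
  refine Finset.sum_congr rfl fun i _ => ?_
  simp only [dV2, map_add, map_sub, map_smul, ContinuousLinearMap.add_apply,
    ContinuousLinearMap.sub_apply, ContinuousLinearMap.smul_apply, smul_eq_mul]
  ring

/-- piece `JE-A8`: the pointwise identity, not split. Insert (α), (β), (ε), (γ1)-(γ3), (δ) in `sum_dV2`; what remains is a
polynomial identity in `a1 = B p (T ξ)`, `a2 = B (J p) (T ξ)`, `τ = B (T ξ) ξ`, `z`, `ζ`, `lam`, `m` (`B (J (T ξ)) W` is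
`W_test` up to the `ν` component: `B (J (T ξ)) W = n1 B p (J T ξ) + n2 B (J p) (J T ξ) - 𝒜 τ`). -/
theorem point_id (hH : Hf B J) (hP : Pt B J X ν N) (hxx : B X X = -1) {lam m : ℝ} (hlam : lam ≠ 0)
    {N2 : L →L[ℝ] L →L[ℝ] L} (he : Fr B J X ν e) (hJ : Jt B J lam m X ν N N2 e) (p : L) :
    ∑ i, B (dV2 B J lam m p X ν N (e i) (N (e i)) (N2 (e i))) (e i) =
      N0 lam m * (∑ i, (B p (Tm B J lam X ν N (e i)) ^ 2 + B (J p) (Tm B J lam X ν N (e i)) ^ 2) +
        Aa B J lam p X ν * ∑ i, B (Tm B J lam X ν N (e i)) (Tm B J lam X ν N (e i))) +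
      3 * B (J (Tm B J lam X ν N (J ν))) (Tm B J lam X ν N (Wd B J lam p X ν)) +
      (B p (Tm B J lam X ν N (J ν)) ^ 2 + B (J p) (Tm B J lam X ν N (J ν)) ^ 2) +
      Aa B J lam p X ν * B (Tm B J lam X ν N (J ν)) (Tm B J lam X ν N (J ν)) -
      B (Tm B J lam X ν N (J ν)) (J ν) *
        ∑ i, (B p (Tm B J lam X ν N (e i)) * B p (e i) +
          B (J p) (Tm B J lam X ν N (e i)) * B (J p) (e i)) +
      m * lam * (B p X * B (J p) (Tm B J lam X ν N (Tm B J lam X ν N (J ν))) -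
        B (J p) X * B p (Tm B J lam X ν N (Tm B J lam X ν N (J ν)))) := by
  have g1 := gamma1 hH hP hxx hlam he hJ (W_hz hH hP hxx lam p)
  have hT := T_hz hH hP hxx lam (hP.hz_xi hH)
  have hW : B (J (Tm B J lam X ν N (J ν))) (Wd B J lam p X ν) =
      -(n1 B lam p X ν * B (J p) (Tm B J lam X ν N (J ν))) +
        n2 B J lam p X ν * B p (Tm B J lam X ν N (J ν)) -
        Aa B J lam p X ν * B (Tm B J lam X ν N (J ν)) (J ν) := by
    have e1 : B (J (Tm B J lam X ν N (J ν))) p = -B (J p) (Tm B J lam X ν N (J ν)) := by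
      rw [hH.skew, hH.symm (J p)]
    have e2 : B (J (Tm B J lam X ν N (J ν))) (J p) = B p (Tm B J lam X ν N (J ν)) := by
      rw [hH.inv, hH.symm]
    have e3 : B (J (Tm B J lam X ν N (J ν))) X = 0 := by
      rw [hH.skew, hT.2.1, neg_zero]
    have e4 : B (J (Tm B J lam X ν N (J ν))) (J X) = 0 := by
      rw [hH.inv, hT.1]
    have e5 : B (J (Tm B J lam X ν N (J ν))) ν = -B (Tm B J lam X ν N (J ν)) (J ν) :=
      hH.skew _ _
    simp only [Wd, map_add, map_smul, smul_eq_mul]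
    rw [e1, e2, e3, e4, e5]
    ring
  have e6 : B (J p) (J ν) = B p ν := hH.inv p ν
  have e7 : B p (J ν) = -B (J p) ν := by
    have := hH.skew p ν
    linarith
  have hl : lam * lam⁻¹ = 1 := mul_inv_cancel₀ hlam
  rw [sum_dV2 hH hP hxx hlam he hJ p, sum_alpha hH hP hxx hlam he hJ p,
    sum_eps hH hP hxx hlam he, sum_beta hH hP hxx hlam he hJ, gamma3 hH hP hxx hlam he hJ p,
    delta1 hH hP hxx hlam p, gamma2 hH hP hxx hlam p]
  rw [hW] at g1 ⊢
  rw [e6, e7]
  unfold N0 n1 n2 Aa at *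
  linear_combination g1 + (-((m + 2) * lam * (-((B p ν - lam * B p X) *
        B (J p) (Tm B J lam X ν N (J ν))) +
      (B (J p) ν - lam * B (J p) X) * B p (Tm B J lam X ν N (J ν)) -
      (lam * (B p X * B p ν + B (J p) X * B (J p) ν) - (B p ν ^ 2 + B (J p) ν ^ 2)) *
        B (Tm B J lam X ν N (J ν)) (J ν))) +
    m * B (Tm B J lam X ν N (J ν)) (J ν) * (B p X * B p ν + B (J p) X * B (J p) ν)) * hl

end Pool.Agent.Helper77.JE
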